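import Pool.Agent.Helper61.W.Fu

set_option autoImplicit false

/-!
# Smooth kernels and shifts
-/

namespace Pool.Agent.Helper61.W

open Filter Topology Set MeasureTheory

variable {f g h p : ℝ → ℝ}

lemma Au_lip (h : T1 f) : ∃ L : ℝ, 0 ≤ L ∧ ∀ v w, |Au f v - Au f w| ≤ L * |v - w| := by
  obtain ⟨K, hK0, hK⟩ := h.lip
  obtain ⟨M, hM0, hM⟩ := h.bd
  have hc := h.cont
  refine ⟨2 * (M * K), by positivity, fun v w => ?_⟩
  have j1 : Integrable (fun s => f s * f (s - v)) mu1 := integrable_cont (by fun_prop)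
  have j2 : Integrable (fun s => f s * f (s - w)) mu1 := integrable_cont (by fun_prop)
  rw [Au_eq_mu1 h, Au_eq_mu1 h, ← integral_sub j1 j2]
  have := norm_integral_le_of_norm_le_const (μ := mu1)
    (f := fun s => f s * f (s - v) - f s * f (s - w)) (C := M * (K * |v - w|)) (by
      refine Eventually.of_forall fun s => ?_
      rw [Real.norm_eq_abs, ← mul_sub, abs_mul]
      have h1 := hK (s - v) (s - w)
      have e : |(s - v) - (s - w)| = |v - w| := by
        rw [abs_sub_comm v w]
        congr 1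
        ring
      rw [e] at h1
      exact mul_le_mul (hM s) h1 (abs_nonneg _) hM0)
  rw [mu1_real_univ, Real.norm_eq_abs] at this
  linarith

lemma Au_cont (h : T1 f) : Continuous (Au f) := by
  obtain ⟨L, hL0, hL⟩ := Au_lip h
  have : LipschitzWith ⟨L, hL0⟩ (Au f) := by
    apply LipschitzWith.of_dist_le_mul
    intro v w
    rw [Real.dist_eq, Real.dist_eq]
    exact hL v w
  exact this.continuous

lemma Au_van (h : T1 f) {v : ℝ} (hv : 2 ≤ v) : Au f v = 0 := by
  unfold Au
  have : ∀ s, f s * f (s - v) = 0 := by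
    intro s
    by_cases hs : 1 ≤ |s|
    · rw [h.van s hs, zero_mul]
    · push Not at hs
      rw [h.van (s - v), mul_zero]
      rw [abs_of_neg (by linarith [(abs_lt.mp hs).2])]
      linarith [(abs_lt.mp hs).2]
  simp_rw [this]
  simp

/-- the integral operator with kernel `m |s - t|` -/
noncomputable def Mop (m g : ℝ → ℝ) (s : ℝ) : ℝ := ∫ t, g t * m |s - t| ∂mu1

lemma inner_C (h : T1 f) {m : ℝ → ℝ} (hm : Continuous m) {s : ℝ} (hs : s ∈ Icc (-1 : ℝ) 1) :
    ∫ v in (0 : ℝ)..2, (f (s - v) + f (s + v)) * m v = Mop m f s := by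
  have hc := h.cont
  have c1 : Continuous fun v => f (s - v) * m v := by fun_prop
  have c2 : Continuous fun v => f (s + v) * m v := by fun_prop
  have hp1 : 0 ≤ 1 + s := by linarith [hs.1]
  have hp2 : 0 ≤ 1 - s := by linarith [hs.2]
  have e0 : ∫ v in (0 : ℝ)..2, (f (s - v) + f (s + v)) * m v =
      (∫ v in (0 : ℝ)..2, f (s - v) * m v) + ∫ v in (0 : ℝ)..2, f (s + v) * m v := by
    rw [← intervalIntegral.integral_add (c1.intervalIntegrable _ _) (c2.intervalIntegrable _ _)]
    congr 1
    funext v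
    ring
  rw [e0, ← intervalIntegral.integral_add_adjacent_intervals (c1.intervalIntegrable 0 (1 + s))
      (c1.intervalIntegrable (1 + s) 2),
    ← intervalIntegral.integral_add_adjacent_intervals (c2.intervalIntegrable 0 (1 - s))
      (c2.intervalIntegrable (1 - s) 2)]
  have e1 : ∫ v in (0 : ℝ)..(1 + s), f (s - v) * m v = ∫ t in (-1 : ℝ)..s, f t * m |s - t| := by
    have := intervalIntegral.integral_comp_sub_left (a := 0) (b := 1 + s)
      (fun t => f t * m |s - t|) s
    rw [sub_zero, show s - (1 + s) = -1 by ring] at this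
    rw [← this]
    apply intervalIntegral.integral_congr_ae
    refine Eventually.of_forall fun v hv => ?_
    rw [uIoc_of_le hp1] at hv
    rw [sub_sub_cancel, abs_of_pos hv.1]
  have e2 : ∫ v in (0 : ℝ)..(1 - s), f (s + v) * m v = ∫ t in s..(1 : ℝ), f t * m |s - t| := by
    have := intervalIntegral.integral_comp_add_left (a := 0) (b := 1 - s)
      (fun t => f t * m |s - t|) s
    rw [add_zero, show s + (1 - s) = 1 by ring] at this
    rw [← this]
    apply intervalIntegral.integral_congr_ae
    refine Eventually.of_forall fun v hv => ?_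
    rw [uIoc_of_le hp2] at hv
    rw [sub_add_cancel_left, abs_neg, abs_of_pos hv.1]
  have e3 : ∫ v in (1 + s)..(2 : ℝ), f (s - v) * m v = 0 := by
    rw [show (0 : ℝ) = ∫ v in (1 + s)..(2 : ℝ), (0 : ℝ) by simp]
    apply intervalIntegral.integral_congr_ae
    refine Eventually.of_forall fun v hv => ?_
    rw [uIoc_of_le (by linarith [hs.2])] at hv
    rw [h.van (s - v), zero_mul]
    rw [abs_of_neg (by linarith [hv.1])]
    linarith [hv.1]
  have e4 : ∫ v in (1 - s)..(2 : ℝ), f (s + v) * m v = 0 := by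
    rw [show (0 : ℝ) = ∫ v in (1 - s)..(2 : ℝ), (0 : ℝ) by simp]
    apply intervalIntegral.integral_congr_ae
    refine Eventually.of_forall fun v hv => ?_
    rw [uIoc_of_le (by linarith [hs.1])] at hv
    rw [h.van (s + v), zero_mul]
    rw [abs_of_pos (by linarith [hv.1])]
    linarith [hv.1]
  have c3 : Continuous fun t => f t * m |s - t| := by fun_prop
  rw [e1, e2, e3, e4, add_zero, add_zero]
  unfold Mop
  rw [int_mu1, intervalIntegral.integral_add_adjacent_intervals (c3.intervalIntegrable _ _)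
    (c3.intervalIntegrable _ _)]

lemma fact_C (h : T1 f) {m : ℝ → ℝ} (hm : Continuous m) :
    ∫ v in (0 : ℝ)..2, Au f v * m v = 1 / 2 * ip f (Mop m f) := by
  have hc := h.cont
  obtain ⟨M, hM0, hM⟩ := h.bd
  obtain ⟨B, hB⟩ := isCompact_Icc.exists_bound_of_continuousOn (s := Icc (0 : ℝ) 2)
    (f := m) hm.continuousOn
  set k : ℝ × ℝ → ℝ := fun z => f z.1 * ((f (z.1 - z.2) + f (z.1 + z.2)) * m z.2) with hk
  have ik : Integrable k (mu1.prod nu) := by
    refine integrable_mn (C := M * ((M + M) * B)) (by rw [hk]; fun_prop) fun s hs v hv => ?_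
    simp only [hk]
    rw [abs_mul, abs_mul]
    have h1 : |f (s - v) + f (s + v)| ≤ M + M := (abs_add_le _ _).trans (add_le_add (hM _) (hM _))
    have h2 : |m v| ≤ B := hB v ⟨hv.1.le, hv.2⟩
    exact mul_le_mul (hM s) (mul_le_mul h1 h2 (abs_nonneg _) (by linarith))
      (mul_nonneg (abs_nonneg _) (abs_nonneg _)) hM0
  have e1 : ∫ v, ∫ s, k (s, v) ∂mu1 ∂nu = ∫ s, ∫ v, k (s, v) ∂nu ∂mu1 := by
    have := integral_integral_swap (μ := mu1) (ν := nu) (f := fun s v => k (s, v)) ik
    exact this.symm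
  have e2 : ∀ v : ℝ, ∫ s, k (s, v) ∂mu1 = 2 * (Au f v * m v) := by
    intro v
    have j2 : Integrable (fun s => f s * f (s - v)) mu1 := integrable_cont (by fun_prop)
    have j3 : Integrable (fun s => f s * f (s + v)) mu1 := integrable_cont (by fun_prop)
    have e3 : ∀ s, k (s, v) = (f s * f (s - v) + f s * f (s + v)) * m v := by
      intro s
      simp only [hk]
      ring
    simp_rw [e3]
    rw [integral_mul_const, integral_add j2 j3, ← Au_eq_mu1 h, ← Au_eq_mu1' h]
    ring
  have e4 : ∫ v in (0 : ℝ)..2, Au f v * m v = 1 / 2 * ∫ s, ∫ v, k (s, v) ∂nu ∂mu1 := by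
    rw [← e1, ← int_nu]
    simp_rw [e2]
    rw [integral_const_mul]
    ring
  rw [e4]
  congr 1
  unfold ip
  apply integral_congr_ae
  filter_upwards [ae_mem] with s hs
  rw [← inner_C h hm hs, int_nu, ← intervalIntegral.integral_const_mul]

lemma fact_B (h : T1 f) {m κ : ℝ → ℝ} {ε : ℝ} (hm : Continuous m) (hκ : Measurable κ)
    (hle : ∀ v, 0 < v → v ≤ 2 → |κ v - m v| ≤ ε) :
    1 / 2 * ip f (Mop m f) - 2 * ε * Au f 0 ≤ ∫ v in (0 : ℝ)..2, Au f v * κ v := by
  have hA := Au_cont h
  have hAm := hA.measurable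
  have h0 : 0 ≤ Au f 0 := (abs_nonneg _).trans (Au_bound h 0)
  have i1 : IntervalIntegrable (fun v => Au f v * m v) volume 0 2 :=
    (hA.mul hm).intervalIntegrable _ _
  have i2 : IntervalIntegrable (fun v => Au f v * (κ v - m v)) volume 0 2 := by
    have := hm.measurable
    refine ii_bdd (C := Au f 0 * ε) (by norm_num) (by fun_prop) fun v hv hv2 => ?_
    rw [abs_mul]
    exact mul_le_mul (Au_bound h v) (hle v hv hv2) (abs_nonneg _) h0
  have e1 : ∫ v in (0 : ℝ)..2, Au f v * κ v = (∫ v in (0 : ℝ)..2, Au f v * m v) +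
      ∫ v in (0 : ℝ)..2, Au f v * (κ v - m v) := by
    rw [← intervalIntegral.integral_add i1 i2]
    congr 1
    funext v
    ring
  rw [e1, fact_C h hm]
  have := intervalIntegral.norm_integral_le_of_norm_le_const (a := 0) (b := 2)
    (f := fun v => Au f v * (κ v - m v)) (C := Au f 0 * ε) (by
      intro v hv
      rw [uIoc_of_le (by norm_num)] at hv
      rw [Real.norm_eq_abs, abs_mul]
      exact mul_le_mul (Au_bound h v) (hle v hv.1 hv.2) (abs_nonneg _) h0)
  rw [Real.norm_eq_abs, sub_zero, abs_of_pos (by norm_num : (0 : ℝ) < 2)] at this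
  have := (abs_le.mp this).1
  linarith

/-! ### bilinear forms with kernels -/

lemma kern_int {m : ℝ → ℝ} (hm : Continuous m) (hf : Continuous f) (hg : Continuous g) :
    Integrable (fun z : ℝ × ℝ => f z.1 * (g z.2 * m |z.1 - z.2|)) (mu1.prod mu1) := by
  obtain ⟨M, hM⟩ := exists_bd hf
  obtain ⟨M', hM'⟩ := exists_bd hg
  obtain ⟨B, hB⟩ := isCompact_Icc.exists_bound_of_continuousOn (s := Icc (0 : ℝ) 2)
    (f := m) hm.continuousOn
  have h0 : 0 ≤ M := (abs_nonneg _).trans (hM 0 (by norm_num))
  have h0' : 0 ≤ M' := (abs_nonneg _).trans (hM' 0 (by norm_num))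
  refine integrable_bdd2 (C := M * (M' * B)) (by fun_prop) fun s hs t ht => ?_
  simp only
  rw [abs_mul, abs_mul]
  have h2 : |m (|s - t|)| ≤ B := hB _ ⟨abs_nonneg _, abs_sub_le_two hs ht⟩
  exact mul_le_mul (hM s hs) (mul_le_mul (hM' t ht) h2 (abs_nonneg _) h0')
    (mul_nonneg (abs_nonneg _) (abs_nonneg _)) h0

lemma ip_Mop {m : ℝ → ℝ} (hm : Continuous m) (hf : Continuous f) (hg : Continuous g) :
    ip f (Mop m g) = ∫ z : ℝ × ℝ, f z.1 * (g z.2 * m |z.1 - z.2|) ∂(mu1.prod mu1) := by
  rw [integral_prod _ (kern_int hm hf hg)]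
  unfold ip Mop
  congr 1
  funext s
  rw [← integral_const_mul]

lemma ip_Mop_comm {m : ℝ → ℝ} (hm : Continuous m) (hf : Continuous f) (hg : Continuous g) :
    ip f (Mop m g) = ip g (Mop m f) := by
  rw [ip_Mop hm hf hg, ip_Mop hm hg hf]
  rw [← integral_prod_swap (μ := mu1) (ν := mu1) (fun z : ℝ × ℝ => g z.1 * (f z.2 * m |z.1 - z.2|))]
  congr 1
  funext z
  simp only [Prod.fst_swap, Prod.snd_swap]
  rw [abs_sub_comm z.2 z.1]
  ring

lemma ip_Mop_add {m : ℝ → ℝ} (hm : Continuous m) (hp : Continuous p) (hh : Continuous h) :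
    ip (fun s => p s + h s) (Mop m (fun s => p s + h s)) =
      ip p (Mop m p) + 2 * ip h (Mop m p) + ip h (Mop m h) := by
  have e : ip h (Mop m p) + ip p (Mop m h) = 2 * ip h (Mop m p) := by
    rw [ip_Mop_comm hm hp hh]
    ring
  have i1 := kern_int hm hp hp
  have i2 := kern_int hm hh hp
  have i3 := kern_int hm hp hh
  have i4 := kern_int hm hh hh
  have : ip (fun s => p s + h s) (Mop m (fun s => p s + h s)) =
      ip p (Mop m p) + (ip h (Mop m p) + ip p (Mop m h)) + ip h (Mop m h) := by
    have hph : Continuous fun s => p s + h s := hp.add hh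
    rw [ip_Mop hm hph hph, ip_Mop hm hp hp, ip_Mop hm hh hp, ip_Mop hm hp hh,
      ip_Mop hm hh hh]
    have i23 : Integrable (fun z : ℝ × ℝ => h z.1 * (p z.2 * m |z.1 - z.2|) +
      p z.1 * (h z.2 * m |z.1 - z.2|)) (mu1.prod mu1) := i2.add i3
    have i123 : Integrable (fun z : ℝ × ℝ => p z.1 * (p z.2 * m |z.1 - z.2|) +
      (h z.1 * (p z.2 * m |z.1 - z.2|) + p z.1 * (h z.2 * m |z.1 - z.2|))) (mu1.prod mu1) := i1.add i23
    rw [← integral_add i2 i3, ← integral_add i1 i23, ← integral_add i123 i4]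
    congr 1
    funext z
    ring
  rw [this, e]

/-- the kernel form on functions orthogonal to quadratic polynomials -/
lemma ip_Mop_perp {m : ℝ → ℝ} {α β μ : ℝ} (hm : Continuous m) (hh : Continuous h)
    (h0 : ∫ s, h s ∂mu1 = 0) (h1 : ∫ s, h s * s ∂mu1 = 0)
    (hb : ∀ v, 0 ≤ v → v ≤ 2 → |m v - α - β * v ^ 2| ≤ μ) :
    -(2 * μ) * ip h h ≤ ip h (Mop m h) := by
  set δ : ℝ → ℝ := fun v => m v - α - β * v ^ 2 with hδ
  have hδc : Continuous δ := by rw [hδ]; fun_prop
  have hμ : 0 ≤ μ := (abs_nonneg _).trans (hb 0 le_rfl (by norm_num))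
  have j0 : Integrable h mu1 := integrable_cont hh
  have j1 : Integrable (fun t => h t * t) mu1 := integrable_cont (by fun_prop)
  have j2 : Integrable (fun t => h t * t ^ 2) mu1 := integrable_cont (by fun_prop)
  have e2 : ∀ s, Mop m h s = Mop δ h s + β * ∫ t, h t * t ^ 2 ∂mu1 := by
    intro s
    unfold Mop
    have e3 : ∀ t, h t * m |s - t| = h t * δ |s - t| + ((α + β * s ^ 2) * h t +
        (-(2 * β * s)) * (h t * t) + β * (h t * t ^ 2)) := by
      intro t
      simp only [hδ]
      rw [sq_abs]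
      ring
    simp_rw [e3]
    have k1 : Integrable (fun t => h t * δ |s - t|) mu1 := integrable_cont (by fun_prop)
    have k2 : Integrable (fun t => (α + β * s ^ 2) * h t + (-(2 * β * s)) * (h t * t)) mu1 :=
      integrable_cont (by fun_prop)
    have k3 : Integrable (fun t => (α + β * s ^ 2) * h t + (-(2 * β * s)) * (h t * t) +
      β * (h t * t ^ 2)) mu1 := integrable_cont (by fun_prop)
    rw [integral_add k1 k3, integral_add k2 (j2.const_mul β), integral_add (j0.const_mul _)
      (j1.const_mul _), integral_const_mul, integral_const_mul, integral_const_mul, h0, h1]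
    ring
  have j3 : Integrable (fun s => h s * Mop δ h s) mu1 := by
    have := (kern_int hδc hh hh).integral_prod_left
    refine this.congr (Eventually.of_forall fun s => ?_)
    simp only
    rw [integral_const_mul]
    rfl
  have e1 : ip h (Mop m h) = ip h (Mop δ h) := by
    unfold ip
    have e4 : ∀ s, h s * Mop m h s = h s * Mop δ h s + (β * ∫ t, h t * t ^ 2 ∂mu1) * h s := by
      intro s
      rw [e2]
      ring
    simp_rw [e4]
    rw [integral_add j3 (j0.const_mul _), integral_const_mul, h0, mul_zero, add_zero]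
  rw [e1, ip_Mop hδc hh hh]
  have i1 : Integrable (fun z : ℝ × ℝ => (h z.1) ^ 2) (mu1.prod mu1) := by
    obtain ⟨M, hM⟩ := exists_bd hh
    have h0 : 0 ≤ M := (abs_nonneg _).trans (hM 0 (by norm_num))
    refine integrable_bdd2 (C := M ^ 2) (by fun_prop) fun s hs t ht => ?_
    simp only
    rw [abs_pow]
    exact pow_le_pow_left₀ (abs_nonneg _) (hM s hs) 2
  have i2 : Integrable (fun z : ℝ × ℝ => (h z.2) ^ 2) (mu1.prod mu1) := by
    obtain ⟨M, hM⟩ := exists_bd hh
    have h0 : 0 ≤ M := (abs_nonneg _).trans (hM 0 (by norm_num))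
    refine integrable_bdd2 (C := M ^ 2) (by fun_prop) fun s hs t ht => ?_
    simp only
    rw [abs_pow]
    exact pow_le_pow_left₀ (abs_nonneg _) (hM t ht) 2
  have m1 : ∫ s : ℝ, (1 : ℝ) ∂mu1 = 2 := by
    rw [integral_const, mu1_real_univ]
    norm_num
  have hsq : ∫ s, h s ^ 2 ∂mu1 = ip h h := by
    unfold ip
    congr 1
    funext s
    ring
  have e5 : ∫ z : ℝ × ℝ, (h z.1) ^ 2 ∂(mu1.prod mu1) = 2 * ip h h := by
    have := integral_prod_mul (μ := mu1) (ν := mu1) (fun s => h s ^ 2) (fun _ => (1 : ℝ))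
    simp only [mul_one] at this
    rw [this, m1, hsq]
    ring
  have e6 : ∫ z : ℝ × ℝ, (h z.2) ^ 2 ∂(mu1.prod mu1) = 2 * ip h h := by
    have := integral_prod_mul (μ := mu1) (ν := mu1) (fun _ => (1 : ℝ)) (fun s => h s ^ 2)
    simp only [one_mul] at this
    rw [this, m1, hsq]
  have i3 : Integrable (fun z : ℝ × ℝ => -(μ / 2) * ((h z.1) ^ 2 + (h z.2) ^ 2)) (mu1.prod mu1) :=
    (i1.add i2).const_mul _
  have h7 : ∫ z : ℝ × ℝ, -(μ / 2) * ((h z.1) ^ 2 + (h z.2) ^ 2) ∂(mu1.prod mu1) ≤
      ∫ z : ℝ × ℝ, h z.1 * (h z.2 * δ |z.1 - z.2|) ∂(mu1.prod mu1) := by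
    apply integral_mono_ae i3 (kern_int hδc hh hh)
    filter_upwards [ae_mem2] with z hz
    have hd : |δ (|z.1 - z.2|)| ≤ μ := hb _ (abs_nonneg _) (abs_sub_le_two hz.1 hz.2)
    have h8 : |h z.1 * (h z.2 * δ |z.1 - z.2|)| ≤ (μ / 2) * ((h z.1) ^ 2 + (h z.2) ^ 2) := by
      rw [abs_mul, abs_mul]
      have h9 : |h z.1| * |h z.2| ≤ 1 / 2 * ((h z.1) ^ 2 + (h z.2) ^ 2) := by
        rw [← sq_abs (h z.1), ← sq_abs (h z.2)]
        nlinarith [sq_nonneg (|h z.1| - |h z.2|)]
      calc |h z.1| * (|h z.2| * |δ (|z.1 - z.2|)|) = (|h z.1| * |h z.2|) * |δ (|z.1 - z.2|)| := by ring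
        _ ≤ (1 / 2 * ((h z.1) ^ 2 + (h z.2) ^ 2)) * μ :=
            mul_le_mul h9 hd (abs_nonneg _) (by positivity)
        _ = _ := by ring
    have := (abs_le.mp h8).1
    linarith
  rw [integral_const_mul, integral_add i1 i2, e5, e6] at h7
  linarith

/-! ### shifts -/

/-- the shift form -/
noncomputable def shf (v : ℝ) (f g : ℝ → ℝ) : ℝ := ∫ s in (-1 + v)..1, f s * g (s - v)

/-- the symmetrised shift -/
noncomputable def shp (v : ℝ) (p : ℝ → ℝ) (s : ℝ) : ℝ :=
  (if -1 + v < s then p (s - v) else 0) + if s < 1 - v then p (s + v) else 0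

lemma Au_shf (h : T1 f) {v : ℝ} (hv0 : 0 ≤ v) (hv : v ≤ 2) : Au f v = shf v f f := by
  have hc := h.cont
  have c1 : Continuous fun s => f s * f (s - v) := by fun_prop
  rw [Au_eq_mu1 h, int_mu1, ← intervalIntegral.integral_add_adjacent_intervals
    (c1.intervalIntegrable (-1) (-1 + v)) (c1.intervalIntegrable (-1 + v) 1)]
  have e3 : ∫ s in (-1 : ℝ)..(-1 + v), f s * f (s - v) = 0 := by
    rw [show (0 : ℝ) = ∫ s in (-1 : ℝ)..(-1 + v), (0 : ℝ) by simp]
    apply intervalIntegral.integral_congr_ae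
    refine Eventually.of_forall fun s hs => ?_
    rw [uIoc_of_le (by linarith)] at hs
    rw [h.van (s - v), mul_zero]
    rw [abs_of_neg (by linarith [hs.2])]
    linarith [hs.2]
  rw [e3, zero_add]
  rfl

lemma shp_meas {v : ℝ} (hp : Continuous p) : Measurable (shp v p) := by
  have hm := hp.measurable
  unfold shp
  apply Measurable.add
  · exact Measurable.ite (measurableSet_lt measurable_const measurable_id) (by fun_prop) measurable_const
  · exact Measurable.ite (measurableSet_lt measurable_id measurable_const) (by fun_prop) measurable_const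

lemma shp_bound {v : ℝ} (hp : Continuous p) : ∃ M, ∀ s ∈ Icc (-1 : ℝ) 1, |shp v p s| ≤ M := by
  obtain ⟨M1, h1⟩ := exists_bd (f := fun s => p (s - v)) (by fun_prop)
  obtain ⟨M2, h2⟩ := exists_bd (f := fun s => p (s + v)) (by fun_prop)
  refine ⟨M1 + M2, fun s hs => ?_⟩
  unfold shp
  have a1 : |(if -1 + v < s then p (s - v) else 0)| ≤ M1 := by
    split_ifs
    · exact h1 s hs
    · rw [abs_zero]; exact (abs_nonneg _).trans (h1 s hs)
  have a2 : |(if s < 1 - v then p (s + v) else 0)| ≤ M2 := by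
    split_ifs
    · exact h2 s hs
    · rw [abs_zero]; exact (abs_nonneg _).trans (h2 s hs)
  exact (abs_add_le _ _).trans (add_le_add a1 a2)

lemma shp_ip {v : ℝ} (hv0 : 0 ≤ v) (hv : v ≤ 2) (hp : Continuous p) (hh : Continuous h) :
    ip h (shp v p) = shf v h p + shf v p h := by
  have hm := hp.measurable
  have hhm := hh.measurable
  obtain ⟨M, hM⟩ := exists_bd hh
  have hM0 : 0 ≤ M := (abs_nonneg _).trans (hM 0 (by norm_num))
  obtain ⟨M1, h1⟩ := exists_bd (f := fun s => p (s - v)) (by fun_prop)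
  obtain ⟨M2, h2⟩ := exists_bd (f := fun s => p (s + v)) (by fun_prop)
  have ma : Measurable fun s => h s * (if -1 + v < s then p (s - v) else 0) := by
    apply Measurable.mul hhm
    exact Measurable.ite (measurableSet_lt measurable_const measurable_id) (by fun_prop) measurable_const
  have mb : Measurable fun s => h s * (if s < 1 - v then p (s + v) else 0) := by
    apply Measurable.mul hhm
    exact Measurable.ite (measurableSet_lt measurable_id measurable_const) (by fun_prop) measurable_const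
  have ba : ∀ s ∈ Icc (-1 : ℝ) 1, |h s * (if -1 + v < s then p (s - v) else 0)| ≤ M * M1 := by
    intro s hs
    rw [abs_mul]
    refine mul_le_mul (hM s hs) ?_ (abs_nonneg _) hM0
    split_ifs
    · exact h1 s hs
    · rw [abs_zero]; exact (abs_nonneg _).trans (h1 s hs)
  have bb : ∀ s ∈ Icc (-1 : ℝ) 1, |h s * (if s < 1 - v then p (s + v) else 0)| ≤ M * M2 := by
    intro s hs
    rw [abs_mul]
    refine mul_le_mul (hM s hs) ?_ (abs_nonneg _) hM0
    split_ifs
    · exact h2 s hs
    · rw [abs_zero]; exact (abs_nonneg _).trans (h2 s hs)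
  have ia := integrable_bdd ma ba
  have ib := integrable_bdd mb bb
  have e0 : ip h (shp v p) = (∫ s, h s * (if -1 + v < s then p (s - v) else 0) ∂mu1) +
      ∫ s, h s * (if s < 1 - v then p (s + v) else 0) ∂mu1 := by
    rw [← integral_add ia ib]
    unfold ip shp
    congr 1
    funext s
    ring
  have iia : ∀ a b : ℝ, -1 ≤ a → a ≤ b → b ≤ 1 →
      IntervalIntegrable (fun s => h s * (if -1 + v < s then p (s - v) else 0)) volume a b := by
    intro a b h1 h2 h3
    exact ii_bdd (C := M * M1) h2 ma fun s hs hs' => ba s ⟨by linarith, by linarith⟩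
  have iib : ∀ a b : ℝ, -1 ≤ a → a ≤ b → b ≤ 1 →
      IntervalIntegrable (fun s => h s * (if s < 1 - v then p (s + v) else 0)) volume a b := by
    intro a b h1 h2 h3
    exact ii_bdd (C := M * M2) h2 mb fun s hs hs' => bb s ⟨by linarith, by linarith⟩
  rw [e0, int_mu1, int_mu1,
    ← intervalIntegral.integral_add_adjacent_intervals (iia (-1) (-1 + v) le_rfl (by linarith) (by linarith))
      (iia (-1 + v) 1 (by linarith) (by linarith) le_rfl),
    ← intervalIntegral.integral_add_adjacent_intervals (iib (-1) (1 - v) le_rfl (by linarith) (by linarith))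
      (iib (1 - v) 1 (by linarith) (by linarith) le_rfl)]
  have e1 : ∫ s in (-1 : ℝ)..(-1 + v), h s * (if -1 + v < s then p (s - v) else 0) = 0 := by
    rw [show (0 : ℝ) = ∫ s in (-1 : ℝ)..(-1 + v), (0 : ℝ) by simp]
    apply intervalIntegral.integral_congr_ae
    refine Eventually.of_forall fun s hs => ?_
    rw [uIoc_of_le (by linarith)] at hs
    simp only [not_lt.mpr hs.2, if_false, mul_zero, intervalIntegral.integral_zero]
  have e2 : ∫ s in (-1 + v)..(1 : ℝ), h s * (if -1 + v < s then p (s - v) else 0) = shf v h p := by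
    unfold shf
    apply intervalIntegral.integral_congr_ae
    refine Eventually.of_forall fun s hs => ?_
    rw [uIoc_of_le (by linarith)] at hs
    rw [if_pos hs.1]
  have e3 : ∫ s in (-1 : ℝ)..(1 - v), h s * (if s < 1 - v then p (s + v) else 0) = shf v p h := by
    have h1 : ∫ s in (-1 : ℝ)..(1 - v), h s * (if s < 1 - v then p (s + v) else 0) =
        ∫ s in (-1 : ℝ)..(1 - v), h s * p (s + v) := by
      apply intervalIntegral.integral_congr_ae
      have hne : ∀ᵐ t : ℝ, t ≠ 1 - v := by
        rw [ae_iff]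
        simp
      filter_upwards [hne] with s hs1 hs
      rw [uIoc_of_le (by linarith)] at hs
      rw [if_pos (lt_of_le_of_ne hs.2 hs1)]
    rw [h1]
    unfold shf
    have h2 := intervalIntegral.integral_comp_sub_right (a := -1 + v) (b := 1)
      (fun s => h s * p (s + v)) v
    rw [show -1 + v - v = (-1 : ℝ) by ring] at h2
    rw [← h2]
    congr 1
    funext s
    rw [sub_add_cancel, mul_comm]
  have e4 : ∫ s in (1 - v)..(1 : ℝ), h s * (if s < 1 - v then p (s + v) else 0) = 0 := by
    rw [show (0 : ℝ) = ∫ s in (1 - v)..(1 : ℝ), (0 : ℝ) by simp]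
    apply intervalIntegral.integral_congr_ae
    refine Eventually.of_forall fun s hs => ?_
    rw [uIoc_of_le (by linarith)] at hs
    simp only [not_lt.mpr hs.1.le, if_false, mul_zero, intervalIntegral.integral_zero]
  rw [e1, e2, e3, e4]
  ring

lemma shf_add {v : ℝ} (hp : Continuous p) (hh : Continuous h) :
    shf v (fun s => p s + h s) (fun s => p s + h s) =
      shf v p p + (shf v h p + shf v p h) + shf v h h := by
  unfold shf
  have c1 : Continuous fun s => p s * p (s - v) := by fun_prop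
  have c2 : Continuous fun s => h s * p (s - v) := by fun_prop
  have c3 : Continuous fun s => p s * h (s - v) := by fun_prop
  have c4 : Continuous fun s => h s * h (s - v) := by fun_prop
  have c23 : Continuous fun s => h s * p (s - v) + p s * h (s - v) := c2.add c3
  have c123 : Continuous fun s => p s * p (s - v) + (h s * p (s - v) + p s * h (s - v)) := c1.add c23
  rw [← intervalIntegral.integral_add (c2.intervalIntegrable _ _) (c3.intervalIntegrable _ _),
    ← intervalIntegral.integral_add (c1.intervalIntegrable _ _) (c23.intervalIntegrable _ _),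
    ← intervalIntegral.integral_add (c123.intervalIntegrable _ _) (c4.intervalIntegrable _ _)]
  congr 1
  funext s
  ring

lemma shf_self_bound {v : ℝ} (hv1 : 1 ≤ v) (hv : v ≤ 2) (hh : Continuous h) :
    |shf v h h| ≤ 1 / 2 * ip h h := by
  have c0 : Continuous fun s => h s * h s := by fun_prop
  have c1 : Continuous fun s => h s * h (s - v) := by fun_prop
  have c2 : Continuous fun s => h (s - v) * h (s - v) := by fun_prop
  have hle : -1 + v ≤ 1 := by linarith
  have h1 : |shf v h h| ≤ ∫ s in (-1 + v)..1, (1 / 2 * (h s * h s) + 1 / 2 * (h (s - v) * h (s - v))) := by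
    unfold shf
    refine (intervalIntegral.abs_integral_le_integral_abs hle).trans ?_
    apply intervalIntegral.integral_mono_on hle (c1.abs.intervalIntegrable _ _)
      (Continuous.intervalIntegrable (by fun_prop) _ _)
    intro s _
    rw [abs_mul]
    have e1 : h s * h s = |h s| * |h s| := (abs_mul_abs_self _).symm
    have e2 : h (s - v) * h (s - v) = |h (s - v)| * |h (s - v)| := (abs_mul_abs_self _).symm
    rw [e1, e2]
    nlinarith [sq_nonneg (|h s| - |h (s - v)|)]
  have h2 : ∫ s in (-1 + v)..1, (1 / 2 * (h s * h s) + 1 / 2 * (h (s - v) * h (s - v))) =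
      1 / 2 * (∫ s in (-1 + v)..1, h s * h s) + 1 / 2 * ∫ s in (-1 : ℝ)..(1 - v), h s * h s := by
    have e3 := intervalIntegral.integral_comp_sub_right (a := -1 + v) (b := 1)
      (fun s => h s * h s) v
    rw [show -1 + v - v = (-1 : ℝ) by ring] at e3
    rw [← e3, intervalIntegral.integral_add ((c0.intervalIntegrable _ _).const_mul _)
      ((c2.intervalIntegrable _ _).const_mul _), intervalIntegral.integral_const_mul,
      intervalIntegral.integral_const_mul]
  have h3 : ip h h = (∫ s in (-1 : ℝ)..(1 - v), h s * h s) + (∫ s in (1 - v)..(-1 + v), h s * h s) +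
      ∫ s in (-1 + v)..1, h s * h s := by
    unfold ip
    rw [int_mu1, intervalIntegral.integral_add_adjacent_intervals (c0.intervalIntegrable _ _)
      (c0.intervalIntegrable _ _), intervalIntegral.integral_add_adjacent_intervals
      (c0.intervalIntegrable _ _) (c0.intervalIntegrable _ _)]
  have h4 : 0 ≤ ∫ s in (1 - v)..(-1 + v), h s * h s :=
    intervalIntegral.integral_nonneg (by linarith) fun s _ => mul_self_nonneg _
  rw [h2] at h1
  rw [h3]
  linarith

end Pool.Agent.Helper61.W
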