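import Pool.Agent.Helper61.W.Corr

set_option autoImplicit false

/-!
# The archimedean part of Weil's functional in a scaled variable
-/

namespace Pool.Agent.Helper61.W

open Filter Topology Set MeasureTheory

/-- `1/x - 1/(exp x - 1)` lies in `[0, 1/2]` -/
lemma bose_bounds {x : ℝ} (hx : 0 < x) :
    1 / (Real.exp x - 1) ≤ 1 / x ∧ 1 / x - 1 / 2 ≤ 1 / (Real.exp x - 1) := by
  have h1 : x + 1 ≤ Real.exp x := Real.add_one_le_exp x
  have hpos : 0 < Real.exp x - 1 := by linarith
  refine ⟨one_div_le_one_div_of_le hx (by linarith), ?_⟩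
  -- (x - 2) e^x + x + 2 ≥ 0
  have key : 0 ≤ (x - 2) * Real.exp x + x + 2 := by
    have hmono : MonotoneOn (fun y : ℝ => (y - 2) * Real.exp y + y + 2) (Ici 0) := by
      apply monotoneOn_of_deriv_nonneg (convex_Ici 0)
      · fun_prop
      · intro y _
        exact (by fun_prop : DifferentiableAt ℝ (fun y : ℝ => (y - 2) * Real.exp y + y + 2) y).differentiableWithinAt
      · intro y hy
        rw [interior_Ici] at hy
        have hy' : 0 < y := hy
        have hd : HasDerivAt (fun y : ℝ => (y - 2) * Real.exp y + y + 2)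
            (1 * Real.exp y + (y - 2) * Real.exp y + 1) y := by
          have := ((((hasDerivAt_id y).sub_const 2).mul (Real.hasDerivAt_exp y)).add
            (hasDerivAt_id y)).add_const 2
          exact this
        rw [hd.deriv]
        -- (y-1) e^y + 1 ≥ 0, i.e. e^{-y} ≥ 1 - y
        have h2 : 1 - y ≤ Real.exp (-y) := by
          have := Real.add_one_le_exp (-y)
          linarith
        have h3 : Real.exp (-y) * Real.exp y = 1 := by
          rw [← Real.exp_add]; simp
        nlinarith [Real.exp_pos y]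
    have := hmono (mem_Ici.mpr le_rfl) (mem_Ici.mpr hx.le) hx.le
    simp only [zero_sub, Real.exp_zero] at this
    linarith
  rw [div_sub_div _ _ hx.ne' (by norm_num), div_le_div_iff₀ (by positivity) hpos]
  nlinarith

/-- the archimedean kernel in the scaled variable -/
noncomputable def kap (a v : ℝ) : ℝ :=
  2 * a * Real.exp (a * v / 2) - 2 * a * Real.exp (-(a * v / 2)) / (Real.exp (2 * a * v) - 1) + 1 / v

/-- the difference of the two simple poles -/
noncomputable def pdf (a v : ℝ) : ℝ := 2 * a / (Real.exp (2 * a * v) - 1) - 1 / v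

lemma pdf_bound {a v : ℝ} (ha : 0 < a) (hv : 0 < v) : |pdf a v| ≤ a := by
  unfold pdf
  have h := bose_bounds (x := 2 * a * v) (by positivity)
  have e1 : 2 * a / (Real.exp (2 * a * v) - 1) = 2 * a * (1 / (Real.exp (2 * a * v) - 1)) := by ring
  have e2 : 1 / v = 2 * a * (1 / (2 * a * v)) := by field_simp
  rw [e1, e2, abs_le]
  constructor <;> nlinarith [h.1, h.2]

lemma pdf_meas (a : ℝ) : Measurable (pdf a) := by
  unfold pdf
  fun_prop

lemma kap_meas (a : ℝ) : Measurable (kap a) := by
  unfold kap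
  fun_prop

lemma kap_eq {a v : ℝ} (ha : 0 < a) (hv : 0 < v) : kap a v = 2 * a * Real.exp (a * v / 2) -
    Real.exp (-(a * v / 2)) * pdf a v + (1 - Real.exp (-(a * v / 2))) / v := by
  unfold kap pdf
  have : Real.exp (2 * a * v) - 1 ≠ 0 := by
    have := Real.add_one_lt_exp (x := 2 * a * v) (by positivity)
    nlinarith [mul_pos ha hv]
  field_simp
  ring

lemma kap_bound {a v : ℝ} (ha : 0 < a) (hv : 0 < v) (hv2 : v ≤ 2) :
    |kap a v| ≤ 2 * a * Real.exp a + 2 * a := by
  rw [kap_eq ha hv]
  have h0 : 0 < a * v := mul_pos ha hv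
  have h1 : Real.exp (a * v / 2) ≤ Real.exp a := by
    apply Real.exp_le_exp.mpr
    nlinarith
  have h2 : Real.exp (-(a * v / 2)) ≤ 1 := Real.exp_le_one_iff.mpr (by linarith)
  have h3 : |Real.exp (-(a * v / 2)) * pdf a v| ≤ a := by
    rw [abs_mul, abs_of_pos (Real.exp_pos _)]
    have := pdf_bound ha hv
    have := abs_nonneg (pdf a v)
    nlinarith [Real.exp_pos (-(a * v / 2))]
  have h4 : 0 ≤ (1 - Real.exp (-(a * v / 2))) / v := div_nonneg (by linarith) hv.le
  have h5 : (1 - Real.exp (-(a * v / 2))) / v ≤ a := by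
    rw [div_le_iff₀ hv]
    have := Real.add_one_le_exp (-(a * v / 2))
    nlinarith
  rw [abs_le] at h3 ⊢
  have h6 : 0 < 2 * a * Real.exp (a * v / 2) := by positivity
  have h7 : 2 * a * Real.exp (a * v / 2) ≤ 2 * a * Real.exp a := by
    apply mul_le_mul_of_nonneg_left h1; positivity
  constructor <;> linarith [h3.1, h3.2]

/-- bounded measurable functions on a bounded interval are integrable -/
lemma ii_of_bound {f : ℝ → ℝ} {p q C : ℝ} (hpq : p ≤ q) (hf : Measurable f)
    (hb : ∀ v, p < v → v ≤ q → |f v| ≤ C) : IntervalIntegrable f volume p q := by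
  rw [intervalIntegrable_iff_integrableOn_Ioc_of_le hpq]
  apply Measure.integrableOn_of_bounded (M := C) (by simp) hf.aestronglyMeasurable
  rw [ae_restrict_iff' measurableSet_Ioc]
  exact Eventually.of_forall fun v hv => hb v hv.1 hv.2

/-- the integral of the difference of the poles -/
lemma pdf_integral {a : ℝ} (ha : 0 < a) :
    ∫ v in (0 : ℝ)..2, pdf a v = Real.log (1 - Real.exp (-(4 * a))) - Real.log (4 * a) := by
  have hint : IntervalIntegrable (pdf a) volume 0 2 :=
    ii_of_bound (by norm_num) (pdf_meas a) fun v hv _ => pdf_bound ha hv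
  have hder : ∀ v ∈ Ioo (0 : ℝ) 2, HasDerivAt
      (fun v : ℝ => Real.log ((1 - Real.exp (-(2 * a * v))) / v)) (pdf a v) v := by
    intro v hv
    have hv0 : 0 < v := hv.1
    have hE : Real.exp (-(2 * a * v)) < 1 := Real.exp_lt_one_iff.mpr (by nlinarith [mul_pos ha hv0])
    have h1 : HasDerivAt (fun v : ℝ => Real.exp (-(2 * a * v)))
        (Real.exp (-(2 * a * v)) * (-(2 * a * 1))) v :=
      (((hasDerivAt_id v).const_mul (2 * a)).neg).exp
    have hp := Real.exp_pos (-(2 * a * v))
    have hq : 1 - Real.exp (-(2 * a * v)) ≠ 0 := by linarith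
    have h2 := ((h1.const_sub 1).log hq).sub (Real.hasDerivAt_log hv0.ne')
    have h3 : (fun v : ℝ => Real.log ((1 - Real.exp (-(2 * a * v))) / v)) =ᶠ[𝓝 v]
        ((fun v : ℝ => Real.log (1 - Real.exp (-(2 * a * v)))) - Real.log) := by
      filter_upwards [lt_mem_nhds hv0] with w hw
      have hw' : Real.exp (-(2 * a * w)) < 1 := Real.exp_lt_one_iff.mpr (by nlinarith [mul_pos ha hw])
      rw [Real.log_div (by linarith) hw.ne']
      rfl
    refine (h2.congr_of_eventuallyEq h3).congr_deriv ?_
    unfold pdf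
    have e1 : Real.exp (2 * a * v) = (Real.exp (-(2 * a * v)))⁻¹ := by
      rw [← Real.exp_neg, neg_neg]
    rw [e1, ← one_div v]
    congr 1
    have hr : (Real.exp (-(2 * a * v)))⁻¹ - 1 ≠ 0 := by
      have := (one_lt_inv₀ hp).mpr hE
      linarith
    rw [div_eq_div_iff hq hr]
    field_simp
  have hT0 : Tendsto (fun v : ℝ => (1 - Real.exp (-(2 * a * v))) / v) (𝓝[>] 0) (𝓝 (2 * a)) := by
    have h1 : HasDerivAt (fun v : ℝ => 1 - Real.exp (-(2 * a * v))) (2 * a) 0 := by
      have := ((((hasDerivAt_id (0:ℝ)).const_mul (2 * a)).neg).exp).const_sub 1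
      refine this.congr_deriv ?_
      simp
    have h2 := (hasDerivAt_iff_tendsto_slope.mp h1).mono_left
      (nhdsWithin_mono (0 : ℝ) (fun x (hx : 0 < x) => (ne_of_gt hx : x ≠ 0)))
    refine h2.congr' ?_
    filter_upwards [self_mem_nhdsWithin] with v hv
    rw [slope_def_field]
    simp
  have hl0 : Tendsto (fun v : ℝ => Real.log ((1 - Real.exp (-(2 * a * v))) / v)) (𝓝[>] 0)
      (𝓝 (Real.log (2 * a))) :=
    (Real.continuousAt_log (by positivity)).tendsto.comp hT0
  have hl2 : Tendsto (fun v : ℝ => Real.log ((1 - Real.exp (-(2 * a * v))) / v)) (𝓝[<] 2)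
      (𝓝 (Real.log ((1 - Real.exp (-(2 * a * 2))) / 2))) := by
    have hE : Real.exp (-(2 * a * 2)) < 1 := Real.exp_lt_one_iff.mpr (by nlinarith)
    have hc : ContinuousAt (fun v : ℝ => Real.log ((1 - Real.exp (-(2 * a * v))) / v)) 2 := by
      apply ContinuousAt.log
      · apply ContinuousAt.div (by fun_prop) (by fun_prop) (by norm_num)
      · exact (div_pos (by linarith) (by norm_num)).ne'
    exact hc.tendsto.mono_left nhdsWithin_le_nhds
  rw [intervalIntegral.integral_eq_sub_of_hasDerivAt_of_tendsto (by norm_num) hder hint hl0 hl2]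
  have hE : Real.exp (-(2 * a * 2)) < 1 := Real.exp_lt_one_iff.mpr (by nlinarith)
  have e4 : -(2 * a * 2) = -(4 * a) := by ring
  rw [e4] at hE ⊢
  have e5 : Real.log (4 * a) = Real.log 2 + Real.log (2 * a) := by
    rw [← Real.log_mul (by norm_num) (by positivity)]
    congr 1
    ring
  rw [Real.log_div (by linarith) (by norm_num), e5]
  ring

/-- substitution in a half line integral -/
lemma scale_int {a : ℝ} (ha : 0 < a) {F : ℝ → ℝ} (hF2 : ∀ v, 2 ≤ v → F v = 0) (b : ℝ) :
    ∫ u in Ioi (0 : ℝ), a * F (u / a) * Real.exp (b * u) =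
      a ^ 2 * ∫ v in (0 : ℝ)..2, F v * Real.exp (a * b * v) := by
  have h1 := integral_comp_mul_left_Ioi (fun v : ℝ => a * F v * Real.exp (a * b * v)) 0
    (inv_pos.mpr ha)
  simp only [inv_inv, mul_zero, smul_eq_mul] at h1
  have h2 : ∫ u in Ioi (0 : ℝ), a * F (u / a) * Real.exp (b * u) =
      ∫ x in Ioi (0 : ℝ), a * F (a⁻¹ * x) * Real.exp (a * b * (a⁻¹ * x)) := by
    congr 1
    funext u
    congr 2
    · congr 1
      field_simp
    · field_simp
  rw [h2, h1]
  have h3 : ∫ x in Ioi (0 : ℝ), a * F x * Real.exp (a * b * x) =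
      ∫ x in Ioc (0 : ℝ) 2, a * F x * Real.exp (a * b * x) := by
    apply setIntegral_eq_of_subset_of_forall_sdiff_eq_zero measurableSet_Ioi Ioc_subset_Ioi_self
    intro x hx
    have : 2 ≤ x := by
      by_contra hlt
      push Not at hlt
      exact hx.2 ⟨hx.1, hlt.le⟩
    rw [hF2 x this]
    ring
  have h4 : ∀ x : ℝ, a * F x * Real.exp (a * b * x) = a * (F x * Real.exp (a * b * x)) := fun x => by ring
  simp_rw [h3, h4]
  rw [intervalIntegral.integral_of_le (by norm_num), integral_const_mul]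
  ring

variable {a : ℝ} {F : ℝ → ℝ} {K : ℝ}

/-- the sum over the trivial poles -/
lemma arch_sum (ha : 0 < a) (hF : Continuous F) (hK : ∀ v, 0 ≤ v → v ≤ 2 → |F 0 - F v| ≤ K * v) :
    ∑' n : ℕ, (F 0 / (n + 1) - 2 * a * ∫ v in (0 : ℝ)..2, F v * Real.exp (a * (-(2 * n + 5 / 2)) * v)) =
      (∫ v in (0 : ℝ)..2, (F 0 - F v) / v) - Real.log (4 * a) * F 0 +
        ∫ v in (0 : ℝ)..2, F v * (kap a v - 2 * a * Real.exp (a * v / 2)) := by
  have hK0 : 0 ≤ K := by
    have := hK 2 (by norm_num) le_rfl
    have := abs_nonneg (F 0 - F 2)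
    linarith
  -- bound for F
  obtain ⟨B, hB⟩ : ∃ B, ∀ v, 0 ≤ v → v ≤ 2 → |F v| ≤ B := by
    refine ⟨|F 0| + K * 2, fun v h0 h2 => ?_⟩
    have h1 := hK v h0 h2
    have h3 : K * v ≤ K * 2 := mul_le_mul_of_nonneg_left h2 hK0
    have h4 := abs_sub_abs_le_abs_sub (F v) (F 0)
    rw [abs_sub_comm] at h4
    linarith
  have hB0 : 0 ≤ B := (abs_nonneg _).trans (hB 0 le_rfl (by norm_num))
  set G : ℝ → ℝ := fun v => F 0 - F v * Real.exp (-(a * v / 2)) with hG
  have hGm : Measurable G := by
    have := hF.measurable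
    fun_prop
  have hGb : ∀ v, 0 ≤ v → v ≤ 2 → |G v| ≤ (K + B * a) * v := by
    intro v h0 h2
    have e : G v = (F 0 - F v) + F v * (1 - Real.exp (-(a * v / 2))) := by
      rw [hG]; ring
    rw [e]
    have h1 := hK v h0 h2
    have h3 := hB v h0 h2
    have h4 : 0 ≤ 1 - Real.exp (-(a * v / 2)) := by
      have := Real.exp_le_one_iff.mpr (show -(a * v / 2) ≤ 0 by
        have := mul_nonneg ha.le h0
        linarith)
      linarith
    have h5 : 1 - Real.exp (-(a * v / 2)) ≤ a * v := by
      have := Real.add_one_le_exp (-(a * v / 2))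
      have := mul_nonneg ha.le h0
      linarith
    calc |F 0 - F v + F v * (1 - Real.exp (-(a * v / 2)))|
        ≤ |F 0 - F v| + |F v * (1 - Real.exp (-(a * v / 2)))| := abs_add_le _ _
      _ = |F 0 - F v| + |F v| * (1 - Real.exp (-(a * v / 2))) := by
          rw [abs_mul, abs_of_nonneg h4]
      _ ≤ K * v + B * (a * v) := add_le_add h1 (mul_le_mul h3 h5 h4 hB0)
      _ = (K + B * a) * v := by ring
  set D := K + B * a with hD
  have hD0 : 0 ≤ D := by positivity
  -- geometric series
  have hgeo : ∀ v : ℝ, 0 < v → HasSum (fun n : ℕ => Real.exp (-(2 * (n + 1) * a * v)))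
      (1 / (Real.exp (2 * a * v) - 1)) := by
    intro v hv
    have hE : Real.exp (-(2 * a * v)) < 1 := Real.exp_lt_one_iff.mpr (by nlinarith [mul_pos ha hv])
    have h1 := (hasSum_geometric_of_lt_one (Real.exp_pos _).le hE).mul_left (Real.exp (-(2 * a * v)))
    have e : Real.exp (-(2 * a * v)) * (1 - Real.exp (-(2 * a * v)))⁻¹ = 1 / (Real.exp (2 * a * v) - 1) := by
      have e1 : Real.exp (2 * a * v) = (Real.exp (-(2 * a * v)))⁻¹ := by
        rw [← Real.exp_neg, neg_neg]
      rw [e1]
      have hp := Real.exp_pos (-(2 * a * v))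
      have hq : 1 - Real.exp (-(2 * a * v)) ≠ 0 := by linarith
      have hr : (Real.exp (-(2 * a * v)))⁻¹ - 1 ≠ 0 := by
        have := (one_lt_inv₀ hp).mpr hE
        linarith
      rw [eq_div_iff hr, mul_assoc, inv_mul_eq_div, mul_div_assoc', div_eq_iff hq]
      field_simp
    rw [e] at h1
    have e' : (fun n : ℕ => Real.exp (-(2 * (n + 1) * a * v))) =
        fun n : ℕ => Real.exp (-(2 * a * v)) * Real.exp (-(2 * a * v)) ^ n := by
      funext n
      rw [← Real.exp_nat_mul, ← Real.exp_add]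
      congr 1
      ring
    rw [e']
    exact h1
  have hexp1 : ∀ v : ℝ, 0 < v → 0 < Real.exp (2 * a * v) - 1 := by
    intro v hv
    have := Real.add_one_lt_exp (x := 2 * a * v) (by positivity)
    nlinarith [mul_pos ha hv]
  -- dominated convergence
  have hsum : HasSum (fun n : ℕ => ∫ v in (0 : ℝ)..2, G v * Real.exp (-(2 * (n + 1) * a * v)))
      (∫ v in (0 : ℝ)..2, G v / (Real.exp (2 * a * v) - 1)) := by
    apply intervalIntegral.hasSum_integral_of_dominated_convergence
      (fun (n : ℕ) (v : ℝ) => D * v * Real.exp (-(2 * (n + 1) * a * v)))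
    · intro n
      apply Measurable.aestronglyMeasurable
      fun_prop
    · intro n
      refine Eventually.of_forall fun v hv => ?_
      rw [uIoc_of_le (by norm_num)] at hv
      rw [Real.norm_eq_abs, abs_mul, abs_of_pos (Real.exp_pos _)]
      exact mul_le_mul_of_nonneg_right (hGb v hv.1.le hv.2) (Real.exp_pos _).le
    · refine Eventually.of_forall fun v hv => ?_
      rw [uIoc_of_le (by norm_num)] at hv
      exact ((hgeo v hv.1).mul_left (D * v)).summable
    · have h1 : IntervalIntegrable (fun v => D * v * (1 / (Real.exp (2 * a * v) - 1))) volume 0 2 := by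
        apply ii_of_bound (C := D / (2 * a)) (by norm_num) (by fun_prop)
        intro v hv _
        have h3 := (bose_bounds (x := 2 * a * v) (by positivity)).1
        have h4 : 0 < 1 / (Real.exp (2 * a * v) - 1) := one_div_pos.mpr (hexp1 v hv)
        rw [abs_of_nonneg (by positivity)]
        calc D * v * (1 / (Real.exp (2 * a * v) - 1)) ≤ D * v * (1 / (2 * a * v)) :=
              mul_le_mul_of_nonneg_left h3 (by positivity)
          _ = D / (2 * a) := by field_simp
      refine h1.congr ?_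
      intro v hv
      rw [uIoc_of_le (by norm_num)] at hv
      exact ((hgeo v hv.1).mul_left (D * v)).tsum_eq.symm
    · refine Eventually.of_forall fun v hv => ?_
      rw [uIoc_of_le (by norm_num)] at hv
      have := (hgeo v hv.1).mul_left (G v)
      rw [mul_one_div] at this
      exact this
  -- log series
  have hE4 : Real.exp (-(4 * a)) < 1 := Real.exp_lt_one_iff.mpr (by linarith)
  have hlog : HasSum (fun n : ℕ => F 0 * (Real.exp (-(4 * a)) ^ (n + 1) / (n + 1)))
      (F 0 * (-Real.log (1 - Real.exp (-(4 * a))))) := by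
    apply HasSum.mul_left
    exact Real.hasSum_pow_div_log_of_abs_lt_one (by rw [abs_of_pos (Real.exp_pos _)]; exact hE4)
  have htot := hlog.add (hsum.mul_left (2 * a))
  -- the elementary integral
  have hel : ∀ n : ℕ, 2 * a * ∫ v in (0 : ℝ)..2, Real.exp (-(2 * (n + 1) * a * v)) =
      1 / (n + 1) - Real.exp (-(4 * a)) ^ (n + 1) / (n + 1) := by
    intro n
    have hn : (0 : ℝ) < n + 1 := by positivity
    have hc : (-(2 * (n + 1) * a) : ℝ) ≠ 0 := by
      have : 0 < 2 * ((n : ℝ) + 1) * a := by positivity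
      linarith
    have e1 : ∀ v : ℝ, Real.exp (-(2 * (n + 1) * a * v)) = Real.exp (-(2 * (n + 1) * a) * v) := by
      intro v; congr 1; ring
    simp_rw [e1]
    have e3 : ∫ v in (0 : ℝ)..2, Real.exp (-(2 * (n + 1) * a) * v) =
        (Real.exp (-(2 * (n + 1) * a) * 2) - Real.exp (-(2 * (n + 1) * a) * 0)) / (-(2 * (n + 1) * a)) := by
      rw [intervalIntegral.integral_comp_mul_left (fun x => Real.exp x) hc, integral_exp, smul_eq_mul]
      ring
    rw [e3, ← Real.exp_nat_mul]
    have e2 : Real.exp (-(2 * (n + 1) * a) * 2) = Real.exp (((n + 1 : ℕ) : ℝ) * -(4 * a)) := by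
      congr 1; push_cast; ring
    rw [e2]
    simp only [mul_zero, Real.exp_zero]
    field_simp
    ring
  have hFm := hF.measurable
  have hterm : ∀ n : ℕ, F 0 / (n + 1) -
      2 * a * ∫ v in (0 : ℝ)..2, F v * Real.exp (a * (-(2 * n + 5 / 2)) * v) =
      F 0 * (Real.exp (-(4 * a)) ^ (n + 1) / (n + 1)) +
        2 * a * ∫ v in (0 : ℝ)..2, G v * Real.exp (-(2 * (n + 1) * a * v)) := by
    intro n
    have e1 : ∀ v : ℝ, G v * Real.exp (-(2 * (n + 1) * a * v)) =
        F 0 * Real.exp (-(2 * (n + 1) * a * v)) - F v * Real.exp (a * (-(2 * n + 5 / 2)) * v) := by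
      intro v
      rw [hG]
      have : Real.exp (a * (-(2 * n + 5 / 2)) * v) =
          Real.exp (-(a * v / 2)) * Real.exp (-(2 * (n + 1) * a * v)) := by
        rw [← Real.exp_add]
        congr 1
        ring
      rw [this]
      ring
    simp_rw [e1]
    rw [intervalIntegral.integral_sub (Continuous.intervalIntegrable (by fun_prop) _ _)
      (Continuous.intervalIntegrable (by fun_prop) _ _), intervalIntegral.integral_const_mul]
    have h2 := hel n
    have h3 : 2 * a * (F 0 * ∫ v in (0 : ℝ)..2, Real.exp (-(2 * (n + 1) * a * v))) =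
        F 0 * (1 / (n + 1) - Real.exp (-(4 * a)) ^ (n + 1) / (n + 1)) := by
      rw [← h2]; ring
    rw [mul_sub, h3]
    ring
  rw [tsum_congr hterm, htot.tsum_eq]
  have i1 : IntervalIntegrable (fun v => (F 0 - F v) / v) volume 0 2 := by
    apply ii_of_bound (C := K) (by norm_num) (by fun_prop)
    intro v hv hv2
    rw [abs_div, abs_of_pos hv, div_le_iff₀ hv]
    exact hK v hv.le hv2
  have hkm := kap_meas a
  have i2 : IntervalIntegrable (fun v => F v * (kap a v - 2 * a * Real.exp (a * v / 2))) volume 0 2 := by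
    apply ii_of_bound (C := B * (2 * a * Real.exp a + 2 * a + 2 * a * Real.exp a)) (by norm_num)
      (by fun_prop)
    intro v hv hv2
    rw [abs_mul]
    apply mul_le_mul (hB v hv.le hv2) _ (abs_nonneg _) hB0
    have h1 := kap_bound ha hv hv2
    have h3 : |2 * a * Real.exp (a * v / 2)| ≤ 2 * a * Real.exp a := by
      rw [abs_of_nonneg (by positivity)]
      apply mul_le_mul_of_nonneg_left _ (by positivity)
      apply Real.exp_le_exp.mpr
      nlinarith
    exact (abs_sub _ _).trans (add_le_add h1 h3)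
  have i3 : IntervalIntegrable (fun v => F 0 * pdf a v) volume 0 2 :=
    (ii_of_bound (by norm_num) (pdf_meas a) fun v hv _ => pdf_bound ha hv).const_mul _
  have e5 : 2 * a * ∫ v in (0 : ℝ)..2, G v / (Real.exp (2 * a * v) - 1) =
      ∫ v in (0 : ℝ)..2, ((F 0 - F v) / v + F v * (kap a v - 2 * a * Real.exp (a * v / 2)) +
        F 0 * pdf a v) := by
    rw [← intervalIntegral.integral_const_mul]
    apply intervalIntegral.integral_congr_ae
    refine Eventually.of_forall fun v hv => ?_
    rw [uIoc_of_le (by norm_num)] at hv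
    have h1 := (hexp1 v hv.1).ne'
    have h2 := hv.1.ne'
    simp only [hG]
    unfold kap pdf
    field_simp
    ring
  rw [e5, intervalIntegral.integral_add (i1.add i2) i3, intervalIntegral.integral_add i1 i2,
    intervalIntegral.integral_const_mul, pdf_integral ha]
  ring

/-- the archimedean part in the scaled variable -/
theorem arch_scale (ha : 0 < a) (hF : Continuous F) (hK : ∀ v, 0 ≤ v → v ≤ 2 → |F 0 - F v| ≤ K * v)
    (hF2 : ∀ v, 2 ≤ v → F v = 0) :
    2 * (∫ u in Ioi (0 : ℝ), a * F (u / a) * Real.exp (1 / 2 * u)) -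
      (Real.eulerMascheroniConstant + Real.log Real.pi) * (a * F (0 / a)) +
      (∑' n : ℕ, (a * F (0 / a) / (n + 1) -
        2 * ∫ u in Ioi (0 : ℝ), a * F (u / a) * Real.exp (-(2 * n + 5 / 2) * u))) =
    a * ((∫ v in (0 : ℝ)..2, (F 0 - F v) / v) -
      (Real.eulerMascheroniConstant + Real.log Real.pi + Real.log (4 * a)) * F 0 +
        ∫ v in (0 : ℝ)..2, F v * kap a v) := by
  have h0 : F (0 / a) = F 0 := by rw [zero_div]
  have h1 : ∀ n : ℕ, a * F (0 / a) / (n + 1) -
        2 * ∫ u in Ioi (0 : ℝ), a * F (u / a) * Real.exp (-(2 * n + 5 / 2) * u) =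
      a * (F 0 / (n + 1) - 2 * a * ∫ v in (0 : ℝ)..2, F v * Real.exp (a * (-(2 * n + 5 / 2)) * v)) := by
    intro n
    rw [scale_int ha hF2, h0]
    ring
  rw [tsum_congr h1, tsum_mul_left, arch_sum ha hF hK, scale_int ha hF2, h0]
  have hB0 : ∃ B, 0 ≤ B ∧ ∀ v, 0 ≤ v → v ≤ 2 → |F v| ≤ B := by
    have hK0 : 0 ≤ K := by
      have := hK 2 (by norm_num) le_rfl
      have := abs_nonneg (F 0 - F 2)
      linarith
    refine ⟨|F 0| + K * 2, by positivity, fun v h0 h2 => ?_⟩
    have h1 := hK v h0 h2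
    have h3 : K * v ≤ K * 2 := mul_le_mul_of_nonneg_left h2 hK0
    have h4 := abs_sub_abs_le_abs_sub (F v) (F 0)
    rw [abs_sub_comm] at h4
    linarith
  obtain ⟨B, hB0, hB⟩ := hB0
  have hFm := hF.measurable
  have hkm := kap_meas a
  have i1 : IntervalIntegrable (fun v => F v * kap a v) volume 0 2 := by
    apply ii_of_bound (C := B * (2 * a * Real.exp a + 2 * a)) (by norm_num) (by fun_prop)
    intro v hv hv2
    rw [abs_mul]
    exact mul_le_mul (hB v hv.le hv2) (kap_bound ha hv hv2) (abs_nonneg _) hB0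
  have i2 : IntervalIntegrable (fun v => F v * (2 * a * Real.exp (a * v / 2))) volume 0 2 :=
    Continuous.intervalIntegrable (by fun_prop) _ _
  have e1 : ∫ v in (0 : ℝ)..2, F v * (kap a v - 2 * a * Real.exp (a * v / 2)) =
      (∫ v in (0 : ℝ)..2, F v * kap a v) - ∫ v in (0 : ℝ)..2, F v * (2 * a * Real.exp (a * v / 2)) := by
    rw [← intervalIntegral.integral_sub i1 i2]
    congr 1
    funext v
    ring
  have e2 : ∫ v in (0 : ℝ)..2, F v * (2 * a * Real.exp (a * v / 2)) =
      2 * a * ∫ v in (0 : ℝ)..2, F v * Real.exp (a * (1 / 2) * v) := by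
    rw [← intervalIntegral.integral_const_mul]
    congr 1
    funext v
    have : a * v / 2 = a * (1 / 2) * v := by ring
    rw [this]
    ring
  rw [e1, e2]
  ring

end Pool.Agent.Helper61.W
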