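import Pool.Graph.R_pool_sql_team_seeded_843ab51a.V11271.LI.Zeta
import Pool.Graph.R_seed8.H370R2.Rect
import Pool.Graph.R_seed8.H370R2.Local

set_option autoImplicit false

/-!
# The Riemann xi function and its logarithmic derivative
-/

namespace Pool.Agent.Helper61.W

open Complex Filter Topology Set MeasureTheory
open scoped ComplexConjugate

/-- the entire function `s (s - 1) Λ(s)` -/
noncomputable def Xi (s : ℂ) : ℂ := s * (s - 1) * completedRiemannZeta₀ s + 1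

lemma Xi_diff : Differentiable ℂ Xi := by
  unfold Xi
  have := differentiable_completedZeta₀
  fun_prop

lemma Xi_symm (s : ℂ) : Xi (1 - s) = Xi s := by
  unfold Xi
  rw [completedRiemannZeta₀_one_sub]
  ring

lemma Xi_eq_completed {s : ℂ} (h0 : s ≠ 0) (h1 : s ≠ 1) :
    Xi s = s * (s - 1) * completedRiemannZeta s := by
  rw [completedRiemannZeta_eq]
  unfold Xi
  have h2 : s - 1 ≠ 0 := sub_ne_zero.mpr h1
  have h3 : 1 - s ≠ 0 := sub_ne_zero.mpr (Ne.symm h1)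
  field_simp
  ring

lemma Xi_eq {s : ℂ} (h0 : s ≠ 0) (h1 : s ≠ 1) (hG : Gammaℝ s ≠ 0) :
    Xi s = s * (s - 1) * Gammaℝ s * riemannZeta s := by
  rw [Xi_eq_completed h0 h1, riemannZeta_def_of_ne_zero h0]
  field_simp

lemma Xi_zero_val : Xi 0 = 1 := by simp [Xi]

lemma Xi_one_val : Xi 1 = 1 := by simp [Xi]

lemma Xi_ne_zero_of_one_le {s : ℂ} (hs : 1 ≤ s.re) : Xi s ≠ 0 := by
  rcases eq_or_ne s 1 with rfl | h1
  · rw [Xi_one_val]; exact one_ne_zero
  · have h0 : s ≠ 0 := by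
      intro h; rw [h] at hs; simp at hs; linarith
    have hG : Gammaℝ s ≠ 0 := Gammaℝ_ne_zero_of_re_pos (by linarith)
    rw [Xi_eq h0 h1 hG]
    exact mul_ne_zero (mul_ne_zero (mul_ne_zero h0 (sub_ne_zero.mpr h1)) hG)
      (riemannZeta_ne_zero_of_one_le_re hs)

lemma Xi_ne_zero_of_le_zero {s : ℂ} (hs : s.re ≤ 0) : Xi s ≠ 0 := by
  rw [← Xi_symm]
  apply Xi_ne_zero_of_one_le
  simp
  linarith

/-- the zeros of `Xi` are the nontrivial zeros -/
lemma Xi_eq_zero_iff (s : ℂ) : Xi s = 0 ↔ riemannZeta s = 0 ∧ 0 < s.re ∧ s.re < 1 := by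
  constructor
  · intro h
    have h1 : 0 < s.re := by
      by_contra hc; exact Xi_ne_zero_of_le_zero (not_lt.mp hc) h
    have h2 : s.re < 1 := by
      by_contra hc; exact Xi_ne_zero_of_one_le (not_lt.mp hc) h
    have h0 : s ≠ 0 := by intro h; rw [h] at h1; simp at h1
    have h3 : s ≠ 1 := by intro h; rw [h] at h2; simp at h2
    have hG : Gammaℝ s ≠ 0 := Gammaℝ_ne_zero_of_re_pos h1
    rw [Xi_eq h0 h3 hG] at h
    refine ⟨?_, h1, h2⟩
    rcases mul_eq_zero.mp h with h | h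
    · exfalso
      exact mul_ne_zero (mul_ne_zero h0 (sub_ne_zero.mpr h3)) hG h
    · exact h
  · rintro ⟨h, h1, h2⟩
    have h0 : s ≠ 0 := by intro h; rw [h] at h1; simp at h1
    have h3 : s ≠ 1 := by intro h; rw [h] at h2; simp at h2
    rw [Xi_eq h0 h3 (Gammaℝ_ne_zero_of_re_pos h1), h, mul_zero]

lemma analyticAt_Gammaℝ {s : ℂ} (hs : 0 < s.re) : AnalyticAt ℂ Gammaℝ s := by
  have hd : DifferentiableOn ℂ Gammaℝ {z : ℂ | 0 < z.re} := by
    intro z hz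
    have h1 := differentiable_Gammaℝ_inv z
    have h2 : (Gammaℝ z)⁻¹ ≠ 0 := inv_ne_zero (Gammaℝ_ne_zero_of_re_pos hz)
    have h3 := h1.fun_inv h2
    have h4 : Gammaℝ = fun z => ((Gammaℝ z)⁻¹)⁻¹ := by funext z; rw [inv_inv]
    rw [h4]
    exact h3.differentiableWithinAt
  exact hd.analyticAt ((isOpen_lt continuous_const continuous_re).mem_nhds hs)

lemma zeta_analyticAt {s : ℂ} (hs : s ≠ 1) : AnalyticAt ℂ riemannZeta s := by
  have : DifferentiableOn ℂ riemannZeta ({1}ᶜ : Set ℂ) := fun z hz =>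
    (differentiableAt_riemannZeta hz).differentiableWithinAt
  exact this.analyticAt (isOpen_compl_singleton.mem_nhds hs)

/-- same multiplicities -/
lemma Xi_order {s : ℂ} (h1 : 0 < s.re) (h2 : s.re < 1) :
    analyticOrderAt Xi s = analyticOrderAt riemannZeta s := by
  have h0 : s ≠ 0 := by intro h; rw [h] at h1; simp at h1
  have h3 : s ≠ 1 := by intro h; rw [h] at h2; simp at h2
  have hev : Xi =ᶠ[𝓝 s] (fun z => z * (z - 1) * Gammaℝ z) * riemannZeta := by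
    have e1 : ∀ᶠ z in 𝓝 s, z ≠ 0 := isOpen_ne.mem_nhds h0
    have e2 : ∀ᶠ z in 𝓝 s, z ≠ 1 := isOpen_ne.mem_nhds h3
    have e3 : ∀ᶠ z : ℂ in 𝓝 s, 0 < z.re := (isOpen_lt continuous_const continuous_re).mem_nhds h1
    filter_upwards [e1, e2, e3] with z hz1 hz2 hz3
    rw [Xi_eq hz1 hz2 (Gammaℝ_ne_zero_of_re_pos hz3)]
    rfl
  have ha : AnalyticAt ℂ (fun z => z * (z - 1) * Gammaℝ z) s := by
    have := analyticAt_Gammaℝ h1
    fun_prop
  rw [analyticOrderAt_congr hev, analyticOrderAt_mul ha (zeta_analyticAt h3),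
    ha.analyticOrderAt_eq_zero.mpr ?_, zero_add]
  exact mul_ne_zero (mul_ne_zero h0 (sub_ne_zero.mpr h3)) (Gammaℝ_ne_zero_of_re_pos h1)

/-- logarithmic derivative of `Xi` -/
lemma Xi_logDeriv {s : ℂ} (h0 : s ≠ 0) (h1 : s ≠ 1) (hG : ∀ᶠ z in 𝓝 s, Gammaℝ z ≠ 0)
    (hGd : DifferentiableAt ℂ Gammaℝ s) (hz : riemannZeta s ≠ 0) :
    deriv Xi s / Xi s = 1 / s + 1 / (s - 1) + logDeriv Gammaℝ s +
      deriv riemannZeta s / riemannZeta s := by
  have hG0 : Gammaℝ s ≠ 0 := hG.self_of_nhds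
  have hev : Xi =ᶠ[𝓝 s] fun z => z * (z - 1) * Gammaℝ z * riemannZeta z := by
    have e1 : ∀ᶠ z in 𝓝 s, z ≠ 0 := isOpen_ne.mem_nhds h0
    have e2 : ∀ᶠ z in 𝓝 s, z ≠ 1 := isOpen_ne.mem_nhds h1
    filter_upwards [e1, e2, hG] with z hz1 hz2 hz3
    exact Xi_eq hz1 hz2 hz3
  have d1 : HasDerivAt (fun z : ℂ => z * (z - 1)) (1 * (s - 1) + s * 1) s :=
    (hasDerivAt_id s).mul ((hasDerivAt_id s).sub_const 1)
  have d2 : HasDerivAt (fun z : ℂ => z * (z - 1) * Gammaℝ z * riemannZeta z)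
      (((1 * (s - 1) + s * 1) * Gammaℝ s + s * (s - 1) * deriv Gammaℝ s) * riemannZeta s +
        (s * (s - 1) * Gammaℝ s) * deriv riemannZeta s) s :=
    (d1.mul hGd.hasDerivAt).mul (differentiableAt_riemannZeta h1).hasDerivAt
  have h2 : s - 1 ≠ 0 := sub_ne_zero.mpr h1
  rw [hev.deriv_eq, d2.deriv, Xi_eq h0 h1 hG0, logDeriv_apply]
  field_simp

end Pool.Agent.Helper61.W
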