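import Pool.Agent.Helper61.W.Fi

set_option autoImplicit false

/-!
# Weil positivity for supports of length `log 3`
-/

namespace Pool.Agent.Helper61.W

open Filter Topology Set MeasureTheory
open scoped ComplexConjugate ContDiff
open Pool.Agent.V11271.LI (Zr mm cfg_zeta zz)

variable {g : ℝ → ℂ}

lemma log3_lt : Real.log 3 / 2 < aS := by
  unfold aS
  have h : Real.log (3 ^ 5) < Real.log (2 ^ 8) := Real.log_lt_log (by norm_num) (by norm_num)
  rw [Real.log_pow, Real.log_pow] at h
  push_cast at h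
  linarith

lemma log2_div : Real.log 2 / aS = 5 / 4 := by
  unfold aS
  have := Real.log_pos (show (1 : ℝ) < 2 by norm_num)
  field_simp

/-- the scaled function -/
noncomputable def Gs (g : ℝ → ℂ) (b s : ℝ) : ℂ := g (b + aS * s)

lemma T1_re (hg : ContDiff ℝ ∞ g) {c : ℝ} (hs : ∀ x, x ∉ Icc c (c + Real.log 3) → g x = 0) :
    T1 (fun s => (Gs g (c + Real.log 3 / 2) s).re) ∧ T1 (fun s => (Gs g (c + Real.log 3 / 2) s).im) := by
  have hz : ∀ s : ℝ, 1 ≤ |s| → Gs g (c + Real.log 3 / 2) s = 0 := by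
    intro s h1
    unfold Gs
    apply hs
    intro hmem
    have h2 : |aS * s| ≤ Real.log 3 / 2 := by
      rw [abs_le]
      constructor <;> linarith [hmem.1, hmem.2]
    rw [abs_mul, abs_of_pos aS_pos] at h2
    have h3 := log3_lt
    nlinarith [aS_pos]
  have hc : ContDiff ℝ 1 (Gs g (c + Real.log 3 / 2)) := by
    have h1 : ContDiff ℝ 1 g := hg.of_le (by exact_mod_cast le_top)
    exact h1.comp (by fun_prop)
  exact ⟨⟨Complex.reCLM.contDiff.comp hc, fun s h => by
      show (Gs g (c + Real.log 3 / 2) s).re = 0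
      rw [hz s h]
      rfl⟩,
    ⟨Complex.imCLM.contDiff.comp hc, fun s h => by
      show (Gs g (c + Real.log 3 / 2) s).im = 0
      rw [hz s h]
      rfl⟩⟩

lemma corr_re (h : TF g) (b u : ℝ) : (corr g u).re = aS * (Au (fun s => (Gs g b s).re) (u / aS) +
    Au (fun s => (Gs g b s).im) (u / aS)) := by
  have ha := aS_pos
  have hi : ∀ u, Integrable (fun y => g y * conj (g (y - u))) := fun u =>
    h.mul_cont (f := fun y => conj (g (y - u))) (by
      have := h.cont
      exact Complex.continuous_conj.comp (this.comp (continuous_id.sub continuous_const)))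
  have h1 : (corr g u).re = ∫ y, (g y * conj (g (y - u))).re := by
    unfold corr
    exact (integral_re (hi u)).symm
  have h2 : ∫ y, (g y * conj (g (y - u))).re =
      aS * ∫ s, (g (b + aS * s) * conj (g (b + aS * s - u))).re := by
    have e1 := Measure.integral_comp_mul_left (fun y => (g (b + y) * conj (g (b + y - u))).re) aS
    have e2 := integral_add_left_eq_self (μ := volume) (fun y => (g y * conj (g (y - u))).re) b
    rw [e1, e2, abs_of_pos (inv_pos.mpr ha), smul_eq_mul, ← mul_assoc, mul_inv_cancel₀ ha.ne', one_mul]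
  have i0 : Integrable (fun s => g (b + aS * s) * conj (g (b + aS * s - u))) := by
    have := (hi u).comp_add_left b
    exact this.comp_mul_left' ha.ne'
  have hc := h.cont
  have cG : Continuous (Gs g b) := by
    unfold Gs
    fun_prop
  have hcs : HasCompactSupport (Gs g b) := by
    have h3 : HasCompactSupport (fun s => g (b + s)) := h.supp.comp_homeomorph (Homeomorph.addLeft b)
    exact h3.comp_homeomorph (Homeomorph.mulLeft₀ aS ha.ne')
  have j1 : Integrable (fun s => (Gs g b s).re * (Gs g b (s - u / aS)).re) := by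
    apply Continuous.integrable_of_hasCompactSupport
    · exact (Complex.continuous_re.comp cG).mul (Complex.continuous_re.comp (cG.comp (by fun_prop)))
    · exact HasCompactSupport.mul_right (hcs.comp_left (g := Complex.re) rfl)
  have j2 : Integrable (fun s => (Gs g b s).im * (Gs g b (s - u / aS)).im) := by
    apply Continuous.integrable_of_hasCompactSupport
    · exact (Complex.continuous_im.comp cG).mul (Complex.continuous_im.comp (cG.comp (by fun_prop)))
    · exact HasCompactSupport.mul_right (hcs.comp_left (g := Complex.im) rfl)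
  rw [h1, h2]
  unfold Au
  rw [← integral_add j1 j2]
  congr 2
  funext s
  unfold Gs
  have e : b + aS * (s - u / aS) = b + aS * s - u := by
    field_simp
    ring
  rw [e, Complex.mul_re, Complex.conj_re, Complex.conj_im]
  ring

lemma corr_van {c : ℝ} (hs : ∀ x, x ∉ Icc c (c + Real.log 3) → g x = 0) {u : ℝ} (hu : Real.log 3 ≤ u) :
    corr g u = 0 := by
  unfold corr
  apply integral_eq_zero_of_ae
  have hne : ∀ᵐ t : ℝ, t ≠ c + Real.log 3 := by
    rw [ae_iff]
    simp
  filter_upwards [hne] with y hy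
  simp only [Pi.zero_apply]
  by_cases h1 : y ∈ Icc c (c + Real.log 3)
  · rw [hs (y - u), map_zero, mul_zero]
    intro h2
    apply hy
    linarith [h1.2, h2.1]
  · rw [hs y h1, zero_mul]

theorem JJ_eq (hg : ContDiff ℝ ∞ g) (h : TF g) {c : ℝ}
    (hs : ∀ x, x ∉ Icc c (c + Real.log 3) → g x = 0) :
    JJ (fun u => (corr g u).re) = aS * QS (fun v => Au (fun s => (Gs g (c + Real.log 3 / 2) s).re) v +
      Au (fun s => (Gs g (c + Real.log 3 / 2) s).im) v) := by
  obtain ⟨t1, t2⟩ := T1_re hg hs
  set f1 : ℝ → ℝ := fun s => (Gs g (c + Real.log 3 / 2) s).re with hf1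
  set f2 : ℝ → ℝ := fun s => (Gs g (c + Real.log 3 / 2) s).im with hf2
  set F : ℝ → ℝ := fun v => Au f1 v + Au f2 v with hF
  have hFc : Continuous F := (Au_cont t1).add (Au_cont t2)
  obtain ⟨L1, _, hL1⟩ := Au_lip t1
  obtain ⟨L2, _, hL2⟩ := Au_lip t2
  have hK : ∀ v, 0 ≤ v → v ≤ 2 → |F 0 - F v| ≤ (L1 + L2) * v := by
    intro v hv _
    have a1 := hL1 0 v
    have a2 := hL2 0 v
    rw [zero_sub, abs_neg, abs_of_nonneg hv] at a1 a2
    have e : F 0 - F v = (Au f1 0 - Au f1 v) + (Au f2 0 - Au f2 v) := by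
      simp only [hF]
      ring
    rw [e]
    refine (abs_add_le _ _).trans ?_
    linarith
  have hF2 : ∀ v, 2 ≤ v → F v = 0 := by
    intro v hv
    simp only [hF]
    rw [Au_van t1 hv, Au_van t2 hv, add_zero]
  have hR : (fun u => (corr g u).re) = fun u => aS * F (u / aS) := by
    funext u
    exact corr_re h _ u
  have hprime : ∑' n : ℕ, 2 * (ArithmeticFunction.vonMangoldt n / Real.sqrt n) * (corr g (Real.log n)).re =
      aS * (Real.sqrt 2 * Real.log 2 * F (5 / 4)) := by
    rw [tsum_eq_single 2]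
    · have h1 : (corr g (Real.log 2)).re = aS * F (Real.log 2 / aS) := congrFun hR (Real.log 2)
      rw [log2_div] at h1
      have h2 : ArithmeticFunction.vonMangoldt 2 = Real.log 2 := by
        rw [ArithmeticFunction.vonMangoldt_apply_prime Nat.prime_two]
        norm_num
      have h3 : Real.sqrt 2 * Real.sqrt 2 = 2 := Real.mul_self_sqrt (by norm_num)
      have h4 : Real.sqrt 2 ≠ 0 := by positivity
      push_cast
      rw [h1, h2]
      field_simp
      rw [pow_two, h3]
    · intro n hn
      rcases Nat.lt_or_ge n 3 with h3 | h3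
      · interval_cases n
        · simp
        · simp
        · exact absurd rfl hn
      · have : Real.log 3 ≤ Real.log n := Real.log_le_log (by norm_num) (by exact_mod_cast h3)
        rw [corr_van hs this]
        simp
  have harch := arch_scale aS_pos hFc hK hF2
  unfold JJ
  rw [hprime]
  have e0 : ∀ u, (corr g u).re = aS * F (u / aS) := fun u => congrFun hR u
  simp_rw [e0]
  rw [harch]
  unfold QS
  ring

/-- **Weil positivity for supports of length `log 3`** -/
theorem weil_pos {c : ℝ} (hg : ContDiff ℝ ∞ g) (hs : ∀ x, x ∉ Icc c (c + Real.log 3) → g x = 0) :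
    Summable (fun ρ : Zr => (mm ρ : ℂ) * (Tr g (ρ : ℂ) * conj (Tr g (1 - conj (ρ : ℂ))))) ∧
    ∃ r : ℝ, ∑' ρ : Zr, (mm ρ : ℂ) * (Tr g (ρ : ℂ) * conj (Tr g (1 - conj (ρ : ℂ)))) = (r : ℂ) ∧
      1 / 10 ^ 9 * (∫ x, ‖g x‖ ^ 2) ≤ r := by
  have h : TF g := ⟨hg, HasCompactSupport.intro isCompact_Icc hs⟩
  have e1 : (fun ρ : Zr => (mm ρ : ℂ) * (Tr g (ρ : ℂ) * conj (Tr g (1 - conj (ρ : ℂ))))) =
      fun ρ : Zr => tm (corr g) ρ := by
    funext ρ
    rw [tm_corr h]
  rw [e1]
  refine ⟨summable_tm h.corr, JJ fun u => (corr g u).re, weil_eq h, ?_⟩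
  rw [JJ_eq hg h hs]
  obtain ⟨t1, t2⟩ := T1_re hg hs
  obtain ⟨L1, _, hL1⟩ := Au_lip0 t1
  obtain ⟨L2, _, hL2⟩ := Au_lip0 t2
  rw [QS_add (Au_cont t1) (Au_cont t2) hL1 hL2]
  have h1 := real_pos t1
  have h2 := real_pos t2
  have h3 : (corr g 0).re = ∫ y, ‖g y‖ ^ 2 := by
    rw [corr_zero, Complex.ofReal_re]
  rw [corr_re h (c + Real.log 3 / 2) 0, zero_div] at h3
  rw [← h3]
  nlinarith [aS_pos]

end Pool.Agent.Helper61.W
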