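import Pool.Agent.Helper61.W.EF

set_option autoImplicit false

/-!
# Autocorrelations and Weil's functional
-/

namespace Pool.Agent.Helper61.W

open Complex Filter Topology Set MeasureTheory
open scoped ComplexConjugate ContDiff Convolution
open Pool.Agent.V11271.LI (Zr mm cfg_zeta zz)

variable {g : ℝ → ℂ}

/-- the reflected function -/
noncomputable def star' (g : ℝ → ℂ) (u : ℝ) : ℂ := conj (g (-u))

/-- the autocorrelation -/
noncomputable def corr (g : ℝ → ℂ) (u : ℝ) : ℂ := ∫ y : ℝ, g y * conj (g (y - u))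

lemma TF.star' (h : TF g) : TF (star' g) where
  smooth := (Complex.conjCLE.contDiff).comp (h.smooth.comp contDiff_neg)
  supp := by
    have h1 : HasCompactSupport (fun u : ℝ => g (-u)) := h.supp.comp_homeomorph (Homeomorph.neg ℝ)
    exact h1.comp_left (g := fun z : ℂ => conj z) (map_zero _)

lemma corr_eq_conv : corr g = (g ⋆[ContinuousLinearMap.mul ℝ ℂ, volume] star' g) := by
  funext u
  rw [convolution_def]
  unfold corr star'
  congr 1
  funext y
  rw [neg_sub]
  rfl

lemma TF.corr (h : TF g) : TF (corr g) := by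
  rw [corr_eq_conv]
  refine ⟨?_, ?_⟩
  · exact h.supp.contDiff_convolution_left _ h.smooth h.star'.cont.locallyIntegrable
  · exact h.supp.convolution _ h.star'.supp

lemma LT_star (h : TF g) (z : ℂ) : LT (star' g) z = conj (LT g (-conj z)) := by
  unfold LT
  rw [← integral_conj, ← integral_neg_eq_self (fun u : ℝ => conj (g u * cexp (-conj z * u)))]
  congr 1
  funext u
  unfold star'
  rw [map_mul, ← Complex.exp_conj]
  congr 2
  simp

lemma LT_corr (h : TF g) (z : ℂ) : LT (corr g) z = LT g z * conj (LT g (-conj z)) := by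
  rw [← LT_star h]
  have e1 : LT (corr g) z = ∫ u : ℝ, ((fun y : ℝ => g y * cexp (z * y)) ⋆[ContinuousLinearMap.mul ℝ ℂ, volume]
      (fun y : ℝ => star' g y * cexp (z * y))) u := by
    unfold LT
    congr 1
    funext u
    rw [corr_eq_conv, convolution_def, convolution_def, ← integral_mul_const]
    congr 1
    funext y
    simp only [ContinuousLinearMap.mul_apply']
    have : cexp (z * u) = cexp (z * y) * cexp (z * ((u - y : ℝ) : ℂ)) := by
      rw [← Complex.exp_add]
      congr 1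
      push_cast
      ring
    rw [this]
    ring
  rw [e1, integral_convolution _ (h.integrable z) (h.star'.integrable z)]
  rfl

lemma corr_neg (u : ℝ) : corr g (-u) = conj (corr g u) := by
  unfold corr
  rw [← integral_conj, ← integral_sub_right_eq_self (fun y : ℝ => g y * conj (g (y - -u))) u]
  congr 1
  funext y
  rw [map_mul, Complex.conj_conj, mul_comm]
  congr 2
  ring_nf

/-- the Fourier-Laplace transform, normalised at the critical line -/
noncomputable def Tr (g : ℝ → ℂ) (s : ℂ) : ℂ := ∫ x : ℝ, g x * cexp ((s - 1 / 2) * x)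

lemma Tr_eq (s : ℂ) : Tr g s = LT g (s - 1 / 2) := rfl

/-- the summand of Weil's functional -/
lemma tm_corr (h : TF g) (ρ : Zr) :
    tm (corr g) ρ = (mm ρ : ℂ) * (Tr g (ρ : ℂ) * conj (Tr g (1 - conj (ρ : ℂ)))) := by
  unfold tm
  rw [LT_corr h, Tr_eq, Tr_eq]
  congr 4
  rw [map_sub]
  have : conj (1 / 2 : ℂ) = 1 / 2 := by
    have : (1 / 2 : ℂ) = ((1 / 2 : ℝ) : ℂ) := by push_cast; rfl
    rw [this, Complex.conj_ofReal]
  rw [this]
  ring

/-- the real form of the right side -/
noncomputable def JJ (R : ℝ → ℝ) : ℝ :=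
  2 * (∫ u in Ioi (0 : ℝ), R u * Real.exp (1 / 2 * u)) -
    (Real.eulerMascheroniConstant + Real.log Real.pi) * R 0 +
    (∑' n : ℕ, (R 0 / (n + 1) - 2 * ∫ u in Ioi (0 : ℝ), R u * Real.exp (-(2 * n + 5 / 2) * u))) -
    ∑' n : ℕ, 2 * (ArithmeticFunction.vonMangoldt n / Real.sqrt n) * R (Real.log n)

lemma corr_zero (g : ℝ → ℂ) : corr g 0 = ((∫ y : ℝ, ‖g y‖ ^ 2 : ℝ) : ℂ) := by
  unfold corr
  rw [← integral_complex_ofReal]
  congr 1
  funext y
  rw [sub_zero, Complex.mul_conj, Complex.normSq_eq_norm_sq]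

lemma corr_add (u : ℝ) : corr g u + corr g (-u) = ((2 * (corr g u).re : ℝ) : ℂ) := by
  rw [corr_neg, Complex.add_conj]

/-- Weil's functional is real and equals `JJ` -/
theorem weil_eq (h : TF g) : ∑' ρ : Zr, tm (corr g) ρ = ((JJ fun u => (corr g u).re : ℝ) : ℂ) := by
  rw [explicit_formula h.corr]
  unfold JJ
  have e0 : corr g 0 = (((corr g 0).re : ℝ) : ℂ) := by
    rw [corr_zero, Complex.ofReal_re]
  have e1 : ∀ b : ℝ, ∫ u in Ioi (0 : ℝ), (corr g u + corr g (-u)) * cexp (b * u) =
      ((2 * ∫ u in Ioi (0 : ℝ), (corr g u).re * Real.exp (b * u) : ℝ) : ℂ) := by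
    intro b
    rw [← integral_const_mul, ← integral_complex_ofReal]
    congr 1
    funext u
    rw [corr_add]
    push_cast
    ring
  have e2 : ∫ u in Ioi (0 : ℝ), (corr g u + corr g (-u)) * cexp (1 / 2 * u) =
      ((2 * ∫ u in Ioi (0 : ℝ), (corr g u).re * Real.exp (1 / 2 * u) : ℝ) : ℂ) := by
    have := e1 (1 / 2)
    push_cast at this ⊢
    exact this
  have e3 : ∀ n : ℕ, corr g 0 / ((n : ℂ) + 1) -
      ∫ u in Ioi (0 : ℝ), (corr g u + corr g (-u)) * cexp (-(2 * n + 5 / 2) * u) =
      (((corr g 0).re / (n + 1) - 2 * ∫ u in Ioi (0 : ℝ), (corr g u).re * Real.exp (-(2 * n + 5 / 2) * u) : ℝ) : ℂ) := by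
    intro n
    have := e1 (-(2 * n + 5 / 2))
    push_cast at this ⊢
    rw [this]
    congr 1
    rw [← e0]
  have e4 : ∀ n : ℕ, ((ArithmeticFunction.vonMangoldt n / Real.sqrt n : ℝ) : ℂ) *
        (corr g (Real.log n) + corr g (-Real.log n)) =
      ((2 * (ArithmeticFunction.vonMangoldt n / Real.sqrt n) * (corr g (Real.log n)).re : ℝ) : ℂ) := by
    intro n
    rw [corr_add]
    push_cast
    ring
  rw [e2, tsum_congr e3, tsum_congr e4, ← Complex.ofReal_tsum, ← Complex.ofReal_tsum]
  conv_lhs => rw [e0]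
  rw [← Complex.ofReal_mul, ← Complex.ofReal_sub, ← Complex.ofReal_add, ← Complex.ofReal_sub]
  rfl

end Pool.Agent.Helper61.W
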