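import Pool.Agent.Helper61.W.Fu2

set_option autoImplicit false

/-!
# Reduction of positivity to a finite-dimensional inequality
-/

namespace Pool.Agent.Helper61.W

open Filter Topology Set MeasureTheory Polynomial

variable {f g h : ℝ → ℝ}

lemma Mop_bound {m : ℝ → ℝ} (hm : Continuous m) (hg : Continuous g) :
    ∃ B, ∀ s ∈ Icc (-1 : ℝ) 1, |Mop m g s| ≤ B := by
  obtain ⟨M', hM'⟩ := exists_bd hg
  obtain ⟨B, hB⟩ := isCompact_Icc.exists_bound_of_continuousOn (s := Icc (0 : ℝ) 2)
    (f := m) hm.continuousOn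
  have h0' : 0 ≤ M' := (abs_nonneg _).trans (hM' 0 (by norm_num))
  refine ⟨(M' * B) * 2, fun s hs => ?_⟩
  unfold Mop
  have := norm_integral_le_of_norm_le_const (μ := mu1) (f := fun t => g t * m |s - t|)
    (C := M' * B) (by
      filter_upwards [ae_mem] with t ht
      rw [Real.norm_eq_abs, abs_mul]
      have h2 : |m (|s - t|)| ≤ B := hB _ ⟨abs_nonneg _, abs_sub_le_two hs ht⟩
      exact mul_le_mul (hM' t ht) h2 (abs_nonneg _) h0')
  rwa [mu1_real_univ, Real.norm_eq_abs] at this

lemma Mop_meas {m : ℝ → ℝ} (hm : Continuous m) (hg : Continuous g) : Measurable (Mop m g) := by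
  unfold Mop
  apply StronglyMeasurable.measurable
  apply StronglyMeasurable.integral_prod_right (f := fun s t => g t * m |s - t|)
  exact (by fun_prop : Continuous fun z : ℝ × ℝ => g z.2 * m |z.1 - z.2|).stronglyMeasurable

/-- the function paired with the remainder -/
noncomputable def Yf {k : ℕ} (τ m : ℝ → ℝ) (v c : Fin k → ℝ) (p : ℝ[X]) (s : ℝ) : ℝ :=
  p.eval s * τ s + Mop m (fun t => p.eval t) s - ∑ i, c i * shp (v i) (fun t => p.eval t) s

/-- the form on polynomials -/
noncomputable def Af {k : ℕ} (τ m : ℝ → ℝ) (v c : Fin k → ℝ) (lam : ℝ) (p : ℝ[X]) : ℝ :=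
  1 / 2 * ip (fun s => p.eval s) (fun s => (Slin p).eval s) +
    lam * ip (fun s => p.eval s) (fun s => p.eval s) +
    1 / 2 * (∫ s, p.eval s ^ 2 * τ s ∂mu1) +
    1 / 2 * ip (fun s => p.eval s) (Mop m (fun s => p.eval s)) -
    ∑ i, c i * shf (v i) (fun s => p.eval s) (fun s => p.eval s)

theorem assemble {N k : ℕ} (hN : 2 ≤ N) (hf : T1 f) {τ m κ : ℝ → ℝ} {ε C δ μ d lam α β : ℝ}
    (v c c2 w : Fin k → ℝ)
    (hτc : Continuous τ) (hτ : ∀ s, -1 < s → s < 1 → τ s ≤ -Real.log (1 - s ^ 2))
    (hτ0 : ∀ s ∈ Icc (-1 : ℝ) 1, 0 ≤ τ s)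
    (hm : Continuous m) (hκ : Measurable κ) (hκm : ∀ v, 0 < v → v ≤ 2 → |κ v - m v| ≤ ε)
    (hμ : ∀ v, 0 ≤ v → v ≤ 2 → |m v - α - β * v ^ 2| ≤ μ)
    (hv0 : ∀ i, 0 ≤ v i) (hv2 : ∀ i, v i ≤ 2) (hc : ∀ i, 0 ≤ c i)
    (hw : ∀ i, ∀ h : ℝ → ℝ, Continuous h → |shf (v i) h h| ≤ w i * ip h h)
    (hlam : lam + δ ≤ Real.log 2 + C - 2 * ε - ∑ i, |c2 i - c i|)
    (hd0 : 0 < d) (hd : d ≤ Hn N + lam - μ - ∑ i, c i * w i)
    {p r : ℝ[X]} (hp : p ∈ degreeLT ℝ N) (hr : r ∈ degreeLT ℝ N)
    (hperp : ∀ q ∈ degreeLT ℝ N, ip (fun s => q.eval s) (fun s => f s - p.eval s) = 0)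
    (hcert : 1 / (4 * d) * ∫ s, (Yf τ m v c p s - r.eval s) ^ 2 ∂mu1 ≤ Af τ m v c lam p) :
    δ * Au f 0 ≤ (∫ v in (0 : ℝ)..2, (Au f 0 - Au f v) / v) + C * Au f 0 +
      (∫ v in (0 : ℝ)..2, Au f v * κ v) - ∑ i, c2 i * Au f (v i) := by
  set P : ℝ → ℝ := fun s => p.eval s with hP
  set h : ℝ → ℝ := fun s => f s - P s with hh
  have hPC : ContDiff ℝ 1 P := contDiff_eval p
  have hhC : ContDiff ℝ 1 h := hf.c1.sub hPC
  have hPc := hPC.continuous
  have hhc := hhC.continuous
  have hfc := hf.cont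
  have hfe : f = fun s => P s + h s := by
    funext s
    simp only [hh]
    ring
  have hfe1 : f = fun s => 1 * P s + h s := by
    funext s
    simp only [hh]
    ring
  -- orthogonality
  have hPh : ip h P = 0 := by
    rw [ip_comm]
    exact hperp p hp
  have hph2 : ip h (fun s => (Slin p).eval s) = 0 := by
    rw [ip_comm]
    exact hperp _ (Slin_mem hp)
  have hrh : ip h (fun s => r.eval s) = 0 := by
    rw [ip_comm]
    exact hperp r hr
  have h0 : ∫ s, h s ∂mu1 = 0 := by
    have := hperp 1 (by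
      rw [← pow_zero (X : ℝ[X])]
      exact X_pow_mem (by omega))
    simpa [ip] using this
  have h1 : ∫ s, h s * s ∂mu1 = 0 := by
    have := hperp X (by
      rw [← pow_one (X : ℝ[X])]
      exact X_pow_mem (by omega))
    unfold ip at this
    simp only [eval_X] at this
    rw [← this]
    congr 1
    funext s
    ring
  -- squares
  have hff : ip f f = ip P P + ip h h := by
    have e : ip f f = ip P P + 2 * ip h P + ip h h := by
      conv_lhs => rw [hfe]
      have a1 : ip (fun s => P s + h s) (fun s => P s + h s) =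
          ip (fun s => P s + h s) P + ip (fun s => P s + h s) h :=
        ip_add_right (by fun_prop) hPc hhc
      have a2 : ip P (fun s => P s + h s) = ip P P + ip P h := ip_add_right hPc hPc hhc
      have a3 : ip h (fun s => P s + h s) = ip h P + ip h h := ip_add_right hhc hPc hhc
      rw [a1, ip_comm (fun s => P s + h s) P, ip_comm (fun s => P s + h s) h, a2, a3, ip_comm P h]
      ring
    rw [e, hPh]
    ring
  -- (1) energy
  have hA := fact_A hf hτc hτ
  have hE : E2 f f = 2 * ip P (fun s => (Slin p).eval s) + E2 h h := by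
    conv_lhs => rw [hfe1]
    rw [E2_comb hPC hhC]
    have e1 : E2 P P = 2 * ip P (fun s => (Slin p).eval s) := E2_poly hPC p
    have e2 : E2 P h = 2 * ip h (fun s => (Slin p).eval s) := E2_poly hhC p
    rw [e1, e2, hph2]
    ring
  have hgap := spec_gap N hhC hperp
  -- (3) potential
  have hpot : ∫ s, f s ^ 2 * (Real.log 4 + τ s) ∂mu1 = Real.log 4 * ip f f +
      ((∫ s, P s ^ 2 * τ s ∂mu1) + 2 * ip h (fun s => P s * τ s) + ∫ s, h s ^ 2 * τ s ∂mu1) := by
    have j1 : Integrable (fun s => Real.log 4 * (f s * f s)) mu1 := integrable_cont (by fun_prop)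
    have j2 : Integrable (fun s => P s ^ 2 * τ s) mu1 := integrable_cont (by fun_prop)
    have j3 : Integrable (fun s => h s * (P s * τ s)) mu1 := integrable_cont (by fun_prop)
    have j4 : Integrable (fun s => h s ^ 2 * τ s) mu1 := integrable_cont (by fun_prop)
    have j23 : Integrable (fun s => P s ^ 2 * τ s + 2 * (h s * (P s * τ s))) mu1 :=
      j2.add (j3.const_mul 2)
    have j234 : Integrable (fun s => P s ^ 2 * τ s + 2 * (h s * (P s * τ s)) + h s ^ 2 * τ s) mu1 :=
      j23.add j4
    unfold ip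
    rw [← integral_const_mul (r := Real.log 4), ← integral_const_mul (r := 2),
      ← integral_add j2 (j3.const_mul 2), ← integral_add j23 j4, ← integral_add j1 j234]
    congr 1
    funext s
    simp only [hh]
    ring
  have hτh : 0 ≤ ∫ s, h s ^ 2 * τ s ∂mu1 := by
    apply integral_nonneg_of_ae
    filter_upwards [ae_mem] with s hs
    exact mul_nonneg (sq_nonneg _) (hτ0 s hs)
  -- (5) kernel
  have hB := fact_B hf hm hκ hκm
  have hM : ip f (Mop m f) = ip P (Mop m P) + 2 * ip h (Mop m P) + ip h (Mop m h) := by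
    conv_lhs => rw [hfe]
    exact ip_Mop_add hm hPc hhc
  have hMh := ip_Mop_perp hm hhc h0 h1 hμ
  -- (6) shifts
  have hAu0 : Au f 0 = ip f f := Au_zero hf
  have hff0 : 0 ≤ ip f f := ip_self_nonneg f
  have hS : ∀ i, c2 i * Au f (v i) ≤ |c2 i - c i| * ip f f +
      c i * (shf (v i) P P + ip h (shp (v i) P)) + c i * w i * ip h h := by
    intro i
    have e1 : Au f (v i) = shf (v i) P P + ip h (shp (v i) P) + shf (v i) h h := by
      rw [Au_shf hf (hv0 i) (hv2 i), shp_ip (hv0 i) (hv2 i) hPc hhc]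
      conv_lhs => rw [hfe]
      exact shf_add hPc hhc
    have e2 : (c2 i - c i) * Au f (v i) ≤ |c2 i - c i| * ip f f := by
      rw [← hAu0]
      refine (le_abs_self _).trans ?_
      rw [abs_mul]
      exact mul_le_mul_of_nonneg_left (Au_bound hf _) (abs_nonneg _)
    have e3 : c i * shf (v i) h h ≤ c i * w i * ip h h := by
      rw [mul_assoc]
      exact mul_le_mul_of_nonneg_left ((le_abs_self _).trans (hw i h hhc)) (hc i)
    have e4 : c2 i * Au f (v i) = (c2 i - c i) * Au f (v i) +
        c i * (shf (v i) P P + ip h (shp (v i) P) + shf (v i) h h) := by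
      rw [← e1]
      ring
    rw [e4]
    linarith
  have hSsum : ∑ i, c2 i * Au f (v i) ≤ (∑ i, |c2 i - c i|) * ip f f +
      (∑ i, c i * shf (v i) P P) + (∑ i, c i * ip h (shp (v i) P)) + (∑ i, c i * w i) * ip h h := by
    refine (Finset.sum_le_sum fun i _ => hS i).trans (le_of_eq ?_)
    rw [Finset.sum_add_distrib, Finset.sum_add_distrib, Finset.sum_mul, Finset.sum_mul]
    have : ∑ i, c i * (shf (v i) P P + ip h (shp (v i) P)) =
        (∑ i, c i * shf (v i) P P) + ∑ i, c i * ip h (shp (v i) P) := by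
      rw [← Finset.sum_add_distrib]
      apply Finset.sum_congr rfl
      intro i _
      ring
    rw [this]
    ring
  -- (7) the cross term
  have hmh := hhc.measurable
  have hmP := hPc.measurable
  obtain ⟨Bh, hBh⟩ := exists_bd hhc
  have hBh0 : 0 ≤ Bh := (abs_nonneg _).trans (hBh 0 (by norm_num))
  have iM : Integrable (fun s => h s * Mop m P s) mu1 := by
    obtain ⟨B, hB⟩ := Mop_bound hm hPc
    have := Mop_meas hm hPc
    refine integrable_bdd (C := Bh * B) (by fun_prop) fun s hs => ?_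
    rw [abs_mul]
    exact mul_le_mul (hBh s hs) (hB s hs) (abs_nonneg _) hBh0
  have iS : ∀ i, Integrable (fun s => h s * shp (v i) P s) mu1 := by
    intro i
    obtain ⟨B, hB⟩ := shp_bound (v := v i) hPc
    have := shp_meas (v := v i) hPc
    refine integrable_bdd (C := Bh * B) (by fun_prop) fun s hs => ?_
    rw [abs_mul]
    exact mul_le_mul (hBh s hs) (hB s hs) (abs_nonneg _) hBh0
  have hcross : ∫ s, h s * (Yf τ m v c p s - r.eval s) ∂mu1 = ip h (fun s => P s * τ s) +
      ip h (Mop m P) - ∑ i, c i * ip h (shp (v i) P) := by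
    have j1 : Integrable (fun s => h s * (P s * τ s)) mu1 := integrable_cont (by fun_prop)
    have j2 : Integrable (fun s => h s * r.eval s) mu1 := integrable_cont (by fun_prop)
    have j12 : Integrable (fun s => h s * (P s * τ s) - h s * r.eval s) mu1 := j1.sub j2
    have j3 : Integrable (fun s => ∑ i, c i * (h s * shp (v i) P s)) mu1 :=
      integrable_finsetSum _ fun i _ => (iS i).const_mul _
    have j4 : Integrable (fun s => h s * (P s * τ s) - h s * r.eval s + h s * Mop m P s) mu1 :=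
      j12.add iM
    have e1 : ∀ s, h s * (Yf τ m v c p s - r.eval s) =
        h s * (P s * τ s) - h s * r.eval s + h s * Mop m P s - ∑ i, c i * (h s * shp (v i) P s) := by
      intro s
      have : ∑ i, c i * (h s * shp (v i) P s) = h s * ∑ i, c i * shp (v i) P s := by
        rw [Finset.mul_sum]
        apply Finset.sum_congr rfl
        intro i _
        ring
      rw [this]
      unfold Yf
      ring
    simp_rw [e1]
    rw [integral_sub j4 j3, integral_add j12 iM, integral_sub j1 j2,
      integral_finsetSum _ (fun i _ => (iS i).const_mul _)]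
    have e2 : ∫ s, h s * r.eval s ∂mu1 = 0 := hrh
    rw [e2]
    unfold ip
    simp_rw [integral_const_mul]
    ring
  obtain ⟨BY, hBY⟩ : ∃ B, ∀ s ∈ Icc (-1 : ℝ) 1, |Yf τ m v c p s - r.eval s| ≤ B := by
    obtain ⟨B1, hB1⟩ := exists_bd (f := fun s => P s * τ s - r.eval s) (by fun_prop)
    obtain ⟨B2, hB2⟩ := Mop_bound hm hPc
    choose B3 hB3 using fun i => shp_bound (v := v i) hPc
    refine ⟨B1 + B2 + ∑ i, c i * B3 i, fun s hs => ?_⟩
    have e : Yf τ m v c p s - r.eval s = (P s * τ s - r.eval s) + Mop m P s -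
        ∑ i, c i * shp (v i) P s := by
      unfold Yf
      simp only [hP]
      ring
    rw [e]
    refine (abs_sub _ _).trans (add_le_add ((abs_add_le _ _).trans (add_le_add (hB1 s hs) (hB2 s hs))) ?_)
    refine (Finset.abs_sum_le_sum_abs _ _).trans (Finset.sum_le_sum fun i _ => ?_)
    rw [abs_mul, abs_of_nonneg (hc i)]
    exact mul_le_mul_of_nonneg_left (hB3 i s hs) (hc i)
  have hYm : Measurable fun s => Yf τ m v c p s - r.eval s := by
    unfold Yf
    have h1 := Mop_meas hm hPc
    have h2 : ∀ i, Measurable (shp (v i) P) := fun i => shp_meas hPc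
    have h3 : Measurable fun s => ∑ i, c i * shp (v i) P s :=
      Finset.measurable_sum _ fun i _ => (h2 i).const_mul _
    have h4 : Measurable fun s => p.eval s * τ s := (by fun_prop : Continuous fun s => p.eval s * τ s).measurable
    have h5 : Measurable fun s => r.eval s := r.continuous.measurable
    exact ((h4.add h1).sub h3).sub h5
  have hBY0 : 0 ≤ BY := (abs_nonneg _).trans (hBY 0 (by norm_num))
  have iY : Integrable (fun s => (Yf τ m v c p s - r.eval s) ^ 2) mu1 := by
    refine integrable_bdd (C := BY ^ 2) (hYm.pow_const 2) fun s hs => ?_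
    rw [abs_pow]
    exact pow_le_pow_left₀ (abs_nonneg _) (hBY s hs) 2
  have iYh : Integrable (fun s => h s * (Yf τ m v c p s - r.eval s)) mu1 := by
    refine integrable_bdd (C := Bh * BY) (hmh.mul hYm) fun s hs => ?_
    rw [abs_mul]
    exact mul_le_mul (hBh s hs) (hBY s hs) (abs_nonneg _) hBh0
  have hyoung : -(d * ip h h) - 1 / (4 * d) * ∫ s, (Yf τ m v c p s - r.eval s) ^ 2 ∂mu1 ≤
      ∫ s, h s * (Yf τ m v c p s - r.eval s) ∂mu1 := by
    have j1 : Integrable (fun s => -(d * (h s * h s))) mu1 := integrable_cont (by fun_prop)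
    have j2 : Integrable (fun s => 1 / (4 * d) * (Yf τ m v c p s - r.eval s) ^ 2) mu1 := iY.const_mul _
    have e1 : -(d * ip h h) - 1 / (4 * d) * ∫ s, (Yf τ m v c p s - r.eval s) ^ 2 ∂mu1 =
        ∫ s, (-(d * (h s * h s)) - 1 / (4 * d) * (Yf τ m v c p s - r.eval s) ^ 2) ∂mu1 := by
      rw [integral_sub j1 j2, integral_const_mul, integral_neg, integral_const_mul]
      rfl
    rw [e1]
    have key : ∀ x y : ℝ, -(d * (x * x)) - 1 / (4 * d) * y ^ 2 ≤ x * y := by
      intro x y
      have : 0 ≤ (2 * d * x + y) ^ 2 / (4 * d) := by positivity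
      have e : (2 * d * x + y) ^ 2 / (4 * d) = d * (x * x) + x * y + 1 / (4 * d) * y ^ 2 := by
        field_simp
        ring
      rw [e] at this
      linarith
    exact integral_mono (j1.sub j2) iYh fun s => key _ _
  -- conclusion
  have hhh : 0 ≤ ip h h := ip_self_nonneg h
  have hPP : 0 ≤ ip P P := ip_self_nonneg P
  have hlog4 : Real.log 4 = 2 * Real.log 2 := by
    rw [show (4 : ℝ) = 2 ^ 2 by norm_num, Real.log_pow]
    norm_num
  unfold Af at hcert
  rw [hpot, hE, hlog4] at hA
  rw [hM] at hB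
  rw [hAu0] at hA hB ⊢
  have hl := mul_le_mul_of_nonneg_right hlam hff0
  have hdd := mul_le_mul_of_nonneg_right hd hhh
  rw [hcross] at hyoung
  have hlX : lam * ip f f = lam * ip P P + lam * ip h h := by
    rw [hff]
    ring
  have e1 : (lam + δ) * ip f f = lam * ip f f + δ * ip f f := by ring
  have e2 : (Real.log 2 + C - 2 * ε - ∑ i, |c2 i - c i|) * ip f f =
      Real.log 2 * ip f f + C * ip f f - 2 * (ε * ip f f) - (∑ i, |c2 i - c i|) * ip f f := by ring
  have e3 : (Hn N + lam - μ - ∑ i, c i * w i) * ip h h =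
      Hn N * ip h h + lam * ip h h - μ * ip h h - (∑ i, c i * w i) * ip h h := by ring
  rw [e1, e2] at hl
  rw [e3] at hdd
  linarith

end Pool.Agent.Helper61.W
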