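import Pool.Agent.Helper61.W.Ce

set_option autoImplicit false

/-!
# The certificate for one parity
-/

namespace Pool.Agent.Helper61.W

open Filter Topology Set MeasureTheory Polynomial

variable {P Y G f g : ℝ → ℝ}

/-- parity -/
def Par (e : ℕ) (F : ℝ → ℝ) : Prop := ∀ s, F (-s) = (-1) ^ e * F s

lemma neg_one_sq_pow (e : ℕ) : ((-1 : ℝ) ^ e) * (-1) ^ e = 1 := by
  rw [← mul_pow]; simp

lemma even_int {F : ℝ → ℝ} (hF : Continuous F) (h : ∀ s, F (-s) = F s) :
    ∫ s in (-1 : ℝ)..1, F s = 2 * ∫ s in (0 : ℝ)..1, F s := by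
  rw [← intervalIntegral.integral_add_adjacent_intervals (hF.intervalIntegrable (-1) 0)
    (hF.intervalIntegrable 0 1)]
  have h1 := intervalIntegral.integral_comp_neg (a := 0) (b := 1) F
  rw [neg_zero] at h1
  rw [← h1]
  simp_rw [h]
  ring

lemma shp_sq {v : ℝ} (hv1 : 1 ≤ v) (hv2 : v ≤ 2) (hP : Continuous P) :
    ∫ s, (shp v P s) ^ 2 ∂mu1 = (∫ s in (v - 1)..1, P s ^ 2) + ∫ s in (-1 : ℝ)..(1 - v), P s ^ 2 := by
  obtain ⟨B, hB⟩ := shp_bound (v := v) hP
  have hm : Measurable fun s => (shp v P s) ^ 2 := (shp_meas hP).pow_const 2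
  have hii : ∀ a b : ℝ, -1 ≤ a → a ≤ b → b ≤ 1 →
      IntervalIntegrable (fun s => (shp v P s) ^ 2) volume a b := by
    intro a b h1 h2 h3
    refine ii_bdd (C := B ^ 2) h2 hm fun s hs hs' => ?_
    rw [abs_pow]
    exact pow_le_pow_left₀ (abs_nonneg _) (hB s ⟨by linarith, by linarith⟩) 2
  rw [int_mu1, ← intervalIntegral.integral_add_adjacent_intervals (hii (-1) (1 - v) le_rfl
      (by linarith) (by linarith)) (hii (1 - v) 1 (by linarith) (by linarith) le_rfl),
    ← intervalIntegral.integral_add_adjacent_intervals (hii (1 - v) (v - 1) (by linarith)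
      (by linarith) (by linarith)) (hii (v - 1) 1 (by linarith) (by linarith) le_rfl)]
  have e1 : ∫ s in (-1 : ℝ)..(1 - v), (shp v P s) ^ 2 = ∫ s in (v - 1)..1, P s ^ 2 := by
    have h1 : ∫ s in (-1 : ℝ)..(1 - v), (shp v P s) ^ 2 = ∫ s in (-1 : ℝ)..(1 - v), P (s + v) ^ 2 := by
      apply intervalIntegral.integral_congr_ae
      have hne : ∀ᵐ t : ℝ, t ≠ 1 - v := by
        rw [ae_iff]
        simp
      filter_upwards [hne] with s hs1 hs
      rw [uIoc_of_le (by linarith)] at hs
      unfold shp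
      rw [if_neg (by linarith [hs.2]), if_pos (lt_of_le_of_ne hs.2 hs1), zero_add]
    rw [h1]
    have h2 := intervalIntegral.integral_comp_add_right (a := -1) (b := 1 - v) (fun s => P s ^ 2) v
    rw [h2]
    congr 1 <;> ring
  have e2 : ∫ s in (1 - v)..(v - 1), (shp v P s) ^ 2 = 0 := by
    have h1 : ∫ s in (1 - v)..(v - 1), (shp v P s) ^ 2 = ∫ s in (1 - v)..(v - 1), (0 : ℝ) := by
      apply intervalIntegral.integral_congr_ae
      refine Eventually.of_forall fun s hs => ?_
      rw [uIoc_of_le (by linarith)] at hs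
      unfold shp
      rw [if_neg (by linarith [hs.2]), if_neg (by linarith [hs.1])]
      ring
    rw [h1]
    simp
  have e3 : ∫ s in (v - 1)..(1 : ℝ), (shp v P s) ^ 2 = ∫ s in (-1 : ℝ)..(1 - v), P s ^ 2 := by
    have h1 : ∫ s in (v - 1)..(1 : ℝ), (shp v P s) ^ 2 = ∫ s in (v - 1)..(1 : ℝ), P (s - v) ^ 2 := by
      apply intervalIntegral.integral_congr_ae
      refine Eventually.of_forall fun s hs => ?_
      rw [uIoc_of_le (by linarith)] at hs
      unfold shp
      rw [if_pos (by linarith [hs.1]), if_neg (by linarith [hs.1]), add_zero]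
    rw [h1]
    have h2 := intervalIntegral.integral_comp_sub_right (a := v - 1) (b := 1) (fun s => P s ^ 2) v
    rw [h2]
    congr 1
    ring
  rw [e1, e2, e3]
  ring

lemma shf_par {e : ℕ} {v : ℝ} (hf : Par e f) (hg : Par e g) : shf v f g = shf v g f := by
  unfold shf
  have h1 := intervalIntegral.integral_comp_sub_left (a := -1 + v) (b := 1)
    (fun s => g s * f (s - v)) v
  rw [show v - 1 = -1 + v by ring, show v - (-1 + v) = 1 by ring] at h1
  rw [← h1]
  congr 1
  funext s
  have e1 : v - s - v = -s := by ring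
  have e2 : v - s = -(s - v) := by ring
  rw [e1, e2, hf s, hg (s - v)]
  have := neg_one_sq_pow e
  linear_combination -(f s * g (s - v)) * this

lemma sq_par {e : ℕ} {v : ℝ} (hf : Par e f) :
    ∫ s in (-1 : ℝ)..(1 - v), f s ^ 2 = ∫ s in (v - 1)..1, f s ^ 2 := by
  have h1 := intervalIntegral.integral_comp_neg (a := v - 1) (b := 1) (fun s => f s ^ 2)
  rw [show -(v - 1) = 1 - v by ring] at h1
  rw [← h1]
  congr 1
  funext s
  rw [hf s, mul_pow, ← pow_mul, mul_comm e 2, pow_mul]
  simp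

lemma evP_par (e : ℕ) (l : List ℚ) : Par e (evP e l) := by
  intro s
  unfold evP
  rw [neg_pow]
  simp
  ring

/-- bilinearity of the integral -/
lemma int_bilin {φ ψ : ℕ → ℝ → ℝ} (hφ : ∀ j, Continuous (φ j)) (hψ : ∀ j, Continuous (ψ j))
    (x : ℕ → ℝ) (n : ℕ) (a b : ℝ) :
    ∫ s in a..b, (∑ j ∈ Finset.range n, x j * φ j s) * (∑ k ∈ Finset.range n, x k * ψ k s) =
      ∑ k ∈ Finset.range n, ∑ j ∈ Finset.range n, x k * x j * ∫ s in a..b, φ j s * ψ k s := by
  have e1 : ∀ s, (∑ j ∈ Finset.range n, x j * φ j s) * (∑ k ∈ Finset.range n, x k * ψ k s) =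
      ∑ k ∈ Finset.range n, ∑ j ∈ Finset.range n, x k * x j * (φ j s * ψ k s) := by
    intro s
    rw [Finset.sum_mul_sum, Finset.sum_comm]
    apply Finset.sum_congr rfl
    intro k _
    apply Finset.sum_congr rfl
    intro j _
    ring
  simp_rw [e1]
  rw [intervalIntegral.integral_finsetSum (fun k _ => Continuous.intervalIntegrable (by
    have := hφ; have := hψ; fun_prop) _ _)]
  apply Finset.sum_congr rfl
  intro k _
  rw [intervalIntegral.integral_finsetSum (fun j _ => Continuous.intervalIntegrable (by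
    have := hφ j; have := hψ k; fun_prop) _ _)]
  apply Finset.sum_congr rfl
  intro j _
  rw [intervalIntegral.integral_const_mul]

lemma Mop_sum {m : ℝ → ℝ} (hm : Continuous m) {φ : ℕ → ℝ → ℝ} (hφ : ∀ j, Continuous (φ j))
    (x : ℕ → ℝ) (n : ℕ) (s : ℝ) :
    Mop m (fun t => ∑ k ∈ Finset.range n, x k * φ k t) s =
      ∑ k ∈ Finset.range n, x k * Mop m (φ k) s := by
  unfold Mop
  have e1 : ∀ t, (∑ k ∈ Finset.range n, x k * φ k t) * m |s - t| =
      ∑ k ∈ Finset.range n, x k * (φ k t * m |s - t|) := by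
    intro t
    rw [Finset.sum_mul]
    apply Finset.sum_congr rfl
    intro k _
    ring
  simp_rw [e1]
  rw [integral_finsetSum _ (fun k _ => (integrable_cont (by
    have := hφ k; fun_prop)).const_mul _)]
  apply Finset.sum_congr rfl
  intro k _
  rw [integral_const_mul]

theorem block_cert {e n N : ℕ} (he : e = 0 ∨ e = 1)
    (mh tau : List ℚ) {c d lam v : ℚ} (hv1 : 1 ≤ v) (hv2 : v ≤ 2) (hd : 0 < d)
    (RR ys : ℕ → List ℚ) (rows : List (List ℚ))
    (hR : ∀ k < n, 2 * (RR k).length + e ≤ N + 1)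
    (hy : ∀ k < n, ys k = yF mh tau e k (RR k))
    (hM : ∀ k < n, ∀ j < n, (((rows.getD k []).getD j 0 : ℚ) : ℝ) =
      Mkj e c d v (ys j) (ys k) (gF lam e k (ys k) (RR k)) k j)
    (hpsd : psdL n rows = true) (x : ℕ → ℝ) :
    ∃ r ∈ degreeLT ℝ N, 1 / (4 * (d : ℝ)) * ∫ s, (Yf (k := 1) (fun s => evL tau (s ^ 2)) (evL mh)
        (fun _ => (v : ℝ)) (fun _ => (c : ℝ)) (∑ k ∈ Finset.range n, x k • (X : ℝ[X]) ^ (2 * k + e)) s -
          r.eval s) ^ 2 ∂mu1 ≤
      Af (k := 1) (fun s => evL tau (s ^ 2)) (evL mh) (fun _ => (v : ℝ)) (fun _ => (c : ℝ)) lam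
        (∑ k ∈ Finset.range n, x k • (X : ℝ[X]) ^ (2 * k + e)) := by
  have hv1' : (1 : ℝ) ≤ v := by exact_mod_cast hv1
  have hv2' : (v : ℝ) ≤ 2 := by exact_mod_cast hv2
  have hd' : (0 : ℝ) < d := by exact_mod_cast hd
  set p : ℝ[X] := ∑ k ∈ Finset.range n, x k • (X : ℝ[X]) ^ (2 * k + e) with hp
  set r : ℝ[X] := ∑ k ∈ Finset.range n, x k • (X ^ e * toPoly (RR k)) with hr
  refine ⟨r, ?_, ?_⟩
  · apply Submodule.sum_mem
    intro k hk
    exact Submodule.smul_mem _ _ (toPoly_mem _ _ (hR k (Finset.mem_range.mp hk)))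
  -- the functions
  set P : ℝ → ℝ := fun s => ∑ k ∈ Finset.range n, x k * s ^ (2 * k + e) with hP
  set Y : ℝ → ℝ := fun s => ∑ k ∈ Finset.range n, x k * evP e (ys k) s with hY
  set G : ℝ → ℝ := fun s => ∑ k ∈ Finset.range n, x k * evP e (gF lam e k (ys k) (RR k)) s with hG
  have hpe : ∀ s, p.eval s = P s := by
    intro s
    simp only [hp, hP, eval_finsetSum, eval_smul, eval_pow, eval_X, smul_eq_mul]
  have hre : ∀ s, r.eval s = ∑ k ∈ Finset.range n, x k * evP e (RR k) s := by
    intro s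
    simp only [hr, eval_finsetSum, eval_smul, smul_eq_mul, toPoly_eval]
  have hpef : (fun s => p.eval s) = P := funext hpe
  have cE : ∀ k, Continuous (evP e (ys k)) := fun k => evP_cont _ _
  have cG' : ∀ k, Continuous (evP e (gF lam e k (ys k) (RR k))) := fun k => evP_cont _ _
  have cX : ∀ k : ℕ, Continuous fun s : ℝ => s ^ (2 * k + e) := fun k => by fun_prop
  have cP : Continuous P := by
    rw [← hpef]
    exact p.continuous
  have cY : Continuous Y := by
    rw [hY]
    fun_prop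
  have cG : Continuous G := by
    rw [hG]
    fun_prop
  have cm := evL_continuous mh
  have ct0 := evL_continuous tau
  have ct : Continuous fun s : ℝ => evL tau (s ^ 2) := by fun_prop
  have hPp : Par e P := by
    intro s
    simp only [hP]
    rw [Finset.mul_sum]
    apply Finset.sum_congr rfl
    intro k _
    rw [neg_pow, pow_add, pow_mul]
    simp
    ring
  have hYp : Par e Y := by
    intro s
    simp only [hY]
    rw [Finset.mul_sum]
    apply Finset.sum_congr rfl
    intro k _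
    rw [evP_par e (ys k) s]
    ring
  have hGp : Par e G := by
    intro s
    simp only [hG]
    rw [Finset.mul_sum]
    apply Finset.sum_congr rfl
    intro k _
    rw [evP_par e _ s]
    ring
  -- the kernel operator
  have hMs : ∀ s, Mop (evL mh) P s = ∑ k ∈ Finset.range n, x k * Mop (evL mh) (fun t => t ^ (2 * k + e)) s :=
    fun s => Mop_sum cm cX x n s
  have hYf : ∀ s ∈ Icc (-1 : ℝ) 1, Yf (k := 1) (fun s => evL tau (s ^ 2)) (evL mh)
      (fun _ => (v : ℝ)) (fun _ => (c : ℝ)) p s - r.eval s = Y s - c * shp v P s := by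
    intro s hs
    unfold Yf
    rw [hpef, hpe, hre, hMs]
    simp only [Finset.univ_unique, Finset.sum_const, Finset.card_singleton, one_smul]
    simp only [hP, hY]
    have : ∑ k ∈ Finset.range n, x k * evP e (ys k) s =
        (∑ k ∈ Finset.range n, x k * s ^ (2 * k + e)) * evL tau (s ^ 2) +
        (∑ k ∈ Finset.range n, x k * Mop (evL mh) (fun t => t ^ (2 * k + e)) s) -
        ∑ k ∈ Finset.range n, x k * evP e (RR k) s := by
      rw [Finset.sum_mul, ← Finset.sum_add_distrib, ← Finset.sum_sub_distrib]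
      apply Finset.sum_congr rfl
      intro k hk
      rw [hy k (Finset.mem_range.mp hk), yF_eval mh tau e k he (RR k) hs]
      ring
    rw [this]
    ring
  have hGe : ∀ s ∈ Icc (-1 : ℝ) 1, G s = (Slin p).eval s + 2 * lam * P s + P s * evL tau (s ^ 2) +
      Mop (evL mh) P s := by
    intro s hs
    have h1 : (Slin p).eval s = ∑ k ∈ Finset.range n, x k * (Slin (X ^ (2 * k + e))).eval s := by
      rw [hp, map_sum, eval_finsetSum]
      apply Finset.sum_congr rfl
      intro k _
      rw [map_smul, eval_smul, smul_eq_mul]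
    rw [hMs, h1]
    simp only [hP, hG]
    rw [Finset.mul_sum, Finset.sum_mul, ← Finset.sum_add_distrib, ← Finset.sum_add_distrib,
      ← Finset.sum_add_distrib]
    apply Finset.sum_congr rfl
    intro k hk
    rw [hy k (Finset.mem_range.mp hk), gF_eval mh tau lam e k he (RR k) hs]
    ring
  -- left side
  obtain ⟨B, hB⟩ := shp_bound (v := v) cP
  obtain ⟨BY, hBY⟩ := exists_bd cY
  have hB0 : 0 ≤ B := (abs_nonneg _).trans (hB 0 (by norm_num))
  have hBY0 : 0 ≤ BY := (abs_nonneg _).trans (hBY 0 (by norm_num))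
  have ms := shp_meas (v := v) cP
  have mY := cY.measurable
  have iYs : Integrable (fun s => Y s * shp v P s) mu1 := by
    refine integrable_bdd (C := BY * B) (mY.mul ms) fun s hs => ?_
    rw [abs_mul]
    exact mul_le_mul (hBY s hs) (hB s hs) (abs_nonneg _) hBY0
  have iss : Integrable (fun s => (shp v P s) ^ 2) mu1 := by
    refine integrable_bdd (C := B ^ 2) (ms.pow_const 2) fun s hs => ?_
    rw [abs_pow]
    exact pow_le_pow_left₀ (abs_nonneg _) (hB s hs) 2
  have iYY : Integrable (fun s => Y s * Y s) mu1 := integrable_cont (by fun_prop)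
  have hL : ∫ s, (Yf (k := 1) (fun s => evL tau (s ^ 2)) (evL mh)
      (fun _ => (v : ℝ)) (fun _ => (c : ℝ)) p s - r.eval s) ^ 2 ∂mu1 =
      2 * (∫ s in (0 : ℝ)..1, Y s * Y s) - 4 * c * (∫ s in ((v : ℝ) - 1)..1, Y s * P (s - v)) +
        2 * c ^ 2 * ∫ s in ((v : ℝ) - 1)..1, P s * P s := by
    have e1 : ∫ s, (Yf (k := 1) (fun s => evL tau (s ^ 2)) (evL mh)
        (fun _ => (v : ℝ)) (fun _ => (c : ℝ)) p s - r.eval s) ^ 2 ∂mu1 =
        ∫ s, (Y s * Y s - 2 * c * (Y s * shp v P s) + c ^ 2 * (shp v P s) ^ 2) ∂mu1 := by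
      apply integral_congr_ae
      filter_upwards [ae_mem] with s hs
      rw [hYf s hs]
      ring
    have j1 : Integrable (fun s => 2 * (c : ℝ) * (Y s * shp v P s)) mu1 := iYs.const_mul _
    have j2 : Integrable (fun s => (c : ℝ) ^ 2 * (shp v P s) ^ 2) mu1 := iss.const_mul _
    have j3 : Integrable (fun s => Y s * Y s - 2 * (c : ℝ) * (Y s * shp v P s)) mu1 := iYY.sub j1
    rw [e1, integral_add j3 j2, integral_sub iYY j1, integral_const_mul, integral_const_mul]
    have e2 : ∫ s, Y s * shp v P s ∂mu1 = 2 * ∫ s in ((v : ℝ) - 1)..1, Y s * P (s - v) := by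
      have h1 := shp_ip (v := v) (by linarith) hv2' cP cY
      unfold ip at h1
      rw [h1, shf_par (f := P) (g := Y) hPp hYp]
      unfold shf
      rw [show (-1 + (v : ℝ)) = v - 1 by ring]
      ring
    have e3 : ∫ s, (shp v P s) ^ 2 ∂mu1 = 2 * ∫ s in ((v : ℝ) - 1)..1, P s * P s := by
      rw [shp_sq hv1' hv2' cP, sq_par hPp]
      simp_rw [pow_two]
      ring
    have e4 : ∫ s, Y s * Y s ∂mu1 = 2 * ∫ s in (0 : ℝ)..1, Y s * Y s := by
      rw [int_mu1]
      apply even_int (by fun_prop)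
      intro s
      rw [hYp s]
      linear_combination (Y s * Y s) * neg_one_sq_pow e
    rw [e2, e3, e4]
    ring
  -- right side
  have hA : Af (k := 1) (fun s => evL tau (s ^ 2)) (evL mh) (fun _ => (v : ℝ)) (fun _ => (c : ℝ)) lam p =
      (∫ s in (0 : ℝ)..1, P s * G s) - c * ∫ s in ((v : ℝ) - 1)..1, P s * P (s - v) := by
    unfold Af
    simp only [hpe]
    simp only [Finset.univ_unique, Finset.sum_const, Finset.card_singleton, one_smul]
    have e1 : ∫ s, P s * G s ∂mu1 = 2 * ∫ s in (0 : ℝ)..1, P s * G s := by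
      rw [int_mu1]
      apply even_int (by fun_prop)
      intro s
      rw [hPp s, hGp s]
      linear_combination (P s * G s) * neg_one_sq_pow e
    obtain ⟨BM, hBM⟩ := Mop_bound cm cP
    have mM := Mop_meas cm cP
    obtain ⟨BP, hBP⟩ := exists_bd cP
    have hBP0 : 0 ≤ BP := (abs_nonneg _).trans (hBP 0 (by norm_num))
    have j1 : Integrable (fun s => P s * (Slin p).eval s) mu1 := integrable_cont (by fun_prop)
    have j2 : Integrable (fun s => 2 * (lam : ℝ) * (P s * P s)) mu1 := integrable_cont (by fun_prop)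
    have j3 : Integrable (fun s => P s ^ 2 * evL tau (s ^ 2)) mu1 := integrable_cont (by fun_prop)
    have j4 : Integrable (fun s => P s * Mop (evL mh) P s) mu1 := by
      refine integrable_bdd (C := BP * BM) (cP.measurable.mul mM) fun s hs => ?_
      rw [abs_mul]
      exact mul_le_mul (hBP s hs) (hBM s hs) (abs_nonneg _) hBP0
    have j12 : Integrable (fun s => P s * (Slin p).eval s + 2 * (lam : ℝ) * (P s * P s)) mu1 := j1.add j2
    have j123 : Integrable (fun s => P s * (Slin p).eval s + 2 * (lam : ℝ) * (P s * P s) +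
      P s ^ 2 * evL tau (s ^ 2)) mu1 := j12.add j3
    have e2 : ∫ s, P s * G s ∂mu1 = (∫ s, P s * (Slin p).eval s ∂mu1) + 2 * lam * (∫ s, P s * P s ∂mu1) +
        (∫ s, P s ^ 2 * evL tau (s ^ 2) ∂mu1) + ∫ s, P s * Mop (evL mh) P s ∂mu1 := by
      rw [← integral_const_mul, ← integral_add j1 j2, ← integral_add j12 j3, ← integral_add j123 j4]
      apply integral_congr_ae
      filter_upwards [ae_mem] with s hs
      rw [hGe s hs]
      ring
    have e3 : shf v P P = ∫ s in ((v : ℝ) - 1)..1, P s * P (s - v) := by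
      unfold shf
      rw [show (-1 + (v : ℝ)) = v - 1 by ring]
    rw [e3]
    unfold ip
    rw [e1] at e2
    linarith
  -- the quadratic form
  have hQ : (∫ s in (0 : ℝ)..1, P s * G s) - c * (∫ s in ((v : ℝ) - 1)..1, P s * P (s - v)) -
      1 / (4 * (d : ℝ)) * (2 * (∫ s in (0 : ℝ)..1, Y s * Y s) -
        4 * c * (∫ s in ((v : ℝ) - 1)..1, Y s * P (s - v)) +
        2 * c ^ 2 * ∫ s in ((v : ℝ) - 1)..1, P s * P s) =
      ∑ k ∈ Finset.range n, ∑ j ∈ Finset.range n, x k * x j * (((rows.getD k []).getD j 0 : ℚ) : ℝ) := by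
    have i1 : ∫ s in (0 : ℝ)..1, P s * G s = ∑ k ∈ Finset.range n, ∑ j ∈ Finset.range n,
        x k * x j * ∫ s in (0 : ℝ)..1, s ^ (2 * j + e) * evP e (gF lam e k (ys k) (RR k)) s :=
      int_bilin cX cG' x n 0 1
    have cS : ∀ k : ℕ, Continuous fun s : ℝ => (s - v) ^ (2 * k + e) := fun k => by fun_prop
    have i2 : ∫ s in ((v : ℝ) - 1)..1, P s * P (s - v) = ∑ k ∈ Finset.range n, ∑ j ∈ Finset.range n,
        x k * x j * ∫ s in ((v : ℝ) - 1)..1, s ^ (2 * j + e) * (s - v) ^ (2 * k + e) :=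
      int_bilin cX cS x n _ 1
    have i3 : ∫ s in (0 : ℝ)..1, Y s * Y s = ∑ k ∈ Finset.range n, ∑ j ∈ Finset.range n,
        x k * x j * ∫ s in (0 : ℝ)..1, evP e (ys j) s * evP e (ys k) s :=
      int_bilin cE cE x n 0 1
    have i4 : ∫ s in ((v : ℝ) - 1)..1, Y s * P (s - v) = ∑ k ∈ Finset.range n, ∑ j ∈ Finset.range n,
        x k * x j * ∫ s in ((v : ℝ) - 1)..1, evP e (ys j) s * (s - v) ^ (2 * k + e) :=
      int_bilin cE cS x n _ 1
    have i5 : ∫ s in ((v : ℝ) - 1)..1, P s * P s = ∑ k ∈ Finset.range n, ∑ j ∈ Finset.range n,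
        x k * x j * ∫ s in ((v : ℝ) - 1)..1, s ^ (2 * j + e) * s ^ (2 * k + e) :=
      int_bilin cX cX x n _ 1
    rw [i1, i2, i3, i4, i5]
    simp only [Finset.mul_sum, ← Finset.sum_sub_distrib, ← Finset.sum_add_distrib]
    apply Finset.sum_congr rfl
    intro k hk
    apply Finset.sum_congr rfl
    intro j hj
    rw [hM k (Finset.mem_range.mp hk) j (Finset.mem_range.mp hj)]
    unfold Mkj
    field_simp
    ring
  have hfin := psd_sum hpsd x
  rw [← hQ] at hfin
  rw [hL, hA]
  linarith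

end Pool.Agent.Helper61.W
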