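import Pool.Agent.Helper61.W.D1

set_option autoImplicit false

/-!
# The certificate, parity 1
-/

namespace Pool.Agent.Helper61.W.D1

open MeasureTheory Polynomial

lemma hy : ∀ k < 9, ys.getD k [] = yF mhD tauD 1 k (RR.getD k []) := by
  intro k hk
  interval_cases k
  · exact y_0.symm
  · exact y_1.symm
  · exact y_2.symm
  · exact y_3.symm
  · exact y_4.symm
  · exact y_5.symm
  · exact y_6.symm
  · exact y_7.symm
  · exact y_8.symm

lemma hM : ∀ k < 9, ∀ j < 9, (((rows.getD k []).getD j 0 : ℚ) : ℝ) =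
    Mkj 1 cD dD ((5 / 4 : ℚ) : ℝ) (ys.getD j []) (ys.getD k [])
      (gF lamD 1 k (ys.getD k []) (RR.getD k [])) k j := by
  intro k hk j hj
  have key : rowL cD dD ys (momL (gF lamD 1 k (ys.getD k []) (RR.getD k [])) (muF 1 60))
      (nuF (5 / 4) 1 k 80) (drL k (rhF (5 / 4 - 1) 1 18))
      (wF cD (ys.getD k []) (muF 1 60) (nuF (5 / 4) 1 k 80)) = rows.getD k [] := by
    interval_cases k
    · exact row_0
    · exact row_1
    · exact row_2
    · exact row_3
    · exact row_4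
    · exact row_5
    · exact row_6
    · exact row_7
    · exact row_8
  rw [← key]
  exact row_sound (Ly := 30) (by rfl) hk ylen (by norm_num) (glen k hk) (by norm_num) (by omega)
    (by omega) hj

theorem cert (x : ℕ → ℝ) :
    ∃ r ∈ degreeLT ℝ 18, 1 / (4 * (dD : ℝ)) * ∫ s, (Yf (k := 1) (fun s => evL tauD (s ^ 2)) (evL mhD)
        (fun _ => ((5 / 4 : ℚ) : ℝ)) (fun _ => (cD : ℝ))
        (∑ k ∈ Finset.range 9, x k • (X : ℝ[X]) ^ (2 * k + 1)) s - r.eval s) ^ 2 ∂mu1 ≤
      Af (k := 1) (fun s => evL tauD (s ^ 2)) (evL mhD) (fun _ => ((5 / 4 : ℚ) : ℝ))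
        (fun _ => (cD : ℝ)) lamD (∑ k ∈ Finset.range 9, x k • (X : ℝ[X]) ^ (2 * k + 1)) :=
  block_cert (n := 9) (N := 18) (by norm_num) mhD tauD (by norm_num) (by norm_num)
    (by norm_num [dD]) (fun k => RR.getD k []) (fun k => ys.getD k []) rows Rlen hy hM psd x

end Pool.Agent.Helper61.W.D1
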