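import Pool.Agent.Helper61.W.Mo

set_option autoImplicit false

/-!
# Soundness of the certificate for one parity
-/

namespace Pool.Agent.Helper61.W

open Filter Topology Set MeasureTheory Polynomial

/-- functions of given parity -/
noncomputable def evP (e : ℕ) (l : List ℚ) (s : ℝ) : ℝ := s ^ e * evL l (s ^ 2)

lemma evP_cont (e : ℕ) (l : List ℚ) : Continuous (evP e l) := by
  have := evL_continuous l
  unfold evP
  fun_prop

/-- the polynomial of a list, in the square of the variable -/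
noncomputable def toPoly : List ℚ → ℝ[X]
  | [] => 0
  | a :: l => C (a : ℝ) + X ^ 2 * toPoly l

lemma toPoly_eval (e : ℕ) : ∀ (l : List ℚ) (s : ℝ), (X ^ e * toPoly l : ℝ[X]).eval s = evP e l s
  | [], s => by simp [toPoly, evP, evL]
  | a :: l, s => by
    have ih := toPoly_eval e l s
    simp only [eval_mul, eval_pow, eval_X, evP] at ih
    simp only [toPoly, evP, evL, eval_mul, eval_pow, eval_X, eval_add, eval_C]
    linear_combination s ^ 2 * ih

lemma toPoly_mem {N : ℕ} : ∀ (l : List ℚ) (e : ℕ), 2 * l.length + e ≤ N + 1 →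
    (X ^ e * toPoly l : ℝ[X]) ∈ degreeLT ℝ N
  | [], e, _ => by simp [toPoly]
  | a :: l, e, h => by
    have ih := toPoly_mem (N := N) l (e + 2) (by simp only [List.length_cons] at h; omega)
    have : (X ^ e * toPoly (a :: l) : ℝ[X]) = (a : ℝ) • X ^ e + X ^ (e + 2) * toPoly l := by
      simp only [toPoly]
      rw [smul_eq_C_mul]
      ring
    rw [this]
    refine Submodule.add_mem _ (Submodule.smul_mem _ _ (X_pow_mem ?_)) ih
    simp only [List.length_cons] at h
    omega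

/-- harmonic numbers -/
def HQ : ℕ → ℚ
  | 0 => 0
  | n + 1 => HQ n + 1 / ((n : ℚ) + 1)

lemma HQ_cast (n : ℕ) : ((HQ n : ℚ) : ℝ) = Hn n := by
  induction n with
  | zero => simp [HQ, Hn]
  | succ n ih =>
    unfold Hn at ih ⊢
    rw [Finset.sum_range_succ, ← ih]
    simp [HQ]

/-- the operator on a monomial -/
def SC : ℕ → ℚ → List ℚ
  | 0, h => [h]
  | k + 1, h => (-1 / ((k : ℚ) + 1)) :: SC k h

/-- the lower order part of the operator -/
noncomputable def Dn (n : ℕ) (s : ℝ) : ℝ :=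
  ∑ i ∈ Finset.range n, ((-1 : ℝ) ^ (i + 1) + 1) / ((i : ℝ) + 1) * s ^ (n - 1 - i)

lemma Dn_succ (n : ℕ) (s : ℝ) : Dn (n + 1) s = s * Dn n s + ((-1 : ℝ) ^ (n + 1) + 1) / ((n : ℝ) + 1) := by
  unfold Dn
  rw [Finset.sum_range_succ, Finset.mul_sum]
  congr 1
  · apply Finset.sum_congr rfl
    intro i hi
    have := Finset.mem_range.mp hi
    have e : n + 1 - 1 - i = (n - 1 - i) + 1 := by omega
    rw [e, pow_succ]
    ring
  · simp

lemma SC_eval (e : ℕ) (he : e = 0 ∨ e = 1) (h : ℚ) (s : ℝ) : ∀ k : ℕ,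
    evP e (SC k h) s = h * s ^ (2 * k + e) - Dn (2 * k + e) s
  | 0 => by
    rcases he with rfl | rfl
    · simp [evP, SC, evL, Dn]
    · simp [evP, SC, evL, Dn]
      ring
  | k + 1 => by
    have ih := SC_eval e he h s k
    have e1 : evP e (SC (k + 1) h) s = -(s ^ e / ((k : ℝ) + 1)) + s ^ 2 * evP e (SC k h) s := by
      simp only [evP, SC, evL]
      push_cast
      ring
    have e2 : 2 * (k + 1) + e = (2 * k + e) + 1 + 1 := by ring
    rw [e1, ih, e2, Dn_succ, Dn_succ]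
    have hk : ((k : ℝ) + 1) ≠ 0 := by positivity
    rcases he with rfl | rfl
    · have h1 : (-1 : ℝ) ^ (2 * k + 0 + 1) = -1 := by
        rw [add_zero, pow_succ, pow_mul]; norm_num
      have h2 : (-1 : ℝ) ^ (2 * k + 0 + 1 + 1) = 1 := by
        rw [pow_succ, h1]; norm_num
      rw [h1, h2]
      push_cast
      have h3 : (2 * (k : ℝ) + 0 + 1 + 1) ≠ 0 := by positivity
      field_simp
      ring
    · have h1 : (-1 : ℝ) ^ (2 * k + 1 + 1) = 1 := by
        rw [pow_succ, pow_succ, pow_mul]; norm_num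
      have h2 : (-1 : ℝ) ^ (2 * k + 1 + 1 + 1) = -1 := by
        rw [pow_succ, h1]; norm_num
      rw [h1, h2]
      push_cast
      have h3 : (2 * (k : ℝ) + 1 + 1) ≠ 0 := by positivity
      field_simp
      ring

lemma Slin_pow_eval (n : ℕ) (s : ℝ) : (Slin (X ^ n)).eval s = 2 * Hn n * s ^ n - Dn n s := by
  rw [← monomial_one_right_eq_X_pow, Slin_monomial, one_smul]
  unfold Sm Dn Hn
  rw [eval_finsetSum, Finset.mul_sum, Finset.sum_mul, ← Finset.sum_sub_distrib]
  apply Finset.sum_congr rfl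
  intro i _
  simp only [eval_smul, eval_sub, eval_pow, eval_X, smul_eq_mul]
  ring

lemma Slin_pow_par (e : ℕ) (he : e = 0 ∨ e = 1) (k : ℕ) (s : ℝ) :
    (Slin (X ^ (2 * k + e))).eval s = evP e (SC k (2 * HQ (2 * k + e))) s := by
  rw [Slin_pow_eval, SC_eval e he]
  push_cast
  rw [HQ_cast]

/-- the list of the function paired with the remainder -/
def yF (mh tau : List ℚ) (e k : ℕ) (R : List ℚ) : List ℚ :=
  addL (addL (shL k tau) (smL 2 (par e (LH mh 0 1 (mono (2 * k + e)))))) (smL (-1) R)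

/-- the list of the operator of the form on polynomials -/
def gF (lam : ℚ) (e k : ℕ) (y R : List ℚ) : List ℚ :=
  addL (SC k (2 * HQ (2 * k + e))) (addL (smL (2 * lam) (mono k)) (addL y R))

lemma evP_addL (e : ℕ) (l m : List ℚ) (s : ℝ) : evP e (addL l m) s = evP e l s + evP e m s := by
  unfold evP
  rw [evL_addL]
  ring

lemma evP_smL (e : ℕ) (c : ℚ) (l : List ℚ) (s : ℝ) : evP e (smL c l) s = c * evP e l s := by
  unfold evP
  rw [evL_smL]
  ring

lemma evP_shL (e k : ℕ) (l : List ℚ) (s : ℝ) : evP e (shL k l) s = s ^ (2 * k + e) * evL l (s ^ 2) := by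
  unfold evP
  rw [evL_shL]
  ring

lemma evP_mono (e k : ℕ) (s : ℝ) : evP e (mono k) s = s ^ (2 * k + e) := by
  unfold evP
  rw [evL_mono]
  ring

lemma yF_eval (mh tau : List ℚ) (e k : ℕ) (he : e = 0 ∨ e = 1) (R : List ℚ) {s : ℝ}
    (hs : s ∈ Icc (-1 : ℝ) 1) : evP e (yF mh tau e k R) s =
      s ^ (2 * k + e) * evL tau (s ^ 2) + Mop (evL mh) (fun t => t ^ (2 * k + e)) s - evP e R s := by
  unfold yF
  rw [evP_addL, evP_addL, evP_shL, evP_smL e (-1) R, Mop_par mh k e he hs]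
  unfold evP
  push_cast
  ring

lemma gF_eval (mh tau : List ℚ) (lam : ℚ) (e k : ℕ) (he : e = 0 ∨ e = 1) (R : List ℚ) {s : ℝ}
    (hs : s ∈ Icc (-1 : ℝ) 1) : evP e (gF lam e k (yF mh tau e k R) R) s =
      (Slin (X ^ (2 * k + e))).eval s + 2 * lam * s ^ (2 * k + e) +
        (s ^ (2 * k + e) * evL tau (s ^ 2) + Mop (evL mh) (fun t => t ^ (2 * k + e)) s) := by
  unfold gF
  rw [evP_addL, evP_addL, evP_addL, evP_smL, evP_mono, yF_eval mh tau e k he R hs,
    Slin_pow_par e he]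
  push_cast
  ring

/-- the even moments of `[0, 1]` -/
def muF (e K : ℕ) : List ℚ := gmu 0 1 2 0 1 ((2 * e + 1 : ℕ) : ℚ) K

/-- the moments of `[u, 1]` -/
def muG (u : ℚ) (K : ℕ) : List ℚ := gmu u 1 1 u 1 1 K

/-- the even moments of `[u, 1]` -/
def rhF (u : ℚ) (e K : ℕ) : List ℚ := gmu (u ^ 2) 1 2 (u ^ (2 * e + 1)) 1 ((2 * e + 1 : ℕ) : ℚ) K

/-- the mixed moments -/
def nuF (v : ℚ) (e k K : ℕ) : List ℚ := momL2 (powLin v (2 * k + e)) (drL e (muG (v - 1) K))

/-- the list paired with the functions -/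
def wF (c : ℚ) (y mu nu : List ℚ) : List ℚ := addL (momL y mu) (smL (-(2 * c)) nu)

/-- the entries of the matrix -/
noncomputable def Mkj (e : ℕ) (c d v : ℝ) (yj yk gk : List ℚ) (k j : ℕ) : ℝ :=
  (∫ s in (0 : ℝ)..1, s ^ (2 * j + e) * evP e gk s) -
    c * (∫ s in (v - 1)..1, s ^ (2 * j + e) * (s - v) ^ (2 * k + e)) -
    1 / (2 * d) * ((∫ s in (0 : ℝ)..1, evP e yj s * evP e yk s) -
      2 * c * (∫ s in (v - 1)..1, evP e yj s * (s - v) ^ (2 * k + e)) +
      c ^ 2 * ∫ s in (v - 1)..1, s ^ (2 * j + e) * s ^ (2 * k + e))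

lemma addL_length_max : ∀ l m : List ℚ, (addL l m).length = max l.length m.length
  | [], m => by simp [addL]
  | a :: l, [] => by simp [addL]
  | a :: l, b :: m => by
    simp only [addL, List.length_cons, addL_length_max l m]
    omega

lemma powLin_length (b : ℚ) : ∀ n, (powLin b n).length = n + 1
  | 0 => rfl
  | n + 1 => by
    simp only [powLin, mulLin, addL_length_max, smL_length, List.length_cons, powLin_length b n]
    omega

lemma muF_sound (e K : ℕ) : MVn (fun i => ∫ s in (0 : ℝ)..1, (s ^ 2) ^ i * s ^ (2 * e)) K (muF e K) 0 := by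
  have h := gmu_sound 0 1 2 (2 * e) K 0 0 1 ((2 * e + 1 : ℕ) : ℚ) 0 1 2
    (by rw [zero_pow]; omega) (by simp) (by simp) (by simp) (by simp) (by simp)
  refine MVn.congr (fun i => ?_) h
  simp only [Rat.cast_zero, Rat.cast_one]
  congr 1
  funext s
  rw [pow_add, pow_mul]

lemma muG_sound (u : ℚ) (K : ℕ) : MVn (fun i => ∫ s in (u : ℝ)..1, s ^ i * 1) K (muG u K) 0 := by
  have h := gmu_sound u 1 1 0 K 0 u 1 1 u 1 1
    (by simp) (by simp) (by simp) (by simp) (by simp) (by simp)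
  refine MVn.congr (fun i => ?_) h
  simp only [Rat.cast_one, one_mul, add_zero, mul_one]

lemma rhF_sound (u : ℚ) (e K : ℕ) :
    MVn (fun i => ∫ s in (u : ℝ)..1, s ^ (2 * i + 2 * e)) K (rhF u e K) 0 := by
  have h := gmu_sound u 1 2 (2 * e) K 0 (u ^ (2 * e + 1)) 1 ((2 * e + 1 : ℕ) : ℚ) (u ^ 2) 1 2
    (by simp) (by simp) (by simp) (by simp) (by simp) (by simp)
  refine MVn.congr (fun i => ?_) h
  simp only [Rat.cast_one]

lemma nuF_sound (v : ℚ) {e k K n : ℕ} (h : 2 * n + (2 * k + e + 1) + e ≤ K + 2) :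
    MVn (fun i => ∫ s in ((v : ℝ) - 1)..1, (s ^ 2) ^ i * (s ^ e * (s - v) ^ (2 * k + e))) n
      (nuF v e k K) 0 := by
  have h1 := muG_sound (v - 1) K
  have h2 : MVn (fun i => ∫ s in ((v - 1 : ℚ) : ℝ)..1, s ^ i * 1) (K - e) (drL e (muG (v - 1) K)) (e + 2 * 0) := by
    have := drL_sound e (muG (v - 1) K) 0 (K - e) (by
      rw [Nat.sub_add_cancel (by omega)]
      exact h1)
    rwa [show 0 + e = e + 2 * 0 by ring] at this
  have h3 := momL2_sound (powLin v (2 * k + e)) e _ 0 (K - e) n h2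
    (by rw [powLin_length]; omega) (by omega)
  refine MVn.congr (fun i => ?_) h3
  rw [linF_int (w := fun s => s) (h := fun _ => 1) continuous_id continuous_const]
  push_cast
  congr 1
  funext s
  rw [evL_powLin, pow_add, pow_mul]
  ring

theorem row_sound {e k n Ly K1 K2 K3 : ℕ} {c d v : ℚ} {ys : List (List ℚ)} {g : List ℚ}
    (hys : ys.length = n) (hk : k < n)
    (hLy : ∀ j < n, (ys.getD j []).length ≤ Ly) (hnLy : n ≤ Ly) (hg : g.length ≤ Ly)
    (hK1 : 2 * Ly ≤ K1 + 1) (hK2 : 2 * Ly + (2 * k + e + 1) + e ≤ K2 + 2)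
    (hK3 : n + k ≤ K3) {j : ℕ} (hj : j < n) :
    (((rowL c d ys (momL g (muF e K1)) (nuF v e k K2) (drL k (rhF (v - 1) e K3))
      (wF c (ys.getD k []) (muF e K1) (nuF v e k K2))).getD j 0 : ℚ) : ℝ) =
      Mkj e c d v (ys.getD j []) (ys.getD k []) g k j := by
  have hμ := muF_sound e K1
  have hν := nuF_sound v (n := Ly) (K := K2) (k := k) (e := e) hK2
  have hρ0 := rhF_sound (v - 1) e K3
  -- moments of g
  have hgm : MVn (fun b => linF (fun i => ∫ s in (0 : ℝ)..1, (s ^ 2) ^ i * s ^ (2 * e)) g b) n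
      (momL g (muF e K1)) 0 := momL_sound g _ 0 K1 n hμ (by omega) (by omega)
  have hρ : MVn (fun i => ∫ s in ((v - 1 : ℚ) : ℝ)..1, s ^ (2 * i + 2 * e)) (K3 - k)
      (drL k (rhF (v - 1) e K3)) (0 + k) :=
    drL_sound k _ 0 (K3 - k) (by rw [Nat.sub_add_cancel (by omega)]; exact hρ0)
  have hym : MVn (fun b => linF (fun i => ∫ s in (0 : ℝ)..1, (s ^ 2) ^ i * s ^ (2 * e))
      (ys.getD k []) b) Ly (momL (ys.getD k []) (muF e K1)) 0 :=
    momL_sound _ _ 0 K1 Ly hμ (by have := hLy k hk; omega) (by omega)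
  have hw := addL_sound Ly _ _ 0 hym (smL_sound (-(2 * c)) Ly _ 0 hν)
  have hlen1 := hgm.length
  have hlen2 := hν.length
  have hlen3 := hρ.length
  rw [rowL_getD c d _ j _ _ _ _ (by omega) (by omega) (by omega) (by omega)]
  push_cast
  rw [hgm.getD hj, hν.getD (by omega : j < Ly), hρ.getD (by omega : j < K3 - k)]
  have hdot := dotQ_sound (ys.getD j []) _ 0 Ly hw (hLy j hj)
  unfold wF
  rw [hdot, linF_add, linF_smul]
  have cont1 : Continuous fun s : ℝ => s ^ 2 := by fun_prop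
  rw [linF_int cont1 (by fun_prop : Continuous fun s : ℝ => s ^ (2 * e))]
  have e1 : linF (fun n => linF (fun i => ∫ s in (0 : ℝ)..1, (s ^ 2) ^ i * s ^ (2 * e))
      (ys.getD k []) n) (ys.getD j []) 0 = ∫ s in (0 : ℝ)..1, evP e (ys.getD j []) s * evP e (ys.getD k []) s := by
    have c2 := evL_continuous (ys.getD k [])
    have : (fun n => linF (fun i => ∫ s in (0 : ℝ)..1, (s ^ 2) ^ i * s ^ (2 * e)) (ys.getD k []) n) =
        fun n => ∫ s in (0 : ℝ)..1, (s ^ 2) ^ n * (evL (ys.getD k []) (s ^ 2) * s ^ (2 * e)) := by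
      funext n
      rw [linF_int cont1 (by fun_prop : Continuous fun s : ℝ => s ^ (2 * e))]
      congr 1
      funext s
      ring
    rw [this, linF_int cont1 (by fun_prop)]
    congr 1
    funext s
    unfold evP
    ring
  have e2 : linF (fun i => ∫ s in ((v : ℝ) - 1)..1, (s ^ 2) ^ i * (s ^ e * (s - v) ^ (2 * k + e)))
      (ys.getD j []) 0 = ∫ s in ((v : ℝ) - 1)..1, evP e (ys.getD j []) s * (s - v) ^ (2 * k + e) := by
    rw [linF_int cont1 (by fun_prop)]
    congr 1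
    funext s
    unfold evP
    ring
  rw [e1, e2]
  unfold Mkj
  have e3 : ∫ s in (0 : ℝ)..1, (s ^ 2) ^ (0 + j) * evL g (s ^ 2) * s ^ (2 * e) =
      ∫ s in (0 : ℝ)..1, s ^ (2 * j + e) * evP e g s := by
    congr 1
    funext s
    unfold evP
    rw [zero_add]
    ring
  have e4 : ∫ s in ((v : ℝ) - 1)..1, (s ^ 2) ^ (0 + j) * (s ^ e * (s - v) ^ (2 * k + e)) =
      ∫ s in ((v : ℝ) - 1)..1, s ^ (2 * j + e) * (s - v) ^ (2 * k + e) := by
    congr 1
    funext s
    rw [zero_add]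
    ring
  have e5 : ∫ s in ((v - 1 : ℚ) : ℝ)..1, s ^ (2 * (0 + k + j) + 2 * e) =
      ∫ s in ((v : ℝ) - 1)..1, s ^ (2 * j + e) * s ^ (2 * k + e) := by
    push_cast
    congr 1
    funext s
    ring
  rw [e3, e4, e5]
  push_cast
  ring

end Pool.Agent.Helper61.W
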