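import Mathlib

set_option autoImplicit false

/-!
# Numerical constants
-/

namespace Pool.Agent.Helper61.W

open Filter Topology

lemma log2_lower : (0.69314718055994530941 : ℝ) < Real.log 2 := by
  have h := Real.sum_range_le_log_div (x := 1 / 3) (by norm_num) (by norm_num) 22
  have e : (1 + 1 / 3 : ℝ) / (1 - 1 / 3) = 2 := by norm_num
  rw [e] at h
  norm_num [Finset.sum_range_succ] at h
  norm_num
  linarith

lemma log2_upper : Real.log 2 < (0.69314718055994530942 : ℝ) := by
  have h := Real.log_div_le_sum_range_add (x := 1 / 3) (by norm_num) (by norm_num) 22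
  have e : (1 + 1 / 3 : ℝ) / (1 - 1 / 3) = 2 := by norm_num
  rw [e] at h
  norm_num [Finset.sum_range_succ] at h
  norm_num
  linarith

/-- the corrected sequence -/
noncomputable def emS (n : ℕ) : ℝ :=
  (harmonic n : ℝ) - Real.log n - 1 / (2 * n) + 1 / (12 * (n : ℝ) ^ 2)

lemma log_step {n : ℝ} (hn : 1 ≤ n) :
    1 / 2 * (1 / n + 1 / (n + 1)) - 1 / 12 * (1 / n ^ 2 - 1 / (n + 1) ^ 2) ≤ Real.log ((n + 1) / n) := by
  have hn0 : 0 < n := by linarith
  have h := Real.sum_range_le_log_div (x := 1 / (2 * n + 1)) (by positivity)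
    (by rw [div_lt_one (by positivity)]; linarith) 2
  have e : (1 + 1 / (2 * n + 1)) / (1 - 1 / (2 * n + 1)) = (n + 1) / n := by
    have h1 : (2 * n + 1) ≠ 0 := by positivity
    have h2 : (1 - 1 / (2 * n + 1)) ≠ 0 := by
      rw [sub_ne_zero]
      intro h3
      rw [eq_div_iff h1] at h3
      linarith
    field_simp
    ring
  rw [e] at h
  simp only [Finset.sum_range_succ, Finset.sum_range_zero] at h
  norm_num at h
  have h2 : 1 / 2 * (1 / n + 1 / (n + 1)) - 1 / 12 * (1 / n ^ 2 - 1 / (n + 1) ^ 2) ≤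
      2 * (1 / (2 * n + 1) + (1 / (2 * n + 1)) ^ 3 / 3) := by
    have key : 2 * (1 / (2 * n + 1) + (1 / (2 * n + 1)) ^ 3 / 3) -
        (1 / 2 * (1 / n + 1 / (n + 1)) - 1 / 12 * (1 / n ^ 2 - 1 / (n + 1) ^ 2)) =
        (4 * n ^ 2 + 4 * n + 2) / (24 * n ^ 2 * (n + 1) ^ 2 * (2 * n + 1) ^ 3) := by
      field_simp
      ring
    have : 0 ≤ (4 * n ^ 2 + 4 * n + 2) / (24 * n ^ 2 * (n + 1) ^ 2 * (2 * n + 1) ^ 3) := by positivity
    linarith
  have h3 : (1 / (2 * n + 1) + (1 / (2 * n + 1)) ^ 3 / 3) = (2 * n + 1)⁻¹ + ((2 * n + 1) ^ 3)⁻¹ / 3 := by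
    rw [one_div, inv_pow]
  rw [h3] at h2
  linarith

lemma emS_antitone : Antitone fun k : ℕ => emS (k + 1) := by
  apply antitone_nat_of_succ_le
  intro k
  unfold emS
  have hk : (1 : ℝ) ≤ (k : ℝ) + 1 := by
    have : (0 : ℝ) ≤ k := Nat.cast_nonneg k
    linarith
  have h := log_step hk
  have hk0 : (0 : ℝ) < (k : ℝ) + 1 := by linarith
  rw [Real.log_div (by positivity) (by positivity)] at h
  rw [harmonic_succ (k + 1)]
  push_cast
  have e1 : ((k : ℝ) + 1 + 1)⁻¹ = 1 / ((k : ℝ) + 1 + 1) := inv_eq_one_div _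
  have e2 : 1 / (2 * ((k : ℝ) + 1)) = 1 / 2 * (1 / ((k : ℝ) + 1)) := by
    field_simp
  have e3 : 1 / (2 * ((k : ℝ) + 1 + 1)) = 1 / 2 * (1 / ((k : ℝ) + 1 + 1)) := by
    field_simp
  have e4 : 1 / (12 * ((k : ℝ) + 1) ^ 2) = 1 / 12 * (1 / ((k : ℝ) + 1) ^ 2) := by
    field_simp
  have e5 : 1 / (12 * ((k : ℝ) + 1 + 1) ^ 2) = 1 / 12 * (1 / ((k : ℝ) + 1 + 1) ^ 2) := by
    field_simp
  rw [e1, e2, e3, e4, e5]
  linarith

lemma emS_tendsto : Tendsto (fun k : ℕ => emS (k + 1)) atTop (𝓝 Real.eulerMascheroniConstant) := by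
  have h1 := Real.tendsto_harmonic_sub_log.comp (tendsto_add_atTop_nat 1)
  have h2 : Tendsto (fun k : ℕ => 1 / (2 * ((k + 1 : ℕ) : ℝ))) atTop (𝓝 0) := by
    have := (tendsto_one_div_atTop_nhds_zero_nat (𝕜 := ℝ)).comp (tendsto_add_atTop_nat 1)
    have h3 := this.const_mul (1 / 2 : ℝ)
    rw [mul_zero] at h3
    refine h3.congr fun k => ?_
    simp only [Function.comp]
    field_simp
  have h3 : Tendsto (fun k : ℕ => 1 / (12 * ((k + 1 : ℕ) : ℝ) ^ 2)) atTop (𝓝 0) := by
    have := (tendsto_one_div_atTop_nhds_zero_nat (𝕜 := ℝ)).comp (tendsto_add_atTop_nat 1)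
    have h4 := (this.pow 2).const_mul (1 / 12 : ℝ)
    simp only [ne_eq, OfNat.ofNat_ne_zero, not_false_eq_true, zero_pow, mul_zero] at h4
    refine h4.congr fun k => ?_
    simp only [Function.comp]
    rw [div_pow, one_pow]
    field_simp
  have h4 := (h1.sub h2).add h3
  rw [sub_zero, add_zero] at h4
  exact h4

lemma gamma_upper : Real.eulerMascheroniConstant < 0.5772156654 := by
  have h1 : Real.eulerMascheroniConstant ≤ emS (63 + 1) :=
    emS_antitone.le_of_tendsto emS_tendsto 63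
  have h2 : (harmonic 64 : ℚ) < 4.7438909037057691 := by
    norm_num [harmonic, Finset.sum_range_succ]
  have h3 : ((harmonic 64 : ℚ) : ℝ) < 4.7438909037057691 := by
    have := (Rat.cast_lt (K := ℝ)).mpr h2
    refine this.trans_le (le_of_eq ?_)
    norm_num
  have h4 : Real.log ((64 : ℕ) : ℝ) = 6 * Real.log 2 := by
    rw [show ((64 : ℕ) : ℝ) = 2 ^ 6 by norm_num, Real.log_pow]
    norm_num
  have h5 := log2_lower
  have e : emS (63 + 1) = ((harmonic 64 : ℚ) : ℝ) - 6 * Real.log 2 - 1 / 128 + 1 / 49152 := by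
    unfold emS
    rw [show 63 + 1 = 64 by norm_num, h4]
    norm_num
  rw [e] at h1
  norm_num at h5 ⊢
  linarith

/-- upper bound of the logarithmic constant -/
lemma logX_upper : Real.log Real.pi + Real.log (4 * (4 / 5 * Real.log 2)) - Real.log 2 < 1.24822059452 := by
  have hl1 := log2_lower
  have hl2 := log2_upper
  have hp1 := Real.pi_gt_d20
  have hp2 := Real.pi_lt_d20
  have hl0 : 0 < Real.log 2 := by
    norm_num at hl1 ⊢
    linarith
  have hp0 := Real.pi_pos
  have e1 : Real.log Real.pi + Real.log (4 * (4 / 5 * Real.log 2)) - Real.log 2 =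
      2 * Real.log 2 - Real.log (4 / (8 * Real.pi * Real.log 2 / 5)) := by
    have h4 : Real.log 4 = 2 * Real.log 2 := by
      rw [show (4 : ℝ) = 2 ^ 2 by norm_num, Real.log_pow]
      push_cast
      ring
    rw [← Real.log_mul hp0.ne' (by positivity), ← Real.log_div (by positivity) (by norm_num),
      Real.log_div (x := 4) (by norm_num) (by positivity), h4]
    have : Real.pi * (4 * (4 / 5 * Real.log 2)) / 2 = 8 * Real.pi * Real.log 2 / 5 := by ring
    rw [this]
    ring
  rw [e1]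
  have hX : 8 * Real.pi * Real.log 2 / 5 < 3.4841377444857635 := by
    have : Real.pi * Real.log 2 < 3.14159265358979323847 * 0.69314718055994530942 :=
      mul_lt_mul'' hp2 hl2 hp0.le hl0.le
    norm_num at this ⊢
    linarith
  have hX0 : 0 < 8 * Real.pi * Real.log 2 / 5 := by positivity
  have h := Real.sum_range_le_log_div (x := 0.0689274133007) (by norm_num) (by norm_num) 5
  have h2 : Real.log ((1 + 0.0689274133007) / (1 - 0.0689274133007)) ≤
      Real.log (4 / (8 * Real.pi * Real.log 2 / 5)) := by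
    apply Real.log_le_log (by norm_num)
    rw [le_div_iff₀ hX0]
    refine (mul_le_mul_of_nonneg_left hX.le (by norm_num)).trans ?_
    norm_num
  norm_num [Finset.sum_range_succ] at h
  norm_num at h2
  norm_num at hl2 ⊢
  linarith

/-- the constant of the form -/
lemma const_bound : (-1825436263 / 1000000000 : ℝ) + 1 / 10 ^ 9 ≤ Real.log 2 +
    -(Real.eulerMascheroniConstant + Real.log Real.pi + Real.log (4 * (4 / 5 * Real.log 2))) -
      2 * (1 / 10 ^ 10) - 1 / 10 ^ 10 := by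
  have h1 := gamma_upper
  have h2 := logX_upper
  norm_num at h1 h2 ⊢
  linarith

lemma c2_bound : |Real.sqrt 2 * Real.log 2 - 306330669833921 / 312500000000000| ≤ 1 / 10 ^ 10 := by
  have hl1 := log2_lower
  have hl2 := log2_upper
  have h1 : (1.41421356237309 : ℝ) < Real.sqrt 2 := by
    apply Real.lt_sqrt_of_sq_lt
    norm_num
  have h2 : Real.sqrt 2 < (1.4142135623731 : ℝ) := by
    rw [Real.sqrt_lt' (by norm_num)]
    norm_num
  have h3 := Real.sqrt_nonneg 2
  norm_num at hl1 hl2 h1 h2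
  rw [abs_le]
  constructor
  · nlinarith
  · nlinarith

end Pool.Agent.Helper61.W
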