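import Pool.Agent.Helper61.W.Bl

set_option autoImplicit false

/-!
# Data of the certificate
-/

namespace Pool.Agent.Helper61.W

/-- the kernel polynomial -/
def mhD : List ℚ := [194081210556784686637/100000000000000000000,
    1281208037115203799/100000000000000000000, 1198888747160146127/12500000000000000000,
    -5745229120290077/50000000000000000000, 20480345312914089/100000000000000000000,
    46568539886429/50000000000000000000, 120702081881881/10000000000000000000,
    -183322413449/25000000000000000000, -4133257868493/12500000000000000000,
    143188607/2500000000000000000, 1036376714451/100000000000000000000,
    -44642829/100000000000000000000, -8070880671/25000000000000000000,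
    173889/50000000000000000000, 100580459/10000000000000000000, 0,
    -3917011/12500000000000000000, 0, 976283/100000000000000000000, 0,
    -1901/6250000000000000000, 0, 237/25000000000000000000, 0, -3/10000000000000000000]

/-- the lower bound of the potential, in the square of the variable -/
def tauD : List ℚ := [0, 1, 1/2, 333333333333333333/1000000000000000000, 1/4, 1/5,
    83333333333333333/500000000000000000, 142857142857142857/1000000000000000000, 1/8,
    111111111111111111/1000000000000000000, 1/10, 90909090909090909/1000000000000000000,
    83333333333333333/1000000000000000000, 76923076923076923/1000000000000000000,
    17857142857142857/250000000000000000, 33333333333333333/500000000000000000, 1/16,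
    11764705882352941/200000000000000000, 11111111111111111/200000000000000000,
    52631578947368421/1000000000000000000, -503715737407/1000000000000,
    897280634511/1000000000000]

/-- the weight of the shift -/
def cD : ℚ := 306330669833921/312500000000000

/-- the gap -/
def dD : ℚ := 587/500

/-- the constant -/
def lamD : ℚ := -1825436263/1000000000

end Pool.Agent.Helper61.W
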