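import Pool.Agent.Helper61.W.Left2

set_option autoImplicit false

/-!
# The explicit formula, the limit
-/

namespace Pool.Agent.Helper61.W

open Complex Filter Topology Set MeasureTheory
open scoped ComplexConjugate ContDiff
open Pool.Agent.V11271.LI (Zr mm cfg_zeta zz)

variable {Φ : ℝ → ℂ}

lemma TF.neg_arg (h : TF Φ) : TF (fun u => Φ (-u)) where
  smooth := h.smooth.comp contDiff_neg
  supp := h.supp.comp_homeomorph (Homeomorph.neg ℝ)

lemma LT_neg_arg (z : ℂ) : LT (fun u => Φ (-u)) z = LT Φ (-z) := by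
  unfold LT
  rw [← integral_neg_eq_self (fun u : ℝ => Φ (-u) * cexp (z * u))]
  congr 1
  funext u
  rw [neg_neg]
  push_cast
  congr 2
  ring

lemma Hs_int (h : TF Φ) : Integrable (fun y : ℝ => La (3 / 2 + y * I) * Hs Φ y) := by
  have h1 := (right_formula h).1
  have h2 := (right_formula h.neg_arg).1
  refine (h1.add h2).congr (Eventually.of_forall fun y => ?_)
  simp only [Pi.add_apply]
  rw [LT_neg_arg]
  unfold La Hs
  ring

lemma mult_eq (ρ : Zr) : (H370.mult Xi (ρ : ℂ) : ℂ) = (mm ρ : ℂ) := by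
  unfold H370.mult mm analyticOrderNatAt
  rw [Xi_order ρ.2.2.1 ρ.2.2.2]
  push_cast
  rfl

/-- the sum over the zeros as an integral -/
theorem zero_sum (h : TF Φ) :
    ∑' ρ : Zr, tm Φ ρ = 1 / (2 * Real.pi) * ∫ y : ℝ, La (3 / 2 + y * I) * Hs Φ y := by
  classical
  obtain ⟨K, hK, hgood⟩ := La_bound
  choose U hU hb using fun n : ℕ => hgood (n + 3) (by linarith [Nat.cast_nonneg (α := ℝ) n])
  have hUge : ∀ n : ℕ, (n : ℝ) + 3 ≤ U n := fun n => (hU n).1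
  have hU3 : ∀ n, 3 ≤ U n := fun n => by
    have := hUge n
    have := Nat.cast_nonneg (α := ℝ) n
    linarith
  have hUt : Tendsto U atTop atTop :=
    tendsto_atTop_mono (fun n => by linarith [hUge n]) tendsto_natCast_atTop_atTop
  have hid := fun n => rect_identity h (hU3 n) (fun σ hσ => ⟨(hb n σ hσ).1.1, (hb n σ hσ).2.1⟩)
  -- the finite sets of zeros
  set Z : ℕ → Set ℂ := fun n => {s | s ∈ Set.Ioo (-1 / 2 : ℝ) (3 / 2) ×ℂ Set.Ioo (-(U n)) (U n) ∧ Xi s = 0}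
    with hZ
  have hfin : ∀ n, (Z n).Finite := fun n => (hid n).1
  have hinj : ∀ n, Set.InjOn (fun ρ : Zr => (ρ : ℂ)) ((fun ρ : Zr => (ρ : ℂ)) ⁻¹' (Z n)) :=
    fun n a _ b _ hab => Subtype.ext hab
  obtain ⟨S, hS⟩ : ∃ S : ℕ → Finset Zr, ∀ n, ∀ ρ : Zr, ρ ∈ S n ↔ (ρ : ℂ) ∈ Z n := by
    refine ⟨fun n => ((hfin n).preimage (hinj n)).toFinset, fun n ρ => ?_⟩
    simp
  have hmem : ∀ n (ρ : Zr), (ρ : ℂ) ∈ Z n ↔ |(ρ : ℂ).im| < U n := by
    intro n ρ
    have h0 : Xi (ρ : ℂ) = 0 := (Xi_eq_zero_iff _).mpr ρ.2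
    simp only [hZ, Set.mem_setOf_eq, h0, and_true]
    constructor
    · rintro ⟨_, h2⟩
      rw [abs_lt]
      exact h2
    · intro h2
      rw [abs_lt] at h2
      exact ⟨⟨by linarith [ρ.2.2.1], by linarith [ρ.2.2.2]⟩, h2⟩
  have hsum : ∀ n, ∑ᶠ s ∈ Z n, (H370.mult Xi s : ℂ) * LT Φ (s - 1 / 2) = ∑ ρ ∈ S n, tm Φ ρ := by
    intro n
    rw [finsum_mem_eq_finite_toFinset_sum _ (hfin n)]
    symm
    apply Finset.sum_bij (fun (ρ : Zr) _ => (ρ : ℂ))
    · intro ρ hρ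
      rw [Set.Finite.mem_toFinset]
      exact (hS n ρ).mp hρ
    · intro a _ b _ hab
      exact Subtype.ext hab
    · intro s hs
      rw [Set.Finite.mem_toFinset] at hs
      exact ⟨⟨s, (Xi_eq_zero_iff s).mp hs.2⟩, (hS n _).mpr hs, rfl⟩
    · intro ρ _
      unfold tm
      rw [mult_eq]
  have hSt : Tendsto S atTop atTop := by
    rw [tendsto_atTop]
    intro B
    have : ∀ᶠ n in atTop, ∀ ρ ∈ B, |(ρ : ℂ).im| < U n := by
      rw [Finset.eventually_all]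
      intro ρ _
      exact hUt.eventually_gt_atTop _
    filter_upwards [this] with n hn
    intro ρ hρ
    exact (hS n ρ).mpr ((hmem n ρ).mpr (hn ρ hρ))
  have lim1 : Tendsto (fun n => 2 * Real.pi * I * ∑ ρ ∈ S n, tm Φ ρ) atTop
      (𝓝 (2 * Real.pi * I * ∑' ρ : Zr, tm Φ ρ)) :=
    ((summable_tm h).hasSum.comp hSt).const_mul _
  -- the other side
  obtain ⟨C, hC, hh⟩ := horiz_bound h hK
  have lim2 : ∀ ε : ℝ, ε = 1 ∨ ε = -1 → Tendsto (fun n => ∫ x in (-1 / 2 : ℝ)..(3 / 2),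
      La ⟨x, ε * U n⟩ * LT Φ (⟨x, ε * U n⟩ - 1 / 2)) atTop (𝓝 0) := by
    intro ε hε
    have habs : ∀ n, |ε * U n| = U n := by
      intro n
      rw [abs_mul, abs_of_pos (show 0 < U n by linarith [hU3 n])]
      rcases hε with h | h <;> simp [h]
    have hz : Tendsto (fun n => C / U n) atTop (𝓝 0) := hUt.const_div_atTop C
    refine squeeze_zero_norm (fun n => ?_) hz
    have := hh (ε * U n) (by rw [habs]; exact hU3 n) (fun σ hσ => by
      rw [habs]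
      rcases hε with h | h
      · rw [h, one_mul]; exact (hb n σ hσ).1.2
      · rw [h, neg_one_mul]; exact (hb n σ hσ).2.2)
    rwa [habs] at this
  have lim3 : Tendsto (fun n => ∫ y in (-(U n))..(U n), La (3 / 2 + y * I) * Hs Φ y) atTop
      (𝓝 (∫ y : ℝ, La (3 / 2 + y * I) * Hs Φ y)) :=
    intervalIntegral_tendsto_integral (Hs_int h) (tendsto_neg_atTop_atBot.comp hUt) hUt
  have lim4 := ((lim2 (-1) (Or.inr rfl)).sub (lim2 1 (Or.inl rfl))).add (lim3.const_mul I)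
  have heq : (fun n => 2 * Real.pi * I * ∑ ρ ∈ S n, tm Φ ρ) = fun n =>
      (∫ x in (-1 / 2 : ℝ)..(3 / 2), La ⟨x, -1 * U n⟩ * LT Φ (⟨x, -1 * U n⟩ - 1 / 2)) -
        (∫ x in (-1 / 2 : ℝ)..(3 / 2), La ⟨x, 1 * U n⟩ * LT Φ (⟨x, 1 * U n⟩ - 1 / 2)) +
        I * ∫ y in (-(U n))..(U n), La (3 / 2 + y * I) * Hs Φ y := by
    funext n
    rw [← hsum n, (hid n).2, neg_one_mul, one_mul]
  rw [heq] at lim1
  have hfinal := tendsto_nhds_unique lim1 lim4
  have hpi : (Real.pi : ℂ) ≠ 0 := by exact_mod_cast Real.pi_ne_zero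
  have hI : (I : ℂ) ≠ 0 := I_ne_zero
  have h2 : I * (2 * Real.pi * ∑' ρ : Zr, tm Φ ρ) = I * ∫ y : ℝ, La (3 / 2 + y * I) * Hs Φ y := by
    linear_combination hfinal
  have h3 := mul_left_cancel₀ hI h2
  rw [← h3]
  field_simp

/-- **The explicit formula** for a smooth function with compact support. -/
theorem explicit_formula (h : TF Φ) :
    ∑' ρ : Zr, tm Φ ρ =
      (∫ u in Ioi (0 : ℝ), (Φ u + Φ (-u)) * cexp (1 / 2 * u)) -
        ((Real.eulerMascheroniConstant + Real.log Real.pi : ℝ) : ℂ) * Φ 0 +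
      (∑' n : ℕ, (Φ 0 / ((n : ℂ) + 1) -
        ∫ u in Ioi (0 : ℝ), (Φ u + Φ (-u)) * cexp (-(2 * n + 5 / 2) * u))) -
      ∑' n : ℕ, ((ArithmeticFunction.vonMangoldt n / Real.sqrt n : ℝ) : ℂ) *
        (Φ (Real.log n) + Φ (-Real.log n)) := by
  rw [zero_sum h]
  have h1 := right_formula h
  have h2 := right_formula h.neg_arg
  have e1 : ∫ y : ℝ, La (3 / 2 + y * I) * Hs Φ y =
      (∫ y : ℝ, LT Φ (1 + y * I) * (deriv Xi (3 / 2 + y * I) / Xi (3 / 2 + y * I))) +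
      ∫ y : ℝ, LT (fun u => Φ (-u)) (1 + y * I) * (deriv Xi (3 / 2 + y * I) / Xi (3 / 2 + y * I)) := by
    rw [← integral_add h1.1 h2.1]
    congr 1
    funext y
    rw [LT_neg_arg]
    unfold La Hs
    ring
  rw [e1, mul_add, h1.2, h2.2]
  have i1 : ∀ b : ℂ, IntegrableOn (fun u : ℝ => Φ u * cexp (b * u)) (Ioi 0) := fun b =>
    (h.integrable b).integrableOn
  have i2 : ∀ b : ℂ, IntegrableOn (fun u : ℝ => Φ (-u) * cexp (b * u)) (Ioi 0) := fun b =>
    (h.neg_arg.integrable b).integrableOn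
  have e2 : ∀ b : ℂ, ∫ u in Ioi (0 : ℝ), (Φ u + Φ (-u)) * cexp (b * u) =
      (∫ u in Ioi (0 : ℝ), Φ u * cexp (b * u)) + ∫ u in Ioi (0 : ℝ), Φ (-u) * cexp (b * u) := by
    intro b
    rw [← integral_add (i1 b) (i2 b)]
    congr 1
    funext u
    ring
  have s1 := (line_ar h).summable
  have s2 := (line_ar h.neg_arg).summable
  have s3 := (line_prime h).summable
  have s4 := (line_prime h.neg_arg).summable
  have e3 : ∑' n : ℕ, (Φ 0 / ((n : ℂ) + 1) -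
        ∫ u in Ioi (0 : ℝ), (Φ u + Φ (-u)) * cexp (-(2 * n + 5 / 2) * u)) =
      (∑' n : ℕ, (Φ 0 / (2 * ((n : ℂ) + 1)) - ∫ u in Ioi (0 : ℝ), Φ u * cexp (-(2 * n + 5 / 2) * u))) +
      ∑' n : ℕ, (Φ (-0) / (2 * ((n : ℂ) + 1)) -
        ∫ u in Ioi (0 : ℝ), Φ (-u) * cexp (-(2 * n + 5 / 2) * u)) := by
    rw [← s1.tsum_add s2]
    refine tsum_congr fun n => ?_
    rw [e2, neg_zero]
    have hn1 : ((n : ℂ) + 1) ≠ 0 := by exact_mod_cast Nat.succ_ne_zero n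
    field_simp
    ring
  have e4 : ∑' n : ℕ, ((ArithmeticFunction.vonMangoldt n / Real.sqrt n : ℝ) : ℂ) *
        (Φ (Real.log n) + Φ (-Real.log n)) =
      (∑' n : ℕ, ((ArithmeticFunction.vonMangoldt n / Real.sqrt n : ℝ) : ℂ) * Φ (Real.log n)) +
      ∑' n : ℕ, ((ArithmeticFunction.vonMangoldt n / Real.sqrt n : ℝ) : ℂ) * Φ (-Real.log n) := by
    rw [← s3.tsum_add s4]
    exact tsum_congr fun n => by ring
  rw [e2, e3, e4, neg_zero]
  ring

end Pool.Agent.Helper61.W
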