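import Mathlib

set_option autoImplicit false

/-!
# The logarithmic energy on `[-1, 1]` and its values on polynomials
-/

namespace Pool.Agent.Helper61.W

open Filter Topology Set MeasureTheory Polynomial

/-- Lebesgue measure on `[-1, 1]` -/
noncomputable def mu1 : Measure ℝ := volume.restrict (Icc (-1 : ℝ) 1)

instance : IsFiniteMeasure mu1 := by
  unfold mu1
  infer_instance

lemma mu1_real_univ : mu1.real univ = 2 := by
  unfold mu1
  rw [measureReal_restrict_apply MeasurableSet.univ, univ_inter, Real.volume_real_Icc]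
  norm_num

lemma ae_mem : ∀ᵐ s ∂mu1, s ∈ Icc (-1 : ℝ) 1 := by
  unfold mu1
  exact ae_restrict_mem measurableSet_Icc

lemma int_mu1 (f : ℝ → ℝ) : ∫ s, f s ∂mu1 = ∫ s in (-1 : ℝ)..1, f s := by
  unfold mu1
  rw [intervalIntegral.integral_of_le (by norm_num), integral_Icc_eq_integral_Ioc]

lemma integrable_cont {f : ℝ → ℝ} (hf : Continuous f) : Integrable f mu1 := by
  unfold mu1
  exact (hf.continuousOn).integrableOn_Icc

lemma integrable_bdd {f : ℝ → ℝ} {C : ℝ} (hf : Measurable f)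
    (hb : ∀ s ∈ Icc (-1 : ℝ) 1, |f s| ≤ C) : Integrable f mu1 := by
  refine Integrable.of_bound hf.aestronglyMeasurable C ?_
  filter_upwards [ae_mem] with s hs
  exact hb s hs

/-- the product measure -/
noncomputable def mu2 : Measure (ℝ × ℝ) := mu1.prod mu1

instance : IsFiniteMeasure mu2 := by
  unfold mu2
  infer_instance

lemma mu2_real_univ : mu2.real univ = 4 := by
  unfold mu2
  rw [measureReal_def, ← univ_prod_univ, Measure.prod_prod, ENNReal.toReal_mul, ← measureReal_def,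
    mu1_real_univ]
  norm_num

lemma ae_mem2 : ∀ᵐ z ∂mu2, z.1 ∈ Icc (-1 : ℝ) 1 ∧ z.2 ∈ Icc (-1 : ℝ) 1 := by
  unfold mu2
  exact (Measure.quasiMeasurePreserving_fst.ae ae_mem).and (Measure.quasiMeasurePreserving_snd.ae ae_mem)

lemma integrable_bdd2 {f : ℝ × ℝ → ℝ} {C : ℝ} (hf : Measurable f)
    (hb : ∀ s ∈ Icc (-1 : ℝ) 1, ∀ t ∈ Icc (-1 : ℝ) 1, |f (s, t)| ≤ C) : Integrable f mu2 := by
  refine Integrable.of_bound hf.aestronglyMeasurable C ?_
  filter_upwards [ae_mem2] with z hz
  exact hb z.1 hz.1 z.2 hz.2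

/-- Lipschitz bound on `[-1, 1]` -/
def LipB (f : ℝ → ℝ) (K : ℝ) : Prop :=
  ∀ s ∈ Icc (-1 : ℝ) 1, ∀ t ∈ Icc (-1 : ℝ) 1, |f s - f t| ≤ K * |s - t|

lemma LipB.nonneg {f : ℝ → ℝ} {K : ℝ} (h : LipB f K) : 0 ≤ K := by
  have := h 1 (by norm_num) (-1) (by norm_num)
  have h2 : |(1 : ℝ) - -1| = 2 := by norm_num
  rw [h2] at this
  have := abs_nonneg (f 1 - f (-1))
  linarith

lemma lipB_of_deriv {f : ℝ → ℝ} {K : ℝ} (hf : ContDiff ℝ 1 f)
    (hK : ∀ s ∈ Icc (-1 : ℝ) 1, |deriv f s| ≤ K) : LipB f K := by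
  intro s hs t ht
  have := Convex.norm_image_sub_le_of_norm_deriv_le (𝕜 := ℝ) (f := f) (s := Icc (-1 : ℝ) 1)
    (fun x _ => (hf.differentiable (by norm_num)) x) hK (convex_Icc _ _) ht hs
  exact this

lemma exists_lipB {f : ℝ → ℝ} (hf : ContDiff ℝ 1 f) : ∃ K, LipB f K := by
  obtain ⟨K, hK⟩ := isCompact_Icc.exists_bound_of_continuousOn (s := Icc (-1 : ℝ) 1)
    (f := deriv f) (hf.continuous_deriv (by norm_num)).continuousOn
  exact ⟨K, lipB_of_deriv hf hK⟩

lemma exists_bd {f : ℝ → ℝ} (hf : Continuous f) : ∃ M, ∀ s ∈ Icc (-1 : ℝ) 1, |f s| ≤ M := by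
  obtain ⟨K, hK⟩ := isCompact_Icc.exists_bound_of_continuousOn (s := Icc (-1 : ℝ) 1)
    (f := f) hf.continuousOn
  exact ⟨K, hK⟩

/-- the integrand of the energy -/
noncomputable def E2i (f g : ℝ → ℝ) (z : ℝ × ℝ) : ℝ :=
  (f z.1 - f z.2) * (g z.1 - g z.2) / |z.1 - z.2|

/-- the logarithmic energy form -/
noncomputable def E2 (f g : ℝ → ℝ) : ℝ := ∫ z, E2i f g z ∂mu2

variable {f g h : ℝ → ℝ} {K K' : ℝ}

lemma abs_sub_le_two {s t : ℝ} (hs : s ∈ Icc (-1 : ℝ) 1) (ht : t ∈ Icc (-1 : ℝ) 1) : |s - t| ≤ 2 := by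
  rw [abs_le]
  constructor <;> linarith [hs.1, hs.2, ht.1, ht.2]

lemma E2i_bound (hf : LipB f K) (hg : LipB g K') {s t : ℝ} (hs : s ∈ Icc (-1 : ℝ) 1)
    (ht : t ∈ Icc (-1 : ℝ) 1) : |E2i f g (s, t)| ≤ 2 * K * K' := by
  unfold E2i
  simp only
  have hK := hf.nonneg
  have hK' := hg.nonneg
  rw [abs_div, abs_mul, abs_abs]
  rcases eq_or_ne s t with rfl | hne
  · simp; positivity
  · have hpos : 0 < |s - t| := abs_pos.mpr (sub_ne_zero.mpr hne)
    rw [div_le_iff₀ hpos]
    have h1 := hf s hs t ht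
    have h2 := hg s hs t ht
    have h3 := abs_sub_le_two hs ht
    calc |f s - f t| * |g s - g t| ≤ (K * |s - t|) * (K' * |s - t|) :=
          mul_le_mul h1 h2 (abs_nonneg _) (by positivity)
      _ = K * K' * |s - t| * |s - t| := by ring
      _ ≤ K * K' * 2 * |s - t| := by
          apply mul_le_mul_of_nonneg_right _ hpos.le
          exact mul_le_mul_of_nonneg_left h3 (by positivity)
      _ = 2 * K * K' * |s - t| := by ring

lemma E2i_meas (hf : Continuous f) (hg : Continuous g) : Measurable (E2i f g) := by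
  unfold E2i
  have h1 := hf.measurable
  have h2 := hg.measurable
  fun_prop

lemma E2i_integrable (hf : ContDiff ℝ 1 f) (hg : ContDiff ℝ 1 g) : Integrable (E2i f g) mu2 := by
  obtain ⟨K, hK⟩ := exists_lipB hf
  obtain ⟨K', hK'⟩ := exists_lipB hg
  exact integrable_bdd2 (E2i_meas hf.continuous hg.continuous)
    (fun s hs t ht => E2i_bound hK hK' hs ht)

lemma E2_bound (hf : LipB f K) (hg : LipB g K') : |E2 f g| ≤ 8 * K * K' := by
  unfold E2
  have := norm_integral_le_of_norm_le_const (μ := mu2) (f := E2i f g) (C := 2 * K * K') (by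
    filter_upwards [ae_mem2] with z hz
    exact E2i_bound hf hg hz.1 hz.2)
  rw [mu2_real_univ, Real.norm_eq_abs] at this
  linarith

lemma E2_comm (f g : ℝ → ℝ) : E2 f g = E2 g f := by
  unfold E2 E2i
  congr 1
  funext z
  ring

lemma E2_nonneg (f : ℝ → ℝ) : 0 ≤ E2 f f := by
  unfold E2 E2i
  apply integral_nonneg
  intro z
  exact div_nonneg (mul_self_nonneg _) (abs_nonneg _)

lemma E2_comb (hf : ContDiff ℝ 1 f) (hg : ContDiff ℝ 1 g) (c : ℝ) :
    E2 (fun s => c * f s + g s) (fun s => c * f s + g s) =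
      c ^ 2 * E2 f f + 2 * c * E2 f g + E2 g g := by
  have e : ∀ z, E2i (fun s => c * f s + g s) (fun s => c * f s + g s) z =
      c ^ 2 * E2i f f z + 2 * c * E2i f g z + E2i g g z := by
    intro z
    unfold E2i
    ring
  have i1 : Integrable (fun z => c ^ 2 * E2i f f z) mu2 := (E2i_integrable hf hf).const_mul _
  have i2 : Integrable (fun z => 2 * c * E2i f g z) mu2 := (E2i_integrable hf hg).const_mul _
  have i12 : Integrable (fun z => c ^ 2 * E2i f f z + 2 * c * E2i f g z) mu2 := i1.add i2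
  unfold E2
  simp_rw [e]
  rw [integral_add i12 (E2i_integrable hg hg), integral_add i1 i2, integral_const_mul,
    integral_const_mul]

/-- the operator of the energy form -/
noncomputable def Sop (f : ℝ → ℝ) (s : ℝ) : ℝ := ∫ t, (f s - f t) / |s - t| ∂mu1

lemma quot_bound (hf : LipB f K) {s t : ℝ} (hs : s ∈ Icc (-1 : ℝ) 1)
    (ht : t ∈ Icc (-1 : ℝ) 1) : |(f s - f t) / (|s - t|)| ≤ K := by
  have hK := hf.nonneg
  rw [abs_div, abs_abs]
  rcases eq_or_ne s t with rfl | hne
  · simp; positivity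
  · have hpos : 0 < |s - t| := abs_pos.mpr (sub_ne_zero.mpr hne)
    rw [div_le_iff₀ hpos]
    exact hf s hs t ht

lemma quot_integrable (hf : ContDiff ℝ 1 f) {s : ℝ} (hs : s ∈ Icc (-1 : ℝ) 1) :
    Integrable (fun t => (f s - f t) / |s - t|) mu1 := by
  obtain ⟨K, hK⟩ := exists_lipB hf
  have h1 := hf.continuous.measurable
  exact integrable_bdd (C := K) (by fun_prop) (fun t ht => quot_bound hK hs ht)

lemma E2_eq (hf : ContDiff ℝ 1 f) (hh : ContDiff ℝ 1 h) :
    E2 f h = 2 * ∫ s, h s * Sop f s ∂mu1 := by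
  obtain ⟨K, hK⟩ := exists_lipB hf
  obtain ⟨M, hM⟩ := exists_bd hh.continuous
  have m1 := hf.continuous.measurable
  have m2 := hh.continuous.measurable
  have i1 : Integrable (fun z : ℝ × ℝ => h z.1 * ((f z.1 - f z.2) / |z.1 - z.2|)) mu2 := by
    refine integrable_bdd2 (C := M * K) (by fun_prop) fun s hs t ht => ?_
    simp only
    rw [abs_mul]
    exact mul_le_mul (hM s hs) (quot_bound hK hs ht) (abs_nonneg _) ((abs_nonneg _).trans (hM s hs))
  have i2 : Integrable (fun z : ℝ × ℝ => h z.2 * ((f z.2 - f z.1) / |z.2 - z.1|)) mu2 := by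
    refine integrable_bdd2 (C := M * K) (by fun_prop) fun s hs t ht => ?_
    simp only
    rw [abs_mul]
    exact mul_le_mul (hM t ht) (quot_bound hK ht hs) (abs_nonneg _) ((abs_nonneg _).trans (hM t ht))
  have e1 : E2 f h = (∫ z, h z.1 * ((f z.1 - f z.2) / |z.1 - z.2|) ∂mu2) +
      ∫ z, h z.2 * ((f z.2 - f z.1) / |z.2 - z.1|) ∂mu2 := by
    rw [← integral_add i1 i2]
    unfold E2 E2i
    congr 1
    funext z
    rw [abs_sub_comm z.2 z.1]
    ring
  have e2 : ∫ z, h z.2 * ((f z.2 - f z.1) / |z.2 - z.1|) ∂mu2 =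
      ∫ z, h z.1 * ((f z.1 - f z.2) / |z.1 - z.2|) ∂mu2 := by
    unfold mu2
    exact integral_prod_swap (μ := mu1) (ν := mu1)
      (fun z : ℝ × ℝ => h z.1 * ((f z.1 - f z.2) / |z.1 - z.2|))
  rw [e1, e2, ← two_mul]
  congr 1
  unfold mu2 at i1 ⊢
  rw [integral_prod _ i1]
  congr 1
  funext s
  simp only
  rw [integral_const_mul]
  rfl

lemma Sop_add (hf : ContDiff ℝ 1 f) (hg : ContDiff ℝ 1 g) {s : ℝ} (hs : s ∈ Icc (-1 : ℝ) 1) :
    Sop (fun s => f s + g s) s = Sop f s + Sop g s := by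
  unfold Sop
  rw [← integral_add (quot_integrable hf hs) (quot_integrable hg hs)]
  congr 1
  funext t
  ring

lemma Sop_smul (c : ℝ) (f : ℝ → ℝ) (s : ℝ) : Sop (fun s => c * f s) s = c * Sop f s := by
  unfold Sop
  rw [← integral_const_mul]
  congr 1
  funext t
  ring

/-- harmonic numbers -/
noncomputable def Hn (n : ℕ) : ℝ := ∑ i ∈ Finset.range n, 1 / ((i : ℝ) + 1)

lemma Hn_mono {m n : ℕ} (h : m ≤ n) : Hn m ≤ Hn n := by
  unfold Hn
  exact Finset.sum_le_sum_of_subset_of_nonneg (Finset.range_mono h) fun i _ _ => by positivity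

lemma Hn_nonneg (n : ℕ) : 0 ≤ Hn n := Finset.sum_nonneg fun i _ => by positivity

/-- the operator on monomials -/
lemma Sop_pow (n : ℕ) {s : ℝ} (hs : s ∈ Icc (-1 : ℝ) 1) : Sop (fun s => s ^ n) s =
    ∑ i ∈ Finset.range n, 1 / ((i : ℝ) + 1) * (2 * s ^ n - ((-1) ^ (i + 1) + 1) * s ^ (n - 1 - i)) := by
  have hC : ContDiff ℝ 1 (fun s : ℝ => s ^ n) := by fun_prop
  have hint := quot_integrable hC hs
  unfold Sop
  rw [int_mu1]
  have hii : ∀ p q : ℝ, p ∈ Icc (-1 : ℝ) 1 → q ∈ Icc (-1 : ℝ) 1 →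
      IntervalIntegrable (fun t => (s ^ n - t ^ n) / |s - t|) volume p q := by
    intro p q hp hq
    unfold mu1 at hint
    rw [intervalIntegrable_iff]
    have : uIoc p q ⊆ Icc (-1) 1 := uIoc_subset_uIcc.trans (uIcc_subset_Icc hp hq)
    exact IntegrableOn.mono_set (t := Icc (-1) 1) hint this
  have hm : (-1 : ℝ) ∈ Icc (-1 : ℝ) 1 := by norm_num
  have h1' : (1 : ℝ) ∈ Icc (-1 : ℝ) 1 := by norm_num
  rw [← intervalIntegral.integral_add_adjacent_intervals (hii _ _ hm hs) (hii _ _ hs h1')]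
  have hgeo : ∀ t : ℝ, s ^ n - t ^ n = (∑ i ∈ Finset.range n, t ^ i * s ^ (n - 1 - i)) * (s - t) := by
    intro t
    have := (Commute.all t s).geom_sum₂_mul n
    linear_combination this
  have hL : ∫ t in (-1 : ℝ)..s, (s ^ n - t ^ n) / |s - t| =
      ∑ i ∈ Finset.range n, (s ^ (i + 1) - (-1) ^ (i + 1)) / (i + 1) * s ^ (n - 1 - i) := by
    have e1 : ∫ t in (-1 : ℝ)..s, (s ^ n - t ^ n) / |s - t| =
        ∫ t in (-1 : ℝ)..s, ∑ i ∈ Finset.range n, t ^ i * s ^ (n - 1 - i) := by
      apply intervalIntegral.integral_congr_ae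
      have hne : ∀ᵐ t : ℝ, t ≠ s := by
        rw [ae_iff]
        simp
      filter_upwards [hne] with t ht hts
      rw [uIoc_of_le hs.1] at hts
      have hlt : t < s := lt_of_le_of_ne hts.2 ht
      rw [hgeo t, abs_of_pos (by linarith), mul_div_assoc, div_self (by linarith), mul_one]
    rw [e1, intervalIntegral.integral_finsetSum (fun i _ =>
      Continuous.intervalIntegrable (by fun_prop) _ _)]
    apply Finset.sum_congr rfl
    intro i _
    rw [intervalIntegral.integral_mul_const, integral_pow]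
  have hR : ∫ t in s..(1 : ℝ), (s ^ n - t ^ n) / |s - t| =
      -∑ i ∈ Finset.range n, (1 ^ (i + 1) - s ^ (i + 1)) / (i + 1) * s ^ (n - 1 - i) := by
    have e1 : ∫ t in s..(1 : ℝ), (s ^ n - t ^ n) / |s - t| =
        ∫ t in s..(1 : ℝ), -∑ i ∈ Finset.range n, t ^ i * s ^ (n - 1 - i) := by
      apply intervalIntegral.integral_congr_ae
      refine Eventually.of_forall fun t hts => ?_
      rw [uIoc_of_le hs.2] at hts
      have hlt : s < t := hts.1
      rw [hgeo t, abs_of_neg (by linarith), neg_sub, ← neg_sub t s, mul_neg, neg_div, mul_div_assoc,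
        div_self (by linarith), mul_one]
    rw [e1, intervalIntegral.integral_neg, intervalIntegral.integral_finsetSum (fun i _ =>
      Continuous.intervalIntegrable (by fun_prop) _ _)]
    congr 1
    apply Finset.sum_congr rfl
    intro i _
    rw [intervalIntegral.integral_mul_const, integral_pow]
  rw [hL, hR, ← sub_eq_add_neg, ← Finset.sum_sub_distrib]
  apply Finset.sum_congr rfl
  intro i hi
  have hi' : i < n := Finset.mem_range.mp hi
  have hpow : s ^ n = s ^ (i + 1) * s ^ (n - 1 - i) := by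
    rw [← pow_add]
    congr 1
    omega
  have hi1 : ((i : ℝ) + 1) ≠ 0 := by positivity
  rw [hpow, one_pow]
  field_simp
  ring

/-! ### polynomials -/

lemma contDiff_eval (p : ℝ[X]) : ContDiff ℝ 1 (fun s => p.eval s) := by
  have := p.contDiff_aeval (𝕜 := ℝ) (R := ℝ) 1
  simpa [Polynomial.coe_aeval_eq_eval] using this

/-- the operator on a monomial, as a polynomial -/
noncomputable def Sm (n : ℕ) : ℝ[X] := ∑ i ∈ Finset.range n,
  ((1 / ((i : ℝ) + 1)) • ((2 : ℝ) • (X : ℝ[X]) ^ n - ((-1 : ℝ) ^ (i + 1) + 1) • (X : ℝ[X]) ^ (n - 1 - i)))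

/-- the operator on polynomials -/
noncomputable def Slin : ℝ[X] →ₗ[ℝ] ℝ[X] :=
  Polynomial.lsum fun n => LinearMap.toSpanSingleton ℝ ℝ[X] (Sm n)

lemma Slin_monomial (n : ℕ) (a : ℝ) : Slin (monomial n a) = a • Sm n := by
  unfold Slin
  rw [Polynomial.lsum_apply, Polynomial.sum_monomial_index _ _ (by simp)]
  rfl

lemma Sop_poly (p : ℝ[X]) {s : ℝ} (hs : s ∈ Icc (-1 : ℝ) 1) :
    Sop (fun s => p.eval s) s = (Slin p).eval s := by
  induction p using Polynomial.induction_on' with
  | add p q hp hq =>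
    rw [map_add, eval_add, ← hp, ← hq, ← Sop_add (contDiff_eval p) (contDiff_eval q) hs]
    congr 1
    funext t
    rw [eval_add]
  | monomial n a =>
    rw [Slin_monomial, eval_smul, smul_eq_mul]
    have : (fun s => (monomial n a).eval s) = fun s : ℝ => a * s ^ n := by
      funext t
      rw [eval_monomial]
    rw [this, Sop_smul, Sop_pow n hs]
    congr 1
    unfold Sm
    rw [eval_finsetSum]
    apply Finset.sum_congr rfl
    intro i _
    simp

lemma Sm_mem (n : ℕ) : Sm n - (2 * Hn n) • (X : ℝ[X]) ^ n ∈ degreeLT ℝ n := by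
  have : Sm n - (2 * Hn n) • (X : ℝ[X]) ^ n = ∑ i ∈ Finset.range n,
      (-(1 / ((i : ℝ) + 1) * ((-1 : ℝ) ^ (i + 1) + 1))) • (X : ℝ[X]) ^ (n - 1 - i) := by
    unfold Sm Hn
    rw [Finset.mul_sum, Finset.sum_smul, ← Finset.sum_sub_distrib]
    apply Finset.sum_congr rfl
    intro i _
    rw [smul_sub, smul_smul, smul_smul, neg_smul, mul_comm (2 : ℝ)]
    abel
  rw [this]
  apply Submodule.sum_mem
  intro i hi
  apply Submodule.smul_mem
  rw [mem_degreeLT, degree_X_pow]
  have := Finset.mem_range.mp hi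
  exact_mod_cast (by omega : n - 1 - i < n)

lemma X_pow_mem {m n : ℕ} (h : m < n) : (X : ℝ[X]) ^ m ∈ degreeLT ℝ n := by
  rw [mem_degreeLT, degree_X_pow]
  exact_mod_cast h

lemma Slin_mem {M : ℕ} {p : ℝ[X]} (hp : p ∈ degreeLT ℝ M) : Slin p ∈ degreeLT ℝ M := by
  rw [p.as_sum_support, map_sum]
  apply Submodule.sum_mem
  intro n hn
  rw [Slin_monomial]
  apply Submodule.smul_mem
  have hnM : n < M := by
    have h1 : (n : WithBot ℕ) ≤ p.degree := le_degree_of_mem_supp n hn
    rw [mem_degreeLT] at hp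
    exact_mod_cast h1.trans_lt hp
  have h2 := Sm_mem n
  have h3 : Sm n = (Sm n - (2 * Hn n) • (X : ℝ[X]) ^ n) + (2 * Hn n) • (X : ℝ[X]) ^ n := by abel
  rw [h3]
  exact Submodule.add_mem _ (degreeLT_mono hnM.le h2) (Submodule.smul_mem _ _ (X_pow_mem hnM))

lemma Slin_top (M : ℕ) : Slin (X ^ M) - (2 * Hn M) • (X : ℝ[X]) ^ M ∈ degreeLT ℝ M := by
  rw [← monomial_one_right_eq_X_pow, Slin_monomial, one_smul, monomial_one_right_eq_X_pow]
  exact Sm_mem M

/-- the inner product on `[-1, 1]` -/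
noncomputable def ip (f g : ℝ → ℝ) : ℝ := ∫ s, f s * g s ∂mu1

lemma E2_poly (hh : ContDiff ℝ 1 h) (p : ℝ[X]) :
    E2 (fun s => p.eval s) h = 2 * ip h (fun s => (Slin p).eval s) := by
  rw [E2_eq (contDiff_eval p) hh]
  unfold ip
  congr 1
  apply integral_congr_ae
  filter_upwards [ae_mem] with s hs
  rw [Sop_poly p hs]

lemma ip_self_pos {p : ℝ[X]} (hp : p ≠ 0) : 0 < ip (fun s => p.eval s) (fun s => p.eval s) := by
  unfold ip
  rw [int_mu1]
  apply intervalIntegral.integral_pos (by norm_num)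
  · exact (by fun_prop : Continuous fun s => p.eval s * p.eval s).continuousOn
  · intro x _
    exact mul_self_nonneg _
  · by_contra hcon
    push Not at hcon
    apply hp
    apply Polynomial.eq_zero_of_infinite_isRoot
    apply Set.Infinite.mono (s := Icc (-1 : ℝ) 1) _ (Icc_infinite (by norm_num))
    intro x hx
    have := hcon x hx
    have h2 : p.eval x * p.eval x = 0 := le_antisymm this (mul_self_nonneg _)
    exact mul_self_eq_zero.mp h2

lemma ip_self_nonneg (f : ℝ → ℝ) : 0 ≤ ip f f := integral_nonneg fun _ => mul_self_nonneg _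

lemma ip_comm (f g : ℝ → ℝ) : ip f g = ip g f := by
  unfold ip
  congr 1
  funext s
  ring

lemma ip_add_right (hf : Continuous f) (hg : Continuous g) (hh : Continuous h) :
    ip f (fun s => g s + h s) = ip f g + ip f h := by
  have i1 : Integrable (fun s => f s * g s) mu1 := integrable_cont (hf.mul hg)
  have i2 : Integrable (fun s => f s * h s) mu1 := integrable_cont (hf.mul hh)
  unfold ip
  rw [← integral_add i1 i2]
  congr 1
  funext s
  ring

lemma ip_sub_right (hf : Continuous f) (hg : Continuous g) (hh : Continuous h) :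
    ip f (fun s => g s - h s) = ip f g - ip f h := by
  have i1 : Integrable (fun s => f s * g s) mu1 := integrable_cont (hf.mul hg)
  have i2 : Integrable (fun s => f s * h s) mu1 := integrable_cont (hf.mul hh)
  unfold ip
  rw [← integral_sub i1 i2]
  congr 1
  funext s
  ring

lemma ip_smul_right (f g : ℝ → ℝ) (c : ℝ) : ip f (fun s => c * g s) = c * ip f g := by
  unfold ip
  rw [← integral_const_mul]
  congr 1
  funext s
  ring

/-- existence of the orthogonal projection onto polynomials -/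
lemma exists_proj (N : ℕ) (hf : Continuous f) : ∃ p ∈ degreeLT ℝ N, ∀ q ∈ degreeLT ℝ N,
    ip (fun s => q.eval s) (fun s => f s - p.eval s) = 0 := by
  have hc : ∀ p : ℝ[X], Continuous fun s => p.eval s := fun p => p.continuous
  let T : degreeLT ℝ N →ₗ[ℝ] Module.Dual ℝ (degreeLT ℝ N) :=
    LinearMap.mk₂ ℝ (fun p q => ip (fun s => (q : ℝ[X]).eval s) (fun s => (p : ℝ[X]).eval s))
      (fun p p' q => by
        simp only [Submodule.coe_add, eval_add]
        exact ip_add_right (hc _) (hc _) (hc _))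
      (fun c p q => by
        simp only [Submodule.coe_smul, eval_smul, smul_eq_mul]
        exact ip_smul_right _ _ _)
      (fun p q q' => by
        simp only [Submodule.coe_add, eval_add]
        rw [ip_comm, ip_add_right (hc _) (hc _) (hc _), ip_comm, ip_comm (fun s => (p : ℝ[X]).eval s)])
      (fun c p q => by
        simp only [Submodule.coe_smul, eval_smul, smul_eq_mul]
        rw [ip_comm, ip_smul_right, ip_comm])
  have hinj : Function.Injective T := by
    rw [← LinearMap.ker_eq_bot, LinearMap.ker_eq_bot']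
    intro p hp
    by_contra hne
    have h1 : T p p = 0 := by rw [hp]; rfl
    have h2 := ip_self_pos (p := (p : ℝ[X])) (fun h => hne (Subtype.ext h))
    exact h2.ne' h1
  have hfin : Module.Finite ℝ (degreeLT ℝ N) :=
    Module.Finite.equiv (degreeLTEquiv ℝ N).symm
  have hsurj : Function.Surjective T :=
    (LinearMap.injective_iff_surjective_of_finrank_eq_finrank
      (Subspace.dual_finrank_eq (K := ℝ) (V := degreeLT ℝ N)).symm).mp hinj
  let φ : Module.Dual ℝ (degreeLT ℝ N) :=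
    { toFun := fun q => ip (fun s => (q : ℝ[X]).eval s) f
      map_add' := fun q q' => by
        simp only [Submodule.coe_add, eval_add]
        rw [ip_comm, ip_add_right hf (hc _) (hc _), ip_comm, ip_comm f]
      map_smul' := fun c q => by
        simp only [Submodule.coe_smul, eval_smul, smul_eq_mul, RingHom.id_apply]
        rw [ip_comm, ip_smul_right, ip_comm] }
  obtain ⟨p, hp⟩ := hsurj φ
  refine ⟨p, p.2, fun q hq => ?_⟩
  rw [ip_sub_right (hc _) hf (hc _)]
  have h1 : T p ⟨q, hq⟩ = φ ⟨q, hq⟩ := by rw [hp]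
  have h2 : ip (fun s => q.eval s) (fun s => (p : ℝ[X]).eval s) = ip (fun s => q.eval s) f := h1
  rw [h2, sub_self]

end Pool.Agent.Helper61.W
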