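import Pool.Agent.Helper61.W.Ka
import Pool.Agent.Helper61.W.Dat

set_option autoImplicit false

/-!
# The kernel approximation, numerically
-/

namespace Pool.Agent.Helper61.W

open Filter Topology Set MeasureTheory

/-- Taylor coefficients of the reduced kernel -/
def cLD : List ℚ := [7/4, 1/24, 9/8, -7/1440, 1/32, 31/60480, 23/960, -127/2419200, -153/17920,
    73/13685760, 16843/4838400, -1414477/2615348736000, -900919/638668800, 8191/149448499200,
    22151221/38745907200, 0, -6463837379/27897053184000, 0, 801626558483/8536498274304000, 0,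
    -41152354248613/1081289781411840000, 0, 23116291464379303/1498667637036810240000, 0,
    -304206552226609547/48662619743783485440000]

lemma ep_zero : (EpL cLD 34).getD 0 0 = 0 := by decide +kernel

lemma ep_one : (EpL cLD 34).getD 1 0 = 0 := by decide +kernel

lemma ep_bound : epB cLD 34 (55452 / 100000) ≤ 1 / 10 ^ 10 := by decide +kernel

lemma err_bound : errL (277258872223978123764 / 10 ^ 21) (277258872223978123768 / 10 ^ 21) mhD cLD
    (277258872223978123764 / 10 ^ 21) (277258872223978123768 / 10 ^ 21) 1 ≤ 1 / 10 ^ 11 := by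
  decide +kernel

/-- composition with a translation -/
def compL (c : ℚ) : List ℚ → List ℚ
  | [] => []
  | a :: l => addL [a] (addL (smL c (compL c l)) (0 :: compL c l))

lemma evL_compL (c : ℚ) (x : ℝ) : ∀ l : List ℚ, evL (compL c l) x = evL l (c + x)
  | [] => by simp [compL, evL]
  | a :: l => by
    simp only [compL, evL, evL_addL, evL_smL, evL_compL c x l]
    push_cast
    ring

lemma mu_check : ∀ i : ℕ, i < 8 → evAbs (compL ((2 * (i : ℚ) + 1) / 8)
    (addL mhD [-(194378 / 100000), 0, -(10291 / 100000)])) (1 / 8) ≤ 11 / 2000 := by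
  decide +kernel

lemma exists_center {v : ℝ} (h0 : 0 ≤ v) (h2 : v ≤ 2) : ∃ i : ℕ,
    i < 8 ∧ |v - (2 * i + 1) / 8| ≤ 1 / 8 := by
  rcases lt_or_ge v 2 with hlt | hge
  · refine ⟨⌊4 * v⌋₊, ?_, ?_⟩
    · rw [Nat.floor_lt (by positivity)]
      push_cast
      linarith
    · have h3 := Nat.floor_le (show 0 ≤ 4 * v by positivity)
      have h4 := Nat.lt_floor_add_one (4 * v)
      rw [abs_le]
      constructor <;> linarith
  · refine ⟨7, by norm_num, ?_⟩
    have : v = 2 := le_antisymm h2 hge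
    rw [this]
    norm_num

lemma mu_bound {v : ℝ} (h0 : 0 ≤ v) (h2 : v ≤ 2) :
    |evL mhD v - 194378 / 100000 - 10291 / 100000 * v ^ 2| ≤ 11 / 2000 := by
  obtain ⟨i, hi, hv⟩ := exists_center h0 h2
  have h3 := mu_check i hi
  have h4 := evAbs_sound (h := 1 / 8) (x := v - (2 * i + 1) / 8) (by push_cast; exact hv)
    (compL ((2 * (i : ℚ) + 1) / 8) (addL mhD [-(194378 / 100000), 0, -(10291 / 100000)]))
  rw [evL_compL, evL_addL] at h4
  have e : (((2 * (i : ℚ) + 1) / 8 : ℚ) : ℝ) + (v - (2 * i + 1) / 8) = v := by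
    push_cast
    ring
  rw [e] at h4
  have h5 : ((evAbs (compL ((2 * (i : ℚ) + 1) / 8)
    (addL mhD [-(194378 / 100000), 0,
    -(10291 / 100000)])) (1 / 8) : ℚ) : ℝ) ≤ ((11 / 2000 : ℚ) : ℝ) := by
    exact_mod_cast h3
  have h6 := h4.trans h5
  simp only [evL] at h6
  push_cast at h6
  have e2 : evL mhD v - 194378 / 100000 - 10291 / 100000 * v ^ 2 =
      evL mhD v + (-(194378 / 100000) + v * (0 + v * (-(10291 / 100000) + v * 0))) := by ring
  rw [e2]
  exact h6

/-- the polynomial approximation of the kernel -/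
theorem kap_bound_num {v : ℝ} (h0 : 0 < v) (h2 : v ≤ 2) :
    |kap (4 / 5 * Real.log 2) v - evL mhD v| ≤ 1 / 10 ^ 10 := by
  have hl1 := log2_lower
  have hl2 := log2_upper
  norm_num at hl1 hl2
  set a := 4 / 5 * Real.log 2 with ha
  have ha0 : 0 < a := by rw [ha]; linarith
  set θ := a / 2 with hθ
  have hθ0 : ((277258872223978123764 / 10 ^ 21 : ℚ) : ℝ) ≤ θ := by
    rw [hθ, ha]
    push_cast
    linarith
  have hθ1 : θ ≤ ((277258872223978123768 / 10 ^ 21 : ℚ) : ℝ) := by
    rw [hθ, ha]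
    push_cast
    linarith
  have h3 := errL_sound (t0 := 277258872223978123764 / 10 ^ 21) (t1 := 277258872223978123768 / 10 ^ 21)
    (by norm_num) hθ0 hθ1 h0.le h2 mhD cLD (277258872223978123764 / 10 ^ 21)
    (277258872223978123768 / 10 ^ 21) 1 θ 1 (by decide) (by norm_num) hθ0 hθ1 zero_le_one (by norm_num)
  have h4 := err_bound
  have h4' : ((errL (277258872223978123764 / 10 ^ 21) (277258872223978123768 / 10 ^ 21) mhD cLD
    (277258872223978123764 / 10 ^ 21) (277258872223978123768 / 10 ^ 21) 1 : ℚ) : ℝ) ≤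
      ((1 / 10 ^ 11 : ℚ) : ℝ) := by exact_mod_cast h4
  have h5 := h3.trans h4'
  have h6 := M2_approx (c := cLD) (n := 34) (Y := 55452 / 100000) (y := θ * v)
    (by positivity) (by
      rw [hθ, ha]
      push_cast
      nlinarith) (by norm_num) (by norm_num) ep_zero ep_one
  have h7' : ((epB cLD 34 (55452 / 100000) : ℚ) : ℝ) ≤ ((1 / 10 ^ 10 : ℚ) : ℝ) := by
    exact_mod_cast ep_bound
  have h8 : |M2 (θ * v) - evL cLD (θ * v)| ≤ 1 / 10 ^ 10 / 16 := by
    refine h6.trans ?_
    push_cast at h7'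
    push_cast
    linarith
  rw [kap_M2 ha0 h0]
  have e : 2 * a * M2 (a / 2 * v) - evL mhD v = 2 * a * (M2 (θ * v) - evL cLD (θ * v)) -
      (1 * evL mhD v - 4 * θ * 1 * evL cLD (θ * v)) := by
    rw [hθ]
    ring
  rw [e]
  refine (abs_sub _ _).trans ?_
  rw [abs_mul, abs_of_pos (by positivity : 0 < 2 * a)]
  have h9 : 2 * a * |M2 (θ * v) - evL cLD (θ * v)| ≤ 6 / 5 * (1 / 10 ^ 10 / 16) := by
    apply mul_le_mul _ h8 (abs_nonneg _) (by norm_num)
    rw [ha]
    linarith
  push_cast at h5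
  linarith

end Pool.Agent.Helper61.W
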