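import Pool.Agent.Helper61.W.Bl

set_option autoImplicit false

/-!
# Projections of functions with given parity
-/

namespace Pool.Agent.Helper61.W

open Filter Topology Set MeasureTheory Polynomial

variable {f g : ℝ → ℝ}

lemma sum_range_two_mul {M : Type*} [AddCommMonoid M] (a : ℕ → M) (n : ℕ) :
    ∑ i ∈ Finset.range (2 * n), a i =
      (∑ k ∈ Finset.range n, a (2 * k)) + ∑ k ∈ Finset.range n, a (2 * k + 1) := by
  induction n with
  | zero => simp
  | succ n ih =>
    rw [show 2 * (n + 1) = 2 * n + 1 + 1 by ring, Finset.sum_range_succ, Finset.sum_range_succ, ih,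
      Finset.sum_range_succ, Finset.sum_range_succ]
    abel

/-- integrals of products of functions with opposite parity vanish -/
lemma ip_opp {e : ℕ} (hf : Par e f) (hg : Par (1 - e) g) (he : e = 0 ∨ e = 1) : ip f g = 0 := by
  unfold ip
  rw [int_mu1]
  have h1 := intervalIntegral.integral_comp_neg (a := -1) (b := 1) (fun s => f s * g s)
  rw [neg_neg] at h1
  have h2 : ∀ s, f (-s) * g (-s) = -(f s * g s) := by
    intro s
    rw [hf s, hg s]
    rcases he with rfl | rfl
    · norm_num
    · norm_num
  simp_rw [h2] at h1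
  rw [intervalIntegral.integral_neg] at h1
  linarith

/-- the parity part of a polynomial -/
noncomputable def pp (n e : ℕ) (q : ℝ[X]) : ℝ[X] :=
  ∑ k ∈ Finset.range n, q.coeff (2 * k + e) • (X : ℝ[X]) ^ (2 * k + e)

lemma pp_par (n e : ℕ) (q : ℝ[X]) : Par e (fun s => (pp n e q).eval s) := by
  intro s
  unfold pp
  simp only [eval_finsetSum, eval_smul, eval_pow, eval_X, smul_eq_mul]
  rw [Finset.mul_sum]
  apply Finset.sum_congr rfl
  intro k _
  rw [neg_pow, pow_add, pow_mul]
  simp
  ring

lemma pp_mem (n e : ℕ) (he : e ≤ 1) (q : ℝ[X]) : pp n e q ∈ degreeLT ℝ (2 * n) := by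
  unfold pp
  apply Submodule.sum_mem
  intro k hk
  have := Finset.mem_range.mp hk
  exact Submodule.smul_mem _ _ (X_pow_mem (by omega))

lemma pp_add {n : ℕ} {q : ℝ[X]} (hq : q ∈ degreeLT ℝ (2 * n)) : q = pp n 0 q + pp n 1 q := by
  have h1 : q = ∑ i ∈ Finset.range (2 * n), q.coeff i • (X : ℝ[X]) ^ i := by
    have hd : q.degree < ((2 * n : ℕ) : WithBot ℕ) := mem_degreeLT.mp hq
    rcases Nat.eq_zero_or_pos n with rfl | hn
    · simp only [mul_zero, Nat.cast_zero] at hd
      have h0 : q = 0 := by
        ext m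
        exact (degree_lt_iff_coeff_zero q 0).mp (by exact_mod_cast hd) m (Nat.zero_le _)
      simp [h0]
    · have hnd : q.natDegree < 2 * n := by
        rcases eq_or_ne q 0 with rfl | h0
        · simp; omega
        · exact (natDegree_lt_iff_degree_lt h0).mpr hd
      conv_lhs => rw [q.as_sum_range' (2 * n) hnd]
      apply Finset.sum_congr rfl
      intro i _
      rw [smul_X_eq_monomial]
  conv_lhs => rw [h1]
  rw [sum_range_two_mul]
  rfl

lemma pp_add_par {n e : ℕ} (he : e = 0 ∨ e = 1) {q : ℝ[X]} (hq : q ∈ degreeLT ℝ (2 * n)) :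
    q = pp n e q + pp n (1 - e) q := by
  rcases he with rfl | rfl
  · exact pp_add hq
  · conv_lhs => rw [pp_add hq]
    rw [add_comm]

/-- the projection of a function with parity has parity -/
theorem exists_proj_par {n e : ℕ} (he : e = 0 ∨ e = 1) (hf : Continuous f) (hp : Par e f) :
    ∃ x : ℕ → ℝ, ∀ q ∈ degreeLT ℝ (2 * n), ip (fun s => q.eval s)
      (fun s => f s - (∑ k ∈ Finset.range n, x k • (X : ℝ[X]) ^ (2 * k + e)).eval s) = 0 := by
  obtain ⟨p, hpm, hperp⟩ := exists_proj (2 * n) hf
  refine ⟨fun k => p.coeff (2 * k + e), fun q hq => ?_⟩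
  have he1 : e ≤ 1 := by omega
  have ccont : ∀ p : ℝ[X], Continuous fun s => p.eval s := fun p => p.continuous
  change ip (fun s => q.eval s) (fun s => f s - (pp n e p).eval s) = 0
  have hpar : Par e (fun s => f s - (pp n e p).eval s) := by
    intro s
    have h := pp_par n e p s
    simp only at h ⊢
    rw [hp s, h]
    ring
  -- the part with the same parity
  have h1 : ip (fun s => (pp n e q).eval s) (fun s => f s - (pp n e p).eval s) = 0 := by
    have h2 := hperp (pp n e q) (pp_mem n e he1 q)
    have h3 : ip (fun s => (pp n e q).eval s) (fun s => (pp n (1 - e) p).eval s) = 0 :=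
      ip_opp (pp_par n e q) (pp_par n (1 - e) p) he
    have h4 : (fun s => f s - (pp n e p).eval s) = fun s => (f s - p.eval s) + (pp n (1 - e) p).eval s := by
      funext s
      have : p.eval s = (pp n e p).eval s + (pp n (1 - e) p).eval s := by
        conv_lhs => rw [pp_add_par he hpm]
        rw [eval_add]
      rw [this]
      ring
    have c2 : Continuous fun s => f s - p.eval s := hf.sub (ccont p)
    rw [h4, ip_add_right (ccont _) c2 (ccont _), h2, h3, add_zero]
  have h5 : ip (fun s => (pp n (1 - e) q).eval s) (fun s => f s - (pp n e p).eval s) = 0 := by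
    rw [ip_comm]
    exact ip_opp hpar (pp_par n (1 - e) q) he
  have h6 : (fun s => q.eval s) = fun s => (pp n e q).eval s + (pp n (1 - e) q).eval s := by
    funext s
    conv_lhs => rw [pp_add_par he hq]
    rw [eval_add]
  have c3 : Continuous fun s => f s - (pp n e p).eval s := hf.sub (ccont _)
  rw [h6, ip_comm, ip_add_right c3 (ccont _) (ccont _), ip_comm, h1, ip_comm, h5, add_zero]

end Pool.Agent.Helper61.W
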