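import Pool.Agent.Helper61.W.Dat

set_option autoImplicit false

/-!
# The lower bound of the potential
-/

namespace Pool.Agent.Helper61.W

open Filter Topology Set MeasureTheory

/-- termwise comparison -/
def leL : List ℚ → List ℚ → Bool
  | [], [] => true
  | a :: l, b :: m => decide (a ≤ b) && leL l m
  | [], b :: m => decide (0 ≤ b) && leL [] m
  | _, _ => false

lemma leL_sound {x : ℝ} (hx : 0 ≤ x) : ∀ l m : List ℚ, leL l m = true → evL l x ≤ evL m x
  | [], [], _ => le_rfl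
  | a :: l, b :: m, h => by
    simp only [leL, Bool.and_eq_true, decide_eq_true_eq] at h
    have ih := leL_sound hx l m h.2
    simp only [evL]
    have h1 : (a : ℝ) ≤ b := by exact_mod_cast h.1
    exact add_le_add h1 (mul_le_mul_of_nonneg_left ih hx)
  | [], b :: m, h => by
    simp only [leL, Bool.and_eq_true, decide_eq_true_eq] at h
    have ih := leL_sound hx [] m h.2
    simp only [evL] at ih ⊢
    have h1 : (0 : ℝ) ≤ b := by exact_mod_cast h.1
    have := mul_nonneg hx ih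
    linarith
  | a :: l, [], h => by simp [leL] at h

/-- coefficients of the tangent -/
def tA : ℚ := ∑ j ∈ Finset.range 80, (1 - (j : ℚ)) * (4 / 5) ^ j / (20 + j)

def tB : ℚ := ∑ j ∈ Finset.range 80, (j : ℚ) * (4 / 5) ^ (j - 1) / (20 + j)

/-- the comparison list -/
def tauU : List ℚ := [0, 1, 1 / 2, 1 / 3, 1 / 4, 1 / 5, 1 / 6, 1 / 7, 1 / 8, 1 / 9, 1 / 10, 1 / 11, 1 / 12, 1 / 13, 1 / 14, 1 / 15, 1 / 16, 1 / 17, 1 / 18, 1 / 19, tA, tB]

lemma tau_le : leL tauD tauU = true := by decide +kernel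

lemma tau_ge : leL [0, 1, 0, 0, 0, 0, 0, 0, 0, 0, 0, 0, 0, 0, 0, 0, 0, 0, 0, 0, -503715737407/1000000000000] tauD = true := by decide +kernel

lemma tangent {x : ℝ} (hx : 0 ≤ x) (j : ℕ) :
    (1 - (j : ℝ)) * (4 / 5) ^ j + j * (4 / 5) ^ (j - 1) * x ≤ x ^ j := by
  rcases j with _ | j
  · simp
  · have h := one_add_mul_le_pow (a := 5 / 4 * x - 1) (by linarith) (j + 1)
    have e : 1 + (5 / 4 * x - 1) = 5 / 4 * x := by ring
    rw [e, mul_pow] at h
    have hp : (0 : ℝ) < (4 / 5) ^ (j + 1) := by positivity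
    have h2 := mul_le_mul_of_nonneg_left h hp.le
    have e2 : (4 / 5 : ℝ) ^ (j + 1) * ((5 / 4) ^ (j + 1) * x ^ (j + 1)) = x ^ (j + 1) := by
      rw [← mul_assoc, ← mul_pow]
      norm_num
    rw [e2] at h2
    refine le_trans (le_of_eq ?_) h2
    rw [Nat.add_sub_cancel, pow_succ]
    push_cast
    ring

/-- the potential is bounded below -/
theorem tau_log {x : ℝ} (hx : 0 ≤ x) (hx1 : x < 1) : evL tauD x ≤ -Real.log (1 - x) := by
  have h1 : ∑ i ∈ Finset.range 99, x ^ (i + 1) / ((i : ℝ) + 1) ≤ -Real.log (1 - x) := by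
    apply sum_le_hasSum _ _ (Real.hasSum_pow_div_log_of_abs_lt_one (by rwa [abs_of_nonneg hx]))
    intro i _
    positivity
  refine (leL_sound hx _ _ tau_le).trans (le_trans ?_ h1)
  have h2 : ∑ i ∈ Finset.range 99, x ^ (i + 1) / ((i : ℝ) + 1) =
      (∑ i ∈ Finset.range 19, x ^ (i + 1) / ((i : ℝ) + 1)) +
        ∑ j ∈ Finset.range 80, x ^ (19 + j + 1) / (((19 + j : ℕ) : ℝ) + 1) := by
    rw [show 99 = 19 + 80 by norm_num, Finset.sum_range_add]
  have h3 : x ^ 20 * ((tA : ℝ) + x * tB) ≤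
      ∑ j ∈ Finset.range 80, x ^ (19 + j + 1) / (((19 + j : ℕ) : ℝ) + 1) := by
    unfold tA tB
    push_cast
    rw [Finset.mul_sum, ← Finset.sum_add_distrib, Finset.mul_sum]
    apply Finset.sum_le_sum
    intro j _
    have h4 := tangent hx j
    have hd : (0 : ℝ) < 20 + j := by positivity
    have e1 : x ^ (19 + j + 1) / (19 + (j : ℝ) + 1) = x ^ 20 * (x ^ j / (20 + j)) := by
      rw [show 19 + j + 1 = 20 + j by ring, pow_add]
      have : (19 : ℝ) + j + 1 = 20 + j := by ring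
      rw [this]
      ring
    rw [e1]
    apply mul_le_mul_of_nonneg_left _ (by positivity)
    have e2 : (1 - (j : ℝ)) * (4 / 5) ^ j / (20 + j) + x * (j * (4 / 5) ^ (j - 1) / (20 + j)) =
        ((1 - (j : ℝ)) * (4 / 5) ^ j + j * (4 / 5) ^ (j - 1) * x) / (20 + j) := by ring
    rw [e2]
    exact div_le_div_of_nonneg_right h4 hd.le
  rw [h2]
  refine le_trans (le_of_eq ?_) (add_le_add le_rfl h3)
  simp only [tauU, evL, Finset.sum_range_succ, Finset.sum_range_zero]
  push_cast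
  ring

lemma tau_nonneg {x : ℝ} (hx : 0 ≤ x) (hx1 : x ≤ 1) : 0 ≤ evL tauD x := by
  refine le_trans ?_ (leL_sound hx _ _ tau_ge)
  simp only [evL]
  push_cast
  have h : x ^ 20 ≤ x := pow_le_of_le_one hx hx1 (by norm_num)
  have h0 : 0 ≤ x ^ 20 := by positivity
  nlinarith

end Pool.Agent.Helper61.W
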