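import Pool.Agent.Helper61.W.C0
import Pool.Agent.Helper61.W.C1
import Pool.Agent.Helper61.W.Pj
import Pool.Agent.Helper61.W.Kn
import Pool.Agent.Helper61.W.Ta
import Pool.Agent.Helper61.W.Corr

set_option autoImplicit false

/-!
# Positivity of Weil's functional on intervals of length `log 3`
-/

namespace Pool.Agent.Helper61.W

open Filter Topology Set MeasureTheory Polynomial
open scoped ComplexConjugate ContDiff
open Pool.Agent.V11271.LI (Zr mm cfg_zeta zz)

variable {f : ℝ → ℝ}

/-- the scale -/
noncomputable def aS : ℝ := 4 / 5 * Real.log 2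

lemma aS_pos : 0 < aS := by
  unfold aS
  have := Real.log_pos (show (1 : ℝ) < 2 by norm_num)
  positivity

lemma cert_both {e : ℕ} (he : e = 0 ∨ e = 1) (x : ℕ → ℝ) :
    ∃ r ∈ degreeLT ℝ 18, 1 / (4 * (dD : ℝ)) * ∫ s, (Yf (k := 1) (fun s => evL tauD (s ^ 2)) (evL mhD)
        (fun _ => ((5 / 4 : ℚ) : ℝ)) (fun _ => (cD : ℝ))
        (∑ k ∈ Finset.range 9, x k • (X : ℝ[X]) ^ (2 * k + e)) s - r.eval s) ^ 2 ∂mu1 ≤
      Af (k := 1) (fun s => evL tauD (s ^ 2)) (evL mhD) (fun _ => ((5 / 4 : ℚ) : ℝ))
        (fun _ => (cD : ℝ)) lamD (∑ k ∈ Finset.range 9, x k • (X : ℝ[X]) ^ (2 * k + e)) := by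
  rcases he with rfl | rfl
  · exact D0.cert x
  · exact D1.cert x

/-- the functional in the scaled variable -/
noncomputable def QS (F : ℝ → ℝ) : ℝ :=
  (∫ v in (0 : ℝ)..2, (F 0 - F v) / v) -
    (Real.eulerMascheroniConstant + Real.log Real.pi + Real.log (4 * aS)) * F 0 +
    (∫ v in (0 : ℝ)..2, F v * kap aS v) - Real.sqrt 2 * Real.log 2 * F (5 / 4)

lemma Hn18 : (3495108078 / 1000000000 : ℝ) ≤ Hn 18 := by
  unfold Hn
  norm_num [Finset.sum_range_succ]

/-- positivity for functions with parity -/
theorem par_pos {e : ℕ} (he : e = 0 ∨ e = 1) (hf : T1 f) (hp : Par e f) :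
    1 / 10 ^ 9 * Au f 0 ≤ QS (Au f) := by
  obtain ⟨x, hx⟩ := exists_proj_par (n := 9) he hf.cont hp
  obtain ⟨r, hr, hcert⟩ := cert_both he x
  have ct0 := evL_continuous tauD
  have hmem : (∑ k ∈ Finset.range 9, x k • (X : ℝ[X]) ^ (2 * k + e)) ∈ degreeLT ℝ 18 := by
    apply Submodule.sum_mem
    intro k hk
    have := Finset.mem_range.mp hk
    exact Submodule.smul_mem _ _ (X_pow_mem (by omega))
  have h := assemble (N := 18) (k := 1) (by norm_num) hf (τ := fun s => evL tauD (s ^ 2))
    (m := evL mhD) (κ := kap aS) (ε := 1 / 10 ^ 10)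
    (C := -(Real.eulerMascheroniConstant + Real.log Real.pi + Real.log (4 * aS)))
    (δ := 1 / 10 ^ 9) (μ := 11 / 2000) (d := dD) (lam := lamD) (α := 194378 / 100000)
    (β := 10291 / 100000)
    (fun _ => ((5 / 4 : ℚ) : ℝ)) (fun _ => (cD : ℝ)) (fun _ => Real.sqrt 2 * Real.log 2)
    (fun _ => 1 / 2) (by fun_prop)
    (fun s h1 h2 => tau_log (sq_nonneg s) (by nlinarith))
    (fun s hs => tau_nonneg (sq_nonneg s) (by nlinarith [hs.1, hs.2]))
    (evL_continuous mhD) (kap_meas aS) (fun v h0 h2 => kap_bound_num h0 h2)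
    (fun v h0 h2 => mu_bound h0 h2)
    (fun _ => by norm_num) (fun _ => by norm_num) (fun _ => by norm_num [cD])
    (fun _ h hh => shf_self_bound (by norm_num) (by norm_num) hh)
    (by
      have h1 := const_bound
      have h2 := c2_bound
      have e1 : (lamD : ℝ) = -1825436263 / 1000000000 := by
        norm_num [lamD]
      have e2 : (cD : ℝ) = 306330669833921 / 312500000000000 := by
        norm_num [cD]
      simp only [Finset.univ_unique, Finset.sum_const, Finset.card_singleton, one_smul]
      rw [e1, e2]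
      unfold aS
      linarith)
    (by norm_num [dD])
    (by
      have h1 := Hn18
      simp only [Finset.univ_unique, Finset.sum_const, Finset.card_singleton, one_smul]
      norm_num [dD, lamD, cD] at h1 ⊢
      linarith)
    hmem hr hx hcert
  refine h.trans (le_of_eq ?_)
  unfold QS
  simp only [Finset.univ_unique, Finset.sum_const, Finset.card_singleton, one_smul]
  push_cast
  ring

/-- even and odd parts -/
noncomputable def evp (f : ℝ → ℝ) (s : ℝ) : ℝ := (f s + f (-s)) / 2

noncomputable def odp (f : ℝ → ℝ) (s : ℝ) : ℝ := (f s - f (-s)) / 2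

lemma T1.evp (h : T1 f) : T1 (evp f) where
  c1 := by
    have := h.c1
    unfold Pool.Agent.Helper61.W.evp
    exact (this.add (this.comp contDiff_neg)).div_const 2
  van := fun s hs => by
    unfold Pool.Agent.Helper61.W.evp
    rw [h.van s hs, h.van (-s) (by rwa [abs_neg])]
    simp

lemma T1.odp (h : T1 f) : T1 (odp f) where
  c1 := by
    have := h.c1
    unfold Pool.Agent.Helper61.W.odp
    exact (this.sub (this.comp contDiff_neg)).div_const 2
  van := fun s hs => by
    unfold Pool.Agent.Helper61.W.odp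
    rw [h.van s hs, h.van (-s) (by rwa [abs_neg])]
    simp

lemma evp_par (f : ℝ → ℝ) : Par 0 (evp f) := by
  intro s
  unfold evp
  rw [neg_neg]
  ring

lemma odp_par (f : ℝ → ℝ) : Par 1 (odp f) := by
  intro s
  unfold odp
  rw [neg_neg]
  ring

/-- the autocorrelation splits -/
lemma Au_split (h : T1 f) (v : ℝ) : Au f v = Au (evp f) v + Au (odp f) v := by
  have hc := h.cont
  have he := h.evp
  have ho := h.odp
  have hec := he.cont
  have hoc := ho.cont
  have i1 : Integrable (fun s => evp f s * evp f (s - v)) := he.int_mul (by fun_prop)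
  have i2 : Integrable (fun s => odp f s * odp f (s - v)) := ho.int_mul (by fun_prop)
  have i3 : Integrable (fun s => evp f s * odp f (s - v)) := he.int_mul (by fun_prop)
  have i4 : Integrable (fun s => odp f s * evp f (s - v)) := ho.int_mul (by fun_prop)
  have i12 : Integrable (fun s => evp f s * evp f (s - v) + odp f s * odp f (s - v)) := i1.add i2
  have i34 : Integrable (fun s => evp f s * odp f (s - v) + odp f s * evp f (s - v)) := i3.add i4
  have e0 : ∫ s, (evp f s * odp f (s - v) + odp f s * evp f (s - v)) = 0 := by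
    rw [integral_add i3 i4]
    have h1 : ∫ s, evp f s * odp f (s - v) = -∫ s, odp f s * evp f (s - v) := by
      rw [← integral_neg_eq_self (fun s => evp f s * odp f (s - v)),
        ← integral_sub_right_eq_self (fun s => evp f (-s) * odp f (-s - v)) v, ← integral_neg]
      congr 1
      funext s
      have a1 : -(s - v) - v = -s := by ring
      have a2 : evp f (-(s - v)) = evp f (s - v) := by
        have := evp_par f (s - v)
        simpa using this
      have a3 : odp f (-s) = -odp f s := by
        have := odp_par f s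
        simpa using this
      rw [a1, a2, a3]
      ring
    rw [h1]
    ring
  have e1 : Au f v = ∫ s, ((evp f s * evp f (s - v) + odp f s * odp f (s - v)) +
      (evp f s * odp f (s - v) + odp f s * evp f (s - v))) := by
    unfold Au
    congr 1
    funext s
    unfold evp odp
    ring
  rw [e1, integral_add i12 i34, e0, add_zero, integral_add i1 i2]
  rfl

/-- the functional is additive on autocorrelations -/
lemma QS_add {F G : ℝ → ℝ} (hF : Continuous F) (hG : Continuous G) {L L' : ℝ}
    (hFL : ∀ v, 0 < v → |F 0 - F v| ≤ L * v) (hGL : ∀ v, 0 < v → |G 0 - G v| ≤ L' * v) :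
    QS (fun v => F v + G v) = QS F + QS G := by
  have hFm := hF.measurable
  have hGm := hG.measurable
  have hkm := kap_meas aS
  have i1 : IntervalIntegrable (fun v => (F 0 - F v) / v) volume 0 2 := by
    refine ii_bdd (C := L) (by norm_num) (by fun_prop) fun v hv _ => ?_
    rw [abs_div, abs_of_pos hv, div_le_iff₀ hv]
    exact hFL v hv
  have i2 : IntervalIntegrable (fun v => (G 0 - G v) / v) volume 0 2 := by
    refine ii_bdd (C := L') (by norm_num) (by fun_prop) fun v hv _ => ?_
    rw [abs_div, abs_of_pos hv, div_le_iff₀ hv]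
    exact hGL v hv
  have hb : ∀ {H : ℝ → ℝ}, Continuous H → IntervalIntegrable (fun v => H v * kap aS v) volume 0 2 := by
    intro H hH
    obtain ⟨B, hB⟩ := isCompact_Icc.exists_bound_of_continuousOn (s := Icc (0 : ℝ) 2)
      (f := H) hH.continuousOn
    have hHm := hH.measurable
    have hB0 : 0 ≤ B := (norm_nonneg _).trans (hB 0 (by norm_num))
    refine ii_bdd (C := B * (2 * aS * Real.exp aS + 2 * aS)) (by norm_num) (by fun_prop) fun v hv hv2 => ?_
    rw [abs_mul]
    exact mul_le_mul (hB v ⟨hv.le, hv2⟩) (kap_bound aS_pos hv hv2) (abs_nonneg _) hB0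
  have i3 := hb hF
  have i4 := hb hG
  unfold QS
  have e1 : ∫ v in (0 : ℝ)..2, (F 0 + G 0 - (F v + G v)) / v =
      (∫ v in (0 : ℝ)..2, (F 0 - F v) / v) + ∫ v in (0 : ℝ)..2, (G 0 - G v) / v := by
    rw [← intervalIntegral.integral_add i1 i2]
    congr 1
    funext v
    ring
  have e2 : ∫ v in (0 : ℝ)..2, (F v + G v) * kap aS v =
      (∫ v in (0 : ℝ)..2, F v * kap aS v) + ∫ v in (0 : ℝ)..2, G v * kap aS v := by
    rw [← intervalIntegral.integral_add i3 i4]
    congr 1
    funext v
    ring
  rw [e1, e2]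
  ring

lemma Au_lip0 (h : T1 f) : ∃ L : ℝ, 0 ≤ L ∧ ∀ v, 0 < v → |Au f 0 - Au f v| ≤ L * v := by
  obtain ⟨L, hL0, hL⟩ := Au_lip h
  refine ⟨L, hL0, fun v hv => ?_⟩
  have := hL 0 v
  rwa [zero_sub, abs_neg, abs_of_pos hv] at this

/-- positivity for all real test functions on `[-1, 1]` -/
theorem real_pos (hf : T1 f) : 1 / 10 ^ 9 * Au f 0 ≤ QS (Au f) := by
  obtain ⟨L, _, hL⟩ := Au_lip0 hf.evp
  obtain ⟨L', _, hL'⟩ := Au_lip0 hf.odp
  have h1 : Au f = fun v => Au (evp f) v + Au (odp f) v := funext (Au_split hf)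
  rw [h1, QS_add (Au_cont hf.evp) (Au_cont hf.odp) hL hL']
  have h2 := par_pos (Or.inl rfl) hf.evp (evp_par f)
  have h3 := par_pos (Or.inr rfl) hf.odp (odp_par f)
  linarith

end Pool.Agent.Helper61.W
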