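import Pool.Agent.Helper61.W.Sp

set_option autoImplicit false

/-!
# Integrals of the autocorrelation as forms on the square
-/

namespace Pool.Agent.Helper61.W

open Filter Topology Set MeasureTheory

/-- Lebesgue measure on `(0, 2]` -/
noncomputable def nu : Measure ℝ := volume.restrict (Ioc (0 : ℝ) 2)

instance : IsFiniteMeasure nu := by
  unfold nu
  infer_instance

lemma ae_nu : ∀ᵐ v ∂nu, v ∈ Ioc (0 : ℝ) 2 := by
  unfold nu
  exact ae_restrict_mem measurableSet_Ioc

lemma int_nu (g : ℝ → ℝ) : ∫ v, g v ∂nu = ∫ v in (0 : ℝ)..2, g v := by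
  unfold nu
  rw [intervalIntegral.integral_of_le (by norm_num)]

lemma integrable_mn {k : ℝ × ℝ → ℝ} {C : ℝ} (hk : Measurable k)
    (hb : ∀ s ∈ Icc (-1 : ℝ) 1, ∀ v ∈ Ioc (0 : ℝ) 2, |k (s, v)| ≤ C) : Integrable k (mu1.prod nu) := by
  refine Integrable.of_bound hk.aestronglyMeasurable C ?_
  filter_upwards [(Measure.quasiMeasurePreserving_fst (μ := mu1) (ν := nu)).ae ae_mem,
    (Measure.quasiMeasurePreserving_snd (μ := mu1) (ν := nu)).ae ae_nu] with z h1 h2
  exact hb z.1 h1 z.2 h2

lemma ii_bdd {f : ℝ → ℝ} {p q C : ℝ} (hpq : p ≤ q) (hf : Measurable f)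
    (hb : ∀ v, p < v → v ≤ q → |f v| ≤ C) : IntervalIntegrable f volume p q := by
  rw [intervalIntegrable_iff_integrableOn_Ioc_of_le hpq]
  apply Measure.integrableOn_of_bounded (M := C) (by simp) hf.aestronglyMeasurable
  rw [ae_restrict_iff' measurableSet_Ioc]
  exact Eventually.of_forall fun v hv => hb v hv.1 hv.2

/-- the test functions on `[-1, 1]` -/
structure T1 (f : ℝ → ℝ) : Prop where
  c1 : ContDiff ℝ 1 f
  van : ∀ s, 1 ≤ |s| → f s = 0

variable {f : ℝ → ℝ}

lemma T1.compact (h : T1 f) : HasCompactSupport f := by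
  apply HasCompactSupport.intro (K := Icc (-1) 1) isCompact_Icc
  intro s hs
  apply h.van
  by_contra hlt
  push Not at hlt
  exact hs ⟨(abs_lt.mp hlt).1.le, (abs_lt.mp hlt).2.le⟩

lemma T1.cont (h : T1 f) : Continuous f := h.c1.continuous

lemma T1.lip (h : T1 f) : ∃ K : ℝ, 0 ≤ K ∧ ∀ x y, |f x - f y| ≤ K * |x - y| := by
  obtain ⟨K, hK⟩ := h.c1.lipschitzWith_of_hasCompactSupport h.compact (by norm_num)
  exact ⟨K, K.2, fun x y => by
    have := hK.dist_le_mul x y
    rwa [Real.dist_eq, Real.dist_eq] at this⟩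

lemma T1.bd (h : T1 f) : ∃ M : ℝ, 0 ≤ M ∧ ∀ x, |f x| ≤ M := by
  obtain ⟨M, hM⟩ := h.cont.bounded_above_of_compact_support h.compact
  exact ⟨M, (norm_nonneg _).trans (hM 0), hM⟩

/-- the autocorrelation -/
noncomputable def Au (f : ℝ → ℝ) (v : ℝ) : ℝ := ∫ s, f s * f (s - v)

lemma T1.integral_eq (h : T1 f) (g : ℝ → ℝ) : ∫ s, f s * g s = ∫ s, f s * g s ∂mu1 := by
  unfold mu1
  rw [setIntegral_eq_integral_of_forall_compl_eq_zero]
  intro s hs
  rw [h.van, zero_mul]
  by_contra hlt
  push Not at hlt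
  exact hs ⟨(abs_lt.mp hlt).1.le, (abs_lt.mp hlt).2.le⟩

lemma Au_neg (f : ℝ → ℝ) (v : ℝ) : ∫ s, f s * f (s + v) = Au f v := by
  unfold Au
  rw [← integral_add_right_eq_self (fun s => f s * f (s - v)) v]
  congr 1
  funext s
  rw [add_sub_cancel_right, mul_comm]

lemma Au_zero (h : T1 f) : Au f 0 = ip f f := by
  unfold Au ip
  rw [h.integral_eq]
  simp

lemma T1.int_mul (h : T1 f) {g : ℝ → ℝ} (hg : Continuous g) : Integrable (fun s => f s * g s) :=
  (h.cont.mul hg).integrable_of_hasCompactSupport (h.compact.mul_right)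

lemma Au_bound (h : T1 f) (v : ℝ) : |Au f v| ≤ Au f 0 := by
  have hc := h.cont
  have i1 : Integrable (fun s => f s * f s) := h.int_mul hc
  have i2 : Integrable (fun s => f (s - v) * f (s - v)) := by
    exact i1.comp_sub_right v
  have i3 : Integrable (fun s => f s * f (s - v)) := h.int_mul (by fun_prop)
  have e2 : ∫ s, f (s - v) * f (s - v) = ∫ s, f s * f s :=
    integral_sub_right_eq_self (fun s => f s * f s) v
  have i4 : Integrable (fun s => f s * f s + f (s - v) * f (s - v)) := i1.add i2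
  have e4 : ∫ s, (f s * f s + f (s - v) * f (s - v)) = 2 * ∫ s, f s * f s := by
    rw [integral_add i1 i2, e2]
    ring
  unfold Au
  simp only [sub_zero]
  rw [abs_le]
  constructor
  · have h1 : 0 ≤ ∫ s, (f s + f (s - v)) ^ 2 := integral_nonneg fun s => sq_nonneg _
    have h2 : ∫ s, (f s + f (s - v)) ^ 2 = (∫ s, (f s * f s + f (s - v) * f (s - v))) +
        2 * ∫ s, f s * f (s - v) := by
      rw [← integral_const_mul, ← integral_add i4 (i3.const_mul 2)]
      congr 1
      funext s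
      ring
    rw [h2, e4] at h1
    linarith
  · have h1 : 0 ≤ ∫ s, (f s - f (s - v)) ^ 2 := integral_nonneg fun s => sq_nonneg _
    have h2 : ∫ s, (f s - f (s - v)) ^ 2 = (∫ s, (f s * f s + f (s - v) * f (s - v))) -
        2 * ∫ s, f s * f (s - v) := by
      rw [← integral_const_mul, ← integral_sub i4 (i3.const_mul 2)]
      congr 1
      funext s
      ring
    rw [h2, e4] at h1
    linarith

lemma Au_eq_mu1 (h : T1 f) (v : ℝ) : Au f v = ∫ s, f s * f (s - v) ∂mu1 := by
  unfold Au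
  rw [h.integral_eq]

lemma Au_eq_mu1' (h : T1 f) (v : ℝ) : Au f v = ∫ s, f s * f (s + v) ∂mu1 := by
  rw [← Au_neg, h.integral_eq]

/-- the inner integral of the energy -/
lemma inner_A (h : T1 f) {s : ℝ} (h1 : -1 < s) (h2 : s < 1) :
    ∫ v in (0 : ℝ)..2, (2 * f s - f (s - v) - f (s + v)) / v =
      Sop f s + f s * (Real.log 4 - Real.log (1 - s ^ 2)) := by
  obtain ⟨K, hK0, hK⟩ := h.lip
  have hm := h.cont.measurable
  have i1 : ∀ p q : ℝ, 0 ≤ p → p ≤ q → IntervalIntegrable (fun v => (f s - f (s - v)) / v) volume p q := by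
    intro p q hp hpq
    apply ii_bdd (C := K) hpq (by fun_prop)
    intro v hv _
    have hv0 : 0 < v := by linarith
    rw [abs_div, abs_of_pos hv0, div_le_iff₀ hv0]
    have := hK s (s - v)
    rwa [sub_sub_cancel, abs_of_pos hv0] at this
  have i2 : ∀ p q : ℝ, 0 ≤ p → p ≤ q → IntervalIntegrable (fun v => (f s - f (s + v)) / v) volume p q := by
    intro p q hp hpq
    apply ii_bdd (C := K) hpq (by fun_prop)
    intro v hv _
    have hv0 : 0 < v := by linarith
    rw [abs_div, abs_of_pos hv0, div_le_iff₀ hv0]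
    have := hK s (s + v)
    rwa [sub_add_cancel_left, abs_neg, abs_of_pos hv0] at this
  have e0 : ∫ v in (0 : ℝ)..2, (2 * f s - f (s - v) - f (s + v)) / v =
      (∫ v in (0 : ℝ)..2, (f s - f (s - v)) / v) + ∫ v in (0 : ℝ)..2, (f s - f (s + v)) / v := by
    rw [← intervalIntegral.integral_add (i1 0 2 le_rfl (by norm_num)) (i2 0 2 le_rfl (by norm_num))]
    congr 1
    funext v
    ring
  have hp1 : 0 < 1 + s := by linarith
  have hp2 : 0 < 1 - s := by linarith
  rw [e0, ← intervalIntegral.integral_add_adjacent_intervals (i1 0 (1 + s) le_rfl hp1.le)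
      (i1 (1 + s) 2 hp1.le (by linarith)),
    ← intervalIntegral.integral_add_adjacent_intervals (i2 0 (1 - s) le_rfl hp2.le)
      (i2 (1 - s) 2 hp2.le (by linarith))]
  have e1 : ∫ v in (0 : ℝ)..(1 + s), (f s - f (s - v)) / v =
      ∫ t in (-1 : ℝ)..s, (f s - f t) / |s - t| := by
    have := intervalIntegral.integral_comp_sub_left (a := 0) (b := 1 + s)
      (fun t => (f s - f t) / |s - t|) s
    rw [sub_zero, show s - (1 + s) = -1 by ring] at this
    rw [← this]
    apply intervalIntegral.integral_congr_ae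
    refine Eventually.of_forall fun v hv => ?_
    rw [uIoc_of_le hp1.le] at hv
    rw [sub_sub_cancel, abs_of_pos hv.1]
  have e2 : ∫ v in (0 : ℝ)..(1 - s), (f s - f (s + v)) / v =
      ∫ t in s..(1 : ℝ), (f s - f t) / |s - t| := by
    have := intervalIntegral.integral_comp_add_left (a := 0) (b := 1 - s)
      (fun t => (f s - f t) / |s - t|) s
    rw [add_zero, show s + (1 - s) = 1 by ring] at this
    rw [← this]
    apply intervalIntegral.integral_congr_ae
    refine Eventually.of_forall fun v hv => ?_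
    rw [uIoc_of_le hp2.le] at hv
    rw [sub_add_cancel_left, abs_neg, abs_of_pos hv.1]
  have e3 : ∫ v in (1 + s)..(2 : ℝ), (f s - f (s - v)) / v = f s * (Real.log 2 - Real.log (1 + s)) := by
    rw [← Real.log_div (by norm_num) hp1.ne', ← integral_inv_of_pos hp1 (by norm_num),
      ← intervalIntegral.integral_const_mul]
    apply intervalIntegral.integral_congr_ae
    refine Eventually.of_forall fun v hv => ?_
    rw [uIoc_of_le (by linarith)] at hv
    rw [h.van (s - v), sub_zero, div_eq_mul_inv]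
    rw [abs_of_neg (by linarith [hv.1])]
    linarith [hv.1]
  have e4 : ∫ v in (1 - s)..(2 : ℝ), (f s - f (s + v)) / v = f s * (Real.log 2 - Real.log (1 - s)) := by
    rw [← Real.log_div (by norm_num) hp2.ne', ← integral_inv_of_pos hp2 (by norm_num),
      ← intervalIntegral.integral_const_mul]
    apply intervalIntegral.integral_congr_ae
    refine Eventually.of_forall fun v hv => ?_
    rw [uIoc_of_le (by linarith)] at hv
    rw [h.van (s + v), sub_zero, div_eq_mul_inv]
    rw [abs_of_pos (by linarith [hv.1])]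
    linarith [hv.1]
  have hs : s ∈ Icc (-1 : ℝ) 1 := ⟨h1.le, h2.le⟩
  have e5 : Sop f s = (∫ t in (-1 : ℝ)..s, (f s - f t) / |s - t|) +
      ∫ t in s..(1 : ℝ), (f s - f t) / |s - t| := by
    have hint := quot_integrable h.c1 hs
    unfold mu1 at hint
    have hii : ∀ p q : ℝ, p ∈ Icc (-1 : ℝ) 1 → q ∈ Icc (-1 : ℝ) 1 →
        IntervalIntegrable (fun t => (f s - f t) / |s - t|) volume p q := by
      intro p q hp hq
      rw [intervalIntegrable_iff]
      have : uIoc p q ⊆ Icc (-1) 1 := uIoc_subset_uIcc.trans (uIcc_subset_Icc hp hq)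
      exact IntegrableOn.mono_set (t := Icc (-1) 1) hint this
    unfold Sop
    rw [int_mu1, intervalIntegral.integral_add_adjacent_intervals (hii _ _ (by norm_num) hs)
      (hii _ _ hs (by norm_num))]
  have e6 : Real.log (1 - s ^ 2) = Real.log (1 + s) + Real.log (1 - s) := by
    rw [← Real.log_mul hp1.ne' hp2.ne']
    congr 1
    ring
  have e7 : Real.log 4 = Real.log 2 + Real.log 2 := by
    rw [← Real.log_mul (by norm_num) (by norm_num)]
    norm_num
  rw [e1, e2, e3, e4, e5, e6, e7]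
  ring

/-- lower bound of the archimedean singular integral -/
lemma fact_A (h : T1 f) {τ : ℝ → ℝ} (hτ : Continuous τ)
    (hle : ∀ s, -1 < s → s < 1 → τ s ≤ -Real.log (1 - s ^ 2)) :
    1 / 4 * E2 f f + 1 / 2 * (∫ s, f s ^ 2 * (Real.log 4 + τ s) ∂mu1) ≤
      ∫ v in (0 : ℝ)..2, (Au f 0 - Au f v) / v := by
  obtain ⟨K, hK0, hK⟩ := h.lip
  obtain ⟨M, hM0, hM⟩ := h.bd
  have hc := h.cont
  have hm := h.cont.measurable
  set k : ℝ × ℝ → ℝ := fun z => f z.1 * ((2 * f z.1 - f (z.1 - z.2) - f (z.1 + z.2)) / z.2) with hk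
  have ik : Integrable k (mu1.prod nu) := by
    refine integrable_mn (C := M * (2 * K)) (by rw [hk]; fun_prop) fun s hs v hv => ?_
    simp only [hk]
    rw [abs_mul]
    apply mul_le_mul (hM s) _ (abs_nonneg _) hM0
    rw [abs_div, abs_of_pos hv.1, div_le_iff₀ hv.1]
    have h1 := hK s (s - v)
    have h2 := hK s (s + v)
    rw [sub_sub_cancel, abs_of_pos hv.1] at h1
    rw [sub_add_cancel_left, abs_neg, abs_of_pos hv.1] at h2
    have e : 2 * f s - f (s - v) - f (s + v) = (f s - f (s - v)) + (f s - f (s + v)) := by ring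
    rw [e]
    exact (abs_add_le _ _).trans (by linarith)
  -- swapping
  have e1 : ∫ v, ∫ s, k (s, v) ∂mu1 ∂nu = ∫ s, ∫ v, k (s, v) ∂nu ∂mu1 := by
    have := integral_integral_swap (μ := mu1) (ν := nu) (f := fun s v => k (s, v)) ik
    exact this.symm
  have e2 : ∀ v : ℝ, ∫ s, k (s, v) ∂mu1 = 2 * ((Au f 0 - Au f v) / v) := by
    intro v
    have j1 : Integrable (fun s => 2 * (f s * f s)) mu1 := (integrable_cont (by fun_prop))
    have j2 : Integrable (fun s => f s * f (s - v)) mu1 := (integrable_cont (by fun_prop))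
    have j3 : Integrable (fun s => f s * f (s + v)) mu1 := (integrable_cont (by fun_prop))
    have j12 : Integrable (fun s => 2 * (f s * f s) - f s * f (s - v)) mu1 := j1.sub j2
    have e3 : ∀ s, k (s, v) = (2 * (f s * f s) - f s * f (s - v) - f s * f (s + v)) / v := by
      intro s
      simp only [hk]
      ring
    simp_rw [e3]
    rw [integral_div, integral_sub j12 j3, integral_sub j1 j2, integral_const_mul,
      ← Au_eq_mu1 h, ← Au_eq_mu1' h]
    have : ∫ s, f s * f s ∂mu1 = Au f 0 := by rw [Au_zero h]; rfl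
    rw [this]
    ring
  have e4 : ∫ v in (0 : ℝ)..2, (Au f 0 - Au f v) / v = 1 / 2 * ∫ s, ∫ v, k (s, v) ∂nu ∂mu1 := by
    rw [← e1, ← int_nu]
    simp_rw [e2]
    rw [integral_const_mul]
    ring
  rw [e4]
  have e5 : ∀ s, -1 < s → s < 1 → ∫ v, k (s, v) ∂nu =
      f s * (Sop f s + f s * (Real.log 4 - Real.log (1 - s ^ 2))) := by
    intro s h1 h2
    rw [← inner_A h h1 h2, int_nu, ← intervalIntegral.integral_const_mul]
  have hneq : ∀ᵐ s ∂mu1, s ∈ Ioo (-1 : ℝ) 1 := by
    have h1 : ∀ᵐ s : ℝ, s ≠ -1 := by rw [ae_iff]; simp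
    have h2 : ∀ᵐ s : ℝ, s ≠ 1 := by rw [ae_iff]; simp
    have h1' : ∀ᵐ s ∂mu1, s ≠ -1 := by unfold mu1; exact ae_restrict_of_ae h1
    have h2' : ∀ᵐ s ∂mu1, s ≠ 1 := by unfold mu1; exact ae_restrict_of_ae h2
    filter_upwards [ae_mem, h1', h2'] with s hs ha hb
    exact ⟨lt_of_le_of_ne hs.1 (Ne.symm ha), lt_of_le_of_ne hs.2 hb⟩
  have i5 : Integrable (fun s => ∫ v, k (s, v) ∂nu) mu1 := ik.integral_prod_left
  have hSm : Integrable (fun s => f s * Sop f s) mu1 := by
    have ik2 : Integrable (fun z : ℝ × ℝ => f z.1 * ((f z.1 - f z.2) / |z.1 - z.2|)) (mu1.prod mu1) := by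
      obtain ⟨K1, hK1⟩ := exists_lipB h.c1
      refine integrable_bdd2 (C := M * K1) (by fun_prop) fun s hs t ht => ?_
      simp only
      rw [abs_mul]
      exact mul_le_mul (hM s) (quot_bound hK1 hs ht) (abs_nonneg _) hM0
    have := ik2.integral_prod_left
    refine this.congr ?_
    refine Eventually.of_forall fun s => ?_
    simp only
    rw [integral_const_mul]
    rfl
  have i6 : Integrable (fun s => f s ^ 2 * (Real.log 4 + τ s)) mu1 := integrable_cont (by fun_prop)
  have h7 : ∫ s, (f s * Sop f s + f s ^ 2 * (Real.log 4 + τ s)) ∂mu1 ≤ ∫ s, ∫ v, k (s, v) ∂nu ∂mu1 := by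
    apply integral_mono_ae (hSm.add i6) i5
    filter_upwards [hneq] with s hs
    rw [e5 s hs.1 hs.2]
    have := hle s hs.1 hs.2
    have h8 : f s ^ 2 * (Real.log 4 + τ s) ≤ f s ^ 2 * (Real.log 4 - Real.log (1 - s ^ 2)) :=
      mul_le_mul_of_nonneg_left (by linarith) (sq_nonneg _)
    simp only [Pi.add_apply]
    nlinarith
  rw [integral_add hSm i6] at h7
  have e8 : E2 f f = 2 * ∫ s, f s * Sop f s ∂mu1 := E2_eq h.c1 h.c1
  rw [e8]
  linarith

end Pool.Agent.Helper61.W
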