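import Pool.Agent.Helper61.W.Li

set_option autoImplicit false

/-!
# Moment lists
-/

namespace Pool.Agent.Helper61.W

open Filter Topology Set MeasureTheory Polynomial

/-- the first `n` entries of a list, read from index `a` on, are the values of `φ` -/
def MVn (φ : ℕ → ℝ) : ℕ → List ℚ → ℕ → Prop
  | 0, _, _ => True
  | _ + 1, [], _ => False
  | n + 1, q :: L, a => (q : ℝ) = φ a ∧ MVn φ n L (a + 1)

/-- the linear functional given by a list -/
noncomputable def linF (φ : ℕ → ℝ) : List ℚ → ℕ → ℝ
  | [], _ => 0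
  | b :: l, a => b * φ a + linF φ l (a + 1)

variable {φ ψ : ℕ → ℝ}

lemma MVn.mono {m : ℕ} : ∀ {n : ℕ} {L : List ℚ} {a : ℕ}, MVn φ n L a → m ≤ n → MVn φ m L a := by
  induction m with
  | zero => intro n L a _ _; trivial
  | succ m ih =>
    intro n L a h hmn
    match n, L, h with
    | n + 1, q :: L, h => exact ⟨h.1, ih h.2 (by omega)⟩

lemma dotQ_sound : ∀ (l L : List ℚ) (a n : ℕ), MVn φ n L a → l.length ≤ n →
    ((dotQ l L : ℚ) : ℝ) = linF φ l a
  | [], L, a, n, _, _ => by simp [dotQ, linF]
  | b :: l, [], a, n, h, hn => by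
    match n, h with
    | 0, _ => simp at hn
  | b :: l, q :: L, a, n, h, hn => by
    match n, h with
    | 0, _ => simp at hn
    | n + 1, h =>
      have ih := dotQ_sound l L (a + 1) n h.2 (by simpa using hn)
      simp only [dotQ, linF]
      push_cast
      rw [ih, h.1]

lemma momL_sound (l : List ℚ) : ∀ (L : List ℚ) (a n n' : ℕ), MVn φ n L a → n' + l.length ≤ n + 1 →
    n' ≤ n → MVn (fun b => linF φ l b) n' (momL l L) a
  | L, a, n, 0, _, _, _ => trivial
  | L, a, n, n' + 1, h, h1, h2 => by
    match n, L, h with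
    | 0, _, _ => omega
    | n + 1, q :: L, h =>
      refine ⟨dotQ_sound l (q :: L) a (n + 1) h (by omega), ?_⟩
      exact momL_sound l L (a + 1) n n' h.2 (by omega) (by omega)

lemma momL2_sound (l : List ℚ) (b : ℕ) : ∀ (L : List ℚ) (i0 n n' : ℕ), MVn φ n L (b + 2 * i0) →
    2 * n' + l.length ≤ n + 2 → 2 * n' ≤ n + 1 →
    MVn (fun i => linF φ l (b + 2 * i)) n' (momL2 l L) i0
  | L, i0, n, 0, _, _, _ => trivial
  | L, i0, n, n' + 1, h, h1, h2 => by
    match n, L, h with
    | 0, _, _ => omega
    | 1, [q], h =>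
      have hn' : n' = 0 := by omega
      subst hn'
      exact ⟨dotQ_sound l [q] _ 1 h (by omega), trivial⟩
    | 1, q :: r :: L, h =>
      have hn' : n' = 0 := by omega
      subst hn'
      exact ⟨dotQ_sound l (q :: r :: L) _ 1 h (by omega), trivial⟩
    | n + 2, q :: r :: L, h =>
      refine ⟨dotQ_sound l (q :: r :: L) _ (n + 2) h (by omega), ?_⟩
      have h3 : MVn φ n L (b + 2 * (i0 + 1)) := by
        have := h.2.2
        rwa [show b + 2 * i0 + 1 + 1 = b + 2 * (i0 + 1) by ring] at this
      exact momL2_sound l b L (i0 + 1) n n' h3 (by omega) (by omega)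

lemma drL_sound : ∀ (k : ℕ) (L : List ℚ) (a n : ℕ), MVn φ (n + k) L a → MVn φ n (drL k L) (a + k)
  | 0, L, a, n, h => h
  | k + 1, [], a, n, h => by
    match n + (k + 1), (by omega : n + (k + 1) ≠ 0), h with
    | 0, h0, _ => exact absurd rfl h0
  | k + 1, q :: L, a, n, h => by
    have h' : MVn φ (n + k) L (a + 1) := by
      have : MVn φ (n + k + 1) (q :: L) a := h
      exact this.2
    have := drL_sound k L (a + 1) n h'
    rwa [show a + 1 + k = a + (k + 1) by ring] at this

lemma addL_sound : ∀ (n : ℕ) (A B : List ℚ) (a : ℕ), MVn φ n A a → MVn ψ n B a →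
    MVn (fun i => φ i + ψ i) n (addL A B) a
  | 0, A, B, a, _, _ => trivial
  | n + 1, p :: A, q :: B, a, h1, h2 => by
    refine ⟨?_, addL_sound n A B (a + 1) h1.2 h2.2⟩
    push_cast
    rw [h1.1, h2.1]

lemma smL_sound (c : ℚ) : ∀ (n : ℕ) (A : List ℚ) (a : ℕ), MVn φ n A a →
    MVn (fun i => c * φ i) n (smL c A) a
  | 0, A, a, _ => trivial
  | n + 1, p :: A, a, h1 => by
    refine ⟨?_, smL_sound c n A (a + 1) h1.2⟩
    push_cast
    rw [h1.1]

lemma MVn.getD : ∀ {n : ℕ} {L : List ℚ} {a : ℕ}, MVn φ n L a → ∀ {i : ℕ}, i < n →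
    ((L.getD i 0 : ℚ) : ℝ) = φ (a + i)
  | 0, L, a, _, i, hi => by omega
  | n + 1, q :: L, a, h, 0, hi => by simpa using h.1
  | n + 1, q :: L, a, h, i + 1, hi => by
    have := MVn.getD h.2 (i := i) (by omega)
    rw [List.getD_cons_succ, this]
    congr 1
    ring

lemma MVn.congr (h : ∀ i, φ i = ψ i) {n : ℕ} {L : List ℚ} {a : ℕ} (H : MVn φ n L a) : MVn ψ n L a := by
  have : φ = ψ := funext h
  rwa [← this]

/-- power moments -/
lemma gmu_sound (u v : ℚ) (σ γ : ℕ) : ∀ (K i0 : ℕ) (pu pv b qu qv st : ℚ),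
    pu = u ^ (σ * i0 + γ + 1) → pv = v ^ (σ * i0 + γ + 1) → b = (σ * i0 + γ + 1 : ℕ) →
    qu = u ^ σ → qv = v ^ σ → st = σ →
    MVn (fun i => ∫ s in (u : ℝ)..v, s ^ (σ * i + γ)) K (gmu qu qv st pu pv b K) i0
  | 0, i0, pu, pv, b, qu, qv, st, _, _, _, _, _, _ => trivial
  | K + 1, i0, pu, pv, b, qu, qv, st, h1, h2, h3, h4, h5, h6 => by
    refine ⟨?_, gmu_sound u v σ γ K (i0 + 1) _ _ _ qu qv st ?_ ?_ ?_ h4 h5 h6⟩
    · have e : (((pv - pu) / b : ℚ) : ℝ) = ∫ s in (u : ℝ)..v, s ^ (σ * i0 + γ) := by
        rw [integral_pow, h1, h2, h3]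
        push_cast
        ring
      exact e
    · rw [h1, h4, ← pow_add]
      congr 1
      ring
    · rw [h2, h5, ← pow_add]
      congr 1
      ring
    · rw [h3, h6]
      push_cast
      ring

/-- the functional given by integration -/
lemma linF_int {u v : ℝ} {w h : ℝ → ℝ} (hw : Continuous w) (hh : Continuous h) :
    ∀ (l : List ℚ) (a : ℕ), linF (fun n => ∫ s in u..v, w s ^ n * h s) l a =
      ∫ s in u..v, w s ^ a * evL l (w s) * h s
  | [], a => by simp [linF, evL]
  | b :: l, a => by
    have hl := evL_continuous l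
    have ih := linF_int (u := u) (v := v) hw hh l (a + 1)
    simp only [linF]
    rw [ih, ← intervalIntegral.integral_const_mul, ← intervalIntegral.integral_add
      (Continuous.intervalIntegrable (by fun_prop) _ _)
      (Continuous.intervalIntegrable (by fun_prop) _ _)]
    congr 1
    funext s
    simp only [evL]
    ring

lemma linF_add (l : List ℚ) (a : ℕ) : linF (fun n => φ n + ψ n) l a = linF φ l a + linF ψ l a := by
  induction l generalizing a with
  | nil => simp [linF]
  | cons b l ih =>
    simp only [linF, ih]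
    ring

lemma linF_smul (c : ℝ) (l : List ℚ) (a : ℕ) : linF (fun n => c * φ n) l a = c * linF φ l a := by
  induction l generalizing a with
  | nil => simp [linF]
  | cons b l ih =>
    simp only [linF, ih]
    ring

/-- powers of a linear polynomial -/
lemma evL_powLin (b : ℚ) (s : ℝ) : ∀ n, evL (powLin b n) s = (s - b) ^ n
  | 0 => by simp [powLin, evL]
  | n + 1 => by
    simp only [powLin, mulLin, evL_addL, evL_smL, evL, evL_powLin b s n]
    push_cast
    ring

/-- entries of a row of the matrix -/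
def rowL (c d : ℚ) : List (List ℚ) → List ℚ → List ℚ → List ℚ → List ℚ → List ℚ
  | y :: ys, g :: gs, nu :: nus, r :: rs, w =>
    (g - c * nu - c * c / (2 * d) * r - dotQ y w / (2 * d)) :: rowL c d ys gs nus rs w
  | _, _, _, _, _ => []

lemma rowL_getD (c d : ℚ) (w : List ℚ) : ∀ (j : ℕ) (ys : List (List ℚ)) (gs nus rs : List ℚ),
    j < ys.length → j < gs.length → j < nus.length → j < rs.length →
    (rowL c d ys gs nus rs w).getD j 0 = gs.getD j 0 - c * nus.getD j 0 -
      c * c / (2 * d) * rs.getD j 0 - dotQ (ys.getD j []) w / (2 * d)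
  | 0, y :: ys, g :: gs, nu :: nus, r :: rs, _, _, _, _ => by simp [rowL]
  | j + 1, y :: ys, g :: gs, nu :: nus, r :: rs, h1, h2, h3, h4 => by
    simp only [rowL, List.getD_cons_succ]
    exact rowL_getD c d w j ys gs nus rs (by simpa using h1) (by simpa using h2) (by simpa using h3)
      (by simpa using h4)

lemma MVn.length : ∀ {n : ℕ} {L : List ℚ} {a : ℕ}, MVn φ n L a → n ≤ L.length
  | 0, L, a, _ => Nat.zero_le _
  | n + 1, q :: L, a, h => by
    have := MVn.length h.2
    simpa using this

/-! ### the test for positivity of a quadratic form -/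

/-- pairing of a rational list with a real list -/
noncomputable def dotR : List ℚ → List ℝ → ℝ
  | a :: l, x :: c => a * x + dotR l c
  | _, _ => 0

/-- the bilinear form of a list of rows -/
noncomputable def qfL : List (List ℚ) → List ℝ → List ℝ → ℝ
  | R :: Rs, x :: c, y => x * dotR R y + qfL Rs c y
  | _, _, _ => 0

/-- heads of the rows -/
def hdL : List (List ℚ) → List ℚ
  | [] => []
  | (a :: _) :: l => a :: hdL l
  | [] :: l => 0 :: hdL l

/-- elimination -/
def elimL (a : ℚ) (h : List ℚ) : List (List ℚ) → List ℚ → List (List ℚ)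
  | (_ :: R) :: Rs, b :: hs => addL R (smL (-(b / a)) h) :: elimL a h Rs hs
  | _, _ => []

/-- the half sum of two lists -/
def hsum (l m : List ℚ) : List ℚ := smL (1 / 2) (addL l m)

/-- all rows are nonempty -/
def neL : List (List ℚ) → Bool
  | [] => true
  | [] :: _ => false
  | (_ :: _) :: l => neL l

/-- the test -/
def psdL : ℕ → List (List ℚ) → Bool
  | 0, _ => true
  | n + 1, (a :: r) :: rest => decide (0 < a) && neL rest && decide (rest.length = n) &&
      decide (r.length = n) &&
      psdL n (elimL a (hsum r (hdL rest)) rest (hsum r (hdL rest)))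
  | _ + 1, _ => false

lemma dotR_addL : ∀ (l m : List ℚ) (x : List ℝ), dotR (addL l m) x = dotR l x + dotR m x
  | [], m, x => by simp [addL, dotR]
  | a :: l, [], x => by simp [addL, dotR]
  | a :: l, b :: m, [] => by simp [addL, dotR]
  | a :: l, b :: m, y :: x => by
    simp only [addL, dotR, dotR_addL l m x]
    push_cast
    ring

lemma dotR_smL (c : ℚ) : ∀ (l : List ℚ) (x : List ℝ), dotR (smL c l) x = c * dotR l x
  | [], x => by simp [smL, dotR]
  | a :: l, [] => by simp [smL, dotR]
  | a :: l, y :: x => by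
    simp only [smL, dotR, dotR_smL c l x]
    push_cast
    ring

lemma smL_length (c : ℚ) : ∀ l : List ℚ, (smL c l).length = l.length
  | [] => rfl
  | a :: l => by simp [smL, smL_length c l]

lemma addL_length : ∀ l m : List ℚ, l.length = m.length → (addL l m).length = l.length
  | [], m, h => by
    have : m = [] := List.eq_nil_of_length_eq_zero (by simpa using h.symm)
    simp [this, addL]
  | a :: l, [], h => by simp at h
  | a :: l, b :: m, h => by
    simp only [addL, List.length_cons]
    rw [addL_length l m (by simpa using h)]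

lemma hdL_length : ∀ l : List (List ℚ), (hdL l).length = l.length
  | [] => rfl
  | [] :: l => by simp [hdL, hdL_length l]
  | (a :: R) :: l => by simp [hdL, hdL_length l]

lemma qf_rest : ∀ (rest : List (List ℚ)) (x0 : ℝ) (x y : List ℝ), neL rest = true →
    qfL rest x (x0 :: y) = x0 * dotR (hdL rest) x + qfL (rest.map List.tail) x y
  | [], x0, x, y, _ => by simp [qfL, hdL, dotR]
  | [] :: l, x0, x, y, h => by simp [neL] at h
  | (a :: R) :: l, x0, [], y, h => by simp [qfL, dotR]
  | (a :: R) :: l, x0, z :: x, y, h => by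
    have ih := qf_rest l x0 x y (by simpa [neL] using h)
    simp only [qfL, hdL, dotR, List.map_cons, List.tail_cons, ih]
    ring

lemma elim_qf (a : ℚ) (h : List ℚ) : ∀ (rest : List (List ℚ)) (hs : List ℚ) (x y : List ℝ),
    neL rest = true → hs.length = rest.length →
    qfL (elimL a h rest hs) x y = qfL (rest.map List.tail) x y - (1 / a : ℝ) * dotR hs x * dotR h y
  | [], hs, x, y, _, hl => by
    have : hs = [] := List.eq_nil_of_length_eq_zero (by simpa using hl)
    simp [this, elimL, qfL, dotR]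
  | [] :: l, hs, x, y, hne, _ => by simp [neL] at hne
  | (b :: R) :: l, [], x, y, _, hl => by simp at hl
  | (b :: R) :: l, c :: hs, [], y, _, _ => by simp [elimL, qfL, dotR]
  | (b :: R) :: l, c :: hs, z :: x, y, hne, hl => by
    have ih := elim_qf a h l hs x y (by simpa [neL] using hne) (by simpa using hl)
    simp only [elimL, qfL, dotR, dotR_addL, dotR_smL, List.map_cons, List.tail_cons, ih]
    push_cast
    ring

theorem psdL_sound : ∀ (n : ℕ) (rows : List (List ℚ)) (x : List ℝ), psdL n rows = true →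
    x.length = n → 0 ≤ qfL rows x x
  | 0, rows, x, _, hx => by
    have : x = [] := List.eq_nil_of_length_eq_zero hx
    subst this
    cases rows <;> simp [qfL]
  | n + 1, [], x, h, _ => by simp [psdL] at h
  | n + 1, [] :: _, x, h, _ => by simp [psdL] at h
  | n + 1, (a :: r) :: rest, [], h, hx => by simp at hx
  | n + 1, (a :: r) :: rest, x0 :: x, h, hx => by
    simp only [psdL, Bool.and_eq_true, decide_eq_true_eq] at h
    obtain ⟨⟨⟨⟨ha, hne⟩, hrl⟩, hr⟩, hp⟩ := h
    have hxl : x.length = n := by simpa using hx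
    set hh := hsum r (hdL rest) with hhh
    have ih := psdL_sound n _ x hp hxl
    have hlen : hh.length = rest.length := by
      rw [hhh]
      unfold hsum
      rw [smL_length, addL_length _ _ (by rw [hr, hdL_length, hrl]), hr, hrl]
    rw [elim_qf a hh rest hh x x hne hlen] at ih
    have ha' : (0 : ℝ) < a := by exact_mod_cast ha
    have e1 : dotR hh x = 1 / 2 * (dotR r x + dotR (hdL rest) x) := by
      rw [hhh]
      unfold hsum
      rw [dotR_smL, dotR_addL]
      push_cast
      ring
    have e2 : qfL ((a :: r) :: rest) (x0 :: x) (x0 :: x) =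
        a * x0 ^ 2 + 2 * x0 * dotR hh x + qfL (rest.map List.tail) x x := by
      have h1 : qfL ((a :: r) :: rest) (x0 :: x) (x0 :: x) =
          x0 * (a * x0 + dotR r x) + qfL rest x (x0 :: x) := rfl
      rw [h1, qf_rest rest x0 x x hne, e1]
      ring
    rw [e2]
    have h3 : 0 ≤ a * (x0 + dotR hh x / a) ^ 2 := by positivity
    have h4 : a * (x0 + dotR hh x / a) ^ 2 = a * x0 ^ 2 + 2 * x0 * dotR hh x + 1 / a * dotR hh x * dotR hh x := by
      field_simp
      ring
    linarith

/-- the list of the first values of a sequence -/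
noncomputable def XL (x : ℕ → ℝ) : ℕ → List ℝ
  | 0 => []
  | n + 1 => x 0 :: XL (fun i => x (i + 1)) n

lemma XL_length : ∀ (n : ℕ) (x : ℕ → ℝ), (XL x n).length = n
  | 0, x => rfl
  | n + 1, x => by simp [XL, XL_length n]

lemma dotR_XL : ∀ (n : ℕ) (l : List ℚ) (x : ℕ → ℝ),
    dotR l (XL x n) = ∑ j ∈ Finset.range n, x j * ((l.getD j 0 : ℚ) : ℝ)
  | 0, l, x => by cases l <;> simp [XL, dotR]
  | n + 1, [], x => by simp [dotR]
  | n + 1, a :: l, x => by
    rw [Finset.sum_range_succ']
    simp only [XL, dotR, dotR_XL n l, List.getD_cons_succ, List.getD_cons_zero]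
    ring

lemma qfL_XL (y : List ℝ) : ∀ (n : ℕ) (R : List (List ℚ)) (x : ℕ → ℝ),
    qfL R (XL x n) y = ∑ k ∈ Finset.range n, x k * dotR (R.getD k []) y
  | 0, R, x => by cases R <;> simp [XL, qfL]
  | n + 1, [], x => by simp [qfL, dotR]
  | n + 1, a :: l, x => by
    rw [Finset.sum_range_succ']
    simp only [XL, qfL, qfL_XL y n l, List.getD_cons_succ, List.getD_cons_zero]
    ring

theorem psd_sum {n : ℕ} {rows : List (List ℚ)} (h : psdL n rows = true) (x : ℕ → ℝ) :
    0 ≤ ∑ k ∈ Finset.range n, ∑ j ∈ Finset.range n, x k * x j * (((rows.getD k []).getD j 0 : ℚ) : ℝ) := by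
  have h1 := psdL_sound n rows (XL x n) h (XL_length n x)
  rw [qfL_XL] at h1
  refine h1.trans (le_of_eq ?_)
  apply Finset.sum_congr rfl
  intro k _
  rw [dotR_XL, Finset.mul_sum]
  apply Finset.sum_congr rfl
  intro j _
  ring

end Pool.Agent.Helper61.W
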