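import Pool.Agent.Helper61.W.Sc
import Pool.Agent.Helper61.W.Mo
import Pool.Agent.Helper61.W.Co

set_option autoImplicit false

/-!
# Polynomial approximation of the archimedean kernel
-/

namespace Pool.Agent.Helper61.W

open Filter Topology Set MeasureTheory

/-- sum of the absolute values of the terms -/
def evAbs : List ℚ → ℚ → ℚ
  | [], _ => 0
  | a :: l, h => |a| + h * evAbs l h

lemma evAbs_nonneg {h : ℚ} (hh : 0 ≤ h) : ∀ l : List ℚ, 0 ≤ evAbs l h
  | [] => le_rfl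
  | a :: l => add_nonneg (abs_nonneg _) (mul_nonneg hh (evAbs_nonneg hh l))

lemma evAbs_sound {h : ℚ} {x : ℝ} (hx : |x| ≤ h) : ∀ l : List ℚ, |evL l x| ≤ evAbs l h
  | [] => by simp [evL, evAbs]
  | a :: l => by
    have ih := evAbs_sound hx l
    have hh : (0 : ℝ) ≤ h := (abs_nonneg _).trans hx
    simp only [evL, evAbs]
    push_cast
    refine (abs_add_le _ _).trans (add_le_add le_rfl ?_)
    rw [abs_mul]
    exact mul_le_mul hx ih (abs_nonneg _) hh

/-- product -/
def mulL : List ℚ → List ℚ → List ℚ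
  | [], _ => []
  | a :: l, m => addL (smL a m) (0 :: mulL l m)

lemma evL_mulL (x : ℝ) : ∀ l m : List ℚ, evL (mulL l m) x = evL l x * evL m x
  | [], m => by simp [mulL, evL]
  | a :: l, m => by
    simp only [mulL, evL, evL_addL, evL_smL, evL_mulL x l m]
    push_cast
    ring

/-- Taylor polynomial of `exp (b x)`; the arguments are the next coefficient, the index and the
number of terms -/
def expL (b : ℚ) : ℚ → ℕ → ℕ → List ℚ
  | _, _, 0 => []
  | q, i, k + 1 => q :: expL b (q * b / ((i : ℚ) + 1)) (i + 1) k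

lemma expL_sum (b : ℚ) (x : ℝ) : ∀ (k i : ℕ) (q : ℚ), q = b ^ i / (i.factorial : ℚ) →
    x ^ i * evL (expL b q i k) x = ∑ m ∈ Finset.range k, (b * x) ^ (i + m) / ((i + m).factorial : ℝ)
  | 0, i, q, _ => by simp [expL, evL]
  | k + 1, i, q, hq => by
    have ih := expL_sum b x k (i + 1) (q * b / ((i : ℚ) + 1)) (by
      rw [hq, pow_succ, Nat.factorial_succ]
      push_cast
      have : ((i : ℚ) + 1) ≠ 0 := by positivity
      field_simp)
    rw [Finset.sum_range_succ']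
    simp only [expL, evL, add_zero]
    have e1 : ∑ m ∈ Finset.range k, ((b : ℝ) * x) ^ (i + (m + 1)) / ((i + (m + 1)).factorial : ℝ) =
        ∑ m ∈ Finset.range k, (b * x) ^ (i + 1 + m) / ((i + 1 + m).factorial : ℝ) := by
      apply Finset.sum_congr rfl
      intro m _
      rw [show i + (m + 1) = i + 1 + m by ring]
    rw [e1, ← ih, hq]
    push_cast
    rw [mul_pow]
    ring

lemma exp_taylor (b : ℚ) {x : ℝ} {n : ℕ} (h : |(b : ℝ) * x| / (n + 1) ≤ 1 / 2) :
    |Real.exp (b * x) - evL (expL b 1 0 n) x| ≤ |(b : ℝ) * x| ^ n / n.factorial * 2 := by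
  have h1 := expL_sum b x n 0 1 (by simp)
  simp only [pow_zero, one_mul, zero_add] at h1
  have h2 := Complex.exp_bound' (x := ((b * x : ℝ) : ℂ)) (n := n) (by
    rw [Complex.norm_real, Real.norm_eq_abs]
    push_cast
    exact h)
  rw [Complex.norm_real, Real.norm_eq_abs] at h2
  have h3 : Complex.exp ((b * x : ℝ) : ℂ) - ∑ m ∈ Finset.range n, ((b * x : ℝ) : ℂ) ^ m / m.factorial =
      ((Real.exp (b * x) - evL (expL b 1 0 n) x : ℝ) : ℂ) := by
    rw [h1]
    push_cast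
    rfl
  rw [h3, Complex.norm_real, Real.norm_eq_abs] at h2
  exact h2

/-- the error of the scaled polynomial -/
def errL (t0 t1 : ℚ) : List ℚ → List ℚ → ℚ → ℚ → ℚ → ℚ
  | a :: m, b :: c, p0, p1, w =>
    (|a - 4 * p0 * b| + 4 * |b| * (p1 - p0)) * w + errL t0 t1 m c (p0 * t0) (p1 * t1) (2 * w)
  | _, _, _, _, _ => 0

lemma errL_sound {t0 t1 : ℚ} (ht0 : 0 ≤ t0) {θ v : ℝ} (h0 : (t0 : ℝ) ≤ θ) (h1 : θ ≤ t1) (hv : 0 ≤ v)
    (hv2 : v ≤ 2) : ∀ (m c : List ℚ) (p0 p1 w : ℚ) (P V : ℝ), m.length = c.length → (0 ≤ p0) →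
    (p0 : ℝ) ≤ P → P ≤ p1 → 0 ≤ V → V ≤ w →
    |V * evL m v - 4 * P * V * evL c (θ * v)| ≤ errL t0 t1 m c p0 p1 w
  | [], [], p0, p1, w, P, V, _, _, _, _, _, _ => by simp [evL, errL]
  | a :: m, b :: c, p0, p1, w, P, V, hl, hp0, hP0, hP1, hV0, hVw => by
    have hθ : 0 ≤ θ := by
      have : (0 : ℝ) ≤ t0 := by exact_mod_cast ht0
      linarith
    have hp0' : (0 : ℝ) ≤ p0 := by exact_mod_cast hp0
    have ht0' : (0 : ℝ) ≤ t0 := by exact_mod_cast ht0
    have ih := errL_sound ht0 h0 h1 hv hv2 m c (p0 * t0) (p1 * t1) (2 * w) (P * θ) (V * v)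
      (by simpa using hl) (by positivity)
      (by push_cast; exact mul_le_mul hP0 h0 ht0' (by linarith))
      (by push_cast; exact mul_le_mul hP1 h1 hθ (by linarith))
      (by positivity)
      (by push_cast; rw [mul_comm (2 : ℝ)]; exact mul_le_mul hVw hv2 hv (by linarith))
    simp only [evL, errL]
    push_cast
    have e : V * (a + v * evL m v) - 4 * P * V * (b + θ * v * evL c (θ * v)) =
        (V * (a - 4 * P * b)) + (V * v * evL m v - 4 * (P * θ) * (V * v) * evL c (θ * v)) := by ring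
    rw [e]
    refine (abs_add_le _ _).trans (add_le_add ?_ ih)
    rw [abs_mul, abs_of_nonneg hV0, mul_comm]
    have h2 : |(a : ℝ) - 4 * P * b| ≤ |(a : ℝ) - 4 * p0 * b| + 4 * |(b : ℝ)| * (p1 - p0) := by
      have e2 : (a : ℝ) - 4 * P * b = ((a : ℝ) - 4 * p0 * b) + (-(4 * (P - p0) * b)) := by ring
      rw [e2]
      refine (abs_add_le _ _).trans (add_le_add le_rfl ?_)
      rw [abs_neg, abs_mul, abs_mul, abs_of_nonneg (by norm_num : (0 : ℝ) ≤ 4),
        abs_of_nonneg (by linarith : (0 : ℝ) ≤ P - p0)]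
      nlinarith [abs_nonneg (b : ℝ)]
    exact mul_le_mul h2 hVw hV0 ((abs_nonneg _).trans h2)

/-- the reduced kernel -/
noncomputable def M2 (y : ℝ) : ℝ :=
  Real.exp y - Real.exp (-y) / (Real.exp (4 * y) - 1) + 1 / (4 * y)

lemma kap_M2 {a v : ℝ} (ha : 0 < a) (hv : 0 < v) : kap a v = 2 * a * M2 (a / 2 * v) := by
  unfold kap M2
  have e1 : a / 2 * v = a * v / 2 := by ring
  have e2 : 4 * (a * v / 2) = 2 * a * v := by ring
  rw [e1, e2]
  have : Real.exp (2 * a * v) - 1 ≠ 0 := by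
    have := Real.add_one_lt_exp (x := 2 * a * v) (by positivity)
    nlinarith [mul_pos ha hv]
  field_simp

/-- the polynomial whose smallness controls the approximation -/
def EpL (c : List ℚ) (n : ℕ) : List ℚ :=
  addL (smL 4 (0 :: addL (expL 5 1 0 n) (smL (-1) (addL (expL 1 1 0 n) (expL (-1) 1 0 n)))))
    (mulL (addL (expL 4 1 0 n) [-1]) (addL [1] (smL (-4) (0 :: c))))

/-- the bound computed from the polynomial -/
def epB (c : List ℚ) (n : ℕ) (Y : ℚ) : ℚ :=
  evAbs (drL 2 (EpL c n)) Y +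
    (2 * 5 ^ n * Y ^ (n - 2) / (n.factorial : ℚ)) * (12 * Y + 1 + 4 * Y * evAbs c Y)

lemma drL_two {l : List ℚ} (h0 : l.getD 0 0 = 0) (h1 : l.getD 1 0 = 0) (x : ℝ) :
    evL l x = x ^ 2 * evL (drL 2 l) x := by
  match l, h0, h1 with
  | [], _, _ => simp [evL, drL]
  | [a], h0, _ =>
    simp at h0
    simp [evL, drL, h0]
  | a :: b :: l, h0, h1 =>
    simp at h0 h1
    simp only [evL, drL, h0, h1]
    push_cast
    ring

theorem M2_approx {c : List ℚ} {n : ℕ} {Y : ℚ} {y : ℝ} (hy0 : 0 < y) (hyY : y ≤ Y)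
    (hn : 2 ≤ n) (hYn : 5 * Y / (n + 1) ≤ 1 / 2)
    (he0 : (EpL c n).getD 0 0 = 0) (he1 : (EpL c n).getD 1 0 = 0) :
    |M2 y - evL c y| ≤ epB c n Y / 16 := by
  have hY0 : (0 : ℝ) < Y := lt_of_lt_of_le hy0 hyY
  have hY0q : (0 : ℚ) < Y := by exact_mod_cast hY0
  have hYn' : 5 * (Y : ℝ) / (n + 1) ≤ 1 / 2 := by
    have : ((5 * Y / (n + 1) : ℚ) : ℝ) ≤ ((1 / 2 : ℚ) : ℝ) := by exact_mod_cast hYn
    push_cast at this
    exact this
  set ρ : ℝ := (5 * y) ^ n / n.factorial * 2 with hρ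
  have hρ0 : 0 ≤ ρ := by positivity
  have hR : ∀ b : ℚ, |b| ≤ 5 → |Real.exp (b * y) - evL (expL b 1 0 n) y| ≤ ρ := by
    intro b hb
    have hb' : |(b : ℝ)| ≤ 5 := by exact_mod_cast hb
    have h1 : |(b : ℝ) * y| ≤ 5 * y := by
      rw [abs_mul, abs_of_pos hy0]
      exact mul_le_mul_of_nonneg_right hb' hy0.le
    have h2 : |(b : ℝ) * y| / (n + 1) ≤ 1 / 2 := by
      refine le_trans ?_ hYn'
      apply div_le_div_of_nonneg_right _ (by positivity)
      linarith
    refine (exp_taylor b h2).trans ?_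
    rw [hρ]
    gcongr
  have r5 := hR 5 (by norm_num)
  have r1 := hR 1 (by norm_num)
  have rm1 := hR (-1) (by norm_num)
  have r4 := hR 4 (by norm_num)
  push_cast at r5 r1 rm1 r4
  rw [one_mul] at r1
  rw [neg_one_mul] at rm1
  set T5 := evL (expL 5 1 0 n) y
  set T1 := evL (expL 1 1 0 n) y
  set Tm := evL (expL (-1) 1 0 n) y
  set T4 := evL (expL 4 1 0 n) y
  set m2 := evL c y with hm2
  have hEp : evL (EpL c n) y = 4 * y * (T5 - T1 - Tm) + (T4 - 1) * (1 - 4 * y * m2) := by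
    unfold EpL
    simp only [evL_addL, evL_smL, evL_mulL, evL]
    push_cast
    ring
  have hE4 : 4 * y < Real.exp (4 * y) - 1 := by
    have := Real.add_one_lt_exp (x := 4 * y) (by positivity)
    linarith
  have hE40 : 0 < Real.exp (4 * y) - 1 := by linarith
  -- the entire function
  set E : ℝ := 4 * y * (Real.exp (5 * y) - Real.exp y - Real.exp (-y)) +
    (Real.exp (4 * y) - 1) * (1 - 4 * y * m2) with hE
  have hME : M2 y - m2 = E / (4 * y * (Real.exp (4 * y) - 1)) := by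
    have h5 : Real.exp (5 * y) = Real.exp y * Real.exp (4 * y) := by
      rw [← Real.exp_add]
      congr 1
      ring
    have hne : Real.exp (4 * y) - 1 ≠ 0 := hE40.ne'
    have hm : Real.exp (-y) * Real.exp (4 * y) = Real.exp (-y) * (Real.exp (4 * y) - 1) + Real.exp (-y) := by
      ring
    unfold M2
    rw [hE, h5, eq_div_iff (by positivity)]
    have e : (Real.exp y - Real.exp (-y) / (Real.exp (4 * y) - 1) + 1 / (4 * y) - m2) *
        (4 * y * (Real.exp (4 * y) - 1)) = Real.exp y * (4 * y * (Real.exp (4 * y) - 1)) -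
        4 * y * Real.exp (-y) * ((Real.exp (4 * y) - 1) / (Real.exp (4 * y) - 1)) +
        (Real.exp (4 * y) - 1) * (4 * y / (4 * y)) - m2 * (4 * y * (Real.exp (4 * y) - 1)) := by
      ring
    rw [e, div_self hne, div_self (by positivity)]
    ring
  have hm2b : |m2| ≤ evAbs c Y := evAbs_sound (by rwa [abs_of_pos hy0]) c
  have hE1 : |E - evL (EpL c n) y| ≤ ρ * (12 * Y + 1 + 4 * Y * evAbs c Y) := by
    have e : E - evL (EpL c n) y = 4 * y * ((Real.exp (5 * y) - T5) - (Real.exp y - T1) -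
        (Real.exp (-y) - Tm)) + (Real.exp (4 * y) - T4) * (1 - 4 * y * m2) := by
      rw [hEp, hE]
      ring
    rw [e]
    have h1 : |4 * y * ((Real.exp (5 * y) - T5) - (Real.exp y - T1) - (Real.exp (-y) - Tm))| ≤
        4 * Y * (ρ + ρ + ρ) := by
      rw [abs_mul, abs_of_nonneg (by positivity : (0 : ℝ) ≤ 4 * y)]
      apply mul_le_mul (by linarith) _ (abs_nonneg _) (by positivity)
      refine (abs_sub _ _).trans (add_le_add ?_ rm1)
      exact (abs_sub _ _).trans (add_le_add r5 r1)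
    have h2 : |(Real.exp (4 * y) - T4) * (1 - 4 * y * m2)| ≤ ρ * (1 + 4 * Y * evAbs c Y) := by
      rw [abs_mul]
      apply mul_le_mul r4 _ (abs_nonneg _) hρ0
      refine (abs_sub _ _).trans (add_le_add (by norm_num) ?_)
      rw [abs_mul, abs_of_nonneg (by positivity : (0 : ℝ) ≤ 4 * y)]
      exact mul_le_mul (by linarith) hm2b (abs_nonneg _) (by positivity)
    refine (abs_add_le _ _).trans ((add_le_add h1 h2).trans (le_of_eq ?_))
    ring
  have hρ2 : ρ ≤ y ^ 2 * (2 * 5 ^ n * (Y : ℝ) ^ (n - 2) / n.factorial) := by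
    have e : y ^ n = y ^ 2 * y ^ (n - 2) := by
      rw [← pow_add]
      congr 1
      omega
    have h1 : y ^ (n - 2) ≤ (Y : ℝ) ^ (n - 2) := pow_le_pow_left₀ hy0.le hyY _
    rw [hρ, mul_pow, e]
    have h2 : (5 : ℝ) ^ n * (y ^ 2 * y ^ (n - 2)) / n.factorial * 2 =
        (y ^ 2 * (2 * 5 ^ n / n.factorial)) * y ^ (n - 2) := by ring
    have h3 : y ^ 2 * (2 * 5 ^ n * (Y : ℝ) ^ (n - 2) / n.factorial) =
        (y ^ 2 * (2 * 5 ^ n / n.factorial)) * (Y : ℝ) ^ (n - 2) := by ring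
    rw [h2, h3]
    exact mul_le_mul_of_nonneg_left h1 (by positivity)
  have hpos : (0 : ℝ) ≤ 12 * Y + 1 + 4 * Y * evAbs c Y := by
    have := evAbs_nonneg hY0q.le c
    have : (0 : ℝ) ≤ evAbs c Y := by exact_mod_cast this
    positivity
  have hEb : |E| ≤ y ^ 2 * epB c n Y := by
    have h1 : |evL (EpL c n) y| ≤ y ^ 2 * evAbs (drL 2 (EpL c n)) Y := by
      rw [drL_two he0 he1, abs_mul, abs_of_nonneg (sq_nonneg y)]
      exact mul_le_mul_of_nonneg_left (evAbs_sound (by rwa [abs_of_pos hy0]) _) (sq_nonneg y)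
    have h2 : |E| ≤ |evL (EpL c n) y| + |E - evL (EpL c n) y| := by
      have := abs_add_le (evL (EpL c n) y) (E - evL (EpL c n) y)
      rwa [add_sub_cancel] at this
    have h3 := mul_le_mul_of_nonneg_right hρ2 hpos
    unfold epB
    push_cast
    calc |E| ≤ y ^ 2 * evAbs (drL 2 (EpL c n)) Y + ρ * (12 * Y + 1 + 4 * Y * evAbs c Y) := by linarith
      _ ≤ y ^ 2 * evAbs (drL 2 (EpL c n)) Y + y ^ 2 * (2 * 5 ^ n * (Y : ℝ) ^ (n - 2) / n.factorial) *
          (12 * Y + 1 + 4 * Y * evAbs c Y) := by linarith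
      _ = _ := by ring
  rw [hME, abs_div, abs_of_pos (by positivity : 0 < 4 * y * (Real.exp (4 * y) - 1)),
    div_le_iff₀ (by positivity)]
  have hep : (0 : ℝ) ≤ epB c n Y := by
    have := (abs_nonneg _).trans hEb
    by_contra hneg
    push Not at hneg
    have : y ^ 2 * (epB c n Y : ℝ) < 0 := mul_neg_of_pos_of_neg (by positivity) hneg
    linarith
  have h16 : 16 * y ^ 2 ≤ 4 * y * (Real.exp (4 * y) - 1) := by nlinarith
  calc |E| ≤ y ^ 2 * epB c n Y := hEb
    _ = epB c n Y / 16 * (16 * y ^ 2) := by ring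
    _ ≤ epB c n Y / 16 * (4 * y * (Real.exp (4 * y) - 1)) :=
        mul_le_mul_of_nonneg_left h16 (by positivity)

end Pool.Agent.Helper61.W
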