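import Mathlib

set_option autoImplicit false

/-!
# Laplace transforms of smooth functions with compact support
-/

namespace Pool.Agent.Helper61.W

open Complex Filter Topology Set MeasureTheory
open scoped ComplexConjugate ContDiff FourierTransform

/-- smooth functions with compact support -/
structure TF (Φ : ℝ → ℂ) : Prop where
  smooth : ContDiff ℝ ∞ Φ
  supp : HasCompactSupport Φ

/-- the Laplace transform -/
noncomputable def LT (Φ : ℝ → ℂ) (z : ℂ) : ℂ := ∫ u : ℝ, Φ u * cexp (z * u)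

variable {Φ : ℝ → ℂ}

lemma TF.cont (h : TF Φ) : Continuous Φ := h.smooth.continuous

lemma TF.deriv (h : TF Φ) : TF (deriv Φ) where
  smooth := (contDiff_infty_iff_deriv.mp h.smooth).2
  supp := h.supp.deriv

lemma TF.hasDerivAt (h : TF Φ) (u : ℝ) : HasDerivAt Φ (_root_.deriv Φ u) u :=
  ((contDiff_infty_iff_deriv.mp h.smooth).1 u).hasDerivAt

lemma TF.mul_cont (h : TF Φ) {f : ℝ → ℂ} (hf : Continuous f) : Integrable (fun u => Φ u * f u) :=
  (h.cont.mul hf).integrable_of_hasCompactSupport (h.supp.mul_right)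

lemma TF.integrable (h : TF Φ) (z : ℂ) : Integrable (fun u : ℝ => Φ u * cexp (z * u)) :=
  h.mul_cont (by fun_prop)

lemma hasDerivAt_exp (z : ℂ) (u : ℝ) : HasDerivAt (fun u : ℝ => cexp (z * u)) (z * cexp (z * u)) u := by
  have h1 : HasDerivAt (fun u : ℝ => z * (u : ℂ)) (z * 1) u :=
    (Complex.ofRealCLM.hasDerivAt (x := u)).const_mul z
  have h2 := h1.cexp
  rw [mul_one, mul_comm] at h2
  exact h2

/-- integration by parts -/
lemma LT_deriv (h : TF Φ) (z : ℂ) : LT (deriv Φ) z = -z * LT Φ z := by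
  have h1 : ∀ u : ℝ, HasDerivAt (fun u : ℝ => Φ u * cexp (z * u))
      (_root_.deriv Φ u * cexp (z * u) + Φ u * (z * cexp (z * u))) u := fun u =>
    (h.hasDerivAt u).mul (hasDerivAt_exp z u)
  have i1 := h.deriv.integrable z
  have i2 : Integrable (fun u : ℝ => Φ u * (z * cexp (z * u))) := h.mul_cont (by fun_prop)
  have h2 := integral_eq_zero_of_hasDerivAt_of_integrable h1 (i1.add i2) (h.integrable z)
  rw [integral_add i1 i2] at h2
  have h3 : ∫ u : ℝ, Φ u * (z * cexp (z * u)) = z * LT Φ z := by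
    unfold LT
    rw [← integral_const_mul]
    congr 1
    funext u
    ring
  rw [h3] at h2
  unfold LT at h2 ⊢
  linear_combination h2

lemma LT_bound0 (h : TF Φ) (R : ℝ) : ∃ C : ℝ, 0 ≤ C ∧ ∀ z : ℂ, |z.re| ≤ R → ‖LT Φ z‖ ≤ C := by
  refine ⟨∫ u : ℝ, ‖Φ u‖ * Real.exp (R * |u|), integral_nonneg fun u => by positivity, fun z hz => ?_⟩
  unfold LT
  refine (norm_integral_le_integral_norm _).trans ?_
  have i1 : Integrable (fun u : ℝ => ‖Φ u * cexp (z * u)‖) := (h.integrable z).norm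
  have i2 : Integrable (fun u : ℝ => ‖Φ u‖ * Real.exp (R * |u|)) := by
    apply Continuous.integrable_of_hasCompactSupport
    · have := h.cont; fun_prop
    · exact h.supp.norm.mul_right
  refine integral_mono i1 i2 fun u => ?_
  simp only
  rw [norm_mul, Complex.norm_exp]
  gcongr
  have : (z * u).re = z.re * u := by simp
  rw [this]
  calc z.re * u ≤ |z.re * u| := le_abs_self _
    _ = |z.re| * |u| := abs_mul _ _
    _ ≤ R * |u| := by gcongr

/-- rapid decay -/
lemma LT_bound (h : TF Φ) (R : ℝ) : ∃ C : ℝ, 0 ≤ C ∧ ∀ z : ℂ, |z.re| ≤ R →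
    ‖LT Φ z‖ ≤ C / (1 + z.im ^ 2) ^ 2 := by
  obtain ⟨C0, hC0, h0⟩ := LT_bound0 h R
  obtain ⟨C4, hC4, h4⟩ := LT_bound0 h.deriv.deriv.deriv.deriv R
  refine ⟨2 * (C0 + C4), by positivity, fun z hz => ?_⟩
  have e : LT (deriv (deriv (deriv (deriv Φ)))) z = z ^ 4 * LT Φ z := by
    rw [LT_deriv h.deriv.deriv.deriv, LT_deriv h.deriv.deriv, LT_deriv h.deriv, LT_deriv h]
    ring
  have h4' := h4 z hz
  rw [e, norm_mul, norm_pow] at h4'
  have h0' := h0 z hz
  rw [le_div_iff₀ (by positivity)]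
  have h5 : z.im ^ 2 ≤ ‖z‖ ^ 2 := by
    have := Complex.abs_im_le_norm z
    rw [← sq_abs z.im]
    gcongr
  have h6 : (1 + z.im ^ 2) ^ 2 ≤ 2 * (1 + ‖z‖ ^ 4) := by
    have h7 : 0 ≤ z.im ^ 2 := sq_nonneg _
    have h8 : (z.im ^ 2) ^ 2 ≤ ‖z‖ ^ 4 := by
      have : ‖z‖ ^ 4 = (‖z‖ ^ 2) ^ 2 := by ring
      rw [this]
      gcongr
    nlinarith [sq_nonneg (z.im ^ 2 - 1)]
  calc ‖LT Φ z‖ * (1 + z.im ^ 2) ^ 2 ≤ ‖LT Φ z‖ * (2 * (1 + ‖z‖ ^ 4)) := by gcongr
    _ = 2 * (‖LT Φ z‖ + ‖z‖ ^ 4 * ‖LT Φ z‖) := by ring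
    _ ≤ 2 * (C0 + C4) := by gcongr

lemma LT_continuous (h : TF Φ) : Continuous (LT Φ) := by
  rw [continuous_iff_continuousAt]
  intro z0
  unfold LT
  apply continuousAt_of_dominated (bound := fun u : ℝ => ‖Φ u‖ * Real.exp ((‖z0‖ + 1) * |u|))
  · exact Eventually.of_forall fun z => (h.integrable z).aestronglyMeasurable
  · filter_upwards [Metric.ball_mem_nhds z0 one_pos] with z hz
    refine Eventually.of_forall fun u => ?_
    rw [norm_mul, Complex.norm_exp]
    have h1 : ‖z‖ ≤ ‖z0‖ + 1 := by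
      rw [Metric.mem_ball, dist_eq_norm] at hz
      have := norm_sub_norm_le z z0
      linarith
    gcongr
    calc (z * u).re ≤ ‖z * u‖ := Complex.re_le_norm _
      _ = ‖z‖ * |u| := by rw [norm_mul, Complex.norm_real, Real.norm_eq_abs]
      _ ≤ (‖z0‖ + 1) * |u| := by gcongr
  · apply Continuous.integrable_of_hasCompactSupport
    · have := h.cont; fun_prop
    · exact h.supp.norm.mul_right
  · exact Eventually.of_forall fun u => by fun_prop

lemma LT_differentiable (h : TF Φ) : Differentiable ℂ (LT Φ) := by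
  intro z0
  have hm : TF (fun u : ℝ => Φ u * (u : ℂ)) := by
    refine ⟨h.smooth.mul ?_, h.supp.mul_right⟩
    exact Complex.ofRealCLM.contDiff
  have key := hasDerivAt_integral_of_dominated_loc_of_deriv_le
    (F := fun (z : ℂ) (u : ℝ) => Φ u * cexp (z * u))
    (F' := fun (z : ℂ) (u : ℝ) => Φ u * ((u : ℂ) * cexp (z * u))) (x₀ := z0)
    (s := Metric.ball z0 1) (μ := volume)
    (bound := fun u : ℝ => ‖Φ u‖ * (|u| * Real.exp ((‖z0‖ + 1) * |u|)))
    (Metric.ball_mem_nhds z0 one_pos)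
    (Eventually.of_forall fun z => (h.integrable z).aestronglyMeasurable)
    (h.integrable z0)
    ((h.mul_cont (by fun_prop)).aestronglyMeasurable)
    (Eventually.of_forall fun u z hz => ?_)
    (by
      apply Continuous.integrable_of_hasCompactSupport
      · have := h.cont; fun_prop
      · exact h.supp.norm.mul_right)
    (Eventually.of_forall fun u z _ => ?_)
  · exact key.2.differentiableAt
  · rw [norm_mul, norm_mul, Complex.norm_real, Real.norm_eq_abs, Complex.norm_exp]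
    have h1 : ‖z‖ ≤ ‖z0‖ + 1 := by
      rw [Metric.mem_ball, dist_eq_norm] at hz
      have := norm_sub_norm_le z z0
      linarith
    gcongr
    calc (z * u).re ≤ ‖z * u‖ := Complex.re_le_norm _
      _ = ‖z‖ * |u| := by rw [norm_mul, Complex.norm_real, Real.norm_eq_abs]
      _ ≤ (‖z0‖ + 1) * |u| := by gcongr
  · have h1 : HasDerivAt (fun z : ℂ => z * (u : ℂ)) (1 * (u : ℂ)) z := (hasDerivAt_id z).mul_const _
    have h2 := (h1.cexp).const_mul (Φ u)
    have h3 : Φ u * (cexp (z * u) * (1 * (u : ℂ))) = Φ u * ((u : ℂ) * cexp (z * u)) := by ring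
    rw [h3] at h2
    exact h2

/-- the transform on vertical lines is integrable, with room -/
lemma LT_line_integrable (h : TF Φ) (σ : ℝ) {g : ℝ → ℂ} (hg : Continuous g) {K : ℝ}
    (hK : ∀ y, ‖g y‖ ≤ K * (1 + y ^ 2)) : Integrable (fun y : ℝ => LT Φ (σ + y * I) * g y) := by
  obtain ⟨C, hC, hb⟩ := LT_bound h |σ|
  have hi : Integrable (fun y : ℝ => C * K * (1 + y ^ 2)⁻¹) := integrable_inv_one_add_sq.const_mul _
  refine hi.mono' ?_ (Eventually.of_forall fun y => ?_)
  · apply Continuous.aestronglyMeasurable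
    have := LT_continuous h
    fun_prop
  · have h1 := hb (σ + y * I) (by simp)
    have h2 : ((σ : ℂ) + y * I).im = y := by simp
    rw [h2] at h1
    have h3 : (0 : ℝ) < 1 + y ^ 2 := by positivity
    rw [norm_mul]
    calc ‖LT Φ (σ + y * I)‖ * ‖g y‖ ≤ (C / (1 + y ^ 2) ^ 2) * (K * (1 + y ^ 2)) := by
          gcongr
          exact hK y
      _ = C * K * (1 + y ^ 2)⁻¹ := by field_simp

/-- Fourier inversion -/
lemma LT_inversion (h : TF Φ) (σ : ℝ) (u : ℝ) :
    ∫ y : ℝ, LT Φ (σ + y * I) * cexp (-(σ + y * I) * u) = 2 * Real.pi * Φ u := by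
  set Ψ : ℝ → ℂ := fun u => Φ u * cexp (σ * u) with hΨ
  have hpi : (Real.pi : ℝ) ≠ 0 := Real.pi_ne_zero
  have hΨc : Continuous Ψ := by have := h.cont; fun_prop
  have hΨi : Integrable Ψ := h.mul_cont (by fun_prop)
  have e1 : ∀ w : ℝ, 𝓕 Ψ w = LT Φ (σ + ((-(2 * Real.pi * w) : ℝ) : ℂ) * I) := by
    intro w
    rw [Real.fourier_real_eq_integral_exp_smul]
    unfold LT
    congr 1
    funext v
    rw [smul_eq_mul, hΨ]
    simp only
    rw [mul_comm, mul_assoc, ← Complex.exp_add]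
    congr 2
    push_cast
    ring
  have hli : Integrable (fun y : ℝ => LT Φ (σ + y * I)) := by
    have := LT_line_integrable h σ (g := fun _ => 1) continuous_const (K := 1) (fun y => by
      simp; positivity)
    simpa using this
  have hFi : Integrable (𝓕 Ψ) := by
    have e2 : 𝓕 Ψ = fun w : ℝ => (fun y : ℝ => LT Φ (σ + y * I)) (-(2 * Real.pi) * w) := by
      funext w
      rw [e1]
      simp only
      congr 2
      push_cast
      ring
    rw [e2]
    exact hli.comp_mul_left' (by simp [hpi])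
  have h1 := congrFun (hΨc.fourierInv_fourier_eq hΨi hFi) u
  rw [Real.fourierInv_eq'] at h1
  have h2 : ∀ w : ℝ, cexp (↑(2 * Real.pi * inner ℝ w u) * I) • 𝓕 Ψ w =
      (fun y : ℝ => LT Φ (σ + y * I) * cexp (-(y * I) * u)) (-(2 * Real.pi) * w) := by
    intro w
    rw [e1, smul_eq_mul]
    simp only
    rw [mul_comm]
    congr 2
    · congr 2
      push_cast
      ring
    · have : inner ℝ w u = u * w := by simp
      rw [this]
      push_cast
      ring
  rw [integral_congr_ae (Eventually.of_forall h2)] at h1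
  rw [MeasureTheory.Measure.integral_comp_mul_left
    (fun y : ℝ => LT Φ (σ + y * I) * cexp (-(y * I) * u)) (-(2 * Real.pi))] at h1
  have h3 : |(-(2 * Real.pi))⁻¹| = (2 * Real.pi)⁻¹ := by
    rw [abs_inv, abs_neg, abs_of_pos (by positivity)]
  rw [h3] at h1
  have h4 : ∫ y : ℝ, LT Φ (σ + y * I) * cexp (-(σ + y * I) * u) =
      cexp (-(σ * u)) * ∫ y : ℝ, LT Φ (σ + y * I) * cexp (-(y * I) * u) := by
    rw [← integral_const_mul]
    congr 1
    funext y
    have : cexp (-(σ + y * I) * u) = cexp (-(σ * u)) * cexp (-(y * I) * u) := by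
      rw [← Complex.exp_add]
      congr 1
      ring
    rw [this]
    ring
  rw [h4]
  have h5 : ∫ y : ℝ, LT Φ (σ + y * I) * cexp (-(y * I) * u) = 2 * Real.pi * Ψ u := by
    rw [← h1, Complex.real_smul]
    push_cast
    have : (2 * Real.pi : ℂ) ≠ 0 := mul_ne_zero two_ne_zero (by exact_mod_cast hpi)
    rw [← mul_assoc, mul_inv_cancel₀ this, one_mul]
  rw [h5, hΨ]
  simp only
  have h6 : cexp (-(σ * u)) * cexp (σ * u) = 1 := by
    rw [← Complex.exp_add]
    simp
  linear_combination (2 * Real.pi * Φ u) * h6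

end Pool.Agent.Helper61.W
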