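import Pool.Agent.Helper61.W.Right2

set_option autoImplicit false

/-!
# The explicit formula
-/

namespace Pool.Agent.Helper61.W

open Complex Filter Topology Set MeasureTheory
open scoped ComplexConjugate ContDiff
open Pool.Agent.V11271.LI (Zr mm cfg_zeta zz)

variable {Φ : ℝ → ℂ}

/-- the logarithmic derivative -/
noncomputable def La (s : ℂ) : ℂ := deriv Xi s / Xi s

lemma Xi_deriv_symm (s : ℂ) : deriv Xi (1 - s) = - deriv Xi s := by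
  have h1 : HasDerivAt (fun z : ℂ => Xi (1 - z)) (deriv Xi (1 - s) * (-1)) s := by
    have h2 : HasDerivAt (fun z : ℂ => 1 - z) (-1) s := by
      simpa using (hasDerivAt_id s).const_sub 1
    exact HasDerivAt.comp s (Xi_diff (1 - s)).hasDerivAt h2
  have h2 : (fun z : ℂ => Xi (1 - z)) = Xi := funext Xi_symm
  rw [h2] at h1
  have := h1.deriv
  rw [this]
  ring

lemma La_symm (s : ℂ) : La (1 - s) = - La s := by
  unfold La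
  rw [Xi_deriv_symm, Xi_symm, neg_div]

lemma La_bound : ∃ K : ℝ, 0 ≤ K ∧ ∀ T : ℝ, 3 ≤ T → ∃ U ∈ Set.Icc T (T + 1), ∀ σ ∈ Set.Icc (-1 / 2 : ℝ) (3 / 2),
    (Xi (⟨σ, U⟩ : ℂ) ≠ 0 ∧ ‖La (⟨σ, U⟩ : ℂ)‖ ≤ K * U) ∧
    (Xi (⟨σ, -U⟩ : ℂ) ≠ 0 ∧ ‖La (⟨σ, -U⟩ : ℂ)‖ ≤ K * U) := by
  obtain ⟨C, hC, h⟩ := H370.good_height H370.good_zeta
  obtain ⟨G, hG, hGb⟩ := H370.DL.logDeriv_Gammaℝ_bound
  refine ⟨C * 4 + G + 4, by positivity, fun T hT => ?_⟩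
  obtain ⟨U, hU, hb⟩ := h T hT
  have hU3 : 3 ≤ U := hT.trans hU.1
  have main : ∀ σ ∈ Set.Icc (-1 / 2 : ℝ) (3 / 2),
      Xi (⟨σ, U⟩ : ℂ) ≠ 0 ∧ ‖La (⟨σ, U⟩ : ℂ)‖ ≤ (C * 4 + G + 4) * U := by
    intro σ hσ
    obtain ⟨hz, hzb⟩ := hb σ hσ
    have him : (⟨σ, U⟩ : ℂ).im ≠ 0 := by simp; linarith
    have h0 : (⟨σ, U⟩ : ℂ) ≠ 0 := by intro h; rw [h] at him; simp at him
    have h1 : (⟨σ, U⟩ : ℂ) ≠ 1 := by intro h; rw [h] at him; simp at him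
    have hGev : ∀ᶠ z in 𝓝 (⟨σ, U⟩ : ℂ), Gammaℝ z ≠ 0 := by
      filter_upwards [H370.DL.eventually_im_ne him] with z hz
      exact H370.DL.Gammaℝ_ne_zero_of_im hz
    have hGd := (H370.DL.analyticAt_Gammaℝ him).differentiableAt
    have hX : Xi (⟨σ, U⟩ : ℂ) ≠ 0 := by
      rw [Xi_eq h0 h1 (H370.DL.Gammaℝ_ne_zero_of_im him)]
      exact mul_ne_zero (mul_ne_zero (mul_ne_zero h0 (sub_ne_zero.mpr h1))
        (H370.DL.Gammaℝ_ne_zero_of_im him)) hz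
    refine ⟨hX, ?_⟩
    unfold La
    rw [Xi_logDeriv h0 h1 hGev hGd hz]
    have n1 : ‖1 / (⟨σ, U⟩ : ℂ)‖ ≤ 1 := by
      rw [norm_div, norm_one]
      have : 1 ≤ ‖(⟨σ, U⟩ : ℂ)‖ := by
        refine le_trans ?_ (Complex.abs_im_le_norm _)
        simp only
        rw [abs_of_pos (by linarith)]; linarith
      rw [div_le_one (by linarith)]; exact this
    have n2 : ‖1 / ((⟨σ, U⟩ : ℂ) - 1)‖ ≤ 1 := by
      rw [norm_div, norm_one]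
      have : 1 ≤ ‖(⟨σ, U⟩ : ℂ) - 1‖ := by
        refine le_trans ?_ (Complex.abs_im_le_norm _)
        simp only [sub_im, one_im, sub_zero]
        rw [abs_of_pos (by linarith)]; linarith
      rw [div_le_one (by linarith)]; exact this
    have n3 : ‖logDeriv Gammaℝ (⟨σ, U⟩ : ℂ)‖ ≤ G + U := by
      have h2 := hGb (⟨σ, U⟩ : ℂ) (by simpa using hσ.1) (by simp; linarith [hσ.2]) (by
        simp only; rw [abs_of_pos (by linarith)]; linarith)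
      have h3 : ‖(1 / 2 * (Real.log |(⟨σ, U⟩ : ℂ).im| : ℂ))‖ ≤ U := by
        simp only
        rw [abs_of_pos (show 0 < U by linarith), norm_mul, Complex.norm_real, Real.norm_eq_abs,
          abs_of_nonneg (Real.log_nonneg (by linarith))]
        have h4 : ‖(1 / 2 : ℂ)‖ = 1 / 2 := by simp
        rw [h4]
        have := Real.log_le_sub_one_of_pos (show 0 < U by linarith)
        linarith
      have h5 : ‖logDeriv Gammaℝ (⟨σ, U⟩ : ℂ)‖ ≤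
          ‖logDeriv Gammaℝ (⟨σ, U⟩ : ℂ) - 1 / 2 * (Real.log |(⟨σ, U⟩ : ℂ).im| : ℂ)‖ +
            ‖(1 / 2 * (Real.log |(⟨σ, U⟩ : ℂ).im| : ℂ))‖ := by
        have := norm_add_le (logDeriv Gammaℝ (⟨σ, U⟩ : ℂ) - 1 / 2 * (Real.log |(⟨σ, U⟩ : ℂ).im| : ℂ))
          (1 / 2 * (Real.log |(⟨σ, U⟩ : ℂ).im| : ℂ))
        rwa [sub_add_cancel] at this
      linarith
    have n4 : ‖deriv riemannZeta (⟨σ, U⟩ : ℂ) / riemannZeta (⟨σ, U⟩ : ℂ)‖ ≤ C * (4 * U) := by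
      refine hzb.trans ?_
      have h6 := H370.log_sq_le (show 1 ≤ T by linarith)
      have h7 : (Real.log T) ^ 2 ≤ 4 * U := h6.trans (by linarith [hU.1])
      gcongr
    have n5 := norm_add_le (1 / (⟨σ, U⟩ : ℂ) + 1 / ((⟨σ, U⟩ : ℂ) - 1) + logDeriv Gammaℝ (⟨σ, U⟩ : ℂ))
      (deriv riemannZeta (⟨σ, U⟩ : ℂ) / riemannZeta (⟨σ, U⟩ : ℂ))
    have n6 := norm_add_le (1 / (⟨σ, U⟩ : ℂ) + 1 / ((⟨σ, U⟩ : ℂ) - 1)) (logDeriv Gammaℝ (⟨σ, U⟩ : ℂ))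
    have n7 := norm_add_le (1 / (⟨σ, U⟩ : ℂ)) (1 / ((⟨σ, U⟩ : ℂ) - 1))
    nlinarith
  refine ⟨U, hU, fun σ hσ => ⟨main σ hσ, ?_⟩⟩
  have h2 : (⟨σ, -U⟩ : ℂ) = 1 - ⟨1 - σ, U⟩ := by
    apply Complex.ext <;> simp
  have h3 := main (1 - σ) ⟨by linarith [hσ.2], by linarith [hσ.1]⟩
  rw [h2, Xi_symm, La_symm, norm_neg]
  exact h3

end Pool.Agent.Helper61.W
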