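import Pool.Agent.Helper61.W.Left

set_option autoImplicit false

/-!
# The explicit formula, continued
-/

namespace Pool.Agent.Helper61.W

open Complex Filter Topology Set MeasureTheory
open scoped ComplexConjugate ContDiff
open Pool.Agent.V11271.LI (Zr mm cfg_zeta zz)

variable {Φ : ℝ → ℂ}

/-- the summands -/
noncomputable def tm (Φ : ℝ → ℂ) (ρ : Zr) : ℂ := (mm ρ : ℂ) * LT Φ ((ρ : ℂ) - 1 / 2)

lemma summable_tm (h : TF Φ) : Summable (fun ρ : Zr => tm Φ ρ) := by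
  obtain ⟨C, hC, hb⟩ := LT_bound h 1
  have h1 := (cfg_zeta.sum 2 (by norm_num)).mul_left (4 * C)
  refine Summable.of_norm_bounded h1 fun ρ => ?_
  unfold tm
  have hm : 0 ≤ mm ρ := cfg_zeta.m_nonneg ρ
  rw [norm_mul, Complex.norm_real, Real.norm_of_nonneg hm]
  have h2 := hb ((ρ : ℂ) - 1 / 2) (by
    have h3 : ((ρ : ℂ) - 1 / 2).re = (ρ : ℂ).re - 1 / 2 := by simp
    rw [h3, abs_le]
    constructor <;> linarith [ρ.2.2.1, ρ.2.2.2])
  have h4 : ((ρ : ℂ) - 1 / 2).im = (ρ : ℂ).im := by simp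
  rw [h4] at h2
  have h5 : (zz ρ).im = (ρ : ℂ).im := V11271.LI.zz_im ρ
  rw [h5]
  set y := (ρ : ℂ).im
  have h6 : (1 + |y|) ^ (2 : ℝ) = (1 + |y|) ^ 2 := by norm_cast
  rw [h6]
  have h7 : (1 + |y|) ^ 2 ≤ 2 * (1 + y ^ 2) := by
    nlinarith [sq_nonneg (|y| - 1), sq_abs y]
  have h8 : C / (1 + y ^ 2) ^ 2 ≤ 4 * C / (1 + |y|) ^ 2 := by
    rw [div_le_div_iff₀ (by positivity) (by positivity)]
    have h9 : 1 ≤ 1 + y ^ 2 := by nlinarith [sq_nonneg y]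
    have h10 : (1 + |y|) ^ 2 ≤ 4 * (1 + y ^ 2) ^ 2 := by nlinarith
    nlinarith
  calc mm ρ * ‖LT Φ ((ρ : ℂ) - 1 / 2)‖ ≤ mm ρ * (4 * C / (1 + |y|) ^ 2) := by
        gcongr
        exact h2.trans h8
    _ = 4 * C * (mm ρ / (1 + |y|) ^ 2) := by ring

/-- the two transforms on the line -/
noncomputable def Hs (Φ : ℝ → ℂ) (y : ℝ) : ℂ := LT Φ (1 + y * I) + LT Φ (-(1 + y * I))

lemma La_cont_right : Continuous (fun y : ℝ => La (3 / 2 + y * I)) := by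
  unfold La
  have hd : Continuous (deriv Xi) := by
    have : Differentiable ℂ (deriv Xi) := by
      have h1 : AnalyticOnNhd ℂ Xi Set.univ := fun z _ => Xi_diff.analyticAt z
      exact fun z => (h1.deriv z (Set.mem_univ z)).differentiableAt
    exact this.continuous
  refine Continuous.div (hd.comp (by fun_prop)) (Xi_diff.continuous.comp (by fun_prop)) fun y => ?_
  exact Xi_ne_zero_of_one_le (by simp; norm_num)

lemma mk_line (σ y : ℝ) : (⟨σ, y⟩ : ℂ) = (σ : ℂ) + y * I := by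
  apply Complex.ext <;> simp

/-- the identity for a good height -/
lemma rect_identity (h : TF Φ) {U : ℝ} (hU : 3 ≤ U)
    (hX : ∀ σ ∈ Set.Icc (-1 / 2 : ℝ) (3 / 2), Xi (⟨σ, U⟩ : ℂ) ≠ 0 ∧ Xi (⟨σ, -U⟩ : ℂ) ≠ 0) :
    (Set.Finite {s | s ∈ Set.Ioo (-1 / 2 : ℝ) (3 / 2) ×ℂ Set.Ioo (-U) U ∧ Xi s = 0}) ∧
    2 * Real.pi * I * ∑ᶠ s ∈ {s | s ∈ Set.Ioo (-1 / 2 : ℝ) (3 / 2) ×ℂ Set.Ioo (-U) U ∧ Xi s = 0},
        (H370.mult Xi s : ℂ) * LT Φ (s - 1 / 2) =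
      (∫ x in (-1 / 2 : ℝ)..(3 / 2), La ⟨x, -U⟩ * LT Φ (⟨x, -U⟩ - 1 / 2)) -
        (∫ x in (-1 / 2 : ℝ)..(3 / 2), La ⟨x, U⟩ * LT Φ (⟨x, U⟩ - 1 / 2)) +
        I * ∫ y in (-U)..U, La (3 / 2 + y * I) * Hs Φ y := by
  have hh : Differentiable ℂ (fun s : ℂ => LT Φ (s - 1 / 2)) := (LT_differentiable h).comp (by fun_prop)
  have key := H370.rect_residue Xi (fun s => LT Φ (s - 1 / 2)) (-1 / 2) (3 / 2) (-U) U (by norm_num)
    (by linarith) (fun z _ => Xi_diff.analyticAt z) hh (fun s hs h0 => ?_)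
  · refine ⟨key.1, ?_⟩
    rw [← key.2]
    have hr : Continuous (fun y : ℝ => La (3 / 2 + y * I) * LT Φ (1 + y * I)) :=
      La_cont_right.mul ((LT_continuous h).comp (by fun_prop))
    have hl : Continuous (fun y : ℝ => La (3 / 2 + y * I) * LT Φ (-(1 + y * I))) :=
      La_cont_right.mul ((LT_continuous h).comp (by fun_prop))
    have e1 : ∫ y in (-U)..U, deriv Xi (⟨3 / 2, y⟩ : ℂ) / Xi ⟨3 / 2, y⟩ * LT Φ (⟨3 / 2, y⟩ - 1 / 2) =
        ∫ y in (-U)..U, La (3 / 2 + y * I) * LT Φ (1 + y * I) := by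
      congr 1
      funext y
      rw [mk_line]
      unfold La
      have : (((3 / 2 : ℝ) : ℂ) + y * I - 1 / 2) = 1 + y * I := by push_cast; ring
      rw [this]
      push_cast
      rfl
    have e2 : ∫ y in (-U)..U, deriv Xi (⟨-1 / 2, y⟩ : ℂ) / Xi ⟨-1 / 2, y⟩ * LT Φ (⟨-1 / 2, y⟩ - 1 / 2) =
        - ∫ y in (-U)..U, La (3 / 2 + y * I) * LT Φ (-(1 + y * I)) := by
      rw [← intervalIntegral.integral_neg]
      have e3 := intervalIntegral.integral_comp_neg (a := -U) (b := U)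
        (fun y : ℝ => -(La (3 / 2 + y * I) * LT Φ (-(1 + y * I))))
      rw [neg_neg] at e3
      rw [← e3]
      congr 1
      funext y
      have e4 : (⟨-1 / 2, y⟩ : ℂ) = 1 - (3 / 2 + ((-y : ℝ) : ℂ) * I) := by
        rw [mk_line]
        push_cast
        ring
      have e5 : deriv Xi (⟨-1 / 2, y⟩ : ℂ) / Xi ⟨-1 / 2, y⟩ = - La (3 / 2 + ((-y : ℝ) : ℂ) * I) := by
        rw [e4]
        exact La_symm _
      rw [e5, e4]
      have e6 : (1 - (3 / 2 + ((-y : ℝ) : ℂ) * I) - 1 / 2) = -(1 + ((-y : ℝ) : ℂ) * I) := by ring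
      rw [e6]
      ring
    rw [e1, e2]
    unfold Hs
    have e7 : ∫ y in (-U)..U, La (3 / 2 + y * I) * (LT Φ (1 + y * I) + LT Φ (-(1 + y * I))) =
        (∫ y in (-U)..U, La (3 / 2 + y * I) * LT Φ (1 + y * I)) +
        ∫ y in (-U)..U, La (3 / 2 + y * I) * LT Φ (-(1 + y * I)) := by
      rw [← intervalIntegral.integral_add (hr.intervalIntegrable _ _) (hl.intervalIntegrable _ _)]
      congr 1
      funext y
      ring
    rw [e7]
    unfold La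
    ring
  · -- no zeros on the boundary
    have h1 := (Xi_eq_zero_iff s).mp h0
    obtain ⟨hs1, hs2⟩ := hs
    simp only [mem_preimage, Set.mem_Icc] at hs1 hs2
    refine ⟨⟨by linarith [h1.2.1], by linarith [h1.2.2]⟩, ?_⟩
    simp only [mem_preimage, Set.mem_Ioo]
    refine ⟨lt_of_le_of_ne hs2.1 ?_, lt_of_le_of_ne hs2.2 ?_⟩
    · intro h2
      apply (hX s.re ⟨by linarith [hs1.1], by linarith [hs1.2]⟩).2
      rw [h2]
      exact h0
    · intro h2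
      apply (hX s.re ⟨by linarith [hs1.1], by linarith [hs1.2]⟩).1
      rw [← h2]
      exact h0

/-- the horizontal integrals -/
lemma horiz_bound (h : TF Φ) {K : ℝ} (hK : 0 ≤ K) : ∃ C : ℝ, 0 ≤ C ∧ ∀ V : ℝ, 3 ≤ |V| →
    (∀ σ ∈ Set.Icc (-1 / 2 : ℝ) (3 / 2), ‖La (⟨σ, V⟩ : ℂ)‖ ≤ K * |V|) →
    ‖∫ x in (-1 / 2 : ℝ)..(3 / 2), La ⟨x, V⟩ * LT Φ (⟨x, V⟩ - 1 / 2)‖ ≤ C / |V| := by
  obtain ⟨C, hC, hb⟩ := LT_bound h 1
  refine ⟨2 * (K * C), by positivity, fun V hV hL => ?_⟩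
  have hV0 : 0 < |V| := by linarith
  have h1 : ∀ x ∈ Set.uIoc (-1 / 2 : ℝ) (3 / 2), ‖La ⟨x, V⟩ * LT Φ (⟨x, V⟩ - 1 / 2)‖ ≤ K * C / |V| := by
    intro x hx
    rw [Set.uIoc_of_le (by norm_num)] at hx
    have h2 := hL x ⟨hx.1.le, hx.2⟩
    have h3 := hb (⟨x, V⟩ - 1 / 2 : ℂ) (by
      have : (⟨x, V⟩ - 1 / 2 : ℂ).re = x - 1 / 2 := by simp
      rw [this, abs_le]
      constructor <;> linarith [hx.1, hx.2])
    have h4 : (⟨x, V⟩ - 1 / 2 : ℂ).im = V := by simp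
    rw [h4] at h3
    have h5 : |V| ^ 4 ≤ (1 + V ^ 2) ^ 2 := by
      have : |V| ^ 4 = (V ^ 2) ^ 2 := by rw [← sq_abs V]; ring
      rw [this]
      have := sq_nonneg V
      gcongr
      linarith
    rw [norm_mul]
    calc ‖La ⟨x, V⟩‖ * ‖LT Φ (⟨x, V⟩ - 1 / 2)‖ ≤ (K * |V|) * (C / |V| ^ 4) := by
          gcongr
          refine h3.trans ?_
          gcongr
      _ = K * C / |V| ^ 3 := by field_simp
      _ ≤ K * C / |V| := by
          gcongr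
          nlinarith [mul_pos hV0 hV0]
  have h2 := intervalIntegral.norm_integral_le_of_norm_le_const h1
  refine h2.trans (le_of_eq ?_)
  have : |(3 / 2 : ℝ) - -1 / 2| = 2 := by norm_num
  rw [this]
  ring

end Pool.Agent.Helper61.W
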