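import Pool.Agent.Helper61.W.As

set_option autoImplicit false

/-!
# Arithmetic of polynomials given by lists of rational coefficients
-/

namespace Pool.Agent.Helper61.W

open Filter Topology Set MeasureTheory

/-- evaluation at a real point -/
noncomputable def evL : List ℚ → ℝ → ℝ
  | [], _ => 0
  | a :: l, x => (a : ℝ) + x * evL l x

/-- evaluation at a rational point -/
def evQ : List ℚ → ℚ → ℚ
  | [], _ => 0
  | a :: l, x => a + x * evQ l x

/-- sum -/
def addL : List ℚ → List ℚ → List ℚ
  | [], m => m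
  | a :: l, [] => a :: l
  | a :: l, b :: m => (a + b) :: addL l m

/-- scalar multiple -/
def smL (c : ℚ) : List ℚ → List ℚ
  | [] => []
  | a :: l => (c * a) :: smL c l

/-- multiplication by a power of the variable -/
def shL : ℕ → List ℚ → List ℚ
  | 0, l => l
  | k + 1, l => 0 :: shL k l

/-- the coefficients of the antiderivative, starting with index `n` -/
def antiA : List ℚ → ℕ → List ℚ
  | [], _ => []
  | a :: l, n => (a / ((n : ℚ) + 1)) :: antiA l (n + 1)

/-- alternating sum -/
def altL : List ℚ → ℚ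
  | [] => 0
  | a :: l => a - altL l

/-- the antiderivative vanishing at `-1` -/
def Im (l : List ℚ) : List ℚ := altL (antiA l 0) :: antiA l 0

/-- the part of a convolution with a polynomial kernel -/
def LH : List ℚ → ℕ → ℚ → List ℚ → List ℚ
  | [], _, _, _ => []
  | a :: m, j, fac, p => Im (addL (smL (fac * a) p) (LH m (j + 1) (fac * ((j : ℚ) + 1)) p))

/-- coefficients with even index -/
def evens : List ℚ → List ℚ
  | [] => []
  | [a] => [a]
  | a :: _ :: l => a :: evens l

/-- coefficients with odd index -/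
def odds : List ℚ → List ℚ
  | [] => []
  | [_] => []
  | _ :: b :: l => b :: odds l

/-- coefficients of given parity -/
def par : ℕ → List ℚ → List ℚ
  | 0, l => evens l
  | _ + 1, l => odds l

/-- dot product -/
def dotQ : List ℚ → List ℚ → ℚ
  | [], _ => 0
  | _ :: _, [] => 0
  | a :: l, b :: m => a * b + dotQ l m

/-- moments of a polynomial against a list of moments -/
def momL (l : List ℚ) : List ℚ → List ℚ
  | [] => []
  | a :: m => dotQ l (a :: m) :: momL l m

/-- moments of a polynomial against a list of moments, in steps of two -/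
def momL2 (l : List ℚ) : List ℚ → List ℚ
  | [] => []
  | [a] => [dotQ l [a]]
  | a :: b :: m => dotQ l (a :: b :: m) :: momL2 l m

/-- power moments of an interval, with the powers of the endpoints carried along -/
def gmu (qu qv st : ℚ) : ℚ → ℚ → ℚ → ℕ → List ℚ
  | _, _, _, 0 => []
  | pu, pv, b, k + 1 => ((pv - pu) / b) :: gmu qu qv st (pu * qu) (pv * qv) (b + st) k

/-- remove the first entries -/
def drL : ℕ → List ℚ → List ℚ
  | 0, l => l
  | _ + 1, [] => []
  | k + 1, _ :: l => drL k l

/-- powers of a linear polynomial `x - b` -/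
def mulLin (b : ℚ) (l : List ℚ) : List ℚ := addL (smL (-b) l) (0 :: l)

def powLin (b : ℚ) : ℕ → List ℚ
  | 0 => [1]
  | n + 1 => mulLin b (powLin b n)

variable {x : ℝ}

lemma evL_addL : ∀ l m : List ℚ, evL (addL l m) x = evL l x + evL m x
  | [], m => by simp [addL, evL]
  | a :: l, [] => by simp [addL, evL]
  | a :: l, b :: m => by
    simp only [addL, evL, evL_addL l m]
    push_cast
    ring

lemma evL_smL (c : ℚ) : ∀ l : List ℚ, evL (smL c l) x = c * evL l x
  | [] => by simp [smL, evL]
  | a :: l => by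
    simp only [smL, evL, evL_smL c l]
    push_cast
    ring

lemma evL_shL : ∀ (k : ℕ) (l : List ℚ), evL (shL k l) x = x ^ k * evL l x
  | 0, l => by simp [shL]
  | k + 1, l => by
    simp only [shL, evL, evL_shL k l]
    push_cast
    ring

lemma evL_continuous (l : List ℚ) : Continuous (evL l) := by
  induction l with
  | nil => exact continuous_const
  | cons a l ih =>
    have : evL (a :: l) = fun x => (a : ℝ) + x * evL l x := by
      funext x
      rfl
    rw [this]
    fun_prop

lemma antiA_deriv : ∀ (l : List ℚ) (n : ℕ) (x : ℝ),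
    HasDerivAt (fun x => x ^ (n + 1) * evL (antiA l n) x) (x ^ n * evL l x) x
  | [], n, x => by
    simp only [antiA, evL, mul_zero]
    exact hasDerivAt_const _ _
  | a :: l, n, x => by
    have ih := antiA_deriv l (n + 1) x
    have h1 : HasDerivAt (fun x : ℝ => ((a / ((n : ℚ) + 1) : ℚ) : ℝ) * x ^ (n + 1))
        (((a / ((n : ℚ) + 1) : ℚ) : ℝ) * (((n + 1 : ℕ) : ℝ) * x ^ n)) x := by
      have := (hasDerivAt_pow (n + 1) x).const_mul ((a / ((n : ℚ) + 1) : ℚ) : ℝ)
      simpa using this
    have h2 := h1.add ih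
    have e : (fun x => x ^ (n + 1) * evL (antiA (a :: l) n) x) =
        (fun x : ℝ => ((a / ((n : ℚ) + 1) : ℚ) : ℝ) * x ^ (n + 1)) +
          fun x => x ^ (n + 1 + 1) * evL (antiA l (n + 1)) x := by
      funext y
      simp only [antiA, evL, Pi.add_apply]
      ring
    rw [e]
    refine h2.congr_deriv ?_
    simp only [evL]
    push_cast
    have : ((n : ℝ) + 1) ≠ 0 := by positivity
    field_simp
    ring

lemma evL_alt : ∀ l : List ℚ, evL l (-1) = altL l
  | [] => by simp [evL, altL]
  | a :: l => by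
    simp only [evL, altL, evL_alt l]
    push_cast
    ring

lemma evL_Im (l : List ℚ) (s : ℝ) : evL (Im l) s = ∫ t in (-1 : ℝ)..s, evL l t := by
  have h1 : ∀ x : ℝ, HasDerivAt (fun x => evL (Im l) x) (evL l x) x := by
    intro x
    have h := antiA_deriv l 0 x
    have e : (fun x => evL (Im l) x) = fun x => ((altL (antiA l 0) : ℚ) : ℝ) +
        x ^ (0 + 1) * evL (antiA l 0) x := by
      funext y
      simp [Im, evL]
    rw [e]
    refine (h.const_add _).congr_deriv ?_
    simp
  rw [intervalIntegral.integral_eq_sub_of_hasDerivAt (fun x _ => h1 x)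
    ((evL_continuous l).intervalIntegrable _ _)]
  have : evL (Im l) (-1) = 0 := by
    simp [Im, evL_alt, altL]
  rw [this, sub_zero]

/-- the semantic antiderivative -/
noncomputable def Ji (f : ℝ → ℝ) (s : ℝ) : ℝ := ∫ t in (-1 : ℝ)..s, f t

lemma Ji_hasDeriv {f : ℝ → ℝ} (hf : Continuous f) (s : ℝ) : HasDerivAt (Ji f) (f s) s :=
  intervalIntegral.integral_hasDerivAt_right (hf.intervalIntegrable _ _)
    hf.stronglyMeasurable.stronglyMeasurableAtFilter hf.continuousAt

lemma Ji_cont {f : ℝ → ℝ} (hf : Continuous f) : Continuous (Ji f) := by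
  rw [continuous_iff_continuousAt]
  intro s
  exact (Ji_hasDeriv hf s).continuousAt

lemma Ji_iter_cont {f : ℝ → ℝ} (hf : Continuous f) (n : ℕ) : Continuous (Ji^[n] f) := by
  induction n with
  | zero => exact hf
  | succ n ih =>
    rw [Function.iterate_succ_apply']
    exact Ji_cont ih

/-- repeated integration -/
lemma Ji_iter : ∀ (n : ℕ) {f : ℝ → ℝ}, Continuous f → ∀ s : ℝ,
    ∫ t in (-1 : ℝ)..s, f t * (s - t) ^ n = (n.factorial : ℝ) * (Ji^[n + 1] f) s
  | 0, f, hf, s => by simp [Ji]
  | n + 1, f, hf, s => by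
    have ih := Ji_iter n (Ji_cont hf) s
    have h1 := intervalIntegral.integral_mul_deriv_eq_deriv_mul (a := -1) (b := s)
      (u := fun t => (s - t) ^ (n + 1)) (u' := fun t => -(((n : ℝ) + 1) * (s - t) ^ n))
      (v := Ji f) (v' := f)
      (fun t _ => by
        have := ((hasDerivAt_id t).const_sub s).pow (n + 1)
        refine this.congr_deriv ?_
        simp)
      (fun t _ => Ji_hasDeriv hf t)
      ((by fun_prop : Continuous fun t : ℝ => -(((n : ℝ) + 1) * (s - t) ^ n)).intervalIntegrable _ _)
      (hf.intervalIntegrable _ _)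
    have h2 : Ji f (-1) = 0 := by simp [Ji]
    rw [h2, sub_self, zero_pow (by omega)] at h1
    have e1 : ∫ t in (-1 : ℝ)..s, f t * (s - t) ^ (n + 1) = ∫ t in (-1 : ℝ)..s, (s - t) ^ (n + 1) * f t := by
      congr 1
      funext t
      ring
    have e2 : ∫ t in (-1 : ℝ)..s, -(((n : ℝ) + 1) * (s - t) ^ n) * Ji f t =
        -(((n : ℝ) + 1) * ∫ t in (-1 : ℝ)..s, Ji f t * (s - t) ^ n) := by
      rw [← intervalIntegral.integral_const_mul, ← intervalIntegral.integral_neg]
      congr 1
      funext t
      ring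
    rw [e1, h1, e2, ih, Nat.factorial_succ]
    push_cast
    rw [Function.iterate_succ_apply (n := n + 1)]
    ring

/-- sums of repeated antiderivatives -/
noncomputable def SJ : List ℚ → ℕ → (ℝ → ℝ) → ℝ → ℝ
  | [], _, _, _ => 0
  | a :: m, j, g, s => (j.factorial : ℝ) * a * g s + SJ m (j + 1) (Ji g) s

lemma SJ_cont : ∀ (m : List ℚ) (j : ℕ) {g : ℝ → ℝ}, Continuous g → Continuous (SJ m j g)
  | [], j, g, hg => continuous_const
  | a :: m, j, g, hg => by
    have : SJ (a :: m) j g = fun s => (j.factorial : ℝ) * a * g s + SJ m (j + 1) (Ji g) s := by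
      funext s
      rfl
    rw [this]
    have := SJ_cont m (j + 1) (Ji_cont hg)
    fun_prop

lemma Ji_SJ : ∀ (m : List ℚ) (j : ℕ) {g : ℝ → ℝ}, Continuous g → ∀ s,
    Ji (SJ m j g) s = SJ m j (Ji g) s
  | [], j, g, hg, s => by simp [SJ, Ji]
  | a :: m, j, g, hg, s => by
    have h1 : Ji (SJ (a :: m) j g) s = (j.factorial : ℝ) * a * Ji g s + Ji (SJ m (j + 1) (Ji g)) s := by
      have e : Ji (SJ (a :: m) j g) s =
          ∫ t in (-1 : ℝ)..s, ((j.factorial : ℝ) * a * g t + SJ m (j + 1) (Ji g) t) := rfl
      have c1 : Continuous fun t => (j.factorial : ℝ) * a * g t := by fun_prop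
      rw [e, intervalIntegral.integral_add (c1.intervalIntegrable _ _)
        ((SJ_cont m (j + 1) (Ji_cont hg)).intervalIntegrable _ _), intervalIntegral.integral_const_mul]
      rfl
    rw [h1, Ji_SJ m (j + 1) (Ji_cont hg) s]
    rfl

lemma evL_LH (p : List ℚ) : ∀ (m : List ℚ) (j : ℕ) (fac : ℚ), (fac : ℚ) = (j.factorial : ℚ) → ∀ s,
    evL (LH m j fac p) s = SJ m j (Ji (evL p)) s
  | [], j, fac, hf, s => by simp [LH, SJ, evL]
  | a :: m, j, fac, hf, s => by
    have ih := evL_LH p m (j + 1) (fac * ((j : ℚ) + 1)) (by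
      rw [hf, Nat.factorial_succ]
      push_cast
      ring)
    have hp := evL_continuous p
    simp only [LH, evL_Im, evL_addL, evL_smL, SJ]
    have e1 : ∀ t, evL (LH m (j + 1) (fac * ((j : ℚ) + 1)) p) t = SJ m (j + 1) (Ji (evL p)) t := ih
    simp_rw [e1]
    rw [intervalIntegral.integral_add ((hp.const_mul _ |> fun h => h).intervalIntegrable _ _)
      ((SJ_cont m (j + 1) (Ji_cont hp)).intervalIntegrable _ _), intervalIntegral.integral_const_mul]
    have e2 := Ji_SJ m (j + 1) (Ji_cont hp) s
    unfold Ji at e2 ⊢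
    rw [e2, hf]
    push_cast
    ring

lemma SJ_conv {p : ℝ → ℝ} (hp : Continuous p) : ∀ (m : List ℚ) (j : ℕ) (s : ℝ),
    SJ m j (Ji^[j + 1] p) s = ∫ t in (-1 : ℝ)..s, p t * ((s - t) ^ j * evL m (s - t))
  | [], j, s => by simp [SJ, evL]
  | a :: m, j, s => by
    have ih := SJ_conv hp m (j + 1) s
    have hm := evL_continuous m
    simp only [SJ]
    rw [Function.iterate_succ_apply'] at ih
    rw [ih]
    have h1 := Ji_iter j hp s
    have c1 : Continuous fun t => (a : ℝ) * (p t * (s - t) ^ j) := by fun_prop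
    have c2 : Continuous fun t => p t * ((s - t) ^ (j + 1) * evL m (s - t)) := by fun_prop
    have e : ∀ t, p t * ((s - t) ^ j * evL (a :: m) (s - t)) =
        (a : ℝ) * (p t * (s - t) ^ j) + p t * ((s - t) ^ (j + 1) * evL m (s - t)) := by
      intro t
      simp only [evL]
      ring
    simp_rw [e]
    rw [intervalIntegral.integral_add (c1.intervalIntegrable _ _) (c2.intervalIntegrable _ _),
      intervalIntegral.integral_const_mul, h1]
    ring

/-- the left part of the kernel operator -/
lemma evL_LH_conv (m p : List ℚ) (s : ℝ) :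
    evL (LH m 0 1 p) s = ∫ t in (-1 : ℝ)..s, evL p t * evL m (s - t) := by
  rw [evL_LH p m 0 1 (by simp)]
  have := SJ_conv (evL_continuous p) m 0 s
  simpa using this

lemma evL_evens : ∀ (l : List ℚ) (s : ℝ), evL l s + evL l (-s) = 2 * evL (evens l) (s ^ 2)
  | [], s => by simp [evL, evens]
  | [a], s => by simp [evL, evens]; ring
  | a :: b :: l, s => by
    have ih := evL_evens l s
    simp only [evL, evens]
    linear_combination s ^ 2 * ih

lemma evL_odds : ∀ (l : List ℚ) (s : ℝ), evL l s - evL l (-s) = 2 * (s * evL (odds l) (s ^ 2))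
  | [], s => by simp [evL, odds]
  | [a], s => by simp [evL, odds]
  | a :: b :: l, s => by
    have ih := evL_odds l s
    simp only [evL, odds]
    linear_combination s ^ 2 * ih

/-- monomials -/
def mono (k : ℕ) : List ℚ := shL k [1]

lemma evL_mono (k : ℕ) (s : ℝ) : evL (mono k) s = s ^ k := by
  unfold mono
  rw [evL_shL]
  simp [evL]

/-- the kernel operator on a monomial -/
lemma Mop_mono (m : List ℚ) (k : ℕ) {s : ℝ} (hs : s ∈ Icc (-1 : ℝ) 1) :
    Mop (evL m) (fun t => t ^ k) s =
      evL (LH m 0 1 (mono k)) s + (-1) ^ k * evL (LH m 0 1 (mono k)) (-s) := by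
  have hm := evL_continuous m
  unfold Mop
  have c0 : Continuous fun t : ℝ => t ^ k * evL m |s - t| := by fun_prop
  rw [int_mu1, ← intervalIntegral.integral_add_adjacent_intervals (c0.intervalIntegrable (-1) s)
    (c0.intervalIntegrable s 1), evL_LH_conv, evL_LH_conv]
  congr 1
  · apply intervalIntegral.integral_congr
    intro t ht
    rw [uIcc_of_le hs.1] at ht
    simp only
    rw [evL_mono, abs_of_nonneg (by linarith [ht.2])]
  · have h1 := intervalIntegral.integral_comp_neg (a := -1) (b := -s)
      (fun t => t ^ k * evL m |s - t|)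
    rw [neg_neg, neg_neg] at h1
    rw [← h1, ← intervalIntegral.integral_const_mul]
    apply intervalIntegral.integral_congr
    intro t ht
    rw [uIcc_of_le (by linarith [hs.2])] at ht
    simp only
    rw [evL_mono, abs_of_nonpos (by linarith [ht.2]), neg_pow]
    have : -(s - -t) = -s - t := by ring
    rw [this]
    ring

/-- the kernel operator on a monomial of given parity -/
lemma Mop_par (m : List ℚ) (k e : ℕ) (he : e = 0 ∨ e = 1) {s : ℝ} (hs : s ∈ Icc (-1 : ℝ) 1) :
    Mop (evL m) (fun t => t ^ (2 * k + e)) s =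
      s ^ e * evL (smL 2 (par e (LH m 0 1 (mono (2 * k + e))))) (s ^ 2) := by
  rw [Mop_mono m _ hs, evL_smL]
  rcases he with rfl | rfl
  · have h1 := evL_evens (LH m 0 1 (mono (2 * k + 0))) s
    have h2 : (-1 : ℝ) ^ (2 * k + 0) = 1 := by
      rw [add_zero, pow_mul]
      norm_num
    rw [h2, one_mul, h1]
    simp [par]
  · have h1 := evL_odds (LH m 0 1 (mono (2 * k + 1))) s
    have h2 : (-1 : ℝ) ^ (2 * k + 1) = -1 := by
      rw [pow_add, pow_mul]
      norm_num
    rw [h2, neg_one_mul, ← sub_eq_add_neg, h1]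
    simp [par]
    ring

end Pool.Agent.Helper61.W
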