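import Pool.Agent.Helper61.W.Xi2
import Pool.Agent.Helper61.W.LT

set_option autoImplicit false

/-!
# The integral over the line on the right
-/

namespace Pool.Agent.Helper61.W

open Complex Filter Topology Set MeasureTheory
open scoped ComplexConjugate ContDiff

variable {Φ : ℝ → ℂ}

lemma line_integrable (h : TF Φ) (σ : ℝ) : Integrable (fun y : ℝ => LT Φ (σ + y * I)) := by
  have := LT_line_integrable h σ (g := fun _ => 1) continuous_const (K := 1) (fun y => by
    simp; positivity)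
  simpa using this

/-- partial fractions -/
lemma line_frac (h : TF Φ) (σ b : ℝ) (hb : 0 < σ + b) :
    ∫ y : ℝ, LT Φ (σ + y * I) * (1 / (σ + y * I + b)) =
      2 * Real.pi * ∫ u in Ioi (0 : ℝ), Φ u * cexp (-b * u) := by
  have e1 : ∀ y : ℝ, LT Φ (σ + y * I) * (1 / (σ + y * I + b)) =
      ∫ u in Ioi (0 : ℝ), LT Φ (σ + y * I) * cexp (-(σ + y * I + b) * u) := by
    intro y
    rw [integral_const_mul, integral_exp_mul_complex_Ioi (by simp; linarith)]
    simp only [ofReal_zero, mul_zero, Complex.exp_zero]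
    congr 1
    rw [neg_div_neg_eq]
  rw [integral_congr_ae (Eventually.of_forall e1)]
  rw [integral_integral_swap]
  · rw [← integral_const_mul]
    apply setIntegral_congr_fun measurableSet_Ioi
    intro u _
    simp only
    have e2 : ∀ y : ℝ, LT Φ (σ + y * I) * cexp (-(σ + y * I + b) * u) =
        cexp (-b * u) * (LT Φ (σ + y * I) * cexp (-(σ + y * I) * u)) := by
      intro y
      have : cexp (-(σ + y * I + b) * u) = cexp (-b * u) * cexp (-(σ + y * I) * u) := by
        rw [← Complex.exp_add]; congr 1; ring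
      rw [this]; ring
    rw [integral_congr_ae (Eventually.of_forall e2), integral_const_mul, LT_inversion h σ u]
    ring
  · have i1 := (line_integrable h σ).norm
    have i2 : Integrable (fun u : ℝ => Real.exp (-(σ + b) * u)) (volume.restrict (Ioi 0)) :=
      integrableOn_exp_mul_Ioi (by linarith) 0
    refine (i1.mul_prod i2).mono' ?_ (Eventually.of_forall ?_)
    · apply Continuous.aestronglyMeasurable
      have := LT_continuous h
      unfold Function.uncurry
      fun_prop
    · rintro ⟨y, u⟩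
      simp only [Function.uncurry]
      rw [norm_mul, Complex.norm_exp]
      apply le_of_eq
      congr 2
      simp

lemma line_const (h : TF Φ) (σ : ℝ) : ∫ y : ℝ, LT Φ (σ + y * I) = 2 * Real.pi * Φ 0 := by
  have := LT_inversion h σ 0
  simpa using this

/-- the archimedean series -/
lemma line_ar (h : TF Φ) :
    HasSum (fun n : ℕ => Φ 0 / (2 * ((n : ℂ) + 1)) - ∫ u in Ioi (0 : ℝ), Φ u * cexp (-(2 * n + 5 / 2) * u))
      (1 / (2 * Real.pi) * ∫ y : ℝ, LT Φ (1 + y * I) * ∑' n : ℕ, ar n (3 / 2 + y * I)) := by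
  have hpi : (2 * Real.pi : ℂ) ≠ 0 := mul_ne_zero two_ne_zero (by exact_mod_cast Real.pi_ne_zero)
  have hre : ∀ y : ℝ, (0 : ℝ) ≤ (3 / 2 + y * I : ℂ).re := by intro y; simp; norm_num
  have hcont : ∀ n : ℕ, Continuous (fun y : ℝ => ar n (3 / 2 + y * I)) := by
    intro n
    unfold ar
    refine continuous_const.sub (continuous_const.div (by fun_prop) fun y hy => ?_)
    have := congrArg Complex.re hy
    simp at this
    have hn : (0 : ℝ) ≤ n := Nat.cast_nonneg n
    linarith
  have hnorm : ∀ y : ℝ, ‖(3 / 2 + y * I : ℂ)‖ ≤ 2 * (1 + y ^ 2) := by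
    intro y
    have h1 := Complex.norm_le_abs_re_add_abs_im (3 / 2 + y * I : ℂ)
    have h2 : (3 / 2 + y * I : ℂ).re = 3 / 2 := by simp
    have h3 : (3 / 2 + y * I : ℂ).im = y := by simp
    rw [h2, h3] at h1
    have h4 : |(3 / 2 : ℝ)| = 3 / 2 := by norm_num
    rw [h4] at h1
    nlinarith [sq_abs y, sq_nonneg (|y| - 1 / 4), abs_nonneg y]
  have hint : ∀ n : ℕ, Integrable (fun y : ℝ => LT Φ (1 + y * I) * ar n (3 / 2 + y * I)) := by
    intro n
    have := LT_line_integrable h 1 (hcont n) (K := 2) (fun y => ?_)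
    · simpa using this
    · refine (norm_ar_le n (hre y)).trans ?_
      have hn : (0 : ℝ) ≤ n := Nat.cast_nonneg n
      have h5 : ‖(3 / 2 + y * I : ℂ)‖ / ((n : ℝ) + 1) ^ 2 ≤ ‖(3 / 2 + y * I : ℂ)‖ := by
        apply div_le_self (norm_nonneg _)
        nlinarith
      exact h5.trans (hnorm y)
  have hN : Integrable (fun y : ℝ => ‖LT Φ (1 + y * I)‖ * (2 * (1 + y ^ 2))) := by
    have := (LT_line_integrable h 1 (g := fun y => ((2 * (1 + y ^ 2) : ℝ) : ℂ)) (by fun_prop) (K := 2)
      (fun y => by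
        rw [Complex.norm_real, Real.norm_of_nonneg (by positivity)])).norm
    refine this.congr (Eventually.of_forall fun y => ?_)
    simp only
    rw [norm_mul, Complex.norm_real, Real.norm_of_nonneg (by positivity)]
    simp
  have hsum : Summable (fun n : ℕ => ∫ y : ℝ, ‖LT Φ (1 + y * I) * ar n (3 / 2 + y * I)‖) := by
    refine Summable.of_nonneg_of_le (fun n => integral_nonneg fun y => norm_nonneg _) (fun n => ?_)
      (H370.DG.summable_inv_sq.mul_left (∫ y : ℝ, ‖LT Φ (1 + y * I)‖ * (2 * (1 + y ^ 2))))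
    rw [← integral_mul_const]
    refine integral_mono (hint n).norm (hN.mul_const _) fun y => ?_
    simp only
    rw [norm_mul]
    have h6 := norm_ar_le n (hre y)
    have h7 := hnorm y
    calc ‖LT Φ (1 + y * I)‖ * ‖ar n (3 / 2 + y * I)‖ ≤
          ‖LT Φ (1 + y * I)‖ * (2 * (1 + y ^ 2) / ((n : ℝ) + 1) ^ 2) := by
          gcongr
          exact h6.trans (by gcongr)
      _ = _ := by ring
  have key := hasSum_integral_of_summable_integral_norm hint hsum
  have e1 : ∫ y : ℝ, ∑' n : ℕ, LT Φ (1 + y * I) * ar n (3 / 2 + y * I) =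
      ∫ y : ℝ, LT Φ (1 + y * I) * ∑' n : ℕ, ar n (3 / 2 + y * I) := by
    congr 1
    funext y
    rw [tsum_mul_left]
  rw [e1] at key
  have e2 : (fun n : ℕ => Φ 0 / (2 * ((n : ℂ) + 1)) -
      ∫ u in Ioi (0 : ℝ), Φ u * cexp (-(2 * n + 5 / 2) * u)) =
      fun n : ℕ => 1 / (2 * Real.pi : ℂ) * ∫ y : ℝ, LT Φ (1 + y * I) * ar n (3 / 2 + y * I) := by
    funext n
    have hn : (0 : ℝ) ≤ n := Nat.cast_nonneg n
    have e3 : ∀ y : ℝ, LT Φ (1 + y * I) * ar n (3 / 2 + y * I) =
        1 / (2 * ((n : ℂ) + 1)) * LT Φ (((1 : ℝ) : ℂ) + y * I) -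
          LT Φ (((1 : ℝ) : ℂ) + y * I) * (1 / (((1 : ℝ) : ℂ) + y * I + ((2 * n + 5 / 2 : ℝ) : ℂ))) := by
      intro y
      unfold ar
      push_cast
      have : (3 / 2 + y * I + 2 * ((n : ℂ) + 1)) = (1 + y * I + (2 * n + 5 / 2)) := by ring
      rw [this]
      ring
    have i1 : Integrable (fun y : ℝ => 1 / (2 * ((n : ℂ) + 1)) * LT Φ (((1 : ℝ) : ℂ) + y * I)) :=
      (line_integrable h 1).const_mul _
    have i2 : Integrable (fun y : ℝ => LT Φ (((1 : ℝ) : ℂ) + y * I) *
        (1 / (((1 : ℝ) : ℂ) + y * I + ((2 * n + 5 / 2 : ℝ) : ℂ)))) := by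
      have := i1.sub (hint n)
      refine this.congr (Eventually.of_forall fun y => ?_)
      simp only [Pi.sub_apply]
      rw [e3 y]
      ring
    rw [integral_congr_ae (Eventually.of_forall e3), integral_sub i1 i2, integral_const_mul,
      line_const h 1, line_frac h 1 _ (by positivity)]
    have hn1 : ((n : ℂ) + 1) ≠ 0 := by exact_mod_cast Nat.succ_ne_zero n
    have e4 : ∫ u in Ioi (0 : ℝ), Φ u * cexp (-((2 * n + 5 / 2 : ℝ) : ℂ) * u) =
        ∫ u in Ioi (0 : ℝ), Φ u * cexp (-(2 * n + 5 / 2) * u) := by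
      push_cast
      rfl
    rw [e4]
    generalize (∫ u in Ioi (0 : ℝ), Φ u * cexp (-(2 * n + 5 / 2) * u)) = J
    have hpi' : (Real.pi : ℂ) ≠ 0 := by exact_mod_cast Real.pi_ne_zero
    field_simp
  rw [e2]
  exact key.mul_left _

end Pool.Agent.Helper61.W
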