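import Pool.Agent.Helper61.W.Right

set_option autoImplicit false

/-!
# The integral over the line on the right, continued
-/

namespace Pool.Agent.Helper61.W

open Complex Filter Topology Set MeasureTheory
open scoped ComplexConjugate ContDiff

variable {Φ : ℝ → ℂ}

lemma summable_vm : Summable (fun n : ℕ => ArithmeticFunction.vonMangoldt n * (n : ℝ) ^ (-(3 / 2 : ℝ))) := by
  have h := ArithmeticFunction.LSeriesSummable_vonMangoldt (s := (3 / 2 : ℂ)) (by norm_num)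
  have h2 := h.norm
  refine h2.congr (fun n => ?_)
  rw [LSeries.norm_term_eq]
  split_ifs with h0
  · subst h0; simp
  · rw [Complex.norm_real, Real.norm_of_nonneg ArithmeticFunction.vonMangoldt_nonneg,
      Real.rpow_neg (Nat.cast_nonneg n), div_eq_mul_inv]
    norm_num

lemma norm_vm (n : ℕ) (y : ℝ) : ‖(ArithmeticFunction.vonMangoldt n : ℂ) * (n : ℂ) ^ (-(3 / 2 + y * I : ℂ))‖ =
    ArithmeticFunction.vonMangoldt n * (n : ℝ) ^ (-(3 / 2 : ℝ)) := by
  rcases Nat.eq_zero_or_pos n with h | h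
  · subst h; simp
  rw [norm_mul, Complex.norm_real, Real.norm_of_nonneg ArithmeticFunction.vonMangoldt_nonneg,
    Complex.norm_natCast_cpow_of_pos h]
  congr 2
  simp

lemma vm_cont : Continuous (fun y : ℝ => ∑' n : ℕ, (ArithmeticFunction.vonMangoldt n : ℂ) *
    (n : ℂ) ^ (-(3 / 2 + y * I : ℂ))) := by
  refine continuous_tsum (fun n => ?_) summable_vm (fun n y => (norm_vm n y).le)
  rcases Nat.eq_zero_or_pos n with h | h
  · subst h; simp; fun_prop
  · have hn : (n : ℂ) ≠ 0 := by exact_mod_cast h.ne'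
    refine continuous_const.mul ?_
    exact Continuous.const_cpow (by fun_prop) (Or.inl hn)

lemma vm_bound (y : ℝ) : ‖∑' n : ℕ, (ArithmeticFunction.vonMangoldt n : ℂ) *
    (n : ℂ) ^ (-(3 / 2 + y * I : ℂ))‖ ≤ ∑' n : ℕ, ArithmeticFunction.vonMangoldt n * (n : ℝ) ^ (-(3 / 2 : ℝ)) :=
  tsum_of_norm_bounded summable_vm.hasSum (fun n => (norm_vm n y).le)

/-- the prime sum -/
lemma line_prime (h : TF Φ) :
    HasSum (fun n : ℕ => ((ArithmeticFunction.vonMangoldt n / Real.sqrt n : ℝ) : ℂ) * Φ (Real.log n))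
      (1 / (2 * Real.pi) * ∫ y : ℝ, LT Φ (1 + y * I) *
        ∑' n : ℕ, (ArithmeticFunction.vonMangoldt n : ℂ) * (n : ℂ) ^ (-(3 / 2 + y * I : ℂ))) := by
  have hint : ∀ n : ℕ, Integrable (fun y : ℝ => LT Φ (1 + y * I) *
      ((ArithmeticFunction.vonMangoldt n : ℂ) * (n : ℂ) ^ (-(3 / 2 + y * I : ℂ)))) := by
    intro n
    have := LT_line_integrable h 1 (g := fun y => (ArithmeticFunction.vonMangoldt n : ℂ) *
      (n : ℂ) ^ (-(3 / 2 + y * I : ℂ))) ?_ (K := ArithmeticFunction.vonMangoldt n * (n : ℝ) ^ (-(3 / 2 : ℝ)))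
      (fun y => ?_)
    · simpa using this
    · rcases Nat.eq_zero_or_pos n with h | h
      · subst h; simp; fun_prop
      · have hn : (n : ℂ) ≠ 0 := by exact_mod_cast h.ne'
        exact continuous_const.mul (Continuous.const_cpow (by fun_prop) (Or.inl hn))
    · rw [norm_vm]
      have : 0 ≤ ArithmeticFunction.vonMangoldt n * (n : ℝ) ^ (-(3 / 2 : ℝ)) :=
        mul_nonneg ArithmeticFunction.vonMangoldt_nonneg (by positivity)
      nlinarith [sq_nonneg y, mul_nonneg this (sq_nonneg y)]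
  have hsum : Summable (fun n : ℕ => ∫ y : ℝ, ‖LT Φ (1 + y * I) *
      ((ArithmeticFunction.vonMangoldt n : ℂ) * (n : ℂ) ^ (-(3 / 2 + y * I : ℂ)))‖) := by
    have : (fun n : ℕ => ∫ y : ℝ, ‖LT Φ (1 + y * I) *
      ((ArithmeticFunction.vonMangoldt n : ℂ) * (n : ℂ) ^ (-(3 / 2 + y * I : ℂ)))‖) =
      fun n : ℕ => (∫ y : ℝ, ‖LT Φ (1 + y * I)‖) *
        (ArithmeticFunction.vonMangoldt n * (n : ℝ) ^ (-(3 / 2 : ℝ))) := by
      funext n
      rw [← integral_mul_const]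
      congr 1
      funext y
      rw [norm_mul, norm_vm]
    rw [this]
    exact summable_vm.mul_left _
  have key := hasSum_integral_of_summable_integral_norm hint hsum
  have e1 : ∫ y : ℝ, ∑' n : ℕ, LT Φ (1 + y * I) *
      ((ArithmeticFunction.vonMangoldt n : ℂ) * (n : ℂ) ^ (-(3 / 2 + y * I : ℂ))) =
      ∫ y : ℝ, LT Φ (1 + y * I) * ∑' n : ℕ, ((ArithmeticFunction.vonMangoldt n : ℂ) *
        (n : ℂ) ^ (-(3 / 2 + y * I : ℂ))) := by
    congr 1
    funext y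
    rw [tsum_mul_left]
  rw [e1] at key
  have e2 : (fun n : ℕ => ((ArithmeticFunction.vonMangoldt n / Real.sqrt n : ℝ) : ℂ) * Φ (Real.log n)) =
      fun n : ℕ => 1 / (2 * Real.pi : ℂ) * ∫ y : ℝ, LT Φ (1 + y * I) *
      ((ArithmeticFunction.vonMangoldt n : ℂ) * (n : ℂ) ^ (-(3 / 2 + y * I : ℂ))) := by
    funext n
    rcases Nat.eq_zero_or_pos n with h0 | h0
    · subst h0; simp
    have hn : (n : ℂ) ≠ 0 := by exact_mod_cast h0.ne'
    have hn' : (0 : ℝ) < n := by exact_mod_cast h0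
    have e3 : ∀ y : ℝ, LT Φ (1 + y * I) *
        ((ArithmeticFunction.vonMangoldt n : ℂ) * (n : ℂ) ^ (-(3 / 2 + y * I : ℂ))) =
        ((ArithmeticFunction.vonMangoldt n / Real.sqrt n : ℝ) : ℂ) *
          (LT Φ (((1 : ℝ) : ℂ) + y * I) * cexp (-(((1 : ℝ) : ℂ) + y * I) * (Real.log n : ℝ))) := by
      intro y
      have h1 : (n : ℂ) ^ (-(3 / 2 + y * I : ℂ)) =
          ((Real.sqrt n : ℝ) : ℂ)⁻¹ * cexp (-(((1 : ℝ) : ℂ) + y * I) * (Real.log n : ℝ)) := by
        rw [Complex.cpow_def_of_ne_zero hn, ← Complex.natCast_log]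
        have h2 : ((Real.sqrt n : ℝ) : ℂ)⁻¹ = cexp (-(1 / 2) * (Real.log n : ℝ)) := by
          rw [← Complex.ofReal_inv]
          have : (Real.sqrt n)⁻¹ = Real.exp (-(1 / 2) * Real.log n) := by
            rw [Real.sqrt_eq_rpow, ← Real.rpow_neg hn'.le, Real.rpow_def_of_pos hn']
            congr 1
            ring
          rw [this]
          push_cast
          rfl
        rw [h2, ← Complex.exp_add]
        congr 1
        push_cast
        ring
      rw [h1]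
      push_cast
      ring
    rw [integral_congr_ae (Eventually.of_forall e3), integral_const_mul, LT_inversion h 1]
    have hpi' : (Real.pi : ℂ) ≠ 0 := by exact_mod_cast Real.pi_ne_zero
    field_simp
  rw [e2]
  exact key.mul_left _

/-- the archimedean series, divided -/
noncomputable def br (n : ℕ) (s : ℂ) : ℂ := 1 / ((2 * ((n : ℂ) + 1)) * (s + 2 * (n + 1)))

lemma ar_br (n : ℕ) {s : ℂ} (hs : 0 ≤ s.re) : ar n s = s * br n s := by
  have hn1 : (2 * ((n : ℂ) + 1)) ≠ 0 := mul_ne_zero two_ne_zero (by exact_mod_cast Nat.succ_ne_zero n)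
  have h2 : s + 2 * ((n : ℂ) + 1) ≠ 0 := by
    intro h
    have := congrArg Complex.re h
    simp at this
    have hn : (0 : ℝ) ≤ n := Nat.cast_nonneg n
    linarith
  unfold ar br
  field_simp
  ring

lemma norm_br (n : ℕ) {s : ℂ} (hs : 0 ≤ s.re) : ‖br n s‖ ≤ 1 / ((n : ℝ) + 1) ^ 2 := by
  have hn : (0 : ℝ) ≤ n := Nat.cast_nonneg n
  unfold br
  rw [norm_div, norm_one, norm_mul]
  have h1 : ‖(2 * ((n : ℂ) + 1))‖ = 2 * ((n : ℝ) + 1) := by
    have : (2 * ((n : ℂ) + 1)) = ((2 * (n + 1) : ℝ) : ℂ) := by push_cast; ring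
    rw [this, Complex.norm_real, Real.norm_of_nonneg (by positivity)]
  have h2 : (n : ℝ) + 1 ≤ ‖s + 2 * ((n : ℂ) + 1)‖ := by
    refine le_trans ?_ (re_le_norm _)
    simp
    linarith
  rw [h1]
  gcongr
  nlinarith

lemma ar_sum (y : ℝ) : ∑' n : ℕ, ar n (3 / 2 + y * I) = (3 / 2 + y * I) * ∑' n : ℕ, br n (3 / 2 + y * I) := by
  rw [← tsum_mul_left]
  exact tsum_congr fun n => ar_br n (by simp; norm_num)

lemma br_cont : Continuous (fun y : ℝ => ∑' n : ℕ, br n (3 / 2 + y * I)) := by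
  refine continuous_tsum (fun n => ?_) H370.DG.summable_inv_sq (fun n y => norm_br n (by simp; norm_num))
  unfold br
  refine continuous_const.div (by fun_prop) fun y hy => ?_
  have hn : (0 : ℝ) ≤ n := Nat.cast_nonneg n
  rcases mul_eq_zero.mp hy with h | h
  · have := congrArg Complex.re h
    simp at this
    linarith
  · have := congrArg Complex.re h
    simp at this
    linarith

/-- the value of the integral on the right -/
theorem right_formula (h : TF Φ) :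
    Integrable (fun y : ℝ => LT Φ (1 + y * I) * (deriv Xi (3 / 2 + y * I) / Xi (3 / 2 + y * I))) ∧
    1 / (2 * Real.pi) * ∫ y : ℝ, LT Φ (1 + y * I) * (deriv Xi (3 / 2 + y * I) / Xi (3 / 2 + y * I)) =
      (∫ u in Ioi (0 : ℝ), Φ u * cexp (1 / 2 * u)) -
        ((Real.eulerMascheroniConstant + Real.log Real.pi : ℝ) : ℂ) / 2 * Φ 0 +
      (∑' n : ℕ, (Φ 0 / (2 * ((n : ℂ) + 1)) - ∫ u in Ioi (0 : ℝ), Φ u * cexp (-(2 * n + 5 / 2) * u))) -
      ∑' n : ℕ, ((ArithmeticFunction.vonMangoldt n / Real.sqrt n : ℝ) : ℂ) * Φ (Real.log n) := by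
  set c : ℂ := ((Real.eulerMascheroniConstant + Real.log Real.pi : ℝ) : ℂ) / 2 with hc
  have e0 : ∀ y : ℝ, LT Φ (1 + y * I) * (deriv Xi (3 / 2 + y * I) / Xi (3 / 2 + y * I)) =
      ((LT Φ (((1 : ℝ) : ℂ) + y * I) * (1 / (((1 : ℝ) : ℂ) + y * I + ((-1 / 2 : ℝ) : ℂ))) -
        LT Φ (((1 : ℝ) : ℂ) + y * I) * c) +
        LT Φ (1 + y * I) * ∑' n : ℕ, ar n (3 / 2 + y * I)) -
        LT Φ (1 + y * I) * ∑' n : ℕ, (ArithmeticFunction.vonMangoldt n : ℂ) *
          (n : ℂ) ^ (-(3 / 2 + y * I : ℂ)) := by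
    intro y
    rw [Xi_logDeriv_right (by simp; norm_num)]
    have : (3 / 2 + y * I - 1 : ℂ) = 1 + y * I + ((-1 / 2 : ℝ) : ℂ) := by push_cast; ring
    rw [this, ← hc]
    have e : ((1 : ℝ) : ℂ) = 1 := Complex.ofReal_one
    rw [e]
    ring
  have i1 : Integrable (fun y : ℝ => LT Φ (((1 : ℝ) : ℂ) + y * I) *
      (1 / (((1 : ℝ) : ℂ) + y * I + ((-1 / 2 : ℝ) : ℂ)))) := by
    have hne : ∀ y : ℝ, ((1 : ℝ) : ℂ) + y * I + ((-1 / 2 : ℝ) : ℂ) ≠ 0 := by
      intro y hy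
      have := congrArg Complex.re hy
      norm_num at this
    refine LT_line_integrable h 1 (K := 2) (continuous_const.div (by fun_prop) hne) fun y => ?_
    rw [norm_div, norm_one]
    have h1 : 1 / 2 ≤ ‖((1 : ℝ) : ℂ) + y * I + ((-1 / 2 : ℝ) : ℂ)‖ := by
      refine le_trans ?_ (re_le_norm _)
      norm_num
    have h2 : 1 / ‖((1 : ℝ) : ℂ) + y * I + ((-1 / 2 : ℝ) : ℂ)‖ ≤ 2 := by
      rw [div_le_iff₀ (by linarith)]
      linarith
    nlinarith [sq_nonneg y]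
  have i2 : Integrable (fun y : ℝ => LT Φ (((1 : ℝ) : ℂ) + y * I) * c) := (line_integrable h 1).mul_const _
  have i3 : Integrable (fun y : ℝ => LT Φ (1 + y * I) * ∑' n : ℕ, ar n (3 / 2 + y * I)) := by
    have := LT_line_integrable h 1 (g := fun y : ℝ => ∑' n : ℕ, ar n (3 / 2 + y * I))
      (by simp_rw [ar_sum]; exact (by fun_prop : Continuous fun y : ℝ => (3 / 2 + y * I : ℂ)).mul br_cont)
      (K := 2 * ∑' n : ℕ, 1 / ((n : ℝ) + 1) ^ 2) (fun y => by
        rw [ar_sum, norm_mul]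
        have h1 : ‖∑' n : ℕ, br n (3 / 2 + y * I)‖ ≤ ∑' n : ℕ, 1 / ((n : ℝ) + 1) ^ 2 :=
          tsum_of_norm_bounded H370.DG.summable_inv_sq.hasSum (fun n => norm_br n (by simp; norm_num))
        have h2 : ‖(3 / 2 + y * I : ℂ)‖ ≤ 2 * (1 + y ^ 2) := by
          have h1 := Complex.norm_le_abs_re_add_abs_im (3 / 2 + y * I : ℂ)
          have h2 : (3 / 2 + y * I : ℂ).re = 3 / 2 := by simp
          have h3 : (3 / 2 + y * I : ℂ).im = y := by simp
          rw [h2, h3] at h1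
          have h4 : |(3 / 2 : ℝ)| = 3 / 2 := by norm_num
          rw [h4] at h1
          nlinarith [sq_abs y, sq_nonneg (|y| - 1 / 4), abs_nonneg y]
        calc _ ≤ (2 * (1 + y ^ 2)) * (∑' n : ℕ, 1 / ((n : ℝ) + 1) ^ 2) := by gcongr
          _ = _ := by ring)
    simpa using this
  have i4 : Integrable (fun y : ℝ => LT Φ (1 + y * I) * ∑' n : ℕ, (ArithmeticFunction.vonMangoldt n : ℂ) *
      (n : ℂ) ^ (-(3 / 2 + y * I : ℂ))) := by
    have := LT_line_integrable h 1 (g := fun y : ℝ => ∑' n : ℕ, (ArithmeticFunction.vonMangoldt n : ℂ) *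
      (n : ℂ) ^ (-(3 / 2 + y * I : ℂ))) vm_cont
      (K := ∑' n : ℕ, ArithmeticFunction.vonMangoldt n * (n : ℝ) ^ (-(3 / 2 : ℝ))) (fun y => by
        refine (vm_bound y).trans ?_
        have : 0 ≤ ∑' n : ℕ, ArithmeticFunction.vonMangoldt n * (n : ℝ) ^ (-(3 / 2 : ℝ)) :=
          tsum_nonneg fun n => mul_nonneg ArithmeticFunction.vonMangoldt_nonneg (by positivity)
        nlinarith [sq_nonneg y, mul_nonneg this (sq_nonneg y)])
    simpa using this
  have e00 : (fun y : ℝ => LT Φ (1 + y * I) * (deriv Xi (3 / 2 + y * I) / Xi (3 / 2 + y * I))) = _ :=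
    funext e0
  have i12 : Integrable (fun y : ℝ => LT Φ (((1 : ℝ) : ℂ) + y * I) *
      (1 / (((1 : ℝ) : ℂ) + y * I + ((-1 / 2 : ℝ) : ℂ))) - LT Φ (((1 : ℝ) : ℂ) + y * I) * c) := i1.sub i2
  have i123 : Integrable (fun y : ℝ => (LT Φ (((1 : ℝ) : ℂ) + y * I) *
      (1 / (((1 : ℝ) : ℂ) + y * I + ((-1 / 2 : ℝ) : ℂ))) - LT Φ (((1 : ℝ) : ℂ) + y * I) * c) +
      LT Φ (1 + y * I) * ∑' n : ℕ, ar n (3 / 2 + y * I)) := i12.add i3
  refine ⟨by rw [e00]; exact i123.sub i4, ?_⟩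
  rw [e00, integral_sub i123 i4, integral_add i12 i3, integral_sub i1 i2,
    line_frac h 1 _ (by norm_num), integral_mul_const, line_const h 1, (line_ar h).tsum_eq,
    (line_prime h).tsum_eq]
  have e4 : ∫ u in Ioi (0 : ℝ), Φ u * cexp (-((-1 / 2 : ℝ) : ℂ) * u) =
      ∫ u in Ioi (0 : ℝ), Φ u * cexp (1 / 2 * u) := by
    congr 1
    funext u
    congr 2
    push_cast
    ring
  rw [e4]
  generalize (∫ u in Ioi (0 : ℝ), Φ u * cexp (1 / 2 * u)) = J1
  generalize (∫ y : ℝ, LT Φ (1 + y * I) * ∑' n : ℕ, ar n (3 / 2 + y * I)) = J2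
  generalize (∫ y : ℝ, LT Φ (1 + y * I) * ∑' n : ℕ, (ArithmeticFunction.vonMangoldt n : ℂ) *
      (n : ℂ) ^ (-(3 / 2 + y * I : ℂ))) = J3
  have hpi' : (Real.pi : ℂ) ≠ 0 := by exact_mod_cast Real.pi_ne_zero
  field_simp

end Pool.Agent.Helper61.W
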