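import Pool.Agent.Helper61.W.En

set_option autoImplicit false

/-!
# The spectral gap of the logarithmic energy
-/

namespace Pool.Agent.Helper61.W

open Filter Topology Set MeasureTheory Polynomial

variable {f g h : ℝ → ℝ} {K K' : ℝ}

/-- the spectral gap for polynomials -/
lemma spec_poly (N : ℕ) : ∀ (M : ℕ) (q : ℝ[X]), q ∈ degreeLT ℝ M →
    (∀ w ∈ degreeLT ℝ N, ip (fun s => w.eval s) (fun s => q.eval s) = 0) →
    4 * Hn N * ip (fun s => q.eval s) (fun s => q.eval s) ≤ E2 (fun s => q.eval s) (fun s => q.eval s) := by
  intro M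
  induction M with
  | zero =>
    intro q hq _
    have h0 : q = 0 := by
      rw [mem_degreeLT, degree_lt_iff_coeff_zero] at hq
      ext m
      rw [hq m (Nat.zero_le _), coeff_zero]
    subst h0
    have : ip (fun s => (0 : ℝ[X]).eval s) (fun s => (0 : ℝ[X]).eval s) = 0 := by
      unfold ip
      simp
    rw [this, mul_zero]
    exact E2_nonneg _
  | succ M ih =>
    intro q hq hperp
    rcases lt_or_ge M N with hMN | hNM
    · have h1 : ip (fun s => q.eval s) (fun s => q.eval s) = 0 :=
        hperp q (degreeLT_mono hMN hq)
      rw [h1, mul_zero]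
      exact E2_nonneg _
    · obtain ⟨π, hπ, hπp⟩ := exists_proj M (f := fun s => (X ^ M : ℝ[X]).eval s) (X ^ M : ℝ[X]).continuous
      set c := q.coeff M with hc
      set pM : ℝ[X] := X ^ M - π with hpM
      set q0 : ℝ[X] := q - c • pM with hq0
      have hpMp : ∀ w ∈ degreeLT ℝ M, ip (fun s => w.eval s) (fun s => pM.eval s) = 0 := by
        intro w hw
        have := hπp w hw
        simpa [hpM] using this
      have hq0mem : q0 ∈ degreeLT ℝ M := by
        have e : q0 = (q - c • (X : ℝ[X]) ^ M) + c • π := by
          rw [hq0, hpM, smul_sub]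
          abel
        rw [e]
        refine Submodule.add_mem _ ?_ (Submodule.smul_mem _ _ hπ)
        rw [mem_degreeLT] at hq ⊢
        rw [degree_lt_iff_coeff_zero] at hq ⊢
        intro m hm
        rw [coeff_sub, coeff_smul, coeff_X_pow, smul_eq_mul]
        rcases eq_or_lt_of_le hm with rfl | hlt
        · simp [hc]
        · rw [hq m hlt, if_neg (by omega)]
          simp
      have cpM := contDiff_eval pM
      have cq0 := contDiff_eval q0
      have ccont : ∀ p : ℝ[X], Continuous fun s => p.eval s := fun p => p.continuous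
      have hqe : (fun s => q.eval s) = fun s => c * pM.eval s + q0.eval s := by
        funext s
        have e : q0.eval s = q.eval s - c * pM.eval s := by
          rw [hq0, eval_sub, eval_smul, smul_eq_mul]
        rw [e]
        ring
      -- orthogonality of q0
      have hq0p : ∀ w ∈ degreeLT ℝ N, ip (fun s => w.eval s) (fun s => q0.eval s) = 0 := by
        intro w hw
        have h1 := hperp w hw
        rw [hqe, ip_add_right (ccont w) ((ccont pM).const_mul c |> fun h => h) (ccont q0), ip_smul_right,
          hpMp w (degreeLT_mono hNM hw)] at h1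
        linarith
      have h1 := ih q0 hq0mem hq0p
      have h2 : E2 (fun s => pM.eval s) (fun s => q0.eval s) = 0 := by
        rw [E2_comm, E2_poly cpM, ip_comm, hpMp _ (Slin_mem hq0mem), mul_zero]
      have h3 : ip (fun s => pM.eval s) (fun s => q0.eval s) = 0 := by
        rw [ip_comm]
        exact hpMp q0 hq0mem
      have hu : Slin pM - (2 * Hn M) • pM ∈ degreeLT ℝ M := by
        have e : Slin pM - (2 * Hn M) • pM = (Slin (X ^ M) - (2 * Hn M) • (X : ℝ[X]) ^ M) -
            (Slin π - (2 * Hn M) • π) := by
          rw [hpM, map_sub, smul_sub]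
          abel
        rw [e]
        exact Submodule.sub_mem _ (Slin_top M)
          (Submodule.sub_mem _ (Slin_mem hπ) (Submodule.smul_mem _ _ hπ))
      have h4 : E2 (fun s => pM.eval s) (fun s => pM.eval s) =
          4 * Hn M * ip (fun s => pM.eval s) (fun s => pM.eval s) := by
        rw [E2_poly cpM]
        have e : (fun s => (Slin pM).eval s) = fun s =>
            (Slin pM - (2 * Hn M) • pM).eval s + 2 * Hn M * pM.eval s := by
          funext s
          rw [eval_sub, eval_smul, smul_eq_mul]
          ring
        rw [e, ip_add_right (ccont pM) (ccont _) ((ccont pM).const_mul _ |> fun h => h), ip_smul_right,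
          ip_comm, hpMp _ hu]
        ring
      have h5 : ip (fun s => q.eval s) (fun s => q.eval s) =
          c ^ 2 * ip (fun s => pM.eval s) (fun s => pM.eval s) +
            ip (fun s => q0.eval s) (fun s => q0.eval s) := by
        have hcc : Continuous fun s => c * pM.eval s + q0.eval s := by fun_prop
        rw [hqe, ip_add_right hcc (by fun_prop) (ccont q0), ip_smul_right, ip_comm,
          ip_add_right (ccont pM) (by fun_prop) (ccont q0), ip_smul_right, h3,
          ip_comm _ (fun s => q0.eval s), ip_add_right (ccont q0) (by fun_prop) (ccont q0),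
          ip_smul_right, ip_comm (fun s => q0.eval s) (fun s => pM.eval s), h3]
        ring
      rw [h5]
      have h6 : E2 (fun s => q.eval s) (fun s => q.eval s) =
          c ^ 2 * E2 (fun s => pM.eval s) (fun s => pM.eval s) +
            2 * c * E2 (fun s => pM.eval s) (fun s => q0.eval s) +
            E2 (fun s => q0.eval s) (fun s => q0.eval s) := by
        rw [hqe]
        exact E2_comb cpM cq0 c
      rw [h6, h2, h4]
      have h7 : Hn N ≤ Hn M := Hn_mono hNM
      have h8 := ip_self_nonneg (fun s => pM.eval s)
      have h9 : 0 ≤ c ^ 2 * ip (fun s => pM.eval s) (fun s => pM.eval s) := by positivity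
      nlinarith [mul_le_mul_of_nonneg_right h7 h9]

/-- antiderivatives of polynomials -/
lemma exists_antideriv (w : ℝ[X]) : ∃ W : ℝ[X], derivative W = w := by
  induction w using Polynomial.induction_on' with
  | add p q hp hq =>
    obtain ⟨P, hP⟩ := hp
    obtain ⟨Q, hQ⟩ := hq
    exact ⟨P + Q, by rw [derivative_add, hP, hQ]⟩
  | monomial n a =>
    refine ⟨monomial (n + 1) (a / (n + 1)), ?_⟩
    rw [derivative_monomial]
    congr 1
    push_cast
    field_simp

/-- approximation in `C¹` -/
lemma exists_poly_C1 (hh : ContDiff ℝ 1 h) {ε : ℝ} (hε : 0 < ε) : ∃ q : ℝ[X],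
    LipB (fun s => q.eval s - h s) ε ∧ ∀ s ∈ Icc (-1 : ℝ) 1, |q.eval s - h s| ≤ 2 * ε := by
  have hd := hh.continuous_deriv (by norm_num)
  obtain ⟨w, hw⟩ := exists_polynomial_near_of_continuousOn (-1) 1 (deriv h) hd.continuousOn ε hε
  obtain ⟨W, hW⟩ := exists_antideriv w
  refine ⟨W + C (h (-1) - W.eval (-1)), ?_, ?_⟩
  · apply lipB_of_deriv
    · exact (contDiff_eval _).sub hh
    · intro s hs
      have h1 : HasDerivAt (fun s => (W + C (h (-1) - W.eval (-1))).eval s - h s)
          ((derivative (W + C (h (-1) - W.eval (-1)))).eval s - deriv h s) s :=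
        (Polynomial.hasDerivAt _ _).sub ((hh.differentiable (by norm_num)) s).hasDerivAt
      rw [h1.deriv, derivative_add, derivative_C, add_zero, hW]
      exact (hw s hs).le
  · have hL : LipB (fun s => (W + C (h (-1) - W.eval (-1))).eval s - h s) ε := by
      apply lipB_of_deriv
      · exact (contDiff_eval _).sub hh
      · intro s hs
        have h1 : HasDerivAt (fun s => (W + C (h (-1) - W.eval (-1))).eval s - h s)
            ((derivative (W + C (h (-1) - W.eval (-1)))).eval s - deriv h s) s :=
          (Polynomial.hasDerivAt _ _).sub ((hh.differentiable (by norm_num)) s).hasDerivAt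
        rw [h1.deriv, derivative_add, derivative_C, add_zero, hW]
        exact (hw s hs).le
    intro s hs
    have h1 := hL s hs (-1) (by norm_num)
    have h2 := abs_sub_le_two hs (show (-1 : ℝ) ∈ Icc (-1 : ℝ) 1 by norm_num)
    have e : (W + C (h (-1) - W.eval (-1))).eval (-1) - h (-1) = 0 := by
      rw [eval_add, eval_C]
      ring
    simp only [e, sub_zero] at h1
    refine h1.trans ?_
    nlinarith

/-- **the spectral gap of the logarithmic energy** -/
theorem spec_gap (N : ℕ) (hh : ContDiff ℝ 1 h)
    (hperp : ∀ w ∈ degreeLT ℝ N, ip (fun s => w.eval s) h = 0) :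
    4 * Hn N * ip h h ≤ E2 h h := by
  obtain ⟨K, hK⟩ := exists_lipB hh
  obtain ⟨M, hM⟩ := exists_bd hh.continuous
  have hM0 : 0 ≤ M := (abs_nonneg _).trans (hM 0 (by norm_num))
  have hK0 := hK.nonneg
  have ccont : ∀ p : ℝ[X], Continuous fun s => p.eval s := fun p => p.continuous
  have hcont := hh.continuous
  -- the main estimate
  have key : ∀ ε : ℝ, 0 < ε → 4 * Hn N * (ip h h - 8 * ε * M) ≤ E2 h h + 16 * K * ε + 8 * ε ^ 2 := by
    intro ε hε
    obtain ⟨q, hqL, hqb⟩ := exists_poly_C1 hh hε
    obtain ⟨π, hπ, hπp⟩ := exists_proj N (f := fun s => q.eval s) (ccont q)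
    have hN : ∃ M', q - π ∈ degreeLT ℝ M' := by
      refine ⟨(q - π).natDegree + 1, ?_⟩
      rw [mem_degreeLT]
      exact degree_lt_iff_coeff_zero _ _ |>.mpr fun m hm => coeff_eq_zero_of_natDegree_lt (by omega)
    obtain ⟨M', hM'⟩ := hN
    have h1 := spec_poly N M' (q - π) hM' (fun w hw => by
      have := hπp w hw
      simpa using this)
    -- energy of q - π
    have e1 : E2 (fun s => (q - π).eval s) (fun s => (q - π).eval s) =
        E2 (fun s => q.eval s) (fun s => q.eval s) - E2 (fun s => π.eval s) (fun s => π.eval s) := by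
      have e2 : (fun s => (q - π).eval s) = fun s => (-1) * π.eval s + q.eval s := by
        funext s
        rw [eval_sub]
        ring
      rw [e2, E2_comb (contDiff_eval π) (contDiff_eval q)]
      have e3 : E2 (fun s => π.eval s) (fun s => q.eval s) =
          E2 (fun s => π.eval s) (fun s => π.eval s) := by
        rw [E2_poly (contDiff_eval q), E2_poly (contDiff_eval π)]
        have := hπp _ (Slin_mem hπ)
        rw [ip_sub_right (ccont _) (ccont _) (ccont _)] at this
        rw [ip_comm, ip_comm (fun s => π.eval s)]
        linarith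
      rw [e3]
      ring
    have h2 := E2_nonneg (fun s => π.eval s)
    -- energy of q
    have e4 : (fun s => q.eval s) = fun s => 1 * h s + (q.eval s - h s) := by
      funext s
      ring
    have cE : ContDiff ℝ 1 fun s => q.eval s - h s := (contDiff_eval q).sub hh
    have e5 : E2 (fun s => q.eval s) (fun s => q.eval s) = E2 h h +
        2 * E2 h (fun s => q.eval s - h s) +
        E2 (fun s => q.eval s - h s) (fun s => q.eval s - h s) := by
      conv_lhs => rw [e4]
      rw [E2_comb hh cE]
      ring
    have h3 := E2_bound hK hqL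
    have h4 := E2_bound hqL hqL
    -- L2 part
    have h5 : 2 * ip h (fun s => q.eval s) - ip h h ≤
        ip (fun s => (q - π).eval s) (fun s => (q - π).eval s) := by
      have h6 := ip_self_nonneg (fun s => (q - π).eval s - h s)
      have c1 : Continuous fun s => (q - π).eval s - h s := by fun_prop
      rw [ip_sub_right c1 (ccont _) hcont, ip_comm, ip_sub_right (ccont _) (ccont _) hcont,
        ip_comm (fun s => (q - π).eval s - h s) h, ip_sub_right hcont (ccont _) hcont] at h6
      have h7 : ip h (fun s => (q - π).eval s) = ip h (fun s => q.eval s) := by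
        have e6 : (fun s => (q - π).eval s) = fun s => q.eval s - π.eval s := by
          funext s
          rw [eval_sub]
        rw [e6, ip_sub_right hcont (ccont _) (ccont _), ip_comm h (fun s => π.eval s), hperp π hπ, sub_zero]
      rw [ip_comm (fun s => (q - π).eval s) h, h7] at h6
      linarith
    have h8 : ip h h - 4 * ε * M ≤ ip h (fun s => q.eval s) := by
      have e7 : ip h (fun s => q.eval s) = ip h h + ip h (fun s => q.eval s - h s) := by
        rw [ip_sub_right hcont (ccont _) hcont]
        ring
      have h9 : |ip h (fun s => q.eval s - h s)| ≤ 4 * ε * M := by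
        unfold ip
        have := norm_integral_le_of_norm_le_const (μ := mu1) (f := fun s => h s * (q.eval s - h s))
          (C := M * (2 * ε)) (by
            filter_upwards [ae_mem] with s hs
            rw [Real.norm_eq_abs, abs_mul]
            exact mul_le_mul (hM s hs) (hqb s hs) (abs_nonneg _) hM0)
        rw [mu1_real_univ, Real.norm_eq_abs] at this
        linarith
      rw [e7]
      have := (abs_le.mp h9).1
      linarith
    have hH := Hn_nonneg N
    have h10 : ip h h - 8 * ε * M ≤ ip (fun s => (q - π).eval s) (fun s => (q - π).eval s) := by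
      linarith
    have h11 := mul_le_mul_of_nonneg_left h10 (show 0 ≤ 4 * Hn N by positivity)
    have h12 := (abs_le.mp h3).2
    have h13 := (abs_le.mp h4).2
    rw [e1, e5] at h1
    nlinarith
  -- pass to the limit
  have hlim1 : Tendsto (fun ε : ℝ => 4 * Hn N * (ip h h - 8 * ε * M)) (𝓝[>] 0)
      (𝓝 (4 * Hn N * (ip h h - 8 * 0 * M))) := by
    apply Tendsto.mono_left _ nhdsWithin_le_nhds
    exact (by fun_prop : Continuous fun ε : ℝ => 4 * Hn N * (ip h h - 8 * ε * M)).tendsto 0
  have hlim2 : Tendsto (fun ε : ℝ => E2 h h + 16 * K * ε + 8 * ε ^ 2) (𝓝[>] 0)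
      (𝓝 (E2 h h + 16 * K * 0 + 8 * 0 ^ 2)) := by
    apply Tendsto.mono_left _ nhdsWithin_le_nhds
    exact (by fun_prop : Continuous fun ε : ℝ => E2 h h + 16 * K * ε + 8 * ε ^ 2).tendsto 0
  have := le_of_tendsto_of_tendsto hlim1 hlim2 (by
    filter_upwards [self_mem_nhdsWithin] with ε hε
    exact key ε hε)
  simpa using this

end Pool.Agent.Helper61.W
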