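import Pool.Agent.Helper61.W.Xi1

set_option autoImplicit false

/-!
# The logarithmic derivative of `Xi` on the right
-/

namespace Pool.Agent.Helper61.W

open Complex Filter Topology Set MeasureTheory
open scoped ComplexConjugate

/-- the terms of the digamma series -/
noncomputable def tt (n : ℕ) (w : ℂ) : ℂ := 1 / ((n : ℂ) + 1) - 1 / (w + (n + 1))

lemma tsum_log_sub : HasSum (fun n : ℕ => Real.log ((n + 2 : ℝ) / (n + 1)) - 1 / (n + 2))
    (1 - Real.eulerMascheroniConstant) := by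
  have hs : Summable (fun n : ℕ => Real.log ((n + 2 : ℝ) / (n + 1)) - 1 / (n + 2)) := by
    refine Summable.of_norm_bounded (H370.DG.summable_inv_sq) fun n => ?_
    rw [Real.norm_eq_abs]
    refine (H370.DG.log_ratio_bounds n).trans ?_
    have hn : (0 : ℝ) ≤ n := Nat.cast_nonneg n
    gcongr
    nlinarith
  have h1 : ∀ M : ℕ, ∑ n ∈ Finset.range M, (Real.log ((n + 2 : ℝ) / (n + 1)) - 1 / (n + 2)) =
      1 - ((harmonic (M + 1) : ℝ) - Real.log ((M + 1 : ℕ) : ℝ)) := by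
    intro M
    induction M with
    | zero => simp [harmonic]
    | succ M ih =>
      rw [Finset.sum_range_succ, ih, harmonic_succ (M + 1), Real.log_div (by positivity) (by positivity)]
      push_cast
      have e : ((M : ℝ) + 1 + 1) = M + 2 := by ring
      rw [e]
      ring
  have h2 : Tendsto (fun M : ℕ => ∑ n ∈ Finset.range M, (Real.log ((n + 2 : ℝ) / (n + 1)) - 1 / (n + 2)))
      atTop (𝓝 (1 - Real.eulerMascheroniConstant)) := by
    simp_rw [h1]
    have h3 := (Real.tendsto_harmonic_sub_log).comp (tendsto_add_atTop_nat 1)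
    exact tendsto_const_nhds.sub h3
  exact (hs.hasSum_iff_tendsto_nat).mpr h2

lemma tt_succ (n : ℕ) (w : ℂ) : H370.DG.gd n w =
    tt (n + 1) w + ((Real.log ((n + 2 : ℝ) / (n + 1)) - 1 / (n + 2) : ℝ) : ℂ) := by
  unfold H370.DG.gd tt
  push_cast
  ring_nf

lemma norm_tt_le (n : ℕ) {w : ℂ} (hw : 0 ≤ w.re) : ‖tt n w‖ ≤ ‖w‖ / ((n : ℝ) + 1) ^ 2 := by
  have hn : (0 : ℝ) ≤ n := Nat.cast_nonneg n
  have h1 : (n : ℝ) + 1 ≤ ‖w + ((n : ℂ) + 1)‖ := by
    refine le_trans ?_ (re_le_norm _)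
    simp
    linarith
  have hne : w + ((n : ℂ) + 1) ≠ 0 := by
    intro h; rw [h] at h1; simp at h1; linarith
  have hne2 : ((n : ℂ) + 1) ≠ 0 := by exact_mod_cast Nat.succ_ne_zero n
  have h2 : tt n w = w / (((n : ℂ) + 1) * (w + (n + 1))) := by
    unfold tt
    field_simp
    ring
  rw [h2, norm_div, norm_mul]
  have h3 : ‖((n : ℂ) + 1)‖ = (n : ℝ) + 1 := by
    have : ((n : ℂ) + 1) = ((n + 1 : ℝ) : ℂ) := by push_cast; ring
    rw [this, Complex.norm_real, Real.norm_of_nonneg (by linarith)]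
  rw [h3, pow_two]
  gcongr

lemma summable_tt {w : ℂ} (hw : 0 ≤ w.re) : Summable (fun n => tt n w) := by
  refine Summable.of_norm_bounded (H370.DG.summable_inv_sq.mul_left ‖w‖) fun n => ?_
  refine (norm_tt_le n hw).trans (le_of_eq ?_)
  ring

lemma digamma_series {w : ℂ} (hw : 0 < w.re) :
    logDeriv Gamma w = -(Real.eulerMascheroniConstant : ℂ) - 1 / w + ∑' n : ℕ, tt n w := by
  rw [H370.DG.logDeriv_Gamma hw]
  have h1 : HasSum (fun n : ℕ => ((Real.log ((n + 2 : ℝ) / (n + 1)) - 1 / (n + 2) : ℝ) : ℂ))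
      ((1 - Real.eulerMascheroniConstant : ℝ) : ℂ) := by
    exact_mod_cast tsum_log_sub
  have h2 := summable_tt hw.le
  have h3 : Summable (fun n => tt (n + 1) w) := (summable_nat_add_iff 1).mpr h2
  have h4 : ∑' n, H370.DG.gd n w = (∑' n, tt (n + 1) w) + ((1 - Real.eulerMascheroniConstant : ℝ) : ℂ) := by
    rw [← h1.tsum_eq, ← h3.tsum_add h1.summable]
    exact tsum_congr fun n => tt_succ n w
  rw [h4, h2.tsum_eq_zero_add]
  have h5 : tt 0 w = 1 - 1 / (w + 1) := by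
    unfold tt
    simp
  rw [h5]
  push_cast
  ring

lemma logDeriv_Gammaℝ' {z : ℂ} (hz : 0 < z.re) :
    logDeriv Gammaℝ z = -(Real.log Real.pi : ℂ) / 2 + 1 / 2 * logDeriv Gamma (z / 2) := by
  have hz2 : 0 < (z / 2).re := by
    have : (z / 2).re = z.re / 2 := by simp
    rw [this]
    linarith
  have hne : ∀ m : ℕ, z / 2 ≠ -m := by
    intro m h
    rw [h] at hz2
    simp at hz2
    have : (0 : ℝ) ≤ m := Nat.cast_nonneg m
    linarith
  have hpi : (Real.pi : ℂ) ≠ 0 := ofReal_ne_zero.mpr Real.pi_ne_zero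
  have d1 : HasDerivAt (fun z : ℂ => (Real.pi : ℂ) ^ (-z / 2))
      ((Real.pi : ℂ) ^ (-z / 2) * log (Real.pi : ℂ) * (-1 / 2)) z := by
    have h1 : HasDerivAt (fun z : ℂ => -z / 2) (-1 / 2) z := by
      simpa using ((hasDerivAt_id z).neg).div_const 2
    exact h1.const_cpow (Or.inl hpi)
  have d2 : HasDerivAt (fun z : ℂ => Gamma (z / 2)) (deriv Gamma (z / 2) * (1 / 2)) z := by
    have h1 : HasDerivAt (fun z : ℂ => z / 2) (1 / 2) z := by
      simpa using (hasDerivAt_id z).div_const 2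
    exact HasDerivAt.comp z (differentiableAt_Gamma _ hne).hasDerivAt h1
  have hG : Gammaℝ = fun z : ℂ => (Real.pi : ℂ) ^ (-z / 2) * Gamma (z / 2) := by
    funext z
    rw [Gammaℝ_def]
  have d3 := d1.mul d2
  have hΓ : Gamma (z / 2) ≠ 0 := Gamma_ne_zero hne
  have hpc : (Real.pi : ℂ) ^ (-z / 2) ≠ 0 := by
    rw [Ne, cpow_eq_zero_iff]
    exact fun h => hpi h.1
  rw [logDeriv_apply, logDeriv_apply, hG]
  erw [d3.deriv]
  rw [← Complex.ofReal_log Real.pi_pos.le]
  field_simp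

/-- the terms of the archimedean series -/
noncomputable def ar (n : ℕ) (s : ℂ) : ℂ := 1 / (2 * ((n : ℂ) + 1)) - 1 / (s + 2 * (n + 1))

lemma ar_eq (n : ℕ) (s : ℂ) : ar n s = 1 / 2 * tt n (s / 2) := by
  unfold ar tt
  have : s + 2 * ((n : ℂ) + 1) = 2 * (s / 2 + (n + 1)) := by ring
  rw [this, ← one_div_mul_one_div, ← one_div_mul_one_div]
  ring

lemma norm_ar_le (n : ℕ) {s : ℂ} (hs : 0 ≤ s.re) : ‖ar n s‖ ≤ ‖s‖ / ((n : ℝ) + 1) ^ 2 := by
  have h0 : 0 ≤ (s / 2).re := by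
    have : (s / 2).re = s.re / 2 := by simp
    rw [this]; linarith
  rw [ar_eq, norm_mul]
  have h1 := norm_tt_le n h0
  have h2 : ‖(1 / 2 : ℂ)‖ = 1 / 2 := by simp
  have h3 : ‖s / 2‖ = ‖s‖ / 2 := by simp
  rw [h2]
  rw [h3] at h1
  have h4 : 0 ≤ ‖s‖ / ((n : ℝ) + 1) ^ 2 := by positivity
  have h5 : ‖s‖ / 2 / ((n : ℝ) + 1) ^ 2 = ‖s‖ / ((n : ℝ) + 1) ^ 2 / 2 := by ring
  linarith [norm_nonneg (tt n (s / 2))]

lemma summable_ar {s : ℂ} (hs : 0 ≤ s.re) : Summable (fun n => ar n s) := by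
  refine Summable.of_norm_bounded (H370.DG.summable_inv_sq.mul_left ‖s‖) fun n => ?_
  refine (norm_ar_le n hs).trans (le_of_eq ?_)
  ring

/-- the logarithmic derivative of `Xi` for `Re s > 1` -/
theorem Xi_logDeriv_right {s : ℂ} (hs : 1 < s.re) :
    deriv Xi s / Xi s = 1 / (s - 1) - ((Real.eulerMascheroniConstant + Real.log Real.pi : ℝ) : ℂ) / 2 +
      (∑' n : ℕ, ar n s) - ∑' n : ℕ, (ArithmeticFunction.vonMangoldt n : ℂ) * (n : ℂ) ^ (-s) := by
  have h0 : s ≠ 0 := by intro h; rw [h] at hs; simp at hs; linarith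
  have h1 : s ≠ 1 := by intro h; rw [h] at hs; simp at hs
  have hG : ∀ᶠ z in 𝓝 s, Gammaℝ z ≠ 0 := by
    have : ∀ᶠ z : ℂ in 𝓝 s, 0 < z.re :=
      (isOpen_lt continuous_const continuous_re).mem_nhds (show 0 < s.re by linarith)
    filter_upwards [this] with z hz
    exact Gammaℝ_ne_zero_of_re_pos hz
  have hs2 : 0 < (s / 2).re := by
    have : (s / 2).re = s.re / 2 := by simp
    rw [this]; linarith
  rw [Xi_logDeriv h0 h1 hG (analyticAt_Gammaℝ (by linarith)).differentiableAt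
    (riemannZeta_ne_zero_of_one_le_re hs.le), logDeriv_Gammaℝ' (by linarith), digamma_series hs2]
  have h2 : ∑' n : ℕ, ar n s = 1 / 2 * ∑' n : ℕ, tt n (s / 2) := by
    rw [← tsum_mul_left]
    exact tsum_congr fun n => ar_eq n s
  have h3 : deriv riemannZeta s / riemannZeta s =
      - ∑' n : ℕ, (ArithmeticFunction.vonMangoldt n : ℂ) * (n : ℂ) ^ (-s) := by
    have h1 := ArithmeticFunction.LSeries_vonMangoldt_eq_deriv_riemannZeta_div hs
    rw [neg_div, eq_neg_iff_add_eq_zero, add_comm, ← eq_neg_iff_add_eq_zero] at h1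
    rw [h1]
    congr 1
    unfold LSeries
    refine tsum_congr fun n => ?_
    rcases eq_or_ne n 0 with rfl | hn
    · simp
    · rw [LSeries.term_of_ne_zero hn, Complex.cpow_neg, div_eq_mul_inv]
  rw [h2, h3]
  push_cast
  field_simp
  ring

end Pool.Agent.Helper61.W
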